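import Pool.Agent.Work.MP_ed0a9a_lc.E.Defs
import Pool.Agent.Work.MP_ed0a9a_lc.H.MtCls

/-!
# Module `HMc` (size M): the landed theories are model complete

PROOF.  `linear_of_embedding'`: the proof of `HM.linear_of_embedding` (file `H/MtCls.lean`) gives the linear map with
`toFun = f`; copy it.  Then: let `f : M ↪ N` be an embedding of models.  By `HM.classify` there are isomorphisms
`e : (J →₀ K) ≃[sig a] M`, `e' : (J' →₀ K) ≃[sig a] N`.  `e'⁻¹ ∘ f ∘ e` is an embedding for the structures `D.str`, hence an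
injective linear map, hence elementary by `HM.elementary` (both spaces are infinite, `HM.infinite_fs`); formulas are preserved by
`e`, `e'`.
-/

namespace Pool.Agent.Work.MP_ed0a9a_lc.E

open FirstOrder FirstOrder.Language

theorem linear_of_embedding' {K : Type} [Field K] {a : ℕ → ℕ} (D : HM.MT K a) {V V' : Type}
    [AddCommGroup V] [Module K V] [AddCommGroup V'] [Module K V'] [Nontrivial V]
    [Nontrivial V'] (f : letI := D.str V
      letI := D.str V'
      V ↪[sig a] V') :
    ∃ g : V →ₗ[K] V', Function.Injective g ∧ ∀ x, g x =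
      (letI := D.str V
       letI := D.str V'
       f x) := by
  letI := D.str V
  letI := D.str V'
  have := D.inf
  obtain ⟨v, hv⟩ := exists_ne (0 : V)
  obtain ⟨v', hv'⟩ := exists_ne (0 : V')
  have i1 : Infinite V := HM.infinite_of_ne (K := K) hv
  have i2 : Infinite V' := HM.infinite_of_ne (K := K) hv'
  have hR : ∀ i l, D.rel V' i (l.map f) ↔ D.rel V i l := by
    intro i l
    by_cases hl : l.length = a i
    · obtain ⟨x, rfl⟩ : ∃ x : Fin (a i) → V, List.ofFn x = l := by
        refine ⟨fun j => l.get (j.cast hl.symm), ?_⟩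
        apply List.ext_get
        · simp [hl]
        · intro m h1 h2; simp
      have h1 := f.map_rel (r := ⟨i, rfl⟩) x
      have h2 := HM.hd_ofFn (D.str V) (n := a i) ⟨i, rfl⟩ x
      have h3 := HM.hd_ofFn (D.str V') (n := a i) ⟨i, rfl⟩ (f ∘ x)
      rw [D.hd_str] at h2 h3
      rw [List.map_ofFn]
      exact h3.trans (h1.trans h2.symm)
    · constructor
      · rintro ⟨h, -⟩
        exact absurd (by simpa using h) hl
      · rintro ⟨h, -⟩
        exact absurd h hl
  have hadd : ∀ x y, f (x + y) = f x + f y := by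
    intro x y
    have h1 := (hR 0 [x, y, x + y]).2 ((HM.rel0 D V x y _).2 rfl)
    exact (HM.rel0 D V' _ _ _).1 h1
  have hz : ∀ x, HM.Zr (D.rel V') (f x) ↔ HM.Zr (D.rel V) x := fun x => hR 0 [x, x, x]
  have hsmul : ∀ (c : K) x, f (c • x) = c • f x := by
    intro c x
    have h1 := (HM.sc_iff D V c x _).2 rfl
    rw [← HM.sc_iff D V']
    unfold HM.MT.Sc at h1 ⊢
    by_cases h0 : c ∈ D.F 0
    · rw [dif_pos h0] at h1 ⊢
      by_cases hc : c = 0
      · rw [if_pos hc] at h1 ⊢
        exact (hz _).2 h1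
      · rw [if_neg hc] at h1 ⊢
        rw [h1]
    · rw [dif_neg h0] at h1 ⊢
      rcases h1 with ⟨h1, h2⟩ | ⟨t, ht⟩
      · exact Or.inl ⟨(hz _).2 h1, (hz _).2 h2⟩
      · right
        refine ⟨fun j => f (t j), ?_⟩
        have h3 := (hR _ _).2 ht
        rw [List.map_cons, List.map_cons, List.map_ofFn] at h3
        exact h3
  exact ⟨{ toFun := f, map_add' := hadd, map_smul' := hsmul }, f.injective, fun x => rfl⟩

theorem modelComplete_of_axioms {K : Type} [Field K] {a : ℕ → ℕ} (D : HM.MT K a)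
    (T : (sig a).Theory)
    (hT : ∀ (N : Type) [Nonempty N] [S : (sig a).Structure N], N ⊨ T ↔ D.Axioms (hd a S)) :
    ModelComplete T := by
  intro M N _ _ SM SN hM hN f n φ v
  obtain ⟨J, hJ, ⟨e⟩⟩ := HM.classify D M ((hT M).1 hM)
  obtain ⟨J', hJ', ⟨e'⟩⟩ := HM.classify D N ((hT N).1 hN)
  letI := D.str (J →₀ K)
  letI := D.str (J' →₀ K)
  have := HM.nontrivial_fs (K := K) J
  have := HM.nontrivial_fs (K := K) J'
  obtain ⟨g, hg, hgf⟩ := linear_of_embedding' D
    (e'.symm.toEmbedding.comp (f.comp e.toEmbedding))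
  obtain ⟨h, hh⟩ := HM.elementary D (J →₀ K) (J' →₀ K) (HM.infinite_fs D J)
    (HM.infinite_fs D J') g hg
  have h1 : (h ∘ (e.symm ∘ v) : Fin n → (J' →₀ K)) = e'.symm ∘ (f ∘ v) := by
    funext i
    have h2 : h (e.symm (v i)) = g (e.symm (v i)) := hh _
    have h3 : g (e.symm (v i)) = e'.symm (f (e (e.symm (v i)))) := hgf _
    have h4 : e (e.symm (v i)) = v i := e.apply_symm_apply _
    rw [h4] at h3
    exact h2.trans h3
  have h5 : φ.Realize (h ∘ (e.symm ∘ v)) ↔ φ.Realize (e.symm ∘ v) := h.map_formula φ _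
  have h6 : φ.Realize (e'.symm ∘ (f ∘ v)) ↔ φ.Realize (f ∘ v) :=
    StrongHomClass.realize_formula e'.symm φ
  have h7 : φ.Realize (e.symm ∘ v) ↔ φ.Realize v := StrongHomClass.realize_formula e.symm φ
  rw [← h6, ← h1, h5, h7]

end Pool.Agent.Work.MP_ed0a9a_lc.E
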