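import Pool.Agent.Work.MP_ed0a9a_lc.E.HSm
import Pool.Agent.Work.MP_ed0a9a_lc.E.HMc
import Pool.Agent.Work.MP_ed0a9a_lc.H.Jn

/-!
# Module `HMn` (size M): `Σ⁰₄` sets are spectra of strongly minimal model complete theories

PROOF.  `HM.main` (file `H/MtCls.lean`) is proved from `obtain ⟨T, hT⟩ := exists_T D`; repeat its proof (copy) for this `T`, adding
`stronglyMinimal_of_axioms D T hT` and `modelComplete_of_axioms D T hT`; this gives `main'`.  Then as `H.mt`
(file `H/Mt.lean`) and `H.spectrum_of_par` (file `H/Mn.lean`): `spectrum_of_par'` with the conclusion `IsSpectrum' X`.  Then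
repeat the proof of `H.final` (file `H/Jn.lean`, copy; the private lemmas `apx4`, `apx3`, `apx_false`, `coe_succ'` too) without the case of
finite `X ∩ ω`.
-/

set_option linter.style.haveILetI false

namespace Pool.Agent.Work.MP_ed0a9a_lc.E

open FirstOrder FirstOrder.Language

section HMpart

open HM Cardinal

/-- The model theoretic part. -/
private theorem main' {K : Type} [Field K] {a : ℕ → ℕ} (D : HM.MT K a) : ∃ T : (sig a).Theory, T.IsComplete ∧
    (Cardinal.aleph 1 : Cardinal.{0}).Categorical T ∧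
    ¬ (Cardinal.aleph0 : Cardinal.{0}).Categorical T ∧
    StronglyMinimal T ∧ ModelComplete T ∧
    (∀ i : ℕ∞, letI := D.str (Jt (i + 1) →₀ K)
      Countable (Jt (i + 1) →₀ K) ∧ (Jt (i + 1) →₀ K) ⊨ T) ∧
    (∀ (N : Type) [Nonempty N] [Countable N] [(sig a).Structure N], N ⊨ T →
      ∃ i : ℕ∞, letI := D.str (Jt (i + 1) →₀ K)
        Nonempty ((Jt (i + 1) →₀ K) ≃[sig a] N)) ∧
    (∀ i j : ℕ∞, (letI := D.str (Jt (i + 1) →₀ K)
      letI := D.str (Jt (j + 1) →₀ K)
      Nonempty ((Jt (i + 1) →₀ K) ↪ₑ[sig a] (Jt (j + 1) →₀ K))) ↔ i ≤ j) := by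
  obtain ⟨T, hT⟩ := exists_T D
  have hK := countable_K D
  have hKi := D.inf
  have hmod : ∀ (J : Type) [Nonempty J], letI := D.str (J →₀ K); (J →₀ K) ⊨ T := by
    intro J _
    letI := D.str (J →₀ K)
    have := nontrivial_fs (K := K) J
    rw [hT, D.hd_str]
    exact axioms_of_module D _
  refine ⟨T, complete_T D T hT, categorical1 D T hT, ?_,
    stronglyMinimal_of_axioms D T hT, modelComplete_of_axioms D T hT, fun i => ⟨inferInstance, hmod _⟩, ?_, ?_⟩
  · intro hc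
    letI s1 := D.str (Fin 1 →₀ K)
    letI s2 := D.str (Fin 2 →₀ K)
    have m1 := hmod (Fin 1)
    have m2 := hmod (Fin 2)
    have := infinite_fs D (Fin 1)
    have := infinite_fs D (Fin 2)
    have h1 : Cardinal.mk (Fin 1 →₀ K) = ℵ₀ := Cardinal.mk_eq_aleph0 _
    have h2 : Cardinal.mk (Fin 2 →₀ K) = ℵ₀ := Cardinal.mk_eq_aleph0 _
    obtain ⟨f⟩ := hc (Theory.ModelType.of T (Fin 1 →₀ K)) (Theory.ModelType.of T (Fin 2 →₀ K))
      h1 h2
    let f' : (Fin 1 →₀ K) ≃[sig a] (Fin 2 →₀ K) := f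
    have h3 := rank_le D f'.symm.toEmbedding
    simp only [Cardinal.mk_fin] at h3
    have h4 : (2 : ℕ) ≤ 1 := by exact_mod_cast h3
    omega
  · intro N _ _ S hN
    obtain ⟨J, hJ, ⟨f⟩⟩ := classify D N ((hT N).1 hN)
    letI := D.str (J →₀ K)
    have hJc : Countable J := by
      have : Function.Injective (fun j : J => f (Finsupp.single j (1 : K))) := by
        intro j j' hj
        exact Finsupp.single_left_injective one_ne_zero (f.injective hj)
      exact this.countable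
    obtain ⟨i, ⟨e⟩⟩ := exists_Jt' J
    refine ⟨i, ?_⟩
    letI := D.str (Jt (i + 1) →₀ K)
    obtain ⟨F⟩ := equiv_of_linear D (Finsupp.domLCongr e : (J →₀ K) ≃ₗ[K] (Jt (i + 1) →₀ K))
    exact ⟨f.comp F.symm⟩
  · intro i j
    letI := D.str (Jt (i + 1) →₀ K)
    letI := D.str (Jt (j + 1) →₀ K)
    constructor
    · rintro ⟨f⟩
      have h1 := rank_le D f.toEmbedding
      by_contra hij
      have hji : j < i := not_le.1 hij
      obtain ⟨m, rfl⟩ := ENat.ne_top_iff_exists.1 (ne_top_of_lt hji)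
      have e1 : Cardinal.mk (Jt ((m : ℕ∞) + 1)) = (m + 1 : ℕ) := by
        have : Nonempty (Jt ((m : ℕ∞) + 1) ≃ Fin (m + 1)) := ⟨{
          toFun := fun r => ⟨r.1, by exact_mod_cast r.2⟩
          invFun := fun r => ⟨r.1, by exact_mod_cast r.2⟩
          left_inv := fun r => rfl
          right_inv := fun r => rfl }⟩
        rw [Cardinal.mk_congr this.some, Cardinal.mk_fin]
      have hlt : ∀ r : Fin (m + 2), ((r.1 : ℕ) : ℕ∞) < i + 1 := by
        intro r
        have h2 : ((m : ℕ∞) + 1) ≤ i := Order.add_one_le_of_lt hji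
        have h3 : ((m : ℕ∞) + 1 + 1) ≤ i + 1 := add_le_add_left h2 1
        refine lt_of_lt_of_le ?_ h3
        have h4 : r.1 < m + 1 + 1 := r.2
        exact_mod_cast h4
      have h5 : Function.Injective (fun r : Fin (m + 2) => (⟨r.1, hlt r⟩ : Jt (i + 1))) := by
        intro r r' h
        exact Fin.ext (congrArg Subtype.val h)
      have h6 := (Cardinal.mk_le_of_injective h5).trans h1
      rw [e1, Cardinal.mk_fin] at h6
      have h7 : m + 2 ≤ m + 1 := by exact_mod_cast h6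
      omega
    · intro hij
      have hij' : i + 1 ≤ j + 1 := add_le_add_left hij 1
      let f : Jt (i + 1) → Jt (j + 1) := fun r => ⟨r.1, lt_of_lt_of_le r.2 hij'⟩
      have hf : Function.Injective f := by
        intro r r' h
        have h1 : (f r).1 = (f r').1 := by rw [h]
        exact Subtype.ext h1
      have i1 := infinite_fs D (Jt (i + 1))
      have i2 := infinite_fs D (Jt (j + 1))
      obtain ⟨g, -⟩ := elementary D (Jt (i + 1) →₀ K) (Jt (j + 1) →₀ K) i1 i2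
        (Finsupp.lmapDomain K K f) (Finsupp.mapDomain_injective hf)
      exact ⟨g⟩

end HMpart

/-- The model theoretic part for the structures `H.strM a R (H.Md i)`. -/
private theorem mt' (a : ℕ → ℕ) (R : ℕ → H.Asg) (ha0 : a 0 = 3)
    (h0 : ∃ D n', R 0 = (D, n', [], H.Itn.plus))
    (hsc : ∀ x : ℕ, 2 ≤ x → ∃ i n D n', 2 ≤ a i ∧ H.q n ≤ x ∧ R i = (D, n', [], H.Itn.sc n x)) :
    ∃ T : (sig a).Theory, T.IsComplete ∧
      (Cardinal.aleph 1 : Cardinal.{0}).Categorical T ∧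
      ¬ (Cardinal.aleph0 : Cardinal.{0}).Categorical T ∧
      StronglyMinimal T ∧ ModelComplete T ∧
      (∀ i : ℕ∞, letI := H.strM a R (H.Md i); Countable (H.Md i) ∧ H.Md i ⊨ T) ∧
      (∀ (N : Type) [Nonempty N] [Countable N] [(sig a).Structure N], N ⊨ T →
        ∃ i : ℕ∞, letI := H.strM a R (H.Md i); Nonempty (H.Md i ≃[sig a] N)) ∧
      (∀ i j : ℕ∞, (letI := H.strM a R (H.Md i); letI := H.strM a R (H.Md j);
        Nonempty (H.Md i ↪ₑ[sig a] H.Md j)) ↔ i ≤ j) :=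
  main' (H.mtData a R ha0 h0 hsc)

/-- `X` is the spectrum of a strongly minimal model complete theory. -/
def IsSpectrum' (X : Set ℕ∞) : Prop :=
  ∃ (a : ℕ → ℕ) (T : (sig a).Theory) (A : ℕ∞ → Type) (_ : ∀ i, (sig a).Structure (A i)),
    Computable a ∧ T.IsComplete ∧ (Cardinal.aleph 1 : Cardinal.{0}).Categorical T ∧
    ¬ (Cardinal.aleph0 : Cardinal.{0}).Categorical T ∧
    StronglyMinimal T ∧ ModelComplete T ∧
    (∀ i, Countable (A i) ∧ A i ⊨ T) ∧
    (∀ (N : Type) [Nonempty N] [Countable N] [(sig a).Structure N], N ⊨ T →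
      ∃ i, Nonempty (A i ≃[sig a] N)) ∧
    (∀ i j, Nonempty (A i ↪ₑ[sig a] A j) ↔ i ≤ j) ∧
    ∀ i, HasCompCopy a (A i) ↔ i ∈ X

section Hpart

open H

private theorem spectrum_of_par' {P : H.Par} (hP : P.Ok) (X : Set ℕ∞)
    (h : ∀ i : ℕ∞, (letI := strM ar (Rf P) (Md i); HasCompCopy ar (Md i)) ↔ i ∈ X) :
    IsSpectrum' X := by
  obtain ⟨T, h1, h2, h3, h3a, h3b, h4, h5, h6⟩ :=
    mt' ar (Rf P) rfl ⟨0, 0, Rf_zero hP⟩ (exists_sc hP)
  exact ⟨ar, T, Md, fun i => strM ar (Rf P) (Md i), comp_ar, h1, h2, h3, h3a, h3b, h4, h5, h6, h⟩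

private theorem coe_succ' (n : ℕ) : ((n + 1 : ℕ) : ℕ∞) = (n : ℕ∞) + 1 := by
  push_cast
  rfl

private theorem apx4 {S : Set ℕ} (hS : Sigma4 S) : ∃ w, Apx w ∧
    ∀ n, n ∈ S ↔ ∃ e, InfW w (Nat.pair (n + 1) e) := by
  obtain ⟨R, hR, h⟩ := hS
  have hg : Computable fun p : ℕ × ℕ × ℕ × ℕ =>
      ((p.1.unpair.1 - 1, p.1.unpair.2, p.2.1, p.2.2.1, p.2.2.2) : ℕ × ℕ × ℕ × ℕ × ℕ) := by
    have hu : Primrec fun p : ℕ × ℕ × ℕ × ℕ => p.1.unpair := Primrec.unpair.comp Primrec.fst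
    have h1 : Primrec fun p : ℕ × ℕ × ℕ × ℕ => p.1.unpair.1 - 1 :=
      Primrec.nat_sub.comp (Primrec.fst.comp hu) (Primrec.const 1)
    have h2 : Primrec fun p : ℕ × ℕ × ℕ × ℕ => p.1.unpair.2 := Primrec.snd.comp hu
    have h3 : Primrec fun p : ℕ × ℕ × ℕ × ℕ => p.2.1 := Primrec.fst.comp Primrec.snd
    have h4 : Primrec fun p : ℕ × ℕ × ℕ × ℕ => p.2.2.1 :=
      Primrec.fst.comp (Primrec.snd.comp Primrec.snd)
    have h5 : Primrec fun p : ℕ × ℕ × ℕ × ℕ => p.2.2.2 :=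
      Primrec.snd.comp (Primrec.snd.comp Primrec.snd)
    exact (h1.pair (h2.pair (h3.pair (h4.pair h5)))).to_comp
  have hc := hR.comp hg
  dsimp only at hc
  obtain ⟨w, hw1, hw2, hw3⟩ := exists_approx
    (fun p x y z => R (p.unpair.1 - 1) p.unpair.2 x y z) hc
  refine ⟨w, ⟨hw1, hw2⟩, fun n => ?_⟩
  rw [h n]
  refine exists_congr fun e => ?_
  have h1 := hw3 (Nat.pair (n + 1) e)
  simp only [Nat.unpair_pair, Nat.add_sub_cancel] at h1
  exact h1

private theorem apx3 {S : Set ℕ} (hS : Pi3 S) : ∃ w, Apx w ∧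
    ∀ n, n ∈ S ↔ InfW w (n + 1) := by
  obtain ⟨R, hR, h⟩ := hS
  have hg : Computable fun p : ℕ × ℕ × ℕ × ℕ =>
      ((p.1 - 1, p.2.1, p.2.2.1, p.2.2.2) : ℕ × ℕ × ℕ × ℕ) := by
    have h1 : Primrec fun p : ℕ × ℕ × ℕ × ℕ => p.1 - 1 :=
      Primrec.nat_sub.comp Primrec.fst (Primrec.const 1)
    have h3 : Primrec fun p : ℕ × ℕ × ℕ × ℕ => p.2.1 := Primrec.fst.comp Primrec.snd
    have h4 : Primrec fun p : ℕ × ℕ × ℕ × ℕ => p.2.2.1 :=
      Primrec.fst.comp (Primrec.snd.comp Primrec.snd)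
    have h5 : Primrec fun p : ℕ × ℕ × ℕ × ℕ => p.2.2.2 :=
      Primrec.snd.comp (Primrec.snd.comp Primrec.snd)
    exact (h1.pair (h3.pair (h4.pair h5))).to_comp
  have hc := hR.comp hg
  dsimp only at hc
  obtain ⟨w, hw1, hw2, hw3⟩ := exists_approx (fun k x y z => R (k - 1) x y z) hc
  refine ⟨w, ⟨hw1, hw2⟩, fun n => ?_⟩
  rw [h n]
  have h1 := hw3 (n + 1)
  simp only [Nat.add_sub_cancel] at h1
  exact h1

private theorem apx_false : Apx fun _ _ _ => false :=
  ⟨Computable.const false, fun _ _ => ⟨0, fun _ _ => rfl⟩⟩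

end Hpart

open H in
theorem final' (X : Set ℕ∞) (hX : H.Sigma4 {i : ℕ | (i : ℕ∞) ∈ X})
    (h : ⊤ ∈ X ∨ ∃ Y ⊆ {i : ℕ | (i : ℕ∞) ∈ X}, Y.Infinite ∧ H.Pi3 Y) : IsSpectrum' X := by
  obtain ⟨w, hw, key⟩ := apx4 hX
  by_cases hT : ⊤ ∈ X
  · refine spectrum_of_par' (P3_ok hw apx_false) X fun i => ?_
    induction i using ENat.recTopCoe with
    | top =>
      refine ⟨fun _ => hT, fun _ => ?_⟩
      obtain ⟨β, hβ⟩ := P3_omega (w := w) (w0 := fun _ _ _ => false) fun _ _ _ => rfl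
      refine builder_copy (P3_ok hw apx_false) (β := β) (i := ⊤) ?_
      rw [top_add]
      exact hβ
    | coe n =>
      constructor
      · intro hc
        by_contra hn
        have hn' : ∀ e, ¬ InfW w (Nat.pair (n + 1) e) := fun e he => hn ((key n).2 ⟨e, he⟩)
        refine P3_kill hw apx_false n hn' ?_ hc
        intro h1
        obtain ⟨i, -, T, hT'⟩ := h1 0
        exact Bool.noConfusion (hT' T le_rfl)
      · intro hn
        obtain ⟨e, he⟩ := (key n).1 hn
        obtain ⟨β, hβ⟩ := P3_builder hw apx_false he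
        refine builder_copy (P3_ok hw apx_false) (β := β) (i := (n : ℕ∞)) ?_
        rw [← coe_succ']
        exact hβ
  · rcases h with h | ⟨Y, hYX, hY, hY3⟩
    · exact absurd h hT
    · obtain ⟨w0, hw0, key0⟩ := apx3 hY3
      have hD : ∀ k, ∃ k', k ≤ k' ∧ InfW w0 k' := by
        intro k
        obtain ⟨m, hm, hkm⟩ := Set.Infinite.exists_gt hY k
        exact ⟨m + 1, by omega, (key0 m).1 hm⟩
      refine spectrum_of_par' (P3_ok hw hw0) X fun i => ?_
      induction i using ENat.recTopCoe with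
      | top => exact ⟨fun hc => absurd hc (P3_kill_omega hw hw0 hD), fun h1 => absurd h1 hT⟩
      | coe n =>
        constructor
        · intro hc
          by_contra hn
          have hn' : ∀ e, ¬ InfW w (Nat.pair (n + 1) e) := fun e he => hn ((key n).2 ⟨e, he⟩)
          refine P3_kill hw hw0 n hn' ?_ hc
          intro h1
          exact hn (hYX ((key0 n).2 h1))
        · intro hn
          obtain ⟨e, he⟩ := (key n).1 hn
          obtain ⟨β, hβ⟩ := P3_builder hw hw0 he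
          refine builder_copy (P3_ok hw hw0) (β := β) (i := (n : ℕ∞)) ?_
          rw [← coe_succ']
          exact hβ


end Pool.Agent.Work.MP_ed0a9a_lc.E
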