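import Pool.Agent.Work.MP_ed0a9a_lc.E.Defs

/-!
# Uncountably categorical theories: definitions (block `E`, second part: Baldwin-Lachlan)
-/

namespace Pool.Agent.Work.MP_ed0a9a_lc.E

open FirstOrder FirstOrder.Language

section

variable (L : FirstOrder.Language.{0, 0})

/-- Countable sets of formulas with countably many parameters which are finitely satisfiable
in `N` are satisfiable in `N`. -/
def Sat1 (N : Type) [L.Structure N] : Prop :=
  ∀ (u : ℕ → N) (ψ : ℕ → L.Formula (Option ℕ)),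
    (∀ n, ∃ x, ∀ m < n, (ψ m).Realize (fun o : Option ℕ => o.elim x u)) →
    ∃ x, ∀ m, (ψ m).Realize (fun o : Option ℕ => o.elim x u)

/-- `N` is `ω`-saturated. -/
def Sat0 (N : Type) [L.Structure N] : Prop :=
  ∀ (k : ℕ) (b : Fin k → N) (N' : Type) [L.Structure N'] (b' : Fin k → N'), SameTp L b b' →
    ∀ y' : N', ∃ y : N,
      SameTp L (Fin.snoc b y : Fin (k + 1) → N) (Fin.snoc b' y' : Fin (k + 1) → N')

/-- `T` has only countably many types of tuples (represented by the tuples of `C`). -/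
def Small {L : FirstOrder.Language.{0, 0}} (T : L.Theory) : Prop :=
  ∃ (C : Type) (_ : Countable C) (_ : L.Structure C), ∀ (N : Type) [Nonempty N]
    [L.Structure N], N ⊨ T → ∀ (k : ℕ) (b : Fin k → N), ∃ b' : Fin k → C, SameTp L b b'

/-- `g` is elementary on the set `B`. -/
def PEl {N N' : Type} [L.Structure N] [L.Structure N'] (B : Set N) (g : N → N') : Prop :=
  ∀ (k : ℕ) (b : Fin k → N), (∀ i, b i ∈ B) → SameTp L b (g ∘ b)

/-- The type of `y` over `B` is isolated. -/
def IsolS {N : Type} [L.Structure N] (B : Set N) (y : N) : Prop :=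
  ∃ (k : ℕ) (e : Fin k → N) (ψ : L.Formula (Fin (k + 1))), (∀ i, e i ∈ B) ∧
    ψ.Realize (Fin.snoc e y : Fin (k + 1) → N) ∧
    ∀ (l : ℕ) (b : Fin l → N) (χ : L.Formula (Fin (l + 1))), (∀ i, b i ∈ B) →
      χ.Realize (Fin.snoc b y : Fin (l + 1) → N) →
      ∀ y', ψ.Realize (Fin.snoc e y' : Fin (k + 1) → N) →
        χ.Realize (Fin.snoc b y' : Fin (l + 1) → N)

/-- `N` is constructible over `B`: `N = B ∪ {u 0, u 1, …}`, the type of `u n` over
`B ∪ {u m | m < n}` is isolated. -/
def Constr {N : Type} [L.Structure N] (B : Set N) : Prop :=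
  ∃ u : ℕ → N, B ∪ Set.range u = Set.univ ∧ ∀ n, IsolS L (B ∪ u '' {m | m < n}) (u n)

/-- The set defined by the formula `φ` with the parameters `c`. -/
def Dset {N : Type} [L.Structure N] {k : ℕ} (φ : L.Formula (Fin (k + 1))) (c : Fin k → N) :
    Set N :=
  {x | φ.Realize (Fin.snoc c x : Fin (k + 1) → N)}

/-- The formula `φ` with the parameters `b` is minimal in `N`. -/
def MinForm {N : Type} [L.Structure N] {k : ℕ} (φ : L.Formula (Fin (k + 1)))
    (b : Fin k → N) : Prop :=
  (Dset L φ b).Infinite ∧ ∀ (m : ℕ) (ψ : L.Formula (Fin (m + 1))) (c : Fin m → N),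
    (Dset L φ b ∩ Dset L ψ c).Finite ∨ (Dset L φ b \ Dset L ψ c).Finite

/-- A binary tree of nonempty definable subsets of `N`. -/
structure DTree (N : Type) [L.Structure N] where
  k : List Bool → ℕ
  φ : ∀ s, L.Formula (Fin (k s + 1))
  c : ∀ s, Fin (k s) → N
  ne : ∀ s, (Dset L (φ s) (c s)).Nonempty
  sub : ∀ s b, Dset L (φ (s ++ [b])) (c (s ++ [b])) ⊆ Dset L (φ s) (c s)
  disj : ∀ s, Disjoint (Dset L (φ (s ++ [true])) (c (s ++ [true])))
    (Dset L (φ (s ++ [false])) (c (s ++ [false])))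

end

/-- The formula `θ` isolates the type of the parameters of a strongly minimal formula `φ`,
and there are no Vaughtian pairs for `φ`. -/
structure Base {L : FirstOrder.Language.{0, 0}} (T : L.Theory) {p : ℕ} (θ : L.Formula (Fin p))
    (φ : L.Formula (Fin (p + 1))) : Prop where
  ex : ∀ (N : Type) [Nonempty N] [L.Structure N], N ⊨ T → ∃ c : Fin p → N, θ.Realize c
  iso : ∀ (N N' : Type) [Nonempty N] [Nonempty N'] [L.Structure N] [L.Structure N'],
    N ⊨ T → N' ⊨ T → ∀ (c : Fin p → N) (c' : Fin p → N'), θ.Realize c → θ.Realize c' →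
      SameTp L c c'
  inf : ∀ (N : Type) [Nonempty N] [L.Structure N], N ⊨ T → ∀ c : Fin p → N, θ.Realize c →
    (Dset L φ c).Infinite
  sm : ∀ (N : Type) [Nonempty N] [L.Structure N], N ⊨ T → ∀ c : Fin p → N, θ.Realize c →
    ∀ (m : ℕ) (ψ : L.Formula (Fin (m + 1))) (v : Fin m → N),
      (Dset L φ c ∩ Dset L ψ v).Finite ∨ (Dset L φ c \ Dset L ψ v).Finite
  nvp : ∀ (N : Type) [Nonempty N] [L.Structure N], N ⊨ T → ∀ c : Fin p → N, θ.Realize c →
    ∀ S : L.ElementarySubstructure N, (∀ i, c i ∈ S) → Dset L φ c ⊆ S → (S : Set N) = Set.univ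

end Pool.Agent.Work.MP_ed0a9a_lc.E
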