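import Pool.Agent.Work.MP_ed0a9a_lc.E.SameT
import Pool.Agent.Work.MP_ed0a9a_lc.E.BDefs

/-!
# Module `BFr` (size M): back and forth; saturated models

PROOFS.
* `backForth`: let `y₀, y₁, …` enumerate `N` and `y'₀, y'₁, …` enumerate `N'`; build tuples `b_n`, `b'_n` of the same length
  extending each other and starting with `b`, `b'`, with `E`, such that `b_{2n+1}` contains `y_n` and `b'_{2n+2}` contains
  `y'_n`.  Because of `SameTp` (equality formulas) `b_n i ↦ b'_n i` is a bijection `N → N'`, and it preserves all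
  formulas.  See the proof of `forth` in module `Frth`.
* `iso_of_sat0`: `E = SameTp`.
* `sat0_of_equiv`: clear.
* `sat0_of_sat1`: let `SameTp b b'`, `y' : N'`; enumerate the countable set of the formulas
  `ψ : (sig a).Formula (Fin (k + 1))` true at `Fin.snoc b' y'` (`countable_formula`); each finite conjunction is satisfied over `b` by
  some `y` (`exists_ex`, `exists_all`, `SameTp`); apply `Sat1` with the formulas relabelled by `Fin.snoc (fun i => some i) none`,
  parameters `u i = b i` for `i < k` (arbitrary for `i ≥ k`).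
-/

namespace Pool.Agent.Work.MP_ed0a9a_lc.E

open FirstOrder FirstOrder.Language

/-- the two enumerations -/
private theorem bfr_seq {N N' : Type} (Q : ℕ → N → N' → Prop)
    (E : ∀ k : ℕ, (Fin k → N) → (Fin k → N') → Prop)
    (hs : ∀ n k b b', E k b b' → ∃ (y : N) (y' : N'),
      E (k + 1) (Fin.snoc b y : Fin (k + 1) → N) (Fin.snoc b' y' : Fin (k + 1) → N') ∧ Q n y y')
    {k : ℕ} {b : Fin k → N} {b' : Fin k → N'} (h : E k b b') :
    ∃ (v : ℕ → N) (v' : ℕ → N'), (∀ i : Fin k, v i = b i) ∧ (∀ i : Fin k, v' i = b' i) ∧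
      (∀ n, Q n (v (k + n)) (v' (k + n))) ∧
      ∀ n, E (k + n) (fun i : Fin (k + n) => v i) (fun i : Fin (k + n) => v' i) := by
  choose y y' hy' hQ using hs
  let P : ℕ → Type := fun n => {q : (Fin (k + n) → N) × (Fin (k + n) → N') // E (k + n) q.1 q.2}
  let p : (n : ℕ) → P n := fun n => Nat.rec (motive := P) ⟨(b, b'), h⟩
    (fun n q => ⟨((Fin.snoc q.1.1 (y n (k + n) q.1.1 q.1.2 q.2) : Fin (k + n + 1) → N),
      (Fin.snoc q.1.2 (y' n (k + n) q.1.1 q.1.2 q.2) : Fin (k + n + 1) → N')),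
      hy' n (k + n) q.1.1 q.1.2 q.2⟩) n
  have hp1 : ∀ n, (p (n + 1)).1.1 = (Fin.snoc (p n).1.1
      (y n (k + n) (p n).1.1 (p n).1.2 (p n).2) : Fin (k + n + 1) → N) :=
    fun n => rfl
  have hp2 : ∀ n, (p (n + 1)).1.2 = (Fin.snoc (p n).1.2
      (y' n (k + n) (p n).1.1 (p n).1.2 (p n).2) : Fin (k + n + 1) → N') := fun n => rfl
  have q1 : ∀ d n t (h : t < k + n) (h' : t < k + (n + d)),
      (p (n + d)).1.1 ⟨t, h'⟩ = (p n).1.1 ⟨t, h⟩ := by
    intro d
    induction d with
    | zero => exact fun n t h h' => rfl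
    | succ d ih =>
      intro n t h h'
      have h3 : t < k + (n + d) := by omega
      rw [← ih n t h h3]
      have h4 := congrFun (hp1 (n + d)) (Fin.castSucc ⟨t, h3⟩)
      rw [Fin.snoc_castSucc] at h4
      exact h4
  have q2 : ∀ d n t (h : t < k + n) (h' : t < k + (n + d)),
      (p (n + d)).1.2 ⟨t, h'⟩ = (p n).1.2 ⟨t, h⟩ := by
    intro d
    induction d with
    | zero => exact fun n t h h' => rfl
    | succ d ih =>
      intro n t h h'
      have h3 : t < k + (n + d) := by omega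
      rw [← ih n t h h3]
      have h4 := congrFun (hp2 (n + d)) (Fin.castSucc ⟨t, h3⟩)
      rw [Fin.snoc_castSucc] at h4
      exact h4
  have r1 : ∀ n m t (h : t < k + n) (h' : t < k + m), (p m).1.1 ⟨t, h'⟩ = (p n).1.1 ⟨t, h⟩ := by
    intro n m t h h'
    rcases le_total n m with hnm | hnm
    · obtain ⟨d, rfl⟩ := Nat.exists_eq_add_of_le hnm
      exact q1 d n t h h'
    · obtain ⟨d, rfl⟩ := Nat.exists_eq_add_of_le hnm
      exact (q1 d m t h' h).symm
  have r2 : ∀ n m t (h : t < k + n) (h' : t < k + m), (p m).1.2 ⟨t, h'⟩ = (p n).1.2 ⟨t, h⟩ := by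
    intro n m t h h'
    rcases le_total n m with hnm | hnm
    · obtain ⟨d, rfl⟩ := Nat.exists_eq_add_of_le hnm
      exact q2 d n t h h'
    · obtain ⟨d, rfl⟩ := Nat.exists_eq_add_of_le hnm
      exact (q2 d m t h' h).symm
  have s1 : ∀ n, (p n).1.1 = fun i : Fin (k + n) =>
      (p (i + 1)).1.1 ⟨i, by omega⟩ := fun n => funext fun i => r1 _ _ _ _ _
  have s2 : ∀ n, (p n).1.2 = fun i : Fin (k + n) =>
      (p (i + 1)).1.2 ⟨i, by omega⟩ := fun n => funext fun i => r2 _ _ _ _ _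
  refine ⟨fun t => (p (t + 1)).1.1 ⟨t, by omega⟩, fun t => (p (t + 1)).1.2 ⟨t, by omega⟩,
    ?_, ?_, ?_, ?_⟩
  · intro i
    exact r1 0 (i + 1) i i.2 _
  · intro i
    exact r2 0 (i + 1) i i.2 _
  · intro n
    have h5 : (p (k + n + 1)).1.1 ⟨k + n, by omega⟩ = y n (k + n) (p n).1.1 (p n).1.2 (p n).2 := by
      refine (r1 (n + 1) (k + n + 1) (k + n) (by omega) _).trans ?_
      have h4 := congrFun (hp1 n) (Fin.last (k + n))
      rw [Fin.snoc_last] at h4
      exact h4
    have h6 : (p (k + n + 1)).1.2 ⟨k + n, by omega⟩ = y' n (k + n) (p n).1.1 (p n).1.2 (p n).2 := by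
      refine (r2 (n + 1) (k + n + 1) (k + n) (by omega) _).trans ?_
      have h4 := congrFun (hp2 n) (Fin.last (k + n))
      rw [Fin.snoc_last] at h4
      exact h4
    have h7 := hQ n (k + n) (p n).1.1 (p n).1.2 (p n).2
    rw [← h5, ← h6] at h7
    exact h7
  · intro n
    have h5 := (p n).2
    rw [s1 n, s2 n] at h5
    exact h5

theorem backForth {L : FirstOrder.Language.{0, 0}} {N N' : Type} [Nonempty N] [Nonempty N']
    [Countable N] [Countable N'] [L.Structure N] [L.Structure N']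
    (E : ∀ k : ℕ, (Fin k → N) → (Fin k → N') → Prop)
    (hE : ∀ k b b', E k b b' → SameTp L b b')
    (hs : ∀ k b b', E k b b' → ∀ y : N, ∃ y' : N',
      E (k + 1) (Fin.snoc b y : Fin (k + 1) → N) (Fin.snoc b' y' : Fin (k + 1) → N'))
    (hs' : ∀ k b b', E k b b' → ∀ y' : N', ∃ y : N,
      E (k + 1) (Fin.snoc b y : Fin (k + 1) → N) (Fin.snoc b' y' : Fin (k + 1) → N'))
    {k : ℕ} {b : Fin k → N} {b' : Fin k → N'} (h : E k b b') :
    ∃ e : N ≃[L] N', ∀ i, e (b i) = b' i := by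
  obtain ⟨e, he⟩ := exists_surjective_nat N
  obtain ⟨e', he'⟩ := exists_surjective_nat N'
  obtain ⟨v, v', h1, h2, h3, h4⟩ := bfr_seq
    (fun n y y' => (n % 2 = 0 → y = e (n / 2)) ∧ (n % 2 = 1 → y' = e' (n / 2))) E
    (by
      intro n k b b' hb
      rcases Nat.mod_two_eq_zero_or_one n with hn | hn
      · obtain ⟨y', hy'⟩ := hs k b b' hb (e (n / 2))
        exact ⟨_, y', hy', fun _ => rfl, fun h => by omega⟩
      · obtain ⟨y, hy⟩ := hs' k b b' hb (e' (n / 2))
        exact ⟨y, _, hy, fun h => by omega, fun _ => rfl⟩) h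
  choose idx hidx using he
  have h5 : ∀ y, v (k + 2 * idx y) = y := fun y => by
    have := (h3 (2 * idx y)).1 (by omega)
    rw [this, Nat.mul_div_cancel_left _ (by norm_num), hidx]
  have heq : ∀ s t, v s = v t → v' s = v' t := by
    intro s t hst
    obtain ⟨ψ, hψ⟩ := exists_eq_fml (L := L)
      (⟨s, by omega⟩ : Fin (k + (s + t + 1))) ⟨t, by omega⟩
    have h9 := hE _ _ _ (h4 (s + t + 1)) ψ
    rw [hψ, hψ] at h9
    exact h9.1 hst
  have key : ∀ (m : ℕ) (x : Fin m → N), SameTp L x (fun j => v' (k + 2 * idx (x j))) := by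
    intro m x
    obtain ⟨n, hn⟩ : ∃ n, ∀ j, 2 * idx (x j) < n :=
      ⟨(Finset.univ.sup fun j => 2 * idx (x j)) + 1, fun j =>
        Nat.lt_succ_of_le (Finset.le_sup (f := fun j => 2 * idx (x j)) (Finset.mem_univ j))⟩
    have h6 := sameTp_comp (hE _ _ _ (h4 n))
      (fun j : Fin m => (⟨k + 2 * idx (x j), Nat.add_lt_add_left (hn j) k⟩ : Fin (k + n)))
    have h7 : (fun i : Fin (k + n) => v i) ∘
        (fun j : Fin m => (⟨k + 2 * idx (x j), Nat.add_lt_add_left (hn j) k⟩ : Fin (k + n))) =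
          x := funext fun j => h5 (x j)
    rw [h7] at h6
    exact h6
  obtain ⟨f, hf⟩ : ∃ f : N ↪ₑ[L] N', ∀ y, f y = v' (k + 2 * idx y) :=
    ⟨⟨fun y => v' (k + 2 * idx y), fun m φ x => (key m x φ).symm⟩, fun y => rfl⟩
  have hsur : Function.Surjective f := by
    intro y'
    obtain ⟨m, rfl⟩ := he' y'
    refine ⟨v (k + (2 * m + 1)), ?_⟩
    rw [hf, heq _ _ (h5 (v (k + (2 * m + 1)))), (h3 (2 * m + 1)).2 (by omega)]
    congr 1
    omega
  refine ⟨{ Equiv.ofBijective f ⟨f.injective, hsur⟩ with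
    map_fun' := fun g x => f.map_fun g x
    map_rel' := fun r x => f.map_rel r x }, fun i => ?_⟩
  change f (b i) = b' i
  rw [hf, ← h2 i]
  apply heq
  rw [h5, h1]

theorem iso_of_sat0 {L : FirstOrder.Language.{0, 0}} {N N' : Type} [Nonempty N] [Nonempty N']
    [Countable N] [Countable N'] [L.Structure N] [L.Structure N'] (h1 : Sat0 L N)
    (h2 : Sat0 L N') {k : ℕ} {b : Fin k → N} {b' : Fin k → N'} (h : SameTp L b b') :
    ∃ e : N ≃[L] N', ∀ i, e (b i) = b' i := by
  refine backForth (fun k c c' => SameTp L c c') (fun k c c' h => h) ?_ ?_ h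
  · intro m c c' hc y
    obtain ⟨y', hy'⟩ := h2 m c' N c hc.symm' y
    exact ⟨y', hy'.symm'⟩
  · intro m c c' hc y'
    exact h1 m c N' c' hc y'

theorem sat0_of_equiv {L : FirstOrder.Language.{0, 0}} {N N' : Type} [L.Structure N]
    [L.Structure N'] (e : N ≃[L] N') (h : Sat0 L N) : Sat0 L N' := by
  intro k b N'' _ b'' hb y''
  have h1 : SameTp L (e.symm ∘ b) b := by
    have h2 := sameTp_map e.toElementaryEmbedding (e.symm ∘ b)
    have h3 : (e.toElementaryEmbedding : N → N') ∘ (e.symm ∘ b) = b := by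
      funext i
      exact e.apply_symm_apply (b i)
    rwa [h3] at h2
  obtain ⟨y, hy⟩ := h k (e.symm ∘ b) N'' b'' (fun φ => (h1 φ).trans (hb φ)) y''
  refine ⟨e y, ?_⟩
  have h2 := sameTp_map e.toElementaryEmbedding (Fin.snoc (e.symm ∘ b) y : Fin (k + 1) → N)
  rw [Fin.comp_snoc] at h2
  have h3 : (e.toElementaryEmbedding : N → N') ∘ (e.symm ∘ b) = b := by
    funext i
    exact e.apply_symm_apply (b i)
  rw [h3] at h2
  exact fun φ => ((h2 φ).symm).trans (hy φ)

end Pool.Agent.Work.MP_ed0a9a_lc.E
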