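import Pool.Agent.Work.MP_ed0a9a_lc.E.Defs

/-!
# Module `Clo` (size S-M): closure of a small set under few functions

PROOF.  Let `L'` be the language with no relations and with the function symbols
`L'.Functions m = {i : ι // n i = m}`, `α` as an `L'`-structure by `F`; take `S = Substructure.closure L' A`;
`Substructure.lift_card_closure_le` (`#(closure A) ≤ max ℵ₀ (#A + #(Σ m, L'.Functions m))`) and
`Σ m, {i // n i = m} ≃ ι`.  `Substructure.fun_mem` gives the closure property.  (Or directly: `S` = the union of the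
sets `A₀ = A`, `A_{j+1} = A_j ∪ {F i x | x in A_j}`.)
-/

namespace Pool.Agent.Work.MP_ed0a9a_lc.E

open Cardinal

/-- the language with the function symbols `ι` -/
private def LF {ι : Type} (n : ι → ℕ) : FirstOrder.Language.{0, 0} :=
  ⟨fun m => {i : ι // n i = m}, fun _ => Empty⟩

private def LFstr {α ι : Type} (n : ι → ℕ) (F : ∀ i, (Fin (n i) → α) → α) :
    (LF n).Structure α where
  funMap := fun {_} f v => F f.1 (fun j => v (Fin.cast f.2 j))
  RelMap := fun {_} r _ => r.elim

theorem exists_closed {α ι : Type} (κ : Cardinal.{0}) (hκ : ℵ₀ ≤ κ) (hι : #ι ≤ κ) (n : ι → ℕ)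
    (F : ∀ i, (Fin (n i) → α) → α) (A : Set α) (hA : #A ≤ κ) :
    ∃ S : Set α, A ⊆ S ∧ #S ≤ κ ∧
      ∀ (i : ι) (x : Fin (n i) → α), (∀ j, x j ∈ S) → F i x ∈ S := by
  let str : (LF n).Structure α := LFstr n F
  refine ⟨(FirstOrder.Language.Substructure.closure (LF n) A : Set α),
    FirstOrder.Language.Substructure.subset_closure, ?_, ?_⟩
  · have h1 := FirstOrder.Language.Substructure.lift_card_closure_le (L := LF n) (s := A)
    simp only [Cardinal.lift_id] at h1
    refine h1.trans (max_le hκ ?_)
    have h2 : #(Σ i, (LF n).Functions i) ≤ #ι :=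
      Cardinal.mk_le_of_injective (f := fun p : (Σ i, (LF n).Functions i) => (p.2.1 : ι)) (by
        rintro ⟨m, i, hi⟩ ⟨m', i', hi'⟩ h
        simp only at h
        subst h
        subst hi
        subst hi'
        rfl)
    exact (add_le_add hA (h2.trans hι)).trans (Cardinal.add_eq_self hκ).le
  · intro i x hx
    exact FirstOrder.Language.Substructure.fun_mem
      (FirstOrder.Language.Substructure.closure (LF n) A)
      (⟨i, rfl⟩ : (LF n).Functions (n i)) x hx

end Pool.Agent.Work.MP_ed0a9a_lc.E
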