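import Pool.Agent.Work.MP_ed0a9a_lc.E.ClB

/-!
# Module `CntF` (size S-M): the algebraic closure of a countable set is countable

PROOFS.  `countable_formula`: `BoundedFormula.card_le` (the cardinality of
`Σ n, L.BoundedFormula α n` is at most `max ℵ₀ (#α + L.card)`) and `(sig a).card ≤ ℵ₀` (no function
symbols; the relation symbols `Σ n, {i : ℕ // a i = n}` inject into `ℕ`); or `BoundedFormula.encoding`
(an injection into lists of a countable type).  See also `card_sig` in
`Pool/Agent/Work/MP_ed0a9a_lc/V/Cat.lean`.
`countable_cl`: `cl B` is the union over `k`, over `b : Fin k → B` (countably many) and over the formulas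
`φ : (sig a).Formula (Fin (k + 1))` with finitely many solutions over `b` of the finite sets of
the solutions.
-/

namespace Pool.Agent.Work.MP_ed0a9a_lc.E

open FirstOrder FirstOrder.Language

private theorem card_sig' (a : ℕ → ℕ) : (sig a).card ≤ Cardinal.aleph0 := by
  unfold FirstOrder.Language.card
  rw [Cardinal.mk_le_aleph0_iff]
  exact inferInstanceAs (Countable ((Σ _ : ℕ, Empty) ⊕ (Σ n : ℕ, {i : ℕ // a i = n})))

theorem countable_formula (a : ℕ → ℕ) (k : ℕ) : Countable ((sig a).Formula (Fin k)) := by
  have h1 : Countable (Σ n, (sig a).BoundedFormula (Fin k) n) := by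
    rw [← Cardinal.mk_le_aleph0_iff]
    refine (BoundedFormula.card_le (L := sig a) (α := Fin k)).trans ?_
    refine max_le le_rfl ?_
    refine Cardinal.add_le_aleph0.2 ⟨?_, ?_⟩
    · rw [Cardinal.lift_le_aleph0]
      exact Cardinal.mk_le_aleph0
    · rw [Cardinal.lift_le_aleph0]
      exact card_sig' a
  have h2 : Function.Injective
      (fun φ : (sig a).Formula (Fin k) =>
        (⟨0, φ⟩ : Σ n, (sig a).BoundedFormula (Fin k) n)) := by
    intro φ ψ h
    simpa using h
  exact h2.countable

theorem countable_cl {a : ℕ → ℕ} {N : Type} [(sig a).Structure N] {B : Set N}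
    (hB : B.Countable) : (cl (sig a) B).Countable := by
  classical
  have : Countable B := hB.to_subtype
  have hsub : cl (sig a) B ⊆ ⋃ k : ℕ, ⋃ b : Fin k → B, ⋃ φ : (sig a).Formula (Fin (k + 1)),
      (if {z | φ.Realize (Fin.snoc (fun i => (b i : N)) z : Fin (k + 1) → N)}.Finite then
        {z | φ.Realize (Fin.snoc (fun i => (b i : N)) z : Fin (k + 1) → N)} else ∅) := by
    rintro y ⟨k, b, hb, φ, h1, h2⟩
    refine Set.mem_iUnion.2 ⟨k, Set.mem_iUnion.2 ⟨fun i => ⟨b i, hb i⟩,
      Set.mem_iUnion.2 ⟨φ, ?_⟩⟩⟩
    have e : (fun i => (((fun i => ⟨b i, hb i⟩ : Fin k → B) i : B) : N)) = b := rfl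
    rw [e, if_pos h2]
    exact h1
  refine Set.Countable.mono hsub ?_
  refine Set.countable_iUnion fun k => Set.countable_iUnion fun b => ?_
  have := countable_formula a (k + 1)
  refine Set.countable_iUnion fun φ => ?_
  split_ifs with h
  · exact h.countable
  · exact Set.countable_empty

end Pool.Agent.Work.MP_ed0a9a_lc.E
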