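import Pool.Agent.Work.MP_ed0a9a_lc.E.SameT
import Pool.Agent.Work.MP_ed0a9a_lc.E.BDefs
import Pool.Agent.Work.MP_ed0a9a_lc.E.CntF

/-!
# Module `SatA` (size M): `ℵ₁`-saturated structures

PROOFS.
* `sat0_of_sat1`: let `SameTp b b'`, `y' : N'`; enumerate the countable set of the formulas
  `ψ : (sig a).Formula (Fin (k + 1))` true at `Fin.snoc b' y'` (`countable_formula`; it is nonempty); each finite conjunction is
  satisfied over `b` by some `y` (`exists_ex`, `exists_all`, `SameTp`); apply `Sat1` with the formulas relabelled by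
  `Fin.snoc (fun i => some i) none`, parameters `u i = b i` for `i < k` (arbitrary for `i ≥ k`).
* `uncountable_of_sat1`: suppose the set `D = {x | φ(v, x)}` is infinite and countable, `D = {d 0, d 1, …}`.  Apply `Sat1` with the
  parameters `v i` (`i < k`), `d n` and the formulas `φ(v, x)`, `x ≠ d n`: finitely satisfiable as `D` is infinite; a solution is an
  element of `D` different from all `d n`.
* `emb_sat1`: `h : S → N`, `g : S → U` elementary, `S`, `N` countable.  Let `y₀, y₁, …` enumerate `N`, `s₀, s₁, …` enumerate `S`.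
  Choose recursively `z₀, z₁, … ∈ U` such that for all `n`, all formulas `χ` and all tuples of `S`:
  `χ(h s, y₀, …, y_{n-1})` iff `χ(g s, z₀, …, z_{n-1})`.  Step: apply `Sat1` to the countable set of all the formulas
  `χ(g s, z₀, …, z_{n-1}, x)` with `χ(h s, y₀, …, y_n)`; finitely satisfiable because of the induction hypothesis for the formulas
  `∃ x, ⋀ χ`.  `f y = z_n` for some `n` with `y_n = y`.  For `n = 0` this is `sameTp_map` for `h` and `g`.
-/

namespace Pool.Agent.Work.MP_ed0a9a_lc.E

open FirstOrder FirstOrder.Language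

variable {a : ℕ → ℕ}

/-- The relabelling of the variables. -/
private def rl (k : ℕ) : Fin (k + 1) → Option ℕ := Fin.snoc (fun i : Fin k => some (i : ℕ)) none

private theorem elim_rl {N : Type} {k : ℕ} (b : Fin k → N) (u : ℕ → N)
    (hu : ∀ i : Fin k, u i = b i) (x : N) :
    (fun o : Option ℕ => o.elim x u) ∘ rl k = (Fin.snoc b x : Fin (k + 1) → N) := by
  funext j
  refine Fin.lastCases ?_ (fun i => ?_) j
  · simp only [rl, Function.comp, Fin.snoc_last, Option.elim]
  · simp only [rl, Function.comp, Fin.snoc_castSucc, Option.elim]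
    exact hu i

private theorem card_sigA (a : ℕ → ℕ) : (sig a).card ≤ Cardinal.aleph0 := by
  unfold FirstOrder.Language.card
  rw [Cardinal.mk_le_aleph0_iff]
  exact inferInstanceAs (Countable ((Σ _ : ℕ, Empty) ⊕ (Σ n : ℕ, {i : ℕ // a i = n})))

private theorem countable_fmlA (a : ℕ → ℕ) (α : Type) [Countable α] :
    Countable ((sig a).Formula α) := by
  have h1 : Countable (Σ n, (sig a).BoundedFormula α n) := by
    rw [← Cardinal.mk_le_aleph0_iff]
    refine (BoundedFormula.card_le (L := sig a) (α := α)).trans ?_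
    refine max_le le_rfl ?_
    refine Cardinal.add_le_aleph0.2 ⟨?_, ?_⟩
    · rw [Cardinal.lift_le_aleph0]
      exact Cardinal.mk_le_aleph0
    · rw [Cardinal.lift_le_aleph0]
      exact card_sigA a
  have h2 : Function.Injective
      (fun φ : (sig a).Formula α =>
        (⟨0, φ⟩ : Σ n, (sig a).BoundedFormula α n)) := by
    intro φ ψ h
    simpa using h
  exact h2.countable

theorem sat0_of_sat1 {N : Type} [Nonempty N] [(sig a).Structure N] (h : Sat1 (sig a) N) :
    Sat0 (sig a) N := by
  intro k b N' _ b' hb y'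
  have := countable_formula a (k + 1)
  obtain ⟨f, hf⟩ := (Set.to_countable {ψ : (sig a).Formula (Fin (k + 1)) |
    ψ.Realize (Fin.snoc b' y' : Fin (k + 1) → N')}).exists_eq_range
    ⟨⊤, Formula.realize_top.2 trivial⟩
  have hfr : ∀ m, (f m).Realize (Fin.snoc b' y' : Fin (k + 1) → N') := by
    intro m
    have h1 : f m ∈ {ψ : (sig a).Formula (Fin (k + 1)) |
      ψ.Realize (Fin.snoc b' y' : Fin (k + 1) → N')} := by
      rw [hf]
      exact ⟨m, rfl⟩
    exact h1
  set u : ℕ → N := fun i => if h : i < k then b ⟨i, h⟩ else Classical.arbitrary N with hu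
  have hub : ∀ i : Fin k, u i = b i := fun i => dif_pos i.2
  obtain ⟨x, hx⟩ := h u (fun m => (f m).relabel (rl k)) (by
    intro n
    obtain ⟨θ, hθ⟩ := exists_all (L := sig a) (fun i : Fin n => f i)
    obtain ⟨χ, hχ⟩ := exists_ex θ
    have h1 : χ.Realize b' := (hχ N' b').2 ⟨y', (hθ N' _).2 fun i => hfr i⟩
    obtain ⟨x, hx⟩ := (hχ N b).1 ((hb χ).2 h1)
    refine ⟨x, fun m hm => ?_⟩
    rw [Formula.realize_relabel, elim_rl b u hub x]
    exact (hθ N _).1 hx ⟨m, hm⟩)
  have hx' : ∀ m, (f m).Realize (Fin.snoc b x : Fin (k + 1) → N) := by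
    intro m
    have h1 := hx m
    rwa [Formula.realize_relabel, elim_rl b u hub x] at h1
  have key : ∀ φ : (sig a).Formula (Fin (k + 1)),
      φ.Realize (Fin.snoc b' y' : Fin (k + 1) → N') →
      φ.Realize (Fin.snoc b x : Fin (k + 1) → N) := by
    intro φ hφ
    have h1 : φ ∈ Set.range f := by
      rw [← hf]
      exact hφ
    obtain ⟨m, rfl⟩ := h1
    exact hx' m
  refine ⟨x, fun φ => ⟨fun h1 => ?_, key φ⟩⟩
  by_contra h2
  have h3 := key (∼φ) (Formula.realize_not.2 h2)
  rw [Formula.realize_not] at h3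
  exact h3 h1

theorem uncountable_of_sat1 {N : Type} [Nonempty N] [(sig a).Structure N]
    (h : Sat1 (sig a) N) {k : ℕ} (φ : (sig a).Formula (Fin (k + 1))) (v : Fin k → N)
    (hi : (Dset (sig a) φ v).Infinite) : ¬ (Dset (sig a) φ v).Countable := by
  intro hc
  obtain ⟨d, hd⟩ := hc.exists_eq_range hi.nonempty
  set u : ℕ → N := fun i => if h : i < k then v ⟨i, h⟩ else d (i - k) with hu
  have hub : ∀ i : Fin k, u i = v i := fun i => dif_pos i.2
  have hud : ∀ n, u (k + n) = d n := by
    intro n
    have h1 : ¬ k + n < k := by omega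
    have h2 : k + n - k = n := by omega
    simp only [hu, dif_neg h1, h2]
  set ψ : ℕ → (sig a).Formula (Option ℕ) := fun m => Nat.casesOn m (φ.relabel (rl k))
    (fun n => ∼((Term.var none).equal (Term.var (some (k + n))))) with hψ
  have h0 : ∀ x, (ψ 0).Realize (fun o : Option ℕ => o.elim x u) ↔ x ∈ Dset (sig a) φ v := by
    intro x
    have h1 : ψ 0 = φ.relabel (rl k) := rfl
    rw [h1, Formula.realize_relabel, elim_rl v u hub x]
    exact Iff.rfl
  have h1 : ∀ n x, (ψ (n + 1)).Realize (fun o : Option ℕ => o.elim x u) ↔ x ≠ d n := by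
    intro n x
    have h2 : ψ (n + 1) = ∼((Term.var none).equal (Term.var (some (k + n)))) := rfl
    rw [h2, Formula.realize_not, Formula.realize_equal, Term.realize_var, Term.realize_var]
    simp only [Option.elim]
    rw [hud]
  obtain ⟨x, hx⟩ := h u ψ (by
    intro n
    have hfin : (Set.range fun i : Fin n => d i).Finite := Set.finite_range _
    obtain ⟨x, hx, hx'⟩ := (hi.sdiff hfin).nonempty
    refine ⟨x, fun m hm => ?_⟩
    rcases m with _ | m
    · exact (h0 x).2 hx
    · refine (h1 m x).2 ?_
      rintro rfl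
      exact hx' ⟨⟨m, by omega⟩, rfl⟩)
  have hx0 : x ∈ Dset (sig a) φ v := (h0 x).1 (hx 0)
  rw [hd] at hx0
  obtain ⟨n, hn⟩ := hx0
  exact (h1 n x).1 (hx (n + 1)) hn.symm

theorem emb_sat1 {S N U : Type} [Nonempty S] [Countable S] [Countable N]
    [(sig a).Structure S] [(sig a).Structure N] [(sig a).Structure U] (hU : Sat1 (sig a) U)
    (h : S ↪ₑ[sig a] N) (g : S ↪ₑ[sig a] U) :
    ∃ f : N ↪ₑ[sig a] U, ∀ s, f (h s) = g s := by
  classical
  have hN : Nonempty N := ⟨h (Classical.arbitrary S)⟩
  obtain ⟨y, hy⟩ := exists_surjective_nat N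
  obtain ⟨s, hs⟩ := exists_surjective_nat S
  set t : ℕ → S := fun i => s (i / 2) with ht
  -- the sequences in `N`
  set wN : ℕ → ℕ → N := fun n => Nat.rec (fun i => h (t i))
    (fun m w => Function.update w (2 * m + 1) (y m)) n with hwN
  have hwN0 : wN 0 = fun i => h (t i) := rfl
  have hwNs : ∀ m, wN (m + 1) = Function.update (wN m) (2 * m + 1) (y m) := fun m => rfl
  set P : ℕ → (ℕ → U) → Prop := fun n w => ∀ χ : (sig a).Formula ℕ,
    χ.Realize (wN n) ↔ χ.Realize w with hP
  have hP0 : P 0 (fun i => g (t i)) := by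
    intro χ
    have h1 : χ.Realize (h ∘ t) ↔ χ.Realize t := h.map_formula χ t
    have h2 : χ.Realize (g ∘ t) ↔ χ.Realize t := g.map_formula χ t
    exact h1.trans h2.symm
  have hstep : ∀ n w, P n w → ∃ z, P (n + 1) (Function.update w (2 * n + 1) z) := by
    intro n w hw
    have := countable_fmlA a (Option ℕ)
    obtain ⟨f, hf⟩ := (Set.to_countable {ψ : (sig a).Formula (Option ℕ) |
      ψ.Realize (fun o : Option ℕ => o.elim (y n) (wN n))}).exists_eq_range
      ⟨⊤, Formula.realize_top.2 trivial⟩
    have hfr : ∀ m, (f m).Realize (fun o : Option ℕ => o.elim (y n) (wN n)) := by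
      intro m
      have h1 : f m ∈ {ψ : (sig a).Formula (Option ℕ) |
        ψ.Realize (fun o : Option ℕ => o.elim (y n) (wN n))} := by
        rw [hf]
        exact ⟨m, rfl⟩
      exact h1
    obtain ⟨z, hz⟩ := hU w f (by
      intro m
      set χ : (sig a).Formula ℕ := ((Formula.iInf (fun i : Fin m => f i)).relabel
        (fun o : Option ℕ => o.elim (Sum.inr ()) Sum.inl : Option ℕ → ℕ ⊕ Unit)).iExs Unit
        with hχ
      have key : ∀ (M : Type) [(sig a).Structure M] (v : ℕ → M), χ.Realize v ↔
          ∃ x, ∀ i : Fin m, (f i).Realize (fun o : Option ℕ => o.elim x v) := by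
        intro M _ v
        rw [hχ, Formula.realize_iExs]
        have hcomp : ∀ i : Unit → M, (Sum.elim v i) ∘
            (fun o : Option ℕ => o.elim (Sum.inr ()) Sum.inl : Option ℕ → ℕ ⊕ Unit) =
            fun o : Option ℕ => o.elim (i ()) v := by
          intro i
          funext o
          cases o <;> rfl
        constructor
        · rintro ⟨i, hi⟩
          rw [Formula.realize_relabel, hcomp, Formula.realize_iInf] at hi
          exact ⟨i (), hi⟩
        · rintro ⟨x, hx⟩
          refine ⟨fun _ => x, ?_⟩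
          rw [Formula.realize_relabel, hcomp, Formula.realize_iInf]
          exact hx
      obtain ⟨x, hx⟩ := (key U w).1 ((hw χ).1 ((key N (wN n)).2 ⟨y n, fun i => hfr i⟩))
      exact ⟨x, fun j hj => hx ⟨j, hj⟩⟩)
    have hz1 : ∀ ψ : (sig a).Formula (Option ℕ),
        ψ.Realize (fun o : Option ℕ => o.elim (y n) (wN n)) →
        ψ.Realize (fun o : Option ℕ => o.elim z w) := by
      intro ψ hψ
      have h1 : ψ ∈ Set.range f := by
        rw [← hf]
        exact hψ
      obtain ⟨m, rfl⟩ := h1
      exact hz m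
    refine ⟨z, fun χ => ?_⟩
    have hup : ∀ (M : Type) (x : M) (v : ℕ → M), Function.update v (2 * n + 1) x =
        (fun o : Option ℕ => o.elim x v) ∘
          (fun i : ℕ => if i = 2 * n + 1 then none else some i) := by
      intro M x v
      funext i
      by_cases hi : i = 2 * n + 1
      · subst hi
        simp
      · simp [hi]
    rw [hwNs, hup N, hup U, ← Formula.realize_relabel, ← Formula.realize_relabel]
    refine ⟨hz1 _, fun h1 => ?_⟩
    by_contra h2
    have h3 := hz1 _ (Formula.realize_not.2 h2)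
    rw [Formula.realize_not] at h3
    exact h3 h1
  choose z hz using hstep
  set st : ∀ n, {w : ℕ → U // P n w} := fun n => Nat.rec ⟨fun i => g (t i), hP0⟩
    (fun m w => ⟨Function.update w.1 (2 * m + 1) (z m w.1 w.2), hz m w.1 w.2⟩) n with hst
  have hst0 : (st 0).1 = fun i => g (t i) := rfl
  have hsts : ∀ m, (st (m + 1)).1 =
      Function.update (st m).1 (2 * m + 1) (z m (st m).1 (st m).2) := fun m => rfl
  -- even places
  have hNe : ∀ n i, wN n (2 * i) = h (s i) := by
    intro n i
    induction n with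
    | zero =>
      rw [hwN0]
      simp only [ht]
      rw [Nat.mul_div_cancel_left i (by norm_num)]
    | succ n ih =>
      rw [hwNs, Function.update_of_ne (by omega)]
      exact ih
  have hUe : ∀ n i, (st n).1 (2 * i) = g (s i) := by
    intro n i
    induction n with
    | zero =>
      rw [hst0]
      simp only [ht]
      rw [Nat.mul_div_cancel_left i (by norm_num)]
    | succ n ih =>
      rw [hsts, Function.update_of_ne (by omega)]
      exact ih
  -- odd places
  have hNo : ∀ i d, wN (i + 1 + d) (2 * i + 1) = y i := by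
    intro i d
    induction d with
    | zero =>
      rw [Nat.add_zero, hwNs, Function.update_self]
    | succ d ih =>
      rw [← Nat.add_assoc, hwNs, Function.update_of_ne (by omega)]
      exact ih
  have hUo : ∀ i d, (st (i + 1 + d)).1 (2 * i + 1) = (st (i + 1)).1 (2 * i + 1) := by
    intro i d
    induction d with
    | zero => rfl
    | succ d ih =>
      rw [← Nat.add_assoc, hsts, Function.update_of_ne (by omega)]
      exact ih
  choose idx hidx using hy
  set f : N → U := fun x => (st (idx x + 1)).1 (2 * idx x + 1) with hf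
  have hfN : ∀ x M, idx x < M → wN M (2 * idx x + 1) = x := by
    intro x M hM
    obtain ⟨d, rfl⟩ : ∃ d, M = idx x + 1 + d := ⟨M - (idx x + 1), by omega⟩
    rw [hNo, hidx]
  have hfU : ∀ x M, idx x < M → (st M).1 (2 * idx x + 1) = f x := by
    intro x M hM
    obtain ⟨d, rfl⟩ : ∃ d, M = idx x + 1 + d := ⟨M - (idx x + 1), by omega⟩
    rw [hUo]
  have hfe : ∀ (n : ℕ) (φ : (sig a).Formula (Fin n)) (v : Fin n → N),
      φ.Realize (f ∘ v) ↔ φ.Realize v := by
    intro n φ v
    obtain ⟨M, hM⟩ : ∃ M, ∀ i, idx (v i) < M := by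
      refine ⟨(Finset.univ.sup fun i => idx (v i)) + 1, fun i => ?_⟩
      exact Nat.lt_succ_of_le (Finset.le_sup (f := fun i => idx (v i)) (Finset.mem_univ i))
    have h1 := (st M).2 (φ.relabel fun i => 2 * idx (v i) + 1)
    rw [Formula.realize_relabel, Formula.realize_relabel] at h1
    have h2 : (wN M ∘ fun i => 2 * idx (v i) + 1) = v := funext fun i => hfN (v i) M (hM i)
    have h3 : ((st M).1 ∘ fun i => 2 * idx (v i) + 1) = f ∘ v :=
      funext fun i => hfU (v i) M (hM i)
    rw [h2, h3] at h1
    exact h1.symm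
  refine ⟨⟨f, fun n φ v => hfe n φ v⟩, fun x => ?_⟩
  obtain ⟨i, rfl⟩ := hs x
  have h1 := (st (idx (h (s i)) + 1)).2
    ((Term.var (2 * i)).equal (Term.var (2 * idx (h (s i)) + 1)))
  rw [Formula.realize_equal, Formula.realize_equal, Term.realize_var, Term.realize_var,
    Term.realize_var, Term.realize_var] at h1
  have h2 := h1.1 ((hNe (idx (h (s i)) + 1) i).trans
    (hfN (h (s i)) (idx (h (s i)) + 1) (Nat.lt_succ_self _)).symm)
  exact ((hUe (idx (h (s i)) + 1) i).symm.trans
    (h2.trans (hfU (h (s i)) (idx (h (s i)) + 1) (Nat.lt_succ_self _)))).symm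

end Pool.Agent.Work.MP_ed0a9a_lc.E
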