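import Pool.Agent.Work.MP_ed0a9a_lc.E.Ult
import Pool.Agent.Work.MP_ed0a9a_lc.E.SatA
import Pool.Agent.Work.MP_ed0a9a_lc.E.Clo

/-!
# Module `Big` (size M): a model of cardinality `ℵ₁` whose infinite definable sets are uncountable

PROOF.  Let `U ⊨ T` be the `ℵ₁`-saturated elementary extension of `N₀` (`exists_ult` for `⊤`); infinite definable subsets of `U`
are uncountable (`uncountable_of_sat1`).  Let `I` be a type of cardinality `ℵ₁` (e.g. `(Cardinal.aleph 1).out`).  For `k`,
`φ : (sig a).Formula (Fin (k + 1))`, `i ∈ I` let `H_{φ,i} : (Fin k → U) → U` be such that for all `v` with `Dset φ v` infinite the map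
`i ↦ H_{φ,i} v` is injective from `I` to `Dset φ v` (it has cardinality `≥ ℵ₁`), and let `K_φ v` be an element of `Dset φ v` if this is
nonempty.  There are `ℵ₁` functions (`countable_formula`), so by `exists_closed` (`κ = ℵ₁`, `A = ∅`) there is a set `S`, `#S ≤ ℵ₁`,
closed under them; by `exists_elSub` and the functions `K_φ` it is an elementary substructure `W`.  For `v` in `W` with
`Dset φ v` infinite in `W` it is infinite in `U`, and contains the `H_{φ,i} v ∈ W`, `i ∈ I`.  In particular `W` (the formula `x = x`) is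
uncountable, so `#W = ℵ₁` (`W` is infinite since `U` is, as `N₀` is infinite).
-/

namespace Pool.Agent.Work.MP_ed0a9a_lc.E

open FirstOrder FirstOrder.Language Cardinal

theorem exists_big {a : ℕ → ℕ} {T : (sig a).Theory} {N₀ : Type} [Nonempty N₀] [Infinite N₀]
    [(sig a).Structure N₀] (h₀ : N₀ ⊨ T) :
    ∃ (W : Type) (_ : Nonempty W) (_ : (sig a).Structure W), W ⊨ T ∧ #W = aleph 1 ∧
      ∀ (k : ℕ) (φ : (sig a).Formula (Fin (k + 1))) (v : Fin k → W),
        (Dset (sig a) φ v).Infinite → ¬ (Dset (sig a) φ v).Countable := by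
  classical
  obtain ⟨U, neU, strU, j, S', hU1, -⟩ := exists_ult (⊤ : (sig a).ElementarySubstructure N₀)
  have hUT : U ⊨ T := (j.theory_model_iff T).1 h₀
  have infU : Infinite U := Infinite.of_injective j j.injective
  obtain ⟨I, hIc⟩ : ∃ I : Type, #I = aleph 1 := ⟨(aleph 1 : Cardinal.{0}).out, Cardinal.mk_out _⟩
  have hH : ∀ (k : ℕ) (φ : (sig a).Formula (Fin (k + 1))) (v : Fin k → U), ∃ H : I → U,
      (Dset (sig a) φ v).Infinite →
        Function.Injective H ∧ ∀ i, H i ∈ Dset (sig a) φ v := by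
    intro k φ v
    by_cases hi : (Dset (sig a) φ v).Infinite
    · have h1 := uncountable_of_sat1 hU1 φ v hi
      have h2 : aleph 1 ≤ #(Dset (sig a) φ v) := by
        rw [← Cardinal.succ_aleph0, Order.succ_le_iff]
        by_contra h3
        exact h1 (Cardinal.le_aleph0_iff_set_countable.1 (not_lt.1 h3))
      rw [← hIc, Cardinal.le_def] at h2
      obtain ⟨g⟩ := h2
      exact ⟨fun i => (g i : U), fun _ =>
        ⟨fun i i' h => g.injective (Subtype.ext h), fun i => (g i).2⟩⟩
    · exact ⟨fun _ => Classical.arbitrary U, fun h => absurd h hi⟩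
  choose H hH using hH
  have hK : ∀ (k : ℕ) (φ : (sig a).Formula (Fin (k + 1))) (v : Fin k → U), ∃ y : U,
      (Dset (sig a) φ v).Nonempty → y ∈ Dset (sig a) φ v := by
    intro k φ v
    by_cases hi : (Dset (sig a) φ v).Nonempty
    · exact ⟨hi.some, fun _ => hi.some_mem⟩
    · exact ⟨Classical.arbitrary U, fun h => absurd h hi⟩
  choose K hK using hK
  -- the number of the functions
  have hF : ∀ k, Countable ((sig a).Formula (Fin (k + 1))) := fun k => countable_formula a (k + 1)
  have hι : #(Σ k : ℕ, (sig a).Formula (Fin (k + 1)) × Option I) ≤ aleph 1 := by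
    have h1 : #(Σ k : ℕ, (sig a).Formula (Fin (k + 1)) × Option I) ≤
        #((Σ k : ℕ, (sig a).Formula (Fin (k + 1))) × Option I) :=
      Cardinal.mk_le_of_injective
        (f := fun p : (Σ k : ℕ, (sig a).Formula (Fin (k + 1)) × Option I) =>
          ((⟨p.1, p.2.1⟩ : Σ k : ℕ, (sig a).Formula (Fin (k + 1))), p.2.2)) (by
        rintro ⟨k, φ, o⟩ ⟨k', φ', o'⟩ h
        simp only [Prod.mk.injEq, Sigma.mk.injEq] at h
        obtain ⟨⟨h1, h2⟩, h3⟩ := h
        subst h1
        subst h3
        cases h2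
        rfl)
    refine h1.trans ?_
    have h2 : #(Σ k : ℕ, (sig a).Formula (Fin (k + 1))) ≤ aleph 1 :=
      (Cardinal.mk_le_aleph0 (α := Σ k : ℕ, (sig a).Formula (Fin (k + 1)))).trans
        (Cardinal.aleph0_le_aleph 1)
    have h3 : #(Option I) ≤ aleph 1 := by
      rw [Cardinal.mk_option, hIc]
      exact (Cardinal.add_one_eq (Cardinal.aleph0_le_aleph 1)).le
    rw [← Cardinal.mul_def]
    exact (mul_le_mul' h2 h3).trans (Cardinal.mul_eq_self (Cardinal.aleph0_le_aleph 1)).le
  obtain ⟨S, -, hSc, hS⟩ := exists_closed (α := U) (aleph 1) (Cardinal.aleph0_le_aleph 1) hι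
    (fun p => p.1) (fun p v => p.2.2.elim (K p.1 p.2.1 v) (fun i => H p.1 p.2.1 v i)) ∅
    (by rw [Cardinal.mk_eq_zero]; exact bot_le)
  have hSH : ∀ (k : ℕ) (φ : (sig a).Formula (Fin (k + 1))) (v : Fin k → U), (∀ i, v i ∈ S) →
      ∀ i, H k φ v i ∈ S := fun k φ v hv i => hS ⟨k, φ, some i⟩ v hv
  have hSK : ∀ (k : ℕ) (φ : (sig a).Formula (Fin (k + 1))) (v : Fin k → U), (∀ i, v i ∈ S) →
      K k φ v ∈ S := fun k φ v hv => hS ⟨k, φ, none⟩ v hv
  obtain ⟨W, hW⟩ := exists_elSub (a := a) (N := U) S (by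
    rintro n φ x hx ⟨y, hy⟩
    exact ⟨K n φ x, hSK n φ x hx, hK n φ x ⟨y, hy⟩⟩)
  have hWm : ∀ x : U, x ∈ W ↔ x ∈ S := fun x => by
    have h1 : x ∈ (W : Set U) ↔ x ∈ S := by rw [hW]
    exact h1
  -- the elements of the infinite definable sets
  have key : ∀ (k : ℕ) (φ : (sig a).Formula (Fin (k + 1))) (v : Fin k → W),
      (Dset (sig a) φ v).Infinite → ∃ g : I → W, Function.Injective g ∧
        ∀ i, g i ∈ Dset (sig a) φ v := by
    intro k φ v hv
    have hr : ∀ x : W, x ∈ Dset (sig a) φ v ↔ (x : U) ∈ Dset (sig a) φ (fun i => (v i : U)) := by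
      intro x
      have h1 := W.subtype.map_formula φ (Fin.snoc v x : Fin (k + 1) → W)
      rw [Fin.comp_snoc] at h1
      exact h1.symm
    have h2 : (Dset (sig a) φ (fun i => (v i : U))).Infinite := by
      refine (hv.image (f := fun x : W => (x : U)) (fun x _ y _ h => Subtype.ext h)).mono ?_
      rintro _ ⟨x, hx, rfl⟩
      exact (hr x).1 hx
    obtain ⟨h3, h4⟩ := hH k φ (fun i => (v i : U)) h2
    have h5 : ∀ i, H k φ (fun i => (v i : U)) i ∈ W := fun i =>
      (hWm _).2 (hSH k φ _ (fun i => (hWm _).1 (v i).2) i)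
    exact ⟨fun i => ⟨_, h5 i⟩, fun i i' h => h3 (congrArg Subtype.val h),
      fun i => (hr ⟨_, h5 i⟩).2 (h4 i)⟩
  refine ⟨W, inferInstance, inferInstance, (W.subtype.theory_model_iff T).2 hUT, ?_, ?_⟩
  · refine le_antisymm ?_ ?_
    · have h1 : #W = #S := by
        have h2 : #((W : Set U)) = #S := by rw [hW]
        exact h2
      rw [h1]
      exact hSc
    · have h1 : (Dset (sig a) (⊤ : (sig a).Formula (Fin 1)) (Fin.elim0 : Fin 0 → U)).Infinite := by
        have h2 : Dset (sig a) (⊤ : (sig a).Formula (Fin 1)) (Fin.elim0 : Fin 0 → U) =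
            Set.univ := by
          ext x
          exact ⟨fun _ => trivial, fun _ => Formula.realize_top.2 trivial⟩
        rw [h2]
        exact Set.infinite_univ
      obtain ⟨h3, -⟩ := hH 0 ⊤ Fin.elim0 h1
      have h5 : ∀ i, H 0 ⊤ Fin.elim0 i ∈ W := fun i =>
        (hWm _).2 (hSH 0 ⊤ _ (fun i => i.elim0) i)
      rw [← hIc]
      exact Cardinal.mk_le_of_injective (f := fun i : I => (⟨_, h5 i⟩ : W))
        (fun i i' h => h3 (congrArg Subtype.val h))
  · intro k φ v hv hc
    obtain ⟨g, hg, hg'⟩ := key k φ v hv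
    have h1 : #I ≤ #(Dset (sig a) φ v) :=
      Cardinal.mk_le_of_injective (f := fun i : I => (⟨g i, hg' i⟩ : Dset (sig a) φ v))
        (fun i i' h => hg (congrArg Subtype.val h))
    have h2 : #(Dset (sig a) φ v) ≤ ℵ₀ := Cardinal.le_aleph0_iff_set_countable.2 hc
    have h3 : aleph 1 ≤ ℵ₀ := by
      rw [← hIc]
      exact h1.trans h2
    exact absurd h3 (not_le.2 (by
      rw [← Cardinal.aleph_zero]
      exact Cardinal.aleph_lt_aleph.2 zero_lt_one))

end Pool.Agent.Work.MP_ed0a9a_lc.E
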