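import Pool.Agent.Work.MP_ed0a9a_lc.E.CSeq

/-!
# Module `CBas` (size M): the conditions `Basic` are `Π⁰₃`

PROOF.  Take `P` from `exists_sg_pTrue`.
* `Tot e` is `Pg 2`: `∀ i v, ∃ t, ...` primitive recursive.
* For fixed `k`, `Θ`: `A k Θ := ∀ v : List ℕ, v.length = k → ∃ θ ∈ Θ, P e₀ θ v` is `Pg 2` (`∃ θ ∈ Θ, P ..` is
  `∃ j, j < Θ.length ∧ P e₀ (Θ.getD j []) v`, `Sg 1`), as is `A' e k Θ` with `e` for `e₀`; so `A k Θ → A' e k Θ` is `Pg 3`
  (`CB.Pg.imp`, `CB.Sg.of_pg`, `CB.Pg.mono`), and `∀ k Θ` is `Pg 3`.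
* `∀ θ, P e θ b → SeqT (HE a e₀) b.length θ` is `Pg 2` (`pg_seqT`, composed with the primitive recursive
  `(b, θ) ↦ (b.length, θ)`).
* `∀ y, ∃ θ, P e θ (b ++ [y]) ∧ ¬ SeqT (HE a e₀) (b.length + 1) θ` is `Pg 3` (`Sg 1` and `Sg 2`, then `∃ θ`: `Sg 2`).
The predicate of the theorem is the conjunction of these four; for total `e` it is equivalent to
`Basic (HE a e₀) (HE a e) b.get` (`List.ofFn_get`; tuples `v : Fin k → ℕ` correspond to the lists of length `k`:
`List.ofFn v` and `v = fun i => l.get (i.cast _)`).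
-/

namespace Pool.Agent.Work.MP_ed0a9a_lc.E

private theorem primrec_evq : Primrec (fun x : ((ℕ × ℕ) × List ℕ) × ℕ => evq x.1.1.1 x.2 x.1.1.2 x.1.2) := by
  unfold evq
  have h1 : Primrec (fun x : ((ℕ × ℕ) × List ℕ) × ℕ =>
      ((x.2, Denumerable.ofNat Nat.Partrec.Code x.1.1.1), Nat.pair x.1.1.2 (Encodable.encode x.1.2))) := by
    refine Primrec.pair (Primrec.pair Primrec.snd ?_) ?_
    · exact (Primrec.ofNat Nat.Partrec.Code).comp
        (Primrec.fst.comp (Primrec.fst.comp Primrec.fst))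
    · exact Primrec₂.natPair.comp (Primrec.snd.comp (Primrec.fst.comp Primrec.fst))
        (Primrec.encode.comp (Primrec.snd.comp Primrec.fst))
  exact Nat.Partrec.Code.primrec_evaln.comp h1

private theorem pg_tot : CB.Pg 2 Tot := by
  have h0 : Primrec (fun x : ((ℕ × ℕ) × List ℕ) × ℕ =>
      decide (evq x.1.1.1 x.2 x.1.1.2 x.1.2 = some 0) || decide (evq x.1.1.1 x.2 x.1.1.2 x.1.2 = some 1)) := by
    have e0 := ((Primrec.eq (α := Option ℕ)).comp primrec_evq (Primrec.const (some 0))).decide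
    have e1 := ((Primrec.eq (α := Option ℕ)).comp primrec_evq (Primrec.const (some 1))).decide
    exact Primrec.or.comp e0 e1
  have h1 : CB.Sg 1 (fun x : ((ℕ × ℕ) × List ℕ) × ℕ =>
      (fun (y : (ℕ × ℕ) × List ℕ) (t : ℕ) => evq y.1.1 t y.1.2 y.2 = some 0 ∨ evq y.1.1 t y.1.2 y.2 = some 1)
        x.1 x.2) := by
    refine CB.Sg.of_primrec h0 (fun x => ?_) 1
    simp [Bool.or_eq_true, decide_eq_true_iff]
  have h2 := CB.Sg.ex (p := fun (y : (ℕ × ℕ) × List ℕ) (t : ℕ) =>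
    evq y.1.1 t y.1.2 y.2 = some 0 ∨ evq y.1.1 t y.1.2 y.2 = some 1) h1
  have h3 := CB.Sg.all (p := fun (y : ℕ × ℕ) (v : List ℕ) =>
    ∃ t, evq y.1 t y.2 v = some 0 ∨ evq y.1 t y.2 v = some 1) h2
  exact CB.Pg.all (p := fun (e : ℕ) (i : ℕ) =>
    ∀ v : List ℕ, ∃ t, evq e t i v = some 0 ∨ evq e t i v = some 1) h3

private theorem pg_A {P : ℕ → List Lit → List ℕ → Prop}
    (hP : CB.Sg 1 (fun x : ℕ × List Lit × List ℕ => P x.1 x.2.1 x.2.2)) :
    CB.Pg 2 (fun x : (ℕ × ℕ) × List (List Lit) =>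
      ∀ v : List ℕ, v.length = x.1.2 → ∃ θ ∈ x.2, P x.1.1 θ v) := by
  -- index form
  have h1 : CB.Sg 1 (fun x : (((ℕ × ℕ) × List (List Lit)) × List ℕ) × ℕ =>
      (fun (y : ((ℕ × ℕ) × List (List Lit)) × List ℕ) (j : ℕ) =>
        j < y.1.2.length ∧ P y.1.1.1 (y.1.2.getD j []) y.2) x.1 x.2) := by
    refine CB.Sg.and ?_ ?_
    · have hp : Primrec (fun x : (((ℕ × ℕ) × List (List Lit)) × List ℕ) × ℕ =>
          decide (x.2 < x.1.1.2.length)) :=
        (Primrec.nat_lt.comp Primrec.snd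
          (Primrec.list_length.comp (Primrec.snd.comp (Primrec.fst.comp Primrec.fst)))).decide
      exact CB.Sg.of_primrec hp (fun x => by rw [decide_eq_true_iff]) 1
    · have hf : Primrec (fun x : (((ℕ × ℕ) × List (List Lit)) × List ℕ) × ℕ =>
          (x.1.1.1.1, x.1.1.2.getD x.2 [], x.1.2)) := by
        refine Primrec.pair ?_ (Primrec.pair ?_ (Primrec.snd.comp Primrec.fst))
        · exact Primrec.fst.comp (Primrec.fst.comp (Primrec.fst.comp Primrec.fst))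
        · exact (Primrec.list_getD ([] : List Lit)).comp
            (Primrec.snd.comp (Primrec.fst.comp Primrec.fst)) Primrec.snd
      exact hP.comp hf
  have h2 := CB.Sg.ex (p := fun (y : ((ℕ × ℕ) × List (List Lit)) × List ℕ) (j : ℕ) =>
        j < y.1.2.length ∧ P y.1.1.1 (y.1.2.getD j []) y.2) h1
  have h3 : CB.Sg 1 (fun y : ((ℕ × ℕ) × List (List Lit)) × List ℕ => ∃ θ ∈ y.1.2, P y.1.1.1 θ y.2) := by
    refine h2.congr fun y => ?_
    constructor
    · rintro ⟨j, hj, h⟩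
      refine ⟨y.1.2[j], List.getElem_mem hj, ?_⟩
      have e : y.1.2.getD j [] = y.1.2[j] := by simp [hj]
      rw [e] at h
      exact h
    · rintro ⟨θ, hθ, h⟩
      obtain ⟨j, hj, rfl⟩ := List.getElem_of_mem hθ
      refine ⟨j, hj, ?_⟩
      have e : y.1.2.getD j [] = y.1.2[j] := by simp [hj]
      rw [e]
      exact h
  have h4 : CB.Pg 1 (fun y : ((ℕ × ℕ) × List (List Lit)) × List ℕ => y.2.length = y.1.1.2) := by
    have hp : Primrec (fun y : ((ℕ × ℕ) × List (List Lit)) × List ℕ =>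
        decide (y.2.length = y.1.1.2)) :=
      ((Primrec.eq (α := ℕ)).comp (Primrec.list_length.comp Primrec.snd)
        (Primrec.snd.comp (Primrec.fst.comp Primrec.fst))).decide
    exact CB.Pg.of_primrec hp (fun x => by rw [decide_eq_true_iff]) 1
  exact CB.Sg.all (p := fun (x : (ℕ × ℕ) × List (List Lit)) (v : List ℕ) =>
    v.length = x.1.2 → ∃ θ ∈ x.2, P x.1.1 θ v) (CB.Sg.imp h4 h3)

private theorem forall_list_iff {k : ℕ} {C : List ℕ → Prop} :
    (∀ v : Fin k → ℕ, C (List.ofFn v)) ↔ ∀ l : List ℕ, l.length = k → C l := by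
  constructor
  · rintro h l rfl
    have := h l.get
    rwa [List.ofFn_get] at this
  · intro h v
    exact h _ List.length_ofFn

theorem exists_pg_basic {a : ℕ → ℕ} (ha : Computable a) {e₀ : ℕ} (h₀ : Tot e₀) :
    ∃ P : ℕ → List ℕ → Prop, CB.Pg 3 (fun x : ℕ × List ℕ => P x.1 x.2) ∧
      ∀ e b, P e b ↔ Tot e ∧ Basic (HE a e₀) (HE a e) b.get := by
  obtain ⟨P, hP1, hP2⟩ := exists_sg_pTrue ha
  refine ⟨fun e b => Tot e ∧
    ((∀ (k : ℕ) (Θ : List (List Lit)), (∀ v : List ℕ, v.length = k → ∃ θ ∈ Θ, P e₀ θ v) →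
      ∀ v : List ℕ, v.length = k → ∃ θ ∈ Θ, P e θ v) ∧
    ((∀ θ : List Lit, P e θ b → SeqT (HE a e₀) b.length θ) ∧
    ∀ y : ℕ, ∃ θ : List Lit, P e θ (b ++ [y]) ∧ ¬ SeqT (HE a e₀) (b.length + 1) θ)), ?_, ?_⟩
  · refine CB.Pg.and ?_ (CB.Pg.and ?_ (CB.Pg.and ?_ ?_))
    · exact (CB.Pg.mono (by norm_num) pg_tot).comp Primrec.fst
    · have hA := pg_A hP1
      have h1 : CB.Sg 3 (fun x : ((ℕ × List ℕ) × ℕ) × List (List Lit) =>
          ∀ v : List ℕ, v.length = x.1.2 → ∃ θ ∈ x.2, P e₀ θ v) := by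
        have hf : Primrec (fun x : ((ℕ × List ℕ) × ℕ) × List (List Lit) => ((e₀, x.1.2), x.2)) :=
          Primrec.pair (Primrec.pair (Primrec.const e₀) (Primrec.snd.comp Primrec.fst)) Primrec.snd
        exact CB.Sg.of_pg (hA.comp hf)
      have h2 : CB.Pg 3 (fun x : ((ℕ × List ℕ) × ℕ) × List (List Lit) =>
          ∀ v : List ℕ, v.length = x.1.2 → ∃ θ ∈ x.2, P x.1.1.1 θ v) := by
        have hf : Primrec (fun x : ((ℕ × List ℕ) × ℕ) × List (List Lit) => ((x.1.1.1, x.1.2), x.2)) :=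
          Primrec.pair (Primrec.pair (Primrec.fst.comp (Primrec.fst.comp Primrec.fst))
            (Primrec.snd.comp Primrec.fst)) Primrec.snd
        exact CB.Pg.mono (by norm_num) (hA.comp hf)
      have h3 := CB.Pg.all (p := fun (x : (ℕ × List ℕ) × ℕ) (Θ : List (List Lit)) =>
        (∀ v : List ℕ, v.length = x.2 → ∃ θ ∈ Θ, P e₀ θ v) →
          ∀ v : List ℕ, v.length = x.2 → ∃ θ ∈ Θ, P x.1.1 θ v) (CB.Pg.imp h1 h2)
      exact CB.Pg.all (p := fun (x : ℕ × List ℕ) (k : ℕ) => ∀ Θ : List (List Lit),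
        (∀ v : List ℕ, v.length = k → ∃ θ ∈ Θ, P e₀ θ v) →
          ∀ v : List ℕ, v.length = k → ∃ θ ∈ Θ, P x.1 θ v) h3
    · have h1 : CB.Sg 2 (fun x : (ℕ × List ℕ) × List Lit => P x.1.1 x.2 x.1.2) := by
        have hf : Primrec (fun x : (ℕ × List ℕ) × List Lit => (x.1.1, x.2, x.1.2)) :=
          Primrec.pair (Primrec.fst.comp Primrec.fst) (Primrec.pair Primrec.snd
            (Primrec.snd.comp Primrec.fst))
        exact CB.Sg.mono (by norm_num) (hP1.comp hf)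
      have h2 : CB.Pg 2 (fun x : (ℕ × List ℕ) × List Lit =>
          SeqT (HE a e₀) x.1.2.length x.2) := by
        have hf : Primrec (fun x : (ℕ × List ℕ) × List Lit => (x.1.2.length, x.2)) :=
          Primrec.pair (Primrec.list_length.comp (Primrec.snd.comp Primrec.fst)) Primrec.snd
        exact (pg_seqT ha h₀).comp hf
      have h3 := CB.Pg.all (p := fun (x : ℕ × List ℕ) (θ : List Lit) =>
        P x.1 θ x.2 → SeqT (HE a e₀) x.2.length θ) (CB.Pg.imp h1 h2)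
      exact CB.Pg.mono (by norm_num) h3
    · have h1 : CB.Sg 2 (fun x : ((ℕ × List ℕ) × ℕ) × List Lit =>
          P x.1.1.1 x.2 (x.1.1.2 ++ [x.1.2])) := by
        have hf : Primrec (fun x : ((ℕ × List ℕ) × ℕ) × List Lit =>
            (x.1.1.1, x.2, x.1.1.2 ++ [x.1.2])) := by
          refine Primrec.pair (Primrec.fst.comp (Primrec.fst.comp Primrec.fst))
            (Primrec.pair Primrec.snd ?_)
          exact Primrec.list_append.comp (Primrec.snd.comp (Primrec.fst.comp Primrec.fst))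
            (Primrec.list_cons.comp (Primrec.snd.comp Primrec.fst) (Primrec.const []))
        exact CB.Sg.mono (by norm_num) (hP1.comp hf)
      have h2 : CB.Sg 2 (fun x : ((ℕ × List ℕ) × ℕ) × List Lit =>
          ¬ SeqT (HE a e₀) (x.1.1.2.length + 1) x.2) := by
        have hf : Primrec (fun x : ((ℕ × List ℕ) × ℕ) × List Lit => (x.1.1.2.length + 1, x.2)) :=
          Primrec.pair (Primrec.succ.comp (Primrec.list_length.comp
            (Primrec.snd.comp (Primrec.fst.comp Primrec.fst)))) Primrec.snd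
        exact ((pg_seqT ha h₀).comp hf).not
      have h3 := CB.Sg.ex (p := fun (x : (ℕ × List ℕ) × ℕ) (θ : List Lit) =>
        P x.1.1 θ (x.1.2 ++ [x.2]) ∧ ¬ SeqT (HE a e₀) (x.1.2.length + 1) θ) (CB.Sg.and h1 h2)
      exact CB.Sg.all (p := fun (x : ℕ × List ℕ) (y : ℕ) => ∃ θ : List Lit,
        P x.1 θ (x.2 ++ [y]) ∧ ¬ SeqT (HE a e₀) (x.2.length + 1) θ) h3
  · intro e b
    refine and_congr_right fun hT => ?_
    unfold Basic Le2
    rw [List.ofFn_get]
    refine and_congr ?_ (and_congr ?_ ?_)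
    · refine forall_congr' fun k => forall_congr' fun Θ => ?_
      have e1 : (∀ v : List ℕ, v.length = k → ∃ θ ∈ Θ, P e₀ θ v) ↔
          ∀ v : Fin k → ℕ, ∃ θ ∈ Θ, PTrue (HE a e₀) θ (List.ofFn v) := by
        rw [forall_list_iff (C := fun l => ∃ θ ∈ Θ, PTrue (HE a e₀) θ l)]
        simp only [hP2 e₀ h₀]
      have e2 : (∀ v : List ℕ, v.length = k → ∃ θ ∈ Θ, P e θ v) ↔
          ∀ v : Fin k → ℕ, ∃ θ ∈ Θ, PTrue (HE a e) θ (List.ofFn v) := by
        rw [forall_list_iff (C := fun l => ∃ θ ∈ Θ, PTrue (HE a e) θ l)]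
        simp only [hP2 e hT]
      rw [e1, e2]
    · simp only [hP2 e hT]
    · simp only [hP2 e hT]

end Pool.Agent.Work.MP_ed0a9a_lc.E
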