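import Pool.Agent.Work.MP_ed0a9a_lc.E.Defs
import Pool.Agent.Work.MP_cb528c_lc.HierRe

/-!
# Computable structures and the arithmetical hierarchy: definitions (block `E`)

`CB.Sg n`, `CB.Pg n` (file `MP_cb528c_lc/Hier.lean`, closure properties in `HierApi.lean`,
`HierRe.lean`) are the classes `Σ⁰_n`, `Π⁰_n` of predicates on `Primcodable` types.
-/

namespace Pool.Agent.Work.MP_ed0a9a_lc.E

open FirstOrder FirstOrder.Language

/-- The `e`-th partial computable structure asked at time `t` about the symbol `i` and the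
tuple `v`: `some 1`: true; `some 0`: false. -/
def evq (e t i : ℕ) (v : List ℕ) : Option ℕ :=
  Nat.Partrec.Code.evaln t (Denumerable.ofNat Nat.Partrec.Code e)
    (Nat.pair i (Encodable.encode v))

/-- The relations of the `e`-th structure. -/
def HE (a : ℕ → ℕ) (e i : ℕ) (v : List ℕ) : Prop := v.length = a i ∧ ∃ t, evq e t i v = some 1

/-- The `e`-th partial computable structure is total. -/
def Tot (e : ℕ) : Prop := ∀ i v, ∃ t, evq e t i v = some 0 ∨ evq e t i v = some 1

/-- The `e`-th structure. -/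
@[reducible] def SE (a : ℕ → ℕ) (e : ℕ) : (sig a).Structure ℕ where
  funMap := fun f => Empty.elim f
  RelMap := fun r v => ∃ t, evq e t r.1 (List.ofFn v) = some 1

/-- `S` is a `Σ⁰₄` set of natural numbers. -/
def Sigma4 (S : Set ℕ) : Prop :=
  ∃ R : ℕ → ℕ → ℕ → ℕ → ℕ → Bool,
    (Computable fun p : ℕ × ℕ × ℕ × ℕ × ℕ => R p.1 p.2.1 p.2.2.1 p.2.2.2.1 p.2.2.2.2) ∧
      ∀ i, i ∈ S ↔ ∃ e, ∀ x, ∃ y, ∀ z, R i e x y z = true

end Pool.Agent.Work.MP_ed0a9a_lc.E
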