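import Pool.Agent.Work.MP_ed0a9a_lc.E.Fml
import Pool.Agent.Work.MP_ed0a9a_lc.E.BDefs

/-!
# Module `DsB` (size S-M): definable sets

PROOFS.  Relabel the variables: with `r : Fin (k + 1) → Fin (k + l + 1)`, `r i = i` for `i < k`, `r k = k + l` the last one, and
`r' : Fin (l + 1) → Fin (k + l + 1)`, `r' i = k + i`, `r' l = k + l` the formula `(φ.relabel r) ⊓ (χ.relabel r')` (`Formula.realize_relabel`,
`Formula.realize_inf`; `Fin.snoc (Fin.append c b) x ∘ r = Fin.snoc c x`, `… ∘ r' = Fin.snoc b x`); `∼`, `Formula.realize_not`;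
`x = c 0`: `Formula.equal`; `⊤`.  `dset_infinite`: by `exists_atMost`, if the set of the solutions is finite over `c` it has the same
number of elements over `c'`.
-/

namespace Pool.Agent.Work.MP_ed0a9a_lc.E

open FirstOrder FirstOrder.Language

variable {L : FirstOrder.Language.{0, 0}}

private theorem dsb_left {N : Type} {k l : ℕ} (c : Fin k → N) (b : Fin l → N) (x : N) :
    ((Fin.snoc (Fin.append c b) x : Fin (k + l + 1) → N) ∘
      (Fin.snoc (fun i : Fin k => (Fin.castAdd l i).castSucc) (Fin.last (k + l)) :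
        Fin (k + 1) → Fin (k + l + 1))) = (Fin.snoc c x : Fin (k + 1) → N) := by
  funext i
  refine Fin.lastCases ?_ (fun i => ?_) i
  · simp
  · simp

private theorem dsb_right {N : Type} {k l : ℕ} (c : Fin k → N) (b : Fin l → N) (x : N) :
    ((Fin.snoc (Fin.append c b) x : Fin (k + l + 1) → N) ∘
      (Fin.snoc (fun i : Fin l => (Fin.natAdd k i).castSucc) (Fin.last (k + l)) :
        Fin (l + 1) → Fin (k + l + 1))) = (Fin.snoc b x : Fin (l + 1) → N) := by
  funext i
  refine Fin.lastCases ?_ (fun i => ?_) i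
  · simp
  · rw [Function.comp_apply, Fin.snoc_castSucc, Fin.snoc_castSucc, Fin.snoc_castSucc,
      Fin.append_right]

theorem dset_inter {k l : ℕ} (φ : L.Formula (Fin (k + 1))) (χ : L.Formula (Fin (l + 1))) :
    ∃ ρ : L.Formula (Fin (k + l + 1)), ∀ (N : Type) [L.Structure N] (c : Fin k → N)
      (b : Fin l → N), Dset L ρ (Fin.append c b) = Dset L φ c ∩ Dset L χ b := by
  refine ⟨φ.relabel (Fin.snoc (fun i : Fin k => (Fin.castAdd l i).castSucc) (Fin.last (k + l)) :
      Fin (k + 1) → Fin (k + l + 1)) ⊓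
    χ.relabel (Fin.snoc (fun i : Fin l => (Fin.natAdd k i).castSucc) (Fin.last (k + l)) :
      Fin (l + 1) → Fin (k + l + 1)), ?_⟩
  intro N _ c b
  ext x
  simp only [Dset, Set.mem_setOf_eq, Set.mem_inter_iff, Formula.realize_inf,
    Formula.realize_relabel]
  rw [dsb_left, dsb_right]

theorem dset_diff {k l : ℕ} (φ : L.Formula (Fin (k + 1))) (χ : L.Formula (Fin (l + 1))) :
    ∃ ρ : L.Formula (Fin (k + l + 1)), ∀ (N : Type) [L.Structure N] (c : Fin k → N)
      (b : Fin l → N), Dset L ρ (Fin.append c b) = Dset L φ c \ Dset L χ b := by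
  refine ⟨φ.relabel (Fin.snoc (fun i : Fin k => (Fin.castAdd l i).castSucc) (Fin.last (k + l)) :
      Fin (k + 1) → Fin (k + l + 1)) ⊓
    ∼(χ.relabel (Fin.snoc (fun i : Fin l => (Fin.natAdd k i).castSucc) (Fin.last (k + l)) :
      Fin (l + 1) → Fin (k + l + 1))), ?_⟩
  intro N _ c b
  ext x
  simp only [Dset, Set.mem_setOf_eq, Set.mem_diff, Formula.realize_inf, Formula.realize_not,
    Formula.realize_relabel]
  rw [dsb_left, dsb_right]

theorem dset_relabel {k m : ℕ} (φ : L.Formula (Fin (k + 1))) (g : Fin k → Fin m) :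
    ∃ ρ : L.Formula (Fin (m + 1)), ∀ (N : Type) [L.Structure N] (c : Fin m → N),
      Dset L ρ c = Dset L φ (c ∘ g) := by
  refine ⟨φ.relabel (Fin.snoc (fun i : Fin k => (g i).castSucc) (Fin.last m) :
      Fin (k + 1) → Fin (m + 1)), ?_⟩
  intro N _ c
  ext x
  simp only [Dset, Set.mem_setOf_eq, Formula.realize_relabel]
  have h : ((Fin.snoc c x : Fin (m + 1) → N) ∘
      (Fin.snoc (fun i : Fin k => (g i).castSucc) (Fin.last m) : Fin (k + 1) → Fin (m + 1))) =
      (Fin.snoc (c ∘ g) x : Fin (k + 1) → N) := by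
    funext i
    refine Fin.lastCases ?_ (fun i => ?_) i
    · simp
    · simp
  rw [h]

theorem dset_single : ∃ ρ : L.Formula (Fin (1 + 1)), ∀ (N : Type) [L.Structure N]
    (c : Fin 1 → N), Dset L ρ c = {c 0} := by
  obtain ⟨ψ, hψ⟩ := exists_eq_fml (L := L) (k := 1 + 1) (Fin.last 1) (Fin.castSucc 0)
  refine ⟨ψ, ?_⟩
  intro N _ c
  ext x
  simp only [Dset, Set.mem_setOf_eq, Set.mem_singleton_iff]
  rw [hψ, Fin.snoc_last, Fin.snoc_castSucc]

theorem dset_univ : ∃ ρ : L.Formula (Fin (0 + 1)), ∀ (N : Type) [L.Structure N]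
    (c : Fin 0 → N), Dset L ρ c = Set.univ := by
  refine ⟨⊤, ?_⟩
  intro N _ c
  ext x
  simp [Dset]

theorem dset_infinite {N N' : Type} [L.Structure N] [L.Structure N'] {k : ℕ} {c : Fin k → N}
    {c' : Fin k → N'} (h : SameTp L c c') (φ : L.Formula (Fin (k + 1)))
    (hi : (Dset L φ c).Infinite) : (Dset L φ c').Infinite := by
  intro hf
  obtain ⟨ψ, hψ⟩ := exists_atMost (L := L) φ (Dset L φ c').ncard
  have h1 : ψ.Realize c' := (hψ N' c').2 ⟨hf, le_refl _⟩
  have h2 : ψ.Realize c := (h ψ).2 h1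
  exact hi ((hψ N c).1 h2).1

theorem dset_nonempty {N N' : Type} [L.Structure N] [L.Structure N'] {k : ℕ} {c : Fin k → N}
    {c' : Fin k → N'} (h : SameTp L c c') (φ : L.Formula (Fin (k + 1)))
    (hi : (Dset L φ c).Nonempty) : (Dset L φ c').Nonempty := by
  obtain ⟨ψ, hψ⟩ := exists_ex (L := L) φ
  have h1 : ψ.Realize c := (hψ N c).2 hi
  exact (hψ N' c').1 ((h ψ).1 h1)

end Pool.Agent.Work.MP_ed0a9a_lc.E
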