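import Pool.Agent.Work.MP_ed0a9a_lc.E.PElL
import Pool.Agent.Work.MP_ed0a9a_lc.E.DsB

/-!
# Module `CExt` (size M): extension of partial elementary maps

PROOFS.
* `pel_isol`: let `ψ(e, ·)` isolate the type of `y` over `B`.  `∃ x, ψ(e, x)` gives `y'` with `ψ(g ∘ e, y')` (`PEl`, `dset_nonempty`).
  If `y ∈ B`: the formula `x = y` is over `B`, so `ψ(e, x) → x = y` in `N`, hence `ψ(g ∘ e, x) → x = g y` in `N'` and `y' = g y`.  So in all
  cases `Function.update g y y'` agrees with `g` on `B`.  `PEl`: a tuple in `insert y B` is built from a tuple `b` in `B` and `y`; let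
  `χ(b, y)` hold; then `∀ x, ψ(e, x) → χ(b, x)` in `N`, so `∀ x, ψ(g ∘ e, x) → χ(g ∘ b, x)` in `N'`, so `χ(g ∘ b, y')`; apply this to `χ` and
  `∼χ`.
* `constr_ext`: let `u` be the sequence of `Constr`, `C n = B ∪ u '' {m | m < n}`.  Recursively `G 0 = g`,
  `G (n + 1) = Function.update (G n) (u n) y'` from `pel_isol` (`C (n + 1) = insert (u n) (C n)`).  `pel_limit`, `emb_of_pel`; the union of the
  `C n` is everything.
-/

set_option autoImplicit false

namespace Pool.Agent.Work.MP_ed0a9a_lc.E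

open FirstOrder FirstOrder.Language

variable {L : FirstOrder.Language.{0, 0}} {N N' : Type} [L.Structure N] [L.Structure N']

private theorem cext_append {k l : ℕ} (g : N → N') (e : Fin k → N) (b : Fin l → N) :
    g ∘ (Fin.append e b) = Fin.append (g ∘ e) (g ∘ b) := by
  funext i
  refine Fin.addCases (fun i => ?_) (fun i => ?_) i
  · simp [Fin.append_left]
  · simp [Fin.append_right]

private theorem cext_tuple {B : Set N} {y : N} {m : ℕ} (t : Fin m → N)
    (ht : ∀ i, t i ∈ insert y B) : ∃ (l : ℕ) (b : Fin l → N) (r : Fin m → Fin (l + 1)),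
      (∀ i, b i ∈ B) ∧ (∀ i, t i ∈ B → ∃ j, r i = Fin.castSucc j ∧ b j = t i) ∧
      (∀ i, t i ∉ B → r i = Fin.last l ∧ t i = y) := by
  classical
  let e : {i // t i ∈ B} ≃ Fin (Fintype.card {i // t i ∈ B}) := Fintype.equivFin _
  refine ⟨Fintype.card {i // t i ∈ B}, fun j => t (e.symm j).1,
    fun i => if h : t i ∈ B then Fin.castSucc (e ⟨i, h⟩) else Fin.last _, ?_, ?_, ?_⟩
  · exact fun i => (e.symm i).2
  · intro i hi
    refine ⟨e ⟨i, hi⟩, ?_, ?_⟩
    · show (if h : t i ∈ B then Fin.castSucc (e ⟨i, h⟩) else Fin.last _) = _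
      rw [dif_pos hi]
    · show t (e.symm (e ⟨i, hi⟩)).1 = t i
      rw [Equiv.symm_apply_apply]
  · intro i hi
    refine ⟨?_, (ht i).resolve_right hi⟩
    show (if h : t i ∈ B then Fin.castSucc (e ⟨i, h⟩) else Fin.last _) = _
    rw [dif_neg hi]

open Classical in
theorem pel_isol {B : Set N} {g : N → N'} (h : PEl L B g) {y : N} (hy : IsolS L B y) :
    ∃ y' : N', PEl L (insert y B) (Function.update g y y') ∧
      ∀ x ∈ B, Function.update g y y' x = g x := by
  obtain ⟨k, e, ψ, he, hψ, hiso⟩ := hy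
  obtain ⟨y', hy'⟩ := dset_nonempty (h k e he) ψ ⟨y, hψ⟩
  have key : ∀ (l : ℕ) (b : Fin l → N) (χ : L.Formula (Fin (l + 1))), (∀ i, b i ∈ B) →
      χ.Realize (Fin.snoc b y : Fin (l + 1) → N) →
      χ.Realize (Fin.snoc (g ∘ b) y' : Fin (l + 1) → N') := by
    intro l b χ hb hχ
    by_contra hcon
    obtain ⟨ρ, hρ⟩ := dset_diff ψ χ
    have h1 : SameTp L (Fin.append e b) (g ∘ Fin.append e b) := by
      refine h _ _ fun i => ?_
      refine Fin.addCases (fun i => ?_) (fun i => ?_) i
      · rw [Fin.append_left]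
        exact he i
      · rw [Fin.append_right]
        exact hb i
    rw [cext_append] at h1
    obtain ⟨z, hz⟩ := dset_nonempty h1.symm' ρ (by
      rw [hρ]
      exact ⟨y', hy', hcon⟩)
    rw [hρ] at hz
    exact hz.2 (hiso l b χ hb hχ z hz.1)
  have hag : ∀ x ∈ B, Function.update g y y' x = g x := by
    intro x hx
    by_cases hxy : x = y
    · subst hxy
      rw [Function.update_self]
      obtain ⟨ρ, hρ⟩ := dset_single (L := L)
      have h1 : y' ∈ Dset L ρ (g ∘ fun _ : Fin 1 => x) := by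
        refine key 1 (fun _ => x) ρ (fun _ => hx) ?_
        have h2 : x ∈ Dset L ρ (fun _ : Fin 1 => x) := by
          rw [hρ]
          rfl
        exact h2
      rw [hρ] at h1
      exact h1
    · exact Function.update_of_ne hxy _ _
  refine ⟨y', ?_, hag⟩
  have key2 : ∀ (m : ℕ) (t : Fin m → N), (∀ i, t i ∈ insert y B) → ∀ φ : L.Formula (Fin m),
      φ.Realize t → φ.Realize (Function.update g y y' ∘ t) := by
    intro m t ht φ hφ
    obtain ⟨l, b, r, hb, h1, h2⟩ := cext_tuple t ht
    have h3 : (Fin.snoc b y : Fin (l + 1) → N) ∘ r = t := by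
      funext i
      by_cases hi : t i ∈ B
      · obtain ⟨j, hj, hj'⟩ := h1 i hi
        rw [Function.comp_apply, hj, Fin.snoc_castSucc, hj']
      · obtain ⟨hj, hj'⟩ := h2 i hi
        rw [Function.comp_apply, hj, Fin.snoc_last, hj']
    have h4 : (Fin.snoc (g ∘ b) y' : Fin (l + 1) → N') ∘ r = Function.update g y y' ∘ t := by
      funext i
      by_cases hi : t i ∈ B
      · obtain ⟨j, hj, hj'⟩ := h1 i hi
        rw [Function.comp_apply, hj, Fin.snoc_castSucc, Function.comp_apply, hj',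
          Function.comp_apply, hag _ hi]
      · obtain ⟨hj, hj'⟩ := h2 i hi
        rw [Function.comp_apply, hj, Fin.snoc_last, Function.comp_apply, hj',
          Function.update_self]
    have h5 := key l b (φ.relabel r) hb (by
      rw [Formula.realize_relabel, h3]
      exact hφ)
    rw [Formula.realize_relabel, h4] at h5
    exact h5
  intro m t ht φ
  constructor
  · exact key2 m t ht φ
  · intro h1
    by_contra h2
    have h3 := key2 m t ht (Formula.not φ) (by
      rw [Formula.realize_not]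
      exact h2)
    rw [Formula.realize_not] at h3
    exact h3 h1

theorem constr_ext [Nonempty N'] {B : Set N} (hB : Constr L B) {g : N → N'}
    (h : PEl L B g) : ∃ f : N ↪ₑ[L] N', ∀ x ∈ B, f x = g x := by
  classical
  obtain ⟨u, hu, hiso⟩ := hB
  have hstep : ∀ n, B ∪ u '' {m | m < n + 1} = insert (u n) (B ∪ u '' {m | m < n}) := by
    intro n
    ext x
    constructor
    · rintro (hx | ⟨m, hm, rfl⟩)
      · exact Or.inr (Or.inl hx)
      · rcases Nat.lt_succ_iff_lt_or_eq.1 hm with h1 | h1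
        · exact Or.inr (Or.inr ⟨m, h1, rfl⟩)
        · rw [h1]
          exact Or.inl rfl
    · rintro (rfl | hx | ⟨m, hm, rfl⟩)
      · exact Or.inr ⟨n, Nat.lt_succ_self n, rfl⟩
      · exact Or.inl hx
      · exact Or.inr ⟨m, Nat.lt_succ_of_lt hm, rfl⟩
  have h0 : B ∪ u '' {m | m < 0} = B := by
    ext x
    constructor
    · rintro (hx | ⟨m, hm, rfl⟩)
      · exact hx
      · exact absurd hm (Nat.not_lt_zero m)
    · exact Or.inl
  have hnext : ∀ (n : ℕ) (G : {G : N → N' // PEl L (B ∪ u '' {m | m < n}) G}),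
      ∃ G' : {G : N → N' // PEl L (B ∪ u '' {m | m < n + 1}) G},
        ∀ x ∈ B ∪ u '' {m | m < n}, G'.1 x = G.1 x := by
    intro n G
    obtain ⟨y', h1, h2⟩ := pel_isol G.2 (hiso n)
    exact ⟨⟨Function.update G.1 (u n) y', by rw [hstep]; exact h1⟩, h2⟩
  choose nx hnx using hnext
  let GG : ∀ n, {G : N → N' // PEl L (B ∪ u '' {m | m < n}) G} := fun n =>
    Nat.rec ⟨g, by rw [h0]; exact h⟩ (fun n G => nx n G) n
  obtain ⟨f, hf1, hf2⟩ := pel_limit (fun n => B ∪ u '' {m | m < n}) (by
    intro n n' hnn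
    exact Set.union_subset_union_right _ (Set.image_mono fun m hm => lt_of_lt_of_le hm hnn))
    (fun n => (GG n).1) (fun n => (GG n).2) (fun n x hx => hnx n (GG n) x hx)
  have hun : (⋃ n, (B ∪ u '' {m | m < n})) = Set.univ := by
    refine Set.eq_univ_of_forall fun x => ?_
    have hx : x ∈ B ∪ Set.range u := by
      rw [hu]
      trivial
    rcases hx with hx | ⟨n, rfl⟩
    · exact Set.mem_iUnion.2 ⟨0, Or.inl hx⟩
    · exact Set.mem_iUnion.2 ⟨n + 1, Or.inr ⟨n, Nat.lt_succ_self n, rfl⟩⟩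
  rw [hun] at hf1
  obtain ⟨F, hF⟩ := emb_of_pel f hf1
  refine ⟨F, fun x hx => ?_⟩
  rw [hF, hf2 0 x (Or.inl hx)]
  rfl

end Pool.Agent.Work.MP_ed0a9a_lc.E
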