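import Pool.Agent.Work.MP_ed0a9a_lc.E.CDefs

/-!
# Module `CIso` (size S-M): computable copies are isomorphic to some `SE a e`, `e` total

PROOFS.
* `hd_SE`: `hd a (SE a e) i l` is: `l.length = a i` and for the tuple of `l`, `∃ t, evq e t i (List.ofFn ..) = some 1`,
  and `List.ofFn (fun t => l.get (t.cast _)) = l`.
* `hasCompCopy_iff` (`→`): given `S`, `r`; the function `fun p => encode (r p.unpair.1 (decode p.unpair.2))` is computable; by
  `Nat.Partrec.Code.exists_code` and `Denumerable.ofNat` surjective there is `e` with
  `eval (ofNat Code e) (pair i (encode v)) = Part.some (encode (r i v))` for all `i`, `v` (`encode true = 1`, `encode false = 0`);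
  by `Nat.Partrec.Code.evaln_complete` `r i v = true ↔ ∃ t, evq e t i v = some 1` (uniqueness of the value:
  `evaln_sound`), and `Tot e`; the identity is an isomorphism of `S` and `SE a e`.
  (`←`): `S = SE a e`, `r i v = true` iff the value is `1`: `r` is computable by an unbounded search (`Partrec.rfindOpt`,
  or `Nat.Partrec.Code.eval_part`: the partial function `eval (ofNat Code e) (pair i (encode v))` is partial recursive and
  total, compare its value with `1`).
-/

namespace Pool.Agent.Work.MP_ed0a9a_lc.E

open FirstOrder FirstOrder.Language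

private theorem ofFn_get_cast {α : Type} (l : List α) (n : ℕ) (h : l.length = n) :
    List.ofFn (fun t : Fin n => l.get (t.cast h.symm)) = l := by
  subst h
  simp

private theorem evq_iff (e i : ℕ) (v : List ℕ) (b : ℕ) :
    (∃ t, evq e t i v = some b) ↔
      b ∈ Nat.Partrec.Code.eval (Denumerable.ofNat Nat.Partrec.Code e)
        (Nat.pair i (Encodable.encode v)) := by
  rw [Nat.Partrec.Code.evaln_complete]
  rfl

theorem hd_SE (a : ℕ → ℕ) (e : ℕ) : hd a (SE a e) = HE a e := by
  funext i l
  apply propext
  constructor
  · rintro ⟨h, t, ht⟩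
    refine ⟨h, t, ?_⟩
    rw [← ht, ofFn_get_cast l (a i) h]
  · rintro ⟨h, t, ht⟩
    refine ⟨h, t, ?_⟩
    rw [← ht, ofFn_get_cast l (a i) h]

theorem hasCompCopy_iff {a : ℕ → ℕ} (A : Type) [(sig a).Structure A] :
    HasCompCopy a A ↔ ∃ e, Tot e ∧ (letI := SE a e; Nonempty (A ≃[sig a] ℕ)) := by
  constructor
  · rintro ⟨S, r, hr, hS, ⟨g⟩⟩
    have hF : Computable (fun n : ℕ => Encodable.encode
        (r n.unpair.1 ((Encodable.decode (α := List ℕ) n.unpair.2).getD []))) := by
      refine Computable.encode.comp (hr.comp (Computable.fst.comp Computable.unpair) ?_)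
      exact Computable.option_getD (Computable.decode.comp (Computable.snd.comp Computable.unpair))
        (Computable.const [])
    obtain ⟨c, hc⟩ := Nat.Partrec.Code.exists_code.1 (Partrec.nat_iff.1 hF.partrec)
    have hval : ∀ i v b, (∃ t, evq (Encodable.encode c) t i v = some b) ↔
        b = Encodable.encode (r i v) := by
      intro i v b
      rw [evq_iff, Denumerable.ofNat_encode, hc]
      simp
    refine ⟨Encodable.encode c, ?_, ?_⟩
    · intro i v
      cases hb : r i v with
      | false =>
        obtain ⟨t, ht⟩ := (hval i v 0).2 (by rw [hb]; rfl)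
        exact ⟨t, Or.inl ht⟩
      | true =>
        obtain ⟨t, ht⟩ := (hval i v 1).2 (by rw [hb]; rfl)
        exact ⟨t, Or.inr ht⟩
    · have hSE : S = SE a (Encodable.encode c) := by
        apply FirstOrder.Language.Structure.ext
        · funext n f
          exact Empty.elim f
        · funext n q v
          obtain ⟨i, hi⟩ := q
          subst hi
          apply propext
          rw [← hS i v]
          change _ ↔ ∃ t, evq (Encodable.encode c) t i (List.ofFn v) = some 1
          rw [hval]
          cases r i (List.ofFn v) <;> simp
      subst hSE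
      exact ⟨g⟩
  · rintro ⟨e, he, ⟨g⟩⟩
    classical
    refine ⟨SE a e, fun i v => decide (∃ t, evq e t i v = some 1), ?_, ?_, ⟨g⟩⟩
    · have hp : Partrec (fun p : ℕ × List ℕ =>
          Nat.Partrec.Code.eval (Denumerable.ofNat Nat.Partrec.Code e)
            (Nat.pair p.1 (Encodable.encode p.2))) := by
        refine Nat.Partrec.Code.eval_part.comp (Computable.const _) ?_
        exact (Primrec₂.natPair.to_comp).comp Computable.fst (Computable.encode.comp Computable.snd)
      have hc : Computable (fun p : ℕ × List ℕ =>
          (if ∃ t, evq e t p.1 p.2 = some 1 then 1 else 0 : ℕ)) := by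
        refine Partrec.of_eq hp ?_
        intro p
        apply Part.eq_some_iff.2
        by_cases h : ∃ t, evq e t p.1 p.2 = some 1
        · have h1 := (evq_iff e p.1 p.2 1).1 h
          show (if ∃ t, evq e t p.1 p.2 = some 1 then 1 else 0 : ℕ) ∈
            Nat.Partrec.Code.eval (Denumerable.ofNat Nat.Partrec.Code e)
              (Nat.pair p.1 (Encodable.encode p.2))
          rw [if_pos h]
          exact h1
        · show (if ∃ t, evq e t p.1 p.2 = some 1 then 1 else 0 : ℕ) ∈
            Nat.Partrec.Code.eval (Denumerable.ofNat Nat.Partrec.Code e)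
              (Nat.pair p.1 (Encodable.encode p.2))
          rw [if_neg h]
          obtain ⟨t, ht | ht⟩ := he p.1 p.2
          · exact (evq_iff _ _ _ _).1 ⟨t, ht⟩
          · exact absurd ⟨t, ht⟩ h
      have hd : Computable (fun n : ℕ => decide (n = 1)) :=
        (Primrec.eq.decide.comp Primrec.id (Primrec.const 1)).to_comp
      refine (hd.comp hc).of_eq ?_
      intro p
      by_cases h : ∃ t, evq e t p.1 p.2 = some 1
      · simp [h]
      · simp [h]
    · intro i v
      rw [decide_eq_true_iff]
      rfl

end Pool.Agent.Work.MP_ed0a9a_lc.E
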