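import Pool.Agent.Work.MP_ed0a9a_lc.E.CBas

/-!
# Module `CMain` (size S-M): the final set is `Σ⁰₄`

PROOFS.
* `sigma4_of_sg`: `CB.sg_succ_iff`, `CB.pg_succ_iff` four times (level `0` is primitive recursive, `pg_zero_iff` in
  `MP_cb528c_lc/HierRe.lean`), `Primrec.to_comp`.
* `sigma4_final`: `i ∈ S` iff `∃ e, ∃ b : List ℕ, b.length = d₀ + i ∧ P e b` with `P` from `exists_pg_basic` (the predicate
  `b.length = d₀ + i` is primitive recursive): `Sg 4` by `CB.Pg.ex`, `CB.Sg.ex`; for `b : Fin (d₀ + i) → ℕ` take `List.ofFn b` and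
  conversely (a `Fin.cast`; generalize the length).
-/

namespace Pool.Agent.Work.MP_ed0a9a_lc.E

theorem sigma4_of_sg {S : Set ℕ} (h : CB.Sg 4 (fun n : ℕ => n ∈ S)) : Sigma4 S := by
  obtain ⟨q1, h1, e1⟩ := CB.sg_succ_iff.1 h
  obtain ⟨q2, h2, e2⟩ := CB.pg_succ_iff.1 h1
  obtain ⟨q3, h3, e3⟩ := CB.sg_succ_iff.1 h2
  obtain ⟨q4, ⟨s, ⟨f, hf, hs⟩, h4⟩, e4⟩ := CB.pg_succ_iff.1 h3
  refine ⟨fun i e x y z => f (Encodable.encode ((((i, e), x), y), z)), ?_, ?_⟩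
  · refine (hf.comp (Primrec.encode.comp ?_)).to_comp
    have p1 : Primrec (fun p : ℕ × ℕ × ℕ × ℕ × ℕ => p.1) := Primrec.fst
    have p2 : Primrec (fun p : ℕ × ℕ × ℕ × ℕ × ℕ => p.2.1) := Primrec.fst.comp Primrec.snd
    have p3 : Primrec (fun p : ℕ × ℕ × ℕ × ℕ × ℕ => p.2.2.1) :=
      Primrec.fst.comp (Primrec.snd.comp Primrec.snd)
    have p4 : Primrec (fun p : ℕ × ℕ × ℕ × ℕ × ℕ => p.2.2.2.1) :=
      Primrec.fst.comp (Primrec.snd.comp (Primrec.snd.comp Primrec.snd))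
    have p5 : Primrec (fun p : ℕ × ℕ × ℕ × ℕ × ℕ => p.2.2.2.2) :=
      Primrec.snd.comp (Primrec.snd.comp (Primrec.snd.comp Primrec.snd))
    exact (((p1.pair p2).pair p3).pair p4).pair p5
  · intro i
    rw [e1 i]
    refine exists_congr fun e => ?_
    rw [e2 (i, e)]
    refine forall_congr' fun x => ?_
    rw [e3 ((i, e), x)]
    refine exists_congr fun y => ?_
    rw [e4 (((i, e), x), y)]
    refine forall_congr' fun z => ?_
    rw [← hs, ← h4]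

theorem sigma4_final {a : ℕ → ℕ} (ha : Computable a) {e₀ : ℕ} (h₀ : Tot e₀) (d₀ : ℕ) :
    Sigma4 {i : ℕ | ∃ e, Tot e ∧ ∃ b : Fin (d₀ + i) → ℕ, Basic (HE a e₀) (HE a e) b} := by
  apply sigma4_of_sg
  obtain ⟨P, hP, hPe⟩ := exists_pg_basic ha h₀
  have hlen : CB.Pg 3 (fun x : (ℕ × ℕ) × List ℕ => x.2.length = d₀ + x.1.1) := by
    refine CB.Pg.of_primrec (f := fun x : (ℕ × ℕ) × List ℕ => decide (x.2.length = d₀ + x.1.1))
      ?_ (fun x => by rw [decide_eq_true_iff]) 3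
    exact (Primrec.eq.comp (Primrec.list_length.comp Primrec.snd)
      (Primrec.nat_add.comp (Primrec.const d₀) (Primrec.fst.comp Primrec.fst))).decide
  have hP' : CB.Pg 3 (fun x : (ℕ × ℕ) × List ℕ => P x.1.2 x.2) :=
    hP.comp (f := fun x : (ℕ × ℕ) × List ℕ => (x.1.2, x.2))
      ((Primrec.snd.comp Primrec.fst).pair Primrec.snd)
  have h1 : CB.Sg 4 (fun x : ℕ × ℕ => ∃ b : List ℕ, b.length = d₀ + x.1 ∧ P x.2 b) :=
    CB.Pg.ex (p := fun (x : ℕ × ℕ) (b : List ℕ) => b.length = d₀ + x.1 ∧ P x.2 b)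
      (hlen.and hP')
  have h2 : CB.Sg 4 (fun i : ℕ => ∃ e, ∃ b : List ℕ, b.length = d₀ + i ∧ P e b) :=
    CB.Sg.ex (p := fun (i e : ℕ) => ∃ b : List ℕ, b.length = d₀ + i ∧ P e b) h1
  refine h2.congr fun i => ?_
  rw [Set.mem_ofPred_eq]
  refine exists_congr fun e => ?_
  generalize d₀ + i = n
  constructor
  · rintro ⟨b, hb, hPb⟩
    subst hb
    obtain ⟨h3, h4⟩ := (hPe e b).1 hPb
    exact ⟨h3, b.get, h4⟩
  · rintro ⟨h3, b, h4⟩
    refine ⟨List.ofFn b, List.length_ofFn, (hPe e _).2 ⟨h3, ?_⟩⟩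
    have key : ∀ (m : ℕ) (hm : m = n) (c : Fin m → ℕ), (∀ i, c i = b (i.cast hm)) →
        Basic (HE a e₀) (HE a e) c := by
      intro m hm c hc
      subst hm
      have : c = b := funext hc
      rw [this]
      exact h4
    refine key _ List.length_ofFn _ fun i => ?_
    rw [List.get_ofFn]

end Pool.Agent.Work.MP_ed0a9a_lc.E
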