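import Pool.Agent.Work.MP_ed0a9a_lc.E.CDefs

/-!
# Module `CPT` (size M): truth of primitive formulas is `Σ⁰₁`

PROOF.  Let `ca` be a code of `a` (`Nat.Partrec.Code.exists_code`).  Verification of the literal `l` at stage `t` for
the values `w`: `LV t e w l : Bool` is true iff all variables in `l.2.1` are `< w.length` and, with
`v = l.2.1.map (fun x => w.getD x 0)`:
* `l.1 = 0`: `decide (v.length = 2 ∧ v[0] = v[1]) = l.2.2`;
* `l.1 = i + 1`: `evaln t ca i = some n` and: if `v.length ≠ n` then `l.2.2 = false`; if `v.length = n` then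
  `evq e t i v = some 1` and `l.2.2 = true`, or `evq e t i v = some 0` and `l.2.2 = false`.
`LV` is primitive recursive (`Nat.Partrec.Code.primrec_evaln`).  `P e θ b := ∃ (t : ℕ) (w : List ℕ), b.length ≤ w.length ∧
w.take b.length = b ∧ θ.all (LV t e w) = true`.  It is `Sg 1` by `CB.Sg.of_primrec`, `CB.Sg.ex` (primitive recursiveness of
`List.all` with parameters: fold, or see `primrec_all` in `Pool/Agent/Work/MP_ed0a9a_lc/H/Pa.lean` or `H/Kit.lean`; copy the
proof, do not import).
Let `Tot e`.  `P e θ b → PTrue (HE a e) θ b`: the assignment `c x = w.getD x 0` (uniqueness of values of `evaln`: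
`evaln_sound`).  Conversely let `c : ℕ → ℕ` be an assignment for `PTrue`; let `M ≥ b.length` be larger than all variables of
`θ`, `w = (List.range M).map c`, and `t` so large that `evaln t ca i` and `evq e t i v` are defined for all the finitely many
`i`, `v` needed (`evaln_mono`, `Tot e`).
-/

namespace Pool.Agent.Work.MP_ed0a9a_lc.E

open Nat.Partrec (Code)
open Nat.Partrec.Code (evaln)

/-- the values of the variables of a literal -/
private def vv (l : Lit) (w : List ℕ) : List ℕ := l.2.1.map fun y => w.getD y 0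

/-- verification of a literal at stage `x.1` for the structure `x.2.1` and the values `x.2.2` -/
private def LVR (ca : Code) (l : Lit) (x : ℕ × ℕ × List ℕ) : Prop :=
  (∀ y ∈ l.2.1, y < x.2.2.length) ∧
  ((l.1 = 0 ∧ (((vv l x.2.2).length = 2 ∧ (vv l x.2.2).getD 0 0 = (vv l x.2.2).getD 1 0) ∧
        l.2.2 = true ∨
      ¬ ((vv l x.2.2).length = 2 ∧ (vv l x.2.2).getD 0 0 = (vv l x.2.2).getD 1 0) ∧
        l.2.2 = false)) ∨
   (¬ l.1 = 0 ∧ ¬ evaln x.1 ca (l.1 - 1) = none ∧
     ((¬ evaln x.1 ca (l.1 - 1) = some (vv l x.2.2).length ∧ l.2.2 = false) ∨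
      (evaln x.1 ca (l.1 - 1) = some (vv l x.2.2).length ∧
        evq x.2.1 x.1 (l.1 - 1) (vv l x.2.2) = some (cond l.2.2 1 0)))))

private theorem prim_vv : Primrec fun z : Lit × (ℕ × ℕ × List ℕ) => vv z.1 z.2.2.2 := by
  have h : Primrec₂ fun (z : Lit × (ℕ × ℕ × List ℕ)) (y : ℕ) => z.2.2.2.getD y 0 :=
    (Primrec.list_getD 0).comp
      (Primrec.snd.comp (Primrec.snd.comp (Primrec.snd.comp Primrec.fst))) Primrec.snd
  exact Primrec.list_map (Primrec.fst.comp (Primrec.snd.comp Primrec.fst)) h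

private theorem prim_LVR (ca : Code) : PrimrecRel (LVR ca) := by
  have hl : Primrec fun z : Lit × (ℕ × ℕ × List ℕ) => z.1.1 := Primrec.fst.comp Primrec.fst
  have hs : Primrec fun z : Lit × (ℕ × ℕ × List ℕ) => z.1.2.2 :=
    Primrec.snd.comp (Primrec.snd.comp Primrec.fst)
  have ht : Primrec fun z : Lit × (ℕ × ℕ × List ℕ) => z.2.1 := Primrec.fst.comp Primrec.snd
  have he : Primrec fun z : Lit × (ℕ × ℕ × List ℕ) => z.2.2.1 :=
    Primrec.fst.comp (Primrec.snd.comp Primrec.snd)
  have hw : Primrec fun z : Lit × (ℕ × ℕ × List ℕ) => z.2.2.2 :=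
    Primrec.snd.comp (Primrec.snd.comp Primrec.snd)
  have hi : Primrec fun z : Lit × (ℕ × ℕ × List ℕ) => z.1.1 - 1 :=
    Primrec.nat_sub.comp hl (Primrec.const 1)
  have hlen : Primrec fun z : Lit × (ℕ × ℕ × List ℕ) => (vv z.1 z.2.2.2).length :=
    Primrec.list_length.comp prim_vv
  have hev : Primrec fun z : Lit × (ℕ × ℕ × List ℕ) => evaln z.2.1 ca (z.1.1 - 1) :=
    Nat.Partrec.Code.primrec_evaln.comp ((ht.pair (Primrec.const ca)).pair hi)
  have hq : Primrec fun z : Lit × (ℕ × ℕ × List ℕ) =>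
      evq z.2.2.1 z.2.1 (z.1.1 - 1) (vv z.1 z.2.2.2) := by
    refine Nat.Partrec.Code.primrec_evaln.comp ((ht.pair ((Primrec.ofNat Code).comp he)).pair ?_)
    exact Primrec₂.natPair.comp hi (Primrec.encode.comp prim_vv)
  have p1 : PrimrecPred fun z : Lit × (ℕ × ℕ × List ℕ) => ∀ y ∈ z.1.2.1, y < z.2.2.2.length := by
    have h := PrimrecRel.forall_mem_list Primrec.nat_lt
    exact PrimrecRel.comp h (Primrec.fst.comp (Primrec.snd.comp Primrec.fst))
      (Primrec.list_length.comp hw)
  have p2 : PrimrecPred fun z : Lit × (ℕ × ℕ × List ℕ) => (vv z.1 z.2.2.2).length = 2 ∧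
      (vv z.1 z.2.2.2).getD 0 0 = (vv z.1 z.2.2.2).getD 1 0 :=
    (Primrec.eq.comp hlen (Primrec.const 2)).and
      (Primrec.eq.comp ((Primrec.list_getD 0).comp prim_vv (Primrec.const 0))
        ((Primrec.list_getD 0).comp prim_vv (Primrec.const 1)))
  have p3 : PrimrecPred fun z : Lit × (ℕ × ℕ × List ℕ) => z.1.2.2 = true :=
    Primrec.eq.comp hs (Primrec.const true)
  have p4 : PrimrecPred fun z : Lit × (ℕ × ℕ × List ℕ) => z.1.2.2 = false :=
    Primrec.eq.comp hs (Primrec.const false)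
  have p5 : PrimrecPred fun z : Lit × (ℕ × ℕ × List ℕ) => z.1.1 = 0 :=
    Primrec.eq.comp hl (Primrec.const 0)
  have p6 : PrimrecPred fun z : Lit × (ℕ × ℕ × List ℕ) => evaln z.2.1 ca (z.1.1 - 1) = none :=
    Primrec.eq.comp hev (Primrec.const none)
  have p7 : PrimrecPred fun z : Lit × (ℕ × ℕ × List ℕ) =>
      evaln z.2.1 ca (z.1.1 - 1) = some (vv z.1 z.2.2.2).length :=
    Primrec.eq.comp hev (Primrec.option_some.comp hlen)
  have p8 : PrimrecPred fun z : Lit × (ℕ × ℕ × List ℕ) =>
      evq z.2.2.1 z.2.1 (z.1.1 - 1) (vv z.1 z.2.2.2) = some (cond z.1.2.2 1 0) :=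
    Primrec.eq.comp hq (Primrec.option_some.comp
      (Primrec.cond hs (Primrec.const 1) (Primrec.const 0)))
  exact p1.and ((p5.and ((p2.and p3).or (p2.not.and p4))).or
    (p5.not.and (p6.not.and ((p7.not.and p4).or (p7.and p8)))))

private theorem evq_uniq {e t t' i : ℕ} {v : List ℕ} {x y : ℕ} (h : evq e t i v = some x)
    (h' : evq e t' i v = some y) : x = y := by
  have h1 := Nat.Partrec.Code.evaln_sound (Option.mem_def.2 h)
  have h2 := Nat.Partrec.Code.evaln_sound (Option.mem_def.2 h')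
  exact Part.mem_unique h1 h2

private theorem evq_mono {e t t' i : ℕ} {v : List ℕ} {x : ℕ} (ht : t ≤ t')
    (h : evq e t i v = some x) : evq e t' i v = some x :=
  Option.mem_def.1 (Nat.Partrec.Code.evaln_mono ht (Option.mem_def.2 h))

private theorem ev_mono {ca : Code} {t t' i : ℕ} {x : ℕ} (ht : t ≤ t')
    (h : evaln t ca i = some x) : evaln t' ca i = some x :=
  Option.mem_def.1 (Nat.Partrec.Code.evaln_mono ht (Option.mem_def.2 h))

private theorem LVR_mono {ca : Code} {l : Lit} {t t' e : ℕ} {w : List ℕ} (ht : t ≤ t')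
    (h : LVR ca l (t, e, w)) : LVR ca l (t', e, w) := by
  obtain ⟨h1, h2⟩ := h
  refine ⟨h1, h2.imp id ?_⟩
  rintro ⟨h3, h4, h5⟩
  have h4' : ¬ evaln t ca (l.1 - 1) = none := h4
  obtain ⟨n, hn⟩ := Option.ne_none_iff_exists'.1 h4'
  have hn' := ev_mono ht hn
  refine ⟨h3, ?_, ?_⟩
  · show ¬ evaln t' ca (l.1 - 1) = none
    rw [hn']
    exact Option.some_ne_none n
  · rcases h5 with ⟨h6, h7⟩ | ⟨h6, h7⟩
    · left
      refine ⟨?_, h7⟩
      show ¬ evaln t' ca (l.1 - 1) = some (vv l w).length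
      have h6' : ¬ evaln t ca (l.1 - 1) = some (vv l w).length := h6
      rw [hn']
      rw [hn] at h6'
      exact h6'
    · right
      exact ⟨ev_mono ht h6, evq_mono ht h7⟩

private theorem eq_iff (v : List ℕ) (c : ℕ → ℕ) :
    ((v.map c).length = 2 ∧ (v.map c).getD 0 0 = (v.map c).getD 1 0) ↔
      ∃ x y, v = [x, y] ∧ c x = c y := by
  constructor
  · rintro ⟨h1, h2⟩
    rw [List.length_map] at h1
    obtain ⟨x, y, rfl⟩ := List.length_eq_two.1 h1
    exact ⟨x, y, rfl, h2⟩
  · rintro ⟨x, y, rfl, h⟩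
    exact ⟨rfl, h⟩

/-- a verified literal is true -/
private theorem LVR_true {a : ℕ → ℕ} {ca : Code} (hca : ∀ n, ca.eval n = Part.some (a n))
    {l : Lit} {t e : ℕ} {w : List ℕ} (h : LVR ca l (t, e, w)) :
    LTrue (HE a e) (fun x => w.getD x 0) l := by
  obtain ⟨-, h2⟩ := h
  unfold LTrue AtTrue
  rcases h2 with ⟨h3, h4⟩ | ⟨h3, h4, h5⟩
  · have key : ((l.1 = 0 ∧ ∃ x y, l.2.1 = [x, y] ∧ w.getD x 0 = w.getD y 0) ∨
        (l.1 ≠ 0 ∧ HE a e (l.1 - 1) (l.2.1.map fun x => w.getD x 0))) ↔
        ((vv l w).length = 2 ∧ (vv l w).getD 0 0 = (vv l w).getD 1 0) := by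
      rw [show vv l w = l.2.1.map (fun y => w.getD y 0) from rfl, eq_iff]
      constructor
      · rintro (⟨-, h⟩ | ⟨h, -⟩)
        · exact h
        · exact absurd h3 h
      · exact fun h => Or.inl ⟨h3, h⟩
    rw [key]
    rcases h4 with ⟨h5, h6⟩ | ⟨h5, h6⟩
    · exact ⟨fun _ => h6, fun _ => h5⟩
    · exact ⟨fun h => absurd h h5, fun h => by rw [h6] at h; exact absurd h (by simp)⟩
  · have h4' : ¬ evaln t ca (l.1 - 1) = none := h4
    obtain ⟨n, hn⟩ := Option.ne_none_iff_exists'.1 h4'
    have hna : n = a (l.1 - 1) := by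
      have h6 := Nat.Partrec.Code.evaln_sound (Option.mem_def.2 hn)
      rw [hca] at h6
      exact Part.mem_some_iff.1 h6
    have key : ((l.1 = 0 ∧ ∃ x y, l.2.1 = [x, y] ∧ w.getD x 0 = w.getD y 0) ∨
        (l.1 ≠ 0 ∧ HE a e (l.1 - 1) (l.2.1.map fun x => w.getD x 0))) ↔
        HE a e (l.1 - 1) (vv l w) := by
      constructor
      · rintro (⟨h, -⟩ | ⟨-, h⟩)
        · exact absurd h h3
        · exact h
      · exact fun h => Or.inr ⟨h3, h⟩
    rw [key]
    rcases h5 with ⟨h6, h7⟩ | ⟨h6, h7⟩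
    · have h6' : ¬ evaln t ca (l.1 - 1) = some (vv l w).length := h6
      rw [hn, Option.some_inj, hna] at h6'
      constructor
      · rintro ⟨h8, -⟩
        exact absurd h8.symm h6'
      · intro h8
        rw [h7] at h8
        exact absurd h8 (by simp)
    · have h6' : evaln t ca (l.1 - 1) = some (vv l w).length := h6
      have h7' : evq e t (l.1 - 1) (vv l w) = some (cond l.2.2 1 0) := h7
      rw [hn, Option.some_inj, hna] at h6'
      by_cases hs : l.2.2 = true
      · rw [hs] at h7'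
        exact ⟨fun _ => hs, fun _ => ⟨h6'.symm, t, h7'⟩⟩
      · have hs' : l.2.2 = false := by simpa using hs
        rw [hs'] at h7'
        constructor
        · rintro ⟨-, t', h8⟩
          have h9 := evq_uniq h7' h8
          exact absurd h9 (by norm_num)
        · exact fun h => absurd h hs

/-- a true literal is verified at some stage -/
private theorem true_LVR {a : ℕ → ℕ} {ca : Code} (hca : ∀ n, ca.eval n = Part.some (a n))
    {l : Lit} {e : ℕ} (he : Tot e) {w : List ℕ} {c : ℕ → ℕ}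
    (hw : ∀ y ∈ l.2.1, y < w.length ∧ w.getD y 0 = c y) (h : LTrue (HE a e) c l) :
    ∃ t, LVR ca l (t, e, w) := by
  have hvv : vv l w = l.2.1.map c := List.map_congr_left fun y hy => (hw y hy).2
  unfold LTrue AtTrue at h
  by_cases h0 : l.1 = 0
  · have key : ((l.1 = 0 ∧ ∃ x y, l.2.1 = [x, y] ∧ c x = c y) ∨
        (l.1 ≠ 0 ∧ HE a e (l.1 - 1) (l.2.1.map c))) ↔
        ((vv l w).length = 2 ∧ (vv l w).getD 0 0 = (vv l w).getD 1 0) := by
      rw [hvv, eq_iff]
      constructor
      · rintro (⟨-, h⟩ | ⟨h, -⟩)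
        · exact h
        · exact absurd h0 h
      · exact fun h => Or.inl ⟨h0, h⟩
    rw [key] at h
    refine ⟨0, fun y hy => (hw y hy).1, Or.inl ⟨h0, ?_⟩⟩
    by_cases hs : l.2.2 = true
    · exact Or.inl ⟨h.2 hs, hs⟩
    · exact Or.inr ⟨fun h1 => hs (h.1 h1), by simpa using hs⟩
  · have key : ((l.1 = 0 ∧ ∃ x y, l.2.1 = [x, y] ∧ c x = c y) ∨
        (l.1 ≠ 0 ∧ HE a e (l.1 - 1) (l.2.1.map c))) ↔ HE a e (l.1 - 1) (vv l w) := by
      rw [hvv]
      constructor
      · rintro (⟨h, -⟩ | ⟨-, h⟩)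
        · exact absurd h h0
        · exact h
      · exact fun h => Or.inr ⟨h0, h⟩
    rw [key] at h
    obtain ⟨t1, ht1⟩ : ∃ t1, evaln t1 ca (l.1 - 1) = some (a (l.1 - 1)) := by
      have h1 : a (l.1 - 1) ∈ ca.eval (l.1 - 1) := by
        rw [hca]
        exact Part.mem_some _
      obtain ⟨t1, h2⟩ := Nat.Partrec.Code.evaln_complete.1 h1
      exact ⟨t1, Option.mem_def.1 h2⟩
    obtain ⟨t2, ht2⟩ := he (l.1 - 1) (vv l w)
    have g1 := ev_mono (le_max_left t1 t2) ht1
    refine ⟨max t1 t2, fun y hy => (hw y hy).1, Or.inr ⟨h0, ?_, ?_⟩⟩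
    · show ¬ evaln (max t1 t2) ca (l.1 - 1) = none
      rw [g1]
      exact Option.some_ne_none _
    · by_cases hlen : a (l.1 - 1) = (vv l w).length
      · right
        refine ⟨?_, ?_⟩
        · show evaln (max t1 t2) ca (l.1 - 1) = some (vv l w).length
          rw [g1, hlen]
        · show evq e (max t1 t2) (l.1 - 1) (vv l w) = some (cond l.2.2 1 0)
          by_cases hs : l.2.2 = true
          · rw [hs]
            obtain ⟨-, t3, h3⟩ := h.2 hs
            rcases ht2 with h4 | h4
            · exact absurd (evq_uniq h4 h3) (by norm_num)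
            · exact evq_mono (le_max_right t1 t2) h4
          · have hs' : l.2.2 = false := by simpa using hs
            rw [hs']
            rcases ht2 with h4 | h4
            · exact evq_mono (le_max_right t1 t2) h4
            · exact absurd (h.1 ⟨hlen.symm, t2, h4⟩) hs
      · left
        refine ⟨?_, ?_⟩
        · show ¬ evaln (max t1 t2) ca (l.1 - 1) = some (vv l w).length
          rw [g1, Option.some_inj]
          exact hlen
        · by_contra hs
          have hs' : l.2.2 = true := by simpa using hs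
          exact hlen (h.2 hs').1.symm

theorem exists_sg_pTrue {a : ℕ → ℕ} (ha : Computable a) :
    ∃ P : ℕ → List Lit → List ℕ → Prop,
      CB.Sg 1 (fun x : ℕ × List Lit × List ℕ => P x.1 x.2.1 x.2.2) ∧
        ∀ e, Tot e → ∀ θ b, P e θ b ↔ PTrue (HE a e) θ b := by
  obtain ⟨ca, hca⟩ := Nat.Partrec.Code.exists_code.1 (Partrec.nat_iff.1 ha)
  have hca' : ∀ n, ca.eval n = Part.some (a n) := fun n => by rw [hca]; rfl
  refine ⟨fun e θ b => ∃ y : ℕ × List ℕ, ∀ l ∈ θ, LVR ca l (y.1, e, b ++ y.2), ?_, ?_⟩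
  · have h1 : PrimrecPred fun z : (ℕ × List Lit × List ℕ) × (ℕ × List ℕ) =>
        ∀ l ∈ z.1.2.1, LVR ca l (z.2.1, z.1.1, z.1.2.2 ++ z.2.2) := by
      have h := PrimrecRel.forall_mem_list (prim_LVR ca)
      refine PrimrecRel.comp h (Primrec.fst.comp (Primrec.snd.comp Primrec.fst)) ?_
      refine Primrec.pair (Primrec.fst.comp Primrec.snd) (Primrec.pair
        (Primrec.fst.comp Primrec.fst) ?_)
      exact Primrec.list_append.comp (Primrec.snd.comp (Primrec.snd.comp Primrec.fst))
        (Primrec.snd.comp Primrec.snd)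
    obtain ⟨hd, h2⟩ := h1
    have h3 : CB.Sg 1 (fun z : (ℕ × List Lit × List ℕ) × (ℕ × List ℕ) =>
        ∀ l ∈ z.1.2.1, LVR ca l (z.2.1, z.1.1, z.1.2.2 ++ z.2.2)) :=
      CB.Sg.of_primrec h2 (fun z => by rw [decide_eq_true_iff]) 1
    exact CB.Sg.ex (p := fun (x : ℕ × List Lit × List ℕ) (y : ℕ × List ℕ) =>
      ∀ l ∈ x.2.1, LVR ca l (y.1, x.1, x.2.2 ++ y.2)) h3
  · intro e he θ b
    constructor
    · rintro ⟨⟨t, u⟩, h⟩
      refine ⟨fun x => (b ++ u).getD x 0, ?_, fun l hl => LVR_true hca' (h l hl)⟩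
      intro i hi
      show (b ++ u).getD i 0 = b[i]
      rw [List.getD_append _ _ _ _ hi, List.getD_eq_getElem _ _ hi]
    · rintro ⟨c, hc1, hc2⟩
      obtain ⟨M, hM⟩ : ∃ M : ℕ, ∀ l ∈ θ, ∀ x ∈ l.2.1, x < M := by
        clear hc2
        induction θ with
        | nil => exact ⟨0, fun l hl => absurd hl List.not_mem_nil⟩
        | cons l0 θ ih =>
          obtain ⟨M, hM⟩ := ih
          refine ⟨M + (l0.2.1.sum + 1), fun l hl x hx => ?_⟩
          rcases List.mem_cons.1 hl with rfl | hl
          · have := List.single_le_sum (fun y _ => Nat.zero_le y) x hx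
            omega
          · have := hM l hl x hx
            omega
      let u : List ℕ := (List.range M).map fun j => c (b.length + j)
      have hu : u.length = M := by
        show ((List.range M).map fun j => c (b.length + j)).length = M
        rw [List.length_map, List.length_range]
      have hwlen : (b ++ u).length = b.length + M := by rw [List.length_append, hu]
      have hw : ∀ y, y < M → y < (b ++ u).length ∧ (b ++ u).getD y 0 = c y := by
        intro y hy
        refine ⟨by omega, ?_⟩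
        by_cases hyb : y < b.length
        · rw [List.getD_append _ _ _ _ hyb, List.getD_eq_getElem _ _ hyb, hc1 y hyb]
        · rw [List.getD_append_right _ _ _ _ (not_lt.1 hyb),
            List.getD_eq_getElem _ _ (by rw [hu]; omega)]
          show ((List.range M).map fun j => c (b.length + j))[y - b.length]'(by
            rw [List.length_map, List.length_range]; omega) = c y
          rw [List.getElem_map, List.getElem_range]
          congr 1
          omega
      have hex : ∃ t, ∀ l ∈ θ, LVR ca l (t, e, b ++ u) := by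
        have gen : ∀ θ' : List Lit, (∀ l ∈ θ', l ∈ θ) → ∃ t, ∀ l ∈ θ', LVR ca l (t, e, b ++ u) := by
          intro θ'
          induction θ' with
          | nil => exact fun _ => ⟨0, fun l hl => absurd hl List.not_mem_nil⟩
          | cons l0 θ' ih =>
            intro hsub
            obtain ⟨t1, ht1⟩ := ih fun l hl => hsub l (List.mem_cons_of_mem _ hl)
            have hl0 := hsub l0 List.mem_cons_self
            obtain ⟨t2, ht2⟩ := true_LVR hca' he (w := b ++ u)
              (fun y hy => hw y (hM l0 hl0 y hy)) (hc2 l0 hl0)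
            refine ⟨max t1 t2, fun l hl => ?_⟩
            rcases List.mem_cons.1 hl with rfl | hl
            · exact LVR_mono (le_max_right _ _) ht2
            · exact LVR_mono (le_max_left _ _) (ht1 l hl)
        exact gen θ fun l hl => hl
      obtain ⟨t, ht⟩ := hex
      exact ⟨(t, u), ht⟩

end Pool.Agent.Work.MP_ed0a9a_lc.E
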