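import Pool.Agent.Work.MP_ed0a9a_lc.E.Fml

/-!
# Module `ClB` (size S-M): basic properties of the algebraic closure

PROOFS.
* `acl_comp`: if `φ` witnesses `Acl L (b ∘ g) y`, `g : Fin m → Fin k`, take
  `φ.relabel (Fin.snoc (Fin.castSucc ∘ g) (Fin.last k))`; `Fin.snoc b y` composed with this map is
  `Fin.snoc (b ∘ g) y`.
* `acl_of_range`: choose `g` with `c = b ∘ g`; `acl_comp`.
* `cl_mono`: clear.  `subset_cl`: `k = 1`, `b = ![x]`, the formula `x₀ = x₁` (`exists_eq_fml`); the set of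
  its solutions is `{x}`.
* `mem_cl_range`: `←` take `b` itself; `→`: `acl_of_range`.
* `mem_cl_fin`: take the set of the values of `b`.
* `mem_cl_insert` (`→`): let `c : Fin m → N`, `c i ∈ insert x B`, `Acl L c y`.  Let `F` be the finite set of
  the values `c i ∈ B` and `b : Fin F.card → N` an enumeration of `F`; all `c i` are in the range of
  `Fin.snoc b x`; `acl_of_range`.  (`←`): all values of `Fin.snoc b x` are in `insert x B`.
* `acl_iff`: clear (`n` = the number of solutions).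
-/

namespace Pool.Agent.Work.MP_ed0a9a_lc.E

open FirstOrder FirstOrder.Language

variable {L : FirstOrder.Language.{0, 0}} {N : Type} [L.Structure N]

theorem acl_comp {k m : ℕ} (b : Fin k → N) (g : Fin m → Fin k) {y : N}
    (h : Acl L (b ∘ g) y) : Acl L b y := by
  obtain ⟨φ, h1, h2⟩ := h
  have key : ∀ z : N, ((Fin.snoc b z : Fin (k + 1) → N) ∘
      (Fin.snoc (Fin.castSucc ∘ g) (Fin.last k) : Fin (m + 1) → Fin (k + 1))) =
      (Fin.snoc (b ∘ g) z : Fin (m + 1) → N) := by
    intro z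
    funext i
    refine Fin.lastCases ?_ (fun i => ?_) i
    · simp
    · simp
  refine ⟨φ.relabel (Fin.snoc (Fin.castSucc ∘ g) (Fin.last k) : Fin (m + 1) → Fin (k + 1)),
    ?_, ?_⟩
  · rw [Formula.realize_relabel, key]
    exact h1
  · refine h2.subset ?_
    intro z hz
    rw [Set.mem_ofPred_eq, Formula.realize_relabel, key] at hz
    exact hz

theorem acl_of_range {k m : ℕ} {b : Fin k → N} {c : Fin m → N} (hc : ∀ i, c i ∈ Set.range b)
    {y : N} (h : Acl L c y) : Acl L b y := by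
  choose g hg using hc
  apply acl_comp b g
  have : b ∘ g = c := funext hg
  rw [this]
  exact h

theorem cl_mono {B B' : Set N} (h : B ⊆ B') : cl L B ⊆ cl L B' := by
  rintro y ⟨k, b, hb, hy⟩
  exact ⟨k, b, fun i => h (hb i), hy⟩

theorem subset_cl (B : Set N) : B ⊆ cl L B := by
  intro x hx
  obtain ⟨ψ, hψ⟩ := exists_eq_fml (L := L) (k := 2) 0 1
  have key : ∀ z : N, ψ.Realize (Fin.snoc ![x] z : Fin 2 → N) ↔ x = z := by
    intro z
    rw [hψ]
    have h0 : (Fin.snoc ![x] z : Fin 2 → N) 0 = x := rfl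
    have h1 : (Fin.snoc ![x] z : Fin 2 → N) 1 = z := rfl
    rw [h0, h1]
  refine ⟨1, ![x], ?_, ψ, ?_, ?_⟩
  · intro i
    fin_cases i
    exact hx
  · exact (key x).2 rfl
  · refine (Set.finite_singleton x).subset ?_
    intro z hz
    exact ((key z).1 hz).symm

theorem mem_cl_range {k : ℕ} (b : Fin k → N) (y : N) :
    y ∈ cl L (Set.range b) ↔ Acl L b y := by
  constructor
  · rintro ⟨m, c, hc, h⟩
    exact acl_of_range hc h
  · intro h
    exact ⟨k, b, fun i => ⟨i, rfl⟩, h⟩

theorem mem_cl_fin {B : Set N} {y : N} (h : y ∈ cl L B) :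
    ∃ F : Finset N, (F : Set N) ⊆ B ∧ y ∈ cl L (F : Set N) := by
  classical
  obtain ⟨k, b, hb, hy⟩ := h
  refine ⟨Finset.univ.image b, ?_, k, b, ?_, hy⟩
  · intro x hx
    rw [Finset.coe_image, Finset.coe_univ, Set.image_univ] at hx
    obtain ⟨i, rfl⟩ := hx
    exact hb i
  · intro i
    rw [Finset.coe_image, Finset.coe_univ, Set.image_univ]
    exact ⟨i, rfl⟩

theorem mem_cl_insert {B : Set N} {x y : N} : y ∈ cl L (insert x B) ↔
    ∃ (k : ℕ) (b : Fin k → N), (∀ i, b i ∈ B) ∧
      Acl L (Fin.snoc b x : Fin (k + 1) → N) y := by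
  classical
  constructor
  · rintro ⟨m, c, hc, h⟩
    let F : Finset N := (Finset.univ.image c).filter (fun z => z ∈ B)
    refine ⟨F.card, fun i => (F.equivFin.symm i : N), ?_, ?_⟩
    · intro i
      have h1 := (F.equivFin.symm i).2
      exact (Finset.mem_filter.1 h1).2
    · apply acl_of_range _ h
      intro i
      by_cases h1 : c i ∈ B
      · have h2 : c i ∈ F :=
          Finset.mem_filter.2 ⟨Finset.mem_image.2 ⟨i, Finset.mem_univ _, rfl⟩, h1⟩
        refine ⟨(F.equivFin ⟨c i, h2⟩).castSucc, ?_⟩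
        rw [Fin.snoc_castSucc, Equiv.symm_apply_apply]
      · have h2 : c i = x := by
          rcases hc i with h3 | h3
          · exact h3
          · exact absurd h3 h1
        refine ⟨Fin.last _, ?_⟩
        rw [Fin.snoc_last, h2]
  · rintro ⟨k, b, hb, h⟩
    refine ⟨k + 1, Fin.snoc b x, ?_, h⟩
    intro i
    refine Fin.lastCases ?_ (fun i => ?_) i
    · rw [Fin.snoc_last]
      exact Set.mem_insert _ _
    · rw [Fin.snoc_castSucc]
      exact Set.mem_insert_of_mem _ (hb i)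

theorem acl_iff {k : ℕ} {b : Fin k → N} {y : N} : Acl L b y ↔
    ∃ (φ : L.Formula (Fin (k + 1))) (n : ℕ), φ.Realize (Fin.snoc b y : Fin (k + 1) → N) ∧
      {z | φ.Realize (Fin.snoc b z : Fin (k + 1) → N)}.Finite ∧
      {z | φ.Realize (Fin.snoc b z : Fin (k + 1) → N)}.ncard ≤ n := by
  constructor
  · rintro ⟨φ, h1, h2⟩
    exact ⟨φ, _, h1, h2, le_rfl⟩
  · rintro ⟨φ, n, h1, h2, _⟩
    exact ⟨φ, h1, h2⟩

end Pool.Agent.Work.MP_ed0a9a_lc.E
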