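import Pool.Agent.Work.MP_ed0a9a_lc.E.ClB

/-!
# Module `ClT` (size M): the algebraic closure is idempotent

PROOF of `cl_insert_of_mem`.  Let `x ∈ cl B`, `y ∈ cl (insert x B)`.  By `mem_cl_insert` there are
`b : Fin k → N` with values in `B` and `φ` with `φ(b, x, y)` and `n` solutions of `φ(b, x, ·)`
(`acl_iff`); there are `b' : Fin k' → N` with values in `B` and `ψ` with `ψ(b', x)`, `ψ(b', ·)` finite.
Let `b'' = Fin.append b b'`.  By `exists_atMost`, `exists_ex`, `⊓` and relabelling there is a formula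
`χ` with: `χ(b'', z)` iff there is `u` with `ψ(b', u)`, `φ(b, u, z)` and `φ(b, u, ·)` has at most `n`
solutions.  (The variables: `b''` in `Fin (k + k')`, then `z`, then `u`: apply `exists_ex` to a formula
in `Fin (k + k' + 1 + 1)`.)  Then `χ(b'', y)` and the set of solutions of `χ(b'', ·)` is a finite union
of finite sets.
`cl_cl`: let `y ∈ cl (cl B)`; by `mem_cl_fin` there is a finite `F ⊆ cl B` with `y ∈ cl F ⊆ cl (B ∪ F)`;
by induction on `F` (`Finset.induction_on`), `cl (B ∪ F) ⊆ cl B` for finite `F ⊆ cl B`, from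
`cl_insert_of_mem` for `B ∪ F'` and `cl_mono`.
-/

namespace Pool.Agent.Work.MP_ed0a9a_lc.E

open FirstOrder FirstOrder.Language

variable {L : FirstOrder.Language.{0, 0}} {N : Type} [L.Structure N]

theorem cl_insert_of_mem {B : Set N} {x : N} (hx : x ∈ cl L B) :
    cl L (insert x B) ⊆ cl L B := by
  intro y hy
  obtain ⟨k, b, hb, hac⟩ := mem_cl_insert.1 hy
  obtain ⟨φ, n, h1, h2, h3⟩ := acl_iff.1 hac
  obtain ⟨k', b', hb', ψ, h4, h5⟩ := hx
  obtain ⟨ρ, hρ⟩ := exists_atMost φ n
  let f1 : Fin k' → Fin (k + k' + 1 + 1) := fun i => (Fin.natAdd k i).castSucc.castSucc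
  let f2 : Fin k → Fin (k + k' + 1 + 1) := fun i => (Fin.castAdd k' i).castSucc.castSucc
  let g1 : Fin (k' + 1) → Fin (k + k' + 1 + 1) :=
    Fin.snoc (α := fun _ => Fin (k + k' + 1 + 1)) f1 (Fin.last _)
  let g3 : Fin (k + 1) → Fin (k + k' + 1 + 1) :=
    Fin.snoc (α := fun _ => Fin (k + k' + 1 + 1)) f2 (Fin.last _)
  let g2 : Fin (k + 1 + 1) → Fin (k + k' + 1 + 1) :=
    Fin.snoc (α := fun _ => Fin (k + k' + 1 + 1)) g3 (Fin.last _).castSucc
  let V : N → N → Fin (k + k' + 1 + 1) → N := fun z u =>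
    Fin.snoc (α := fun _ => N) (Fin.snoc (α := fun _ => N) (Fin.append b b') z) u
  have hV1 : ∀ z u, V z u ∘ f1 = b' := by
    intro z u
    funext i
    show V z u (Fin.natAdd k i).castSucc.castSucc = b' i
    simp only [V]
    rw [Fin.snoc_castSucc, Fin.snoc_castSucc, Fin.append_right]
  have hV2 : ∀ z u, V z u ∘ f2 = b := by
    intro z u
    funext i
    show V z u (Fin.castAdd k' i).castSucc.castSucc = b i
    simp only [V]
    rw [Fin.snoc_castSucc, Fin.snoc_castSucc, Fin.append_left]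
  have hVl : ∀ z u, V z u (Fin.last _) = u := by
    intro z u
    simp only [V]
    rw [Fin.snoc_last]
  have hVz : ∀ z u, V z u (Fin.last _).castSucc = z := by
    intro z u
    simp only [V]
    rw [Fin.snoc_castSucc, Fin.snoc_last]
  have hg1 : ∀ z u, V z u ∘ g1 = (Fin.snoc b' u : Fin (k' + 1) → N) := by
    intro z u
    simp only [g1]
    rw [Fin.comp_snoc, hV1, hVl]
  have hg3 : ∀ z u, V z u ∘ g3 = (Fin.snoc b u : Fin (k + 1) → N) := by
    intro z u
    simp only [g3]
    rw [Fin.comp_snoc, hV2, hVl]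
  have hg2 : ∀ z u, V z u ∘ g2 =
      (Fin.snoc (Fin.snoc b u : Fin (k + 1) → N) z : Fin (k + 1 + 1) → N) := by
    intro z u
    simp only [g2]
    rw [Fin.comp_snoc, hg3, hVz]
  obtain ⟨χ, hχ⟩ := exists_ex (((ψ.relabel g1) ⊓ (φ.relabel g2)) ⊓ (ρ.relabel g3))
  have key : ∀ z, χ.Realize (Fin.snoc (Fin.append b b') z : Fin (k + k' + 1) → N) ↔
      ∃ u, ψ.Realize (Fin.snoc b' u : Fin (k' + 1) → N) ∧
        φ.Realize (Fin.snoc (Fin.snoc b u : Fin (k + 1) → N) z : Fin (k + 1 + 1) → N) ∧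
        ρ.Realize (Fin.snoc b u : Fin (k + 1) → N) := by
    intro z
    rw [hχ N]
    refine exists_congr fun u => ?_
    rw [Formula.realize_inf, Formula.realize_inf, Formula.realize_relabel,
      Formula.realize_relabel, Formula.realize_relabel]
    have e1 := hg1 z u
    have e2 := hg2 z u
    have e3 := hg3 z u
    simp only [V] at e1 e2 e3
    rw [e1, e2, e3, and_assoc]
  refine ⟨k + k', Fin.append b b', ?_, χ, ?_, ?_⟩
  · intro i
    refine Fin.addCases (fun j => ?_) (fun j => ?_) i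
    · rw [Fin.append_left]
      exact hb j
    · rw [Fin.append_right]
      exact hb' j
  · rw [key]
    exact ⟨x, h4, h1, (hρ N _).2 ⟨h2, h3⟩⟩
  · have hsub : {z | χ.Realize (Fin.snoc (Fin.append b b') z : Fin (k + k' + 1) → N)} ⊆
        ⋃ u ∈ {u | ψ.Realize (Fin.snoc b' u : Fin (k' + 1) → N)},
          {z | φ.Realize (Fin.snoc (Fin.snoc b u : Fin (k + 1) → N) z :
            Fin (k + 1 + 1) → N) ∧ ρ.Realize (Fin.snoc b u : Fin (k + 1) → N)} := by
      intro z hz
      obtain ⟨u, hu1, hu2, hu3⟩ := (key z).1 hz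
      exact Set.mem_biUnion (show u ∈ {u | ψ.Realize (Fin.snoc b' u : Fin (k' + 1) → N)} from hu1)
        ⟨hu2, hu3⟩
    refine Set.Finite.subset (Set.Finite.biUnion h5 fun u _ => ?_) hsub
    by_cases hr : ρ.Realize (Fin.snoc b u : Fin (k + 1) → N)
    · exact ((hρ N _).1 hr).1.subset fun z hz => hz.1
    · have e : {z | φ.Realize (Fin.snoc (Fin.snoc b u : Fin (k + 1) → N) z :
            Fin (k + 1 + 1) → N) ∧ ρ.Realize (Fin.snoc b u : Fin (k + 1) → N)} = ∅ := by
        ext z
        simp [hr]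
      rw [e]
      exact Set.finite_empty

theorem cl_cl (B : Set N) : cl L (cl L B) ⊆ cl L B := by
  classical
  have key : ∀ F : Finset N, (F : Set N) ⊆ cl L B → cl L (B ∪ (F : Set N)) ⊆ cl L B := by
    intro F
    induction F using Finset.induction_on with
    | empty =>
      intro _
      rw [Finset.coe_empty, Set.union_empty]
    | insert x F hx ih =>
      intro hF
      rw [Finset.coe_insert, Set.insert_subset_iff] at hF
      rw [Finset.coe_insert, Set.union_insert]
      exact (cl_insert_of_mem (cl_mono Set.subset_union_left hF.1)).trans (ih hF.2)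
  intro y hy
  obtain ⟨F, hF, hyF⟩ := mem_cl_fin hy
  exact key F hF (cl_mono Set.subset_union_right hyF)

end Pool.Agent.Work.MP_ed0a9a_lc.E
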