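import Pool.Agent.Work.MP_ed0a9a_lc.E.Defs

/-!
# Module `Cmp` (size S-M): compactness for formulas with variables in `C`

PROOF.  Work in the language `L[[C]]` (`L.withConstants C`).  Let
`T' = (L.lhomWithConstants C).onTheory T ∪ Formula.equivSentence '' Γ`.  By
`Theory.isSatisfiable_iff_isFinitelySatisfiable` it is enough that every finite `T₀ ⊆ T'` is
satisfiable.  Choose a finite `Δ ⊆ Γ` with `T₀ ⊆ (onTheory T) ∪ equivSentence '' Δ`; take `N`, `v`
from the hypothesis, make `N` an `L[[C]]`-structure by `constantsOn.structure v`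
(`Language.withConstantsStructure`/`paramsStructure` is for subsets; for a map `v` use
`letI := constantsOn.structure v` and `letI : L[[C]].Structure N := Language.sumStructure ..`);
`LHom.onTheory_model`, `Formula.realize_equivSentence` (which says
`(equivSentence φ).Realize M ↔ φ.Realize fun a => (L.con a : M)`).  From a model `M'` of `T'` take
`N = M'` with the reduct structure (`(L.lhomWithConstants C).reduct M'`) and
`v c = (L.con c : M')`.  All universes are `0`.
-/

namespace Pool.Agent.Work.MP_ed0a9a_lc.E

open FirstOrder FirstOrder.Language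

theorem compact {L : FirstOrder.Language.{0, 0}} (T : L.Theory) {C : Type}
    (Γ : Set (L.Formula C))
    (h : ∀ Δ : Finset (L.Formula C), (Δ : Set (L.Formula C)) ⊆ Γ →
      ∃ (N : Type) (_ : Nonempty N) (_ : L.Structure N), N ⊨ T ∧
        ∃ v : C → N, ∀ φ ∈ Δ, φ.Realize v) :
    ∃ (N : Type) (_ : Nonempty N) (_ : L.Structure N), N ⊨ T ∧
      ∃ v : C → N, ∀ φ ∈ Γ, φ.Realize v := by
  classical
  set T' : (L.withConstants C).Theory :=
    (L.lhomWithConstants C).onTheory T ∪ Formula.equivSentence '' Γ with hT'
  have hsat : T'.IsSatisfiable := by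
    rw [Theory.isSatisfiable_iff_isFinitelySatisfiable]
    intro T0 hT0
    obtain ⟨N, hN, sN, hT, v, hv⟩ := h
      ((T0.image Formula.equivSentence.symm).filter fun φ => φ ∈ Γ)
      (fun φ hφ => (Finset.mem_filter.1 (Finset.mem_coe.1 hφ)).2)
    letI : (constantsOn C).Structure N := constantsOn.structure v
    have hN0 : N ⊨ (T0 : (L.withConstants C).Theory) := by
      rw [Theory.model_iff]
      intro φ hφ
      rcases hT0 hφ with h1 | h1
      · have h2 : N ⊨ (L.lhomWithConstants C).onTheory T :=
          ((L.lhomWithConstants C).onTheory_model T).2 hT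
        exact h2.realize_of_mem φ h1
      · obtain ⟨ψ, hψ, rfl⟩ := h1
        rw [Formula.realize_equivSentence]
        have h3 : ψ ∈ (T0.image Formula.equivSentence.symm).filter fun φ => φ ∈ Γ := by
          refine Finset.mem_filter.2 ⟨Finset.mem_image.2 ⟨_, Finset.mem_coe.1 hφ, ?_⟩, hψ⟩
          exact Equiv.symm_apply_apply _ _
        exact hv ψ h3
    exact Theory.Model.isSatisfiable N
  obtain ⟨M'⟩ := hsat
  letI : L.Structure M' := (L.lhomWithConstants C).reduct M'
  haveI : (L.lhomWithConstants C).IsExpansionOn M' := LHom.isExpansionOn_reduct _ _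
  have hM : (M' : Type) ⊨ T' := M'.is_model
  refine ⟨M', inferInstance, inferInstance, ?_, fun c => (L.con c : M'), ?_⟩
  · have h2 : (M' : Type) ⊨ (L.lhomWithConstants C).onTheory T :=
      hM.mono Set.subset_union_left
    exact ((L.lhomWithConstants C).onTheory_model T).1 h2
  · intro φ hφ
    have h3 : (M' : Type) ⊨ Formula.equivSentence φ :=
      hM.realize_of_mem _ (Or.inr ⟨φ, hφ, rfl⟩)
    exact (Formula.realize_equivSentence (M' : Type) φ).1 h3

end Pool.Agent.Work.MP_ed0a9a_lc.E
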