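import Pool.Agent.Work.MP_ed0a9a_lc.E.ElB

/-!
# Module `Cpl` (size S-M): complete theories

PROOFS.
* `sameTp_zero`: for `φ : L.Formula (Fin 0)` there is a sentence with the same truth value (relabel `Fin 0 → Empty`); `T.IsComplete`
  decides it, and all models of `T` agree (see module `Uniq`, the case `k = 0`).
* `realize_iff`: the same (`Fin 0`-formulas `ψ` with `ψ ↔ ∃ x, φ`, `∀ x, φ → χ` by `exists_exs` with `k = 0`).
* `sameTp_of_isol`: `∀ x, θ(x) → χ(x)` is true in `N`, hence in `N'`.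
* `exists_ctb_model`: a complete theory is satisfiable, `Theory.ModelType`, then `exists_ctb` for `B = ∅`.
* `infinite_chain`: `A 0 ↪ₑ A j` for all `j`, so all `A j` satisfy the same sentences as `A 0`.  If `A 0` is empty so are all `A j` (the
  sentence `∃ x, x = x`), then `A 1 ↪ₑ A 0` exists (the empty map), contradicting `h3`.  If `A 0` is finite and nonempty all `A j` have
  the same finite number of elements, the elementary embedding `A 0 ↪ₑ A 1` is bijective, its inverse is an elementary embedding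
  `A 1 ↪ₑ A 0`: contradiction.  If `A i` is infinite for one `i` then for all; a nonempty model `N` of `T` satisfies the same sentences
  as the nonempty model `A 0` (`T.IsComplete`), so it is infinite.
-/

namespace Pool.Agent.Work.MP_ed0a9a_lc.E

open FirstOrder FirstOrder.Language

private theorem cp_ex {L : FirstOrder.Language.{0, 0}} {n : ℕ} (θ : L.Formula (Fin n)) :
    ∃ ψ : L.Formula (Fin 0), ∀ (N : Type) [L.Structure N] (v : Fin 0 → N),
      ψ.Realize v ↔ ∃ w : Fin n → N, θ.Realize w := by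
  obtain ⟨ψ, hψ⟩ := exists_exs (L := L) (k := 0) (m := n)
    (θ.relabel (Fin.natAdd 0 : Fin n → Fin (0 + n)))
  refine ⟨ψ, ?_⟩
  intro N _ v
  rw [hψ]
  apply exists_congr
  intro w
  rw [Formula.realize_relabel]
  have h : (Fin.append v w ∘ (Fin.natAdd 0 : Fin n → Fin (0 + n))) = w := by
    funext i
    exact Fin.append_right v w i
  rw [h]

theorem sameTp_zero {L : FirstOrder.Language.{0, 0}} {T : L.Theory} (hc : T.IsComplete)
    {N N' : Type} [Nonempty N] [Nonempty N'] [L.Structure N] [L.Structure N'] (hN : N ⊨ T)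
    (hN' : N' ⊨ T) (b : Fin 0 → N) (b' : Fin 0 → N') : SameTp L b b' := by
  have := hN
  have := hN'
  intro φ
  have h1 : φ.Realize b ↔ N ⊨ (φ.relabel (fun i : Fin 0 => i.elim0) : L.Formula Empty) := by
    rw [Sentence.Realize, Formula.realize_relabel]
    exact iff_of_eq (congrArg _ (Subsingleton.elim _ _))
  have h2 : φ.Realize b' ↔ N' ⊨ (φ.relabel (fun i : Fin 0 => i.elim0) : L.Formula Empty) := by
    rw [Sentence.Realize, Formula.realize_relabel]
    exact iff_of_eq (congrArg _ (Subsingleton.elim _ _))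
  rw [h1, h2, hc.realize_sentence_iff, hc.realize_sentence_iff]

theorem sameTp_of_isol {L : FirstOrder.Language.{0, 0}} {T : L.Theory} (hc : T.IsComplete)
    {N N' : Type} [Nonempty N] [Nonempty N'] [L.Structure N] [L.Structure N'] (hN : N ⊨ T)
    (hN' : N' ⊨ T) {n : ℕ} {b : Fin n → N} {θ : L.Formula (Fin n)}
    (hθ : ∀ χ : L.Formula (Fin n), χ.Realize b → ∀ w : Fin n → N, θ.Realize w → χ.Realize w)
    {b' : Fin n → N'} (hb' : θ.Realize b') : SameTp L b b' := by
  have key : ∀ χ : L.Formula (Fin n), χ.Realize b → χ.Realize b' := by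
    intro χ hχ
    obtain ⟨ψ, hψ⟩ := cp_ex (θ ⊓ ∼χ)
    by_contra h
    have h1 : ψ.Realize (Fin.elim0 : Fin 0 → N') :=
      (hψ N' _).2 ⟨b', Formula.realize_inf.2 ⟨hb', Formula.realize_not.2 h⟩⟩
    have h2 := (sameTp_zero hc hN hN' (Fin.elim0 : Fin 0 → N) Fin.elim0 ψ).2 h1
    obtain ⟨w, hw⟩ := (hψ N _).1 h2
    rw [Formula.realize_inf, Formula.realize_not] at hw
    exact hw.2 (hθ χ hχ w hw.1)
  intro χ
  refine ⟨key χ, fun h => ?_⟩
  by_contra h1
  have h2 := key (∼χ) (Formula.realize_not.2 h1)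
  exact Formula.realize_not.1 h2 h

theorem exists_realize {L : FirstOrder.Language.{0, 0}} {T : L.Theory} (hc : T.IsComplete)
    {N N' : Type} [Nonempty N] [Nonempty N'] [L.Structure N] [L.Structure N'] (hN : N ⊨ T)
    (hN' : N' ⊨ T) {n : ℕ} {θ : L.Formula (Fin n)} (h : ∃ b : Fin n → N, θ.Realize b) :
    ∃ b' : Fin n → N', θ.Realize b' := by
  obtain ⟨ψ, hψ⟩ := cp_ex θ
  exact (hψ N' Fin.elim0).1
    ((sameTp_zero hc hN hN' (Fin.elim0 : Fin 0 → N) Fin.elim0 ψ).1 ((hψ N _).2 h))

theorem exists_ctb_model {a : ℕ → ℕ} {T : (sig a).Theory} (hc : T.IsComplete) :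
    ∃ (N : Type) (_ : Nonempty N) (_ : Countable N) (_ : (sig a).Structure N), N ⊨ T := by
  obtain ⟨M⟩ := hc.1
  obtain ⟨x⟩ : Nonempty M := inferInstance
  obtain ⟨S, h1, h2⟩ := exists_ctb (a := a) (N := M) {x} (Set.countable_singleton x)
  exact ⟨S, ⟨⟨x, h1 rfl⟩⟩, h2, inferInstance, (S.theory_model_iff T).2 M.is_model⟩

theorem infinite_chain {a : ℕ → ℕ} {T : (sig a).Theory} (hc : T.IsComplete) (A : ℕ∞ → Type)
    (S : ∀ i, (sig a).Structure (A i)) (h1 : ∀ i, Countable (A i) ∧ A i ⊨ T)
    (h3 : ∀ i j, Nonempty (A i ↪ₑ[sig a] A j) ↔ i ≤ j) :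
    (∀ i, Nonempty (A i)) ∧
      ∀ (N : Type) [Nonempty N] [(sig a).Structure N], N ⊨ T → Infinite N := by
  have h10 : ¬ (1 : ℕ∞) ≤ 0 := by simp
  have hne : ∀ i, Nonempty (A i) := by
    intro i
    by_contra hi
    rw [not_nonempty_iff] at hi
    obtain ⟨f⟩ := (h3 0 i).2 bot_le
    have h0 : IsEmpty (A 0) := ⟨fun x => hi.false (f x)⟩
    obtain ⟨g⟩ := (h3 0 1).2 bot_le
    have hE : IsEmpty (A 1) := by
      by_contra hE
      rw [not_isEmpty_iff] at hE
      have h4 : A 1 ⊨ Sentence.cardGe (sig a) 1 := by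
        rw [Sentence.realize_cardGe]
        simpa using Cardinal.one_le_iff_ne_zero.2 (Cardinal.mk_ne_zero (A 1))
      have h5 : A 0 ⊨ Sentence.cardGe (sig a) 1 := (g.map_sentence _).2 h4
      rw [Sentence.realize_cardGe] at h5
      simp at h5
    refine h10 ((h3 1 0).1 ⟨⟨fun x => (hE.false x).elim, ?_⟩⟩)
    intro n φ x
    cases n with
    | zero =>
      have h6 := g.map_formula φ (Fin.elim0 : Fin 0 → A 0)
      have e1 : (g ∘ (Fin.elim0 : Fin 0 → A 0)) = x := Subsingleton.elim _ _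
      rw [e1] at h6
      rw [h6]
      exact iff_of_eq (congrArg _ (Subsingleton.elim _ _))
    | succ n => exact (hE.false (x 0)).elim
  have hinf : Infinite (A 0) := by
    by_contra hf
    rw [not_infinite_iff_finite] at hf
    obtain ⟨f⟩ := (h3 0 1).2 bot_le
    have h4 : ¬ A 1 ⊨ Sentence.cardGe (sig a) (Nat.card (A 0) + 1) := by
      rw [← f.map_sentence, Sentence.realize_cardGe, ← Nat.cast_card]
      intro h
      have h5 : Nat.card (A 0) + 1 ≤ Nat.card (A 0) := by exact_mod_cast h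
      omega
    rw [Sentence.realize_cardGe, not_le] at h4
    have hf1 : Finite (A 1) := by
      rw [← Cardinal.lt_aleph0_iff_finite]
      exact h4.trans (Cardinal.natCast_lt_aleph0)
    rw [← Nat.cast_card] at h4
    have h5 : Nat.card (A 1) < Nat.card (A 0) + 1 := by exact_mod_cast h4
    have h6 : Function.Bijective f :=
      (Nat.bijective_iff_injective_and_card f).2 ⟨f.injective, le_antisymm
        (Nat.card_le_card_of_injective f f.injective) (by omega)⟩
    let e := Equiv.ofBijective f h6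
    refine h10 ((h3 1 0).1 ⟨⟨e.symm, ?_⟩⟩)
    intro n φ x
    have h7 := f.map_formula φ (e.symm ∘ x)
    have e1 : (f ∘ (e.symm ∘ x)) = x := by
      funext i
      exact e.apply_symm_apply (x i)
    rw [e1] at h7
    exact h7.symm
  refine ⟨hne, ?_⟩
  intro N _ _ hN
  by_contra hf
  rw [not_infinite_iff_finite] at hf
  have := hN
  have := (h1 0).2
  have := hne 0
  have h4 : A 0 ⊨ Sentence.cardGe (sig a) (Nat.card N + 1) := by
    rw [Sentence.realize_cardGe]
    exact (Cardinal.natCast_lt_aleph0).le.trans (Cardinal.aleph0_le_mk _)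
  rw [hc.realize_sentence_iff, ← hc.realize_sentence_iff _ N, Sentence.realize_cardGe,
    ← Nat.cast_card] at h4
  have h5 : Nat.card N + 1 ≤ Nat.card N := by exact_mod_cast h4
  omega

end Pool.Agent.Work.MP_ed0a9a_lc.E
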