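import Pool.Agent.Work.MP_ed0a9a_lc.E.SameT
import Pool.Agent.Work.MP_ed0a9a_lc.E.BDefs

/-!
# Module `ElB` (size S-M): elementary substructures of relational structures

PROOFS.
* `exists_elSub`: the carrier `S` is closed under the functions (there are none);
  `Substructure.isElementary_of_exists`: a `BoundedFormula Empty (n + 1)` is turned into a formula in `Fin (n + 1)` by
  `BoundedFormula.toFormula` and relabelling.
* `exists_lift`: if `S₁ ⊆ S₂` are elementary substructures of `N`, then the inclusion `S₁ → S₂` is an elementary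
  embedding (the truth of formulas at tuples of `S₁` is the same in `S₁`, `N`, `S₂`).
* `sameTp_coe`: `sameTp_map` for `S.subtype`.
* `cl_subset`: elementary substructures are algebraically closed: let `Acl L b y`, `b` in `S`, witnessed by `φ`; the set
  of solutions of `φ(b, ·)` in `N` has exactly `n` elements and so has the set of solutions in `S` (`exists_atMost`), so
  they are equal; or `cl_map_subset` for `S.subtype`.
* `realize_emb`: `sameTp_map`.
* `exists_ctb`: downward Loewenheim-Skolem, `exists_elementarySubstructure_card_eq` (with `κ = ℵ₀` if `N` is infinite;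
  if `N` is countable take the whole structure).
-/

namespace Pool.Agent.Work.MP_ed0a9a_lc.E

open FirstOrder FirstOrder.Language

variable {a : ℕ → ℕ} {N : Type} [(sig a).Structure N]

private theorem card_sig' (a : ℕ → ℕ) : (sig a).card ≤ Cardinal.aleph0 := by
  unfold FirstOrder.Language.card
  rw [Cardinal.mk_le_aleph0_iff]
  exact inferInstanceAs (Countable ((Σ _ : ℕ, Empty) ⊕ (Σ n : ℕ, {i : ℕ // a i = n})))

theorem exists_elSub (S : Set N)
    (h : ∀ (n : ℕ) (φ : (sig a).Formula (Fin (n + 1))) (x : Fin n → N), (∀ i, x i ∈ S) →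
      (∃ y, φ.Realize (Fin.snoc x y : Fin (n + 1) → N)) →
      ∃ y ∈ S, φ.Realize (Fin.snoc x y : Fin (n + 1) → N)) :
    ∃ S' : (sig a).ElementarySubstructure N, (S' : Set N) = S := by
  let S₀ : (sig a).Substructure N := ⟨S, fun {_} f => Empty.elim f⟩
  refine ⟨⟨S₀, S₀.isElementary_of_exists ?_⟩, rfl⟩
  intro n φ x y hy
  let ψ : (sig a).Formula (Fin (n + 1)) :=
    φ.toFormula.relabel (Sum.elim Empty.elim id : Empty ⊕ Fin (n + 1) → Fin (n + 1))
  have hψ : ∀ v : Fin (n + 1) → N, ψ.Realize v ↔ φ.Realize default v := by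
    intro v
    rw [Formula.realize_relabel, BoundedFormula.realize_toFormula]
    have e1 : (v ∘ (Sum.elim Empty.elim id : Empty ⊕ Fin (n + 1) → Fin (n + 1))) ∘ Sum.inl =
        (default : Empty → N) := Subsingleton.elim _ _
    have e2 : (v ∘ (Sum.elim Empty.elim id : Empty ⊕ Fin (n + 1) → Fin (n + 1))) ∘ Sum.inr =
        v := rfl
    rw [e1, e2]
  obtain ⟨z, hz, hz'⟩ := h n ψ (fun i => (x i : N)) (fun i => (x i).2) ⟨y, (hψ _).2 hy⟩
  exact ⟨⟨z, hz⟩, (hψ _).1 hz'⟩

theorem exists_lift (S₁ S₂ : (sig a).ElementarySubstructure N) (h : (S₁ : Set N) ⊆ S₂) :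
    ∃ f : S₁ ↪ₑ[sig a] S₂, ∀ x, (f x : N) = x := by
  refine ⟨⟨fun x => ⟨x.1, h x.2⟩, ?_⟩, fun x => rfl⟩
  intro n φ v
  have h1 := S₁.subtype.map_formula φ v
  have h2 := S₂.subtype.map_formula φ ((fun x : S₁ => (⟨x.1, h x.2⟩ : S₂)) ∘ v)
  rw [← h1, ← h2]
  rfl

theorem sameTp_coe (S : (sig a).ElementarySubstructure N) {k : ℕ} (b : Fin k → S) :
    SameTp (sig a) b (fun i => (b i : N)) :=
  sameTp_map S.subtype b

theorem cl_subset (S : (sig a).ElementarySubstructure N) {B : Set N} (h : B ⊆ S) :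
    cl (sig a) B ⊆ S := by
  rintro y ⟨k, b, hb, hy⟩
  have h1 := cl_map_subset S.subtype (fun i => (⟨b i, h (hb i)⟩ : S))
  have h2 : y ∈ cl (sig a) (Set.range (S.subtype ∘ (fun i => (⟨b i, h (hb i)⟩ : S)))) :=
    ⟨k, b, fun i => ⟨i, rfl⟩, hy⟩
  obtain ⟨z, rfl⟩ := h1 h2
  exact z.2

theorem exists_ctb [Nonempty N] (B : Set N) (hB : B.Countable) :
    ∃ S : (sig a).ElementarySubstructure N, B ⊆ S ∧ Countable S := by
  rcases finite_or_infinite N with hN | hN
  · exact ⟨⊤, fun x _ => ElementarySubstructure.mem_top x, Subtype.countable⟩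
  · obtain ⟨S, h1, h2⟩ := exists_elementarySubstructure_card_eq (sig a) B Cardinal.aleph0.{0}
      le_rfl (by
        simp only [Cardinal.lift_id]
        exact Cardinal.mk_le_aleph0_iff.2 hB.to_subtype) (by
        simp only [Cardinal.lift_id]
        exact card_sig' a) (by
        simp only [Cardinal.lift_id]
        exact Cardinal.aleph0_le_mk N)
    refine ⟨S, h1, ?_⟩
    rw [← Cardinal.mk_le_aleph0_iff]
    simp only [Cardinal.lift_id] at h2
    exact h2.le

/-- the range of an elementary embedding as an elementary substructure -/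
theorem exists_range {M : Type} [(sig a).Structure M] (f : M ↪ₑ[sig a] N) :
    ∃ S : (sig a).ElementarySubstructure N, (S : Set N) = Set.range f ∧
      ∃ e : M ≃[sig a] S, ∀ x, (e x : N) = f x := by
  obtain ⟨S, hS⟩ := exists_elSub (a := a) (N := N) (Set.range f) (by
    intro n φ x hx hex
    choose x' hx' using hx
    have hxe : x = f ∘ x' := funext fun i => (hx' i).symm
    subst hxe
    obtain ⟨ψ, hψ⟩ := exists_ex φ
    obtain ⟨y, hy⟩ := (hψ M x').1 ((f.map_formula ψ x').1 ((hψ N (f ∘ x')).2 hex))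
    refine ⟨f y, ⟨y, rfl⟩, ?_⟩
    rw [← Fin.comp_snoc]
    exact (f.map_formula φ _).2 hy)
  have hmem : ∀ y : N, y ∈ S ↔ y ∈ Set.range f := fun y => by
    rw [← hS]
    rfl
  let g : M → S := fun x => ⟨f x, (hmem _).2 ⟨x, rfl⟩⟩
  have hg : Function.Bijective g := by
    refine ⟨fun x y hxy => f.injective (congrArg (fun z : S => (z : N)) hxy), ?_⟩
    rintro ⟨y, hy⟩
    obtain ⟨x, hx⟩ := (hmem y).1 hy
    exact ⟨x, Subtype.ext hx⟩
  refine ⟨S, hS, ⟨Equiv.ofBijective g hg, fun {_} f => Empty.elim f, ?_⟩, fun x => rfl⟩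
  intro n r x
  have h1 : Structure.RelMap r (S.subtype ∘ (g ∘ x)) ↔ Structure.RelMap r (g ∘ x) :=
    S.subtype.map_rel r _
  have h2 : Structure.RelMap r (f ∘ x) ↔ Structure.RelMap r x := f.map_rel r x
  exact h1.symm.trans h2

end Pool.Agent.Work.MP_ed0a9a_lc.E
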