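import Pool.Agent.Work.MP_ed0a9a_lc.E.Dens
import Pool.Agent.Work.MP_ed0a9a_lc.E.ElB
import Pool.Agent.Work.MP_ed0a9a_lc.E.CntF

/-!
# Module `Cstr` (size M): constructible models

PROOF.  The set of tasks `Σ k, (sig a).Formula (Fin (k + 1)) × (Fin k → N)` is countable (`countable_formula`, `N` countable);
let `τ : ℕ → tasks` be such that each task is `τ n` for infinitely many `n` (`τ n` = the `(unpair n).1`-th task).  Define `u n` recursively
(strong recursion on `n`): let `B_n = B ∪ u '' {m | m < n}` and `τ n = (k, φ, x)`.  If all `x i ∈ B_n` and `Dset φ x` is nonempty let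
`u n ∈ Dset φ x` be isolated over `B_n` (`exists_isol`); otherwise let `u n` be isolated over `B_n` (`exists_isol` for the
formula `⊤`, `dset_univ`, `N` is nonempty).  The set `S = B ∪ Set.range u` satisfies the condition of `exists_elSub`: if `φ(x, y)` with
`x` in `S`, all `x i ∈ B_{n₀}` for some `n₀`; take `n ≥ n₀` with `τ n = (k, φ, x)`: `u n ∈ Dset φ x`.
Let `S` be this structure and `i` the inclusion.  `Constr`: the sequence `u' n = ⟨u n, _⟩`; `IsolS` in `S` follows from `IsolS` in `N`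
by `sameTp_coe` (formulas have the same truth value at tuples of `S` in `S` and in `N`).
-/

namespace Pool.Agent.Work.MP_ed0a9a_lc.E

open FirstOrder FirstOrder.Language

private theorem exists_seq {N : Type} (B : Set N) (P : ℕ → Set N → N → Prop)
    (hP : ∀ n B', ∃ y, P n B' y) :
    ∃ u : ℕ → N, ∀ n, P n (B ∪ u '' {m | m < n}) (u n) := by
  choose step hstep using hP
  let A : ℕ → Set N := fun n => Nat.rec B (fun n A => A ∪ {step n A}) n
  have hA0 : A 0 = B := rfl
  have hA1 : ∀ n, A (n + 1) = A n ∪ {step n (A n)} := fun n => rfl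
  refine ⟨fun n => step n (A n), ?_⟩
  have key : ∀ n, A n = B ∪ (fun n => step n (A n)) '' {m | m < n} := by
    intro n
    induction n with
    | zero =>
      rw [hA0]
      simp
    | succ n ih =>
      have e : {m : ℕ | m < n + 1} = {m | m < n} ∪ {n} := by
        ext m
        simp only [Set.mem_ofPred_eq, Set.mem_union, Set.mem_singleton_iff]
        omega
      rw [hA1, e, Set.image_union, Set.image_singleton, ← Set.union_assoc, ← ih]
  intro n
  rw [← key]
  exact hstep n (A n)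

theorem exists_constr {a : ℕ → ℕ} {N : Type} [Nonempty N] [Countable N]
    [(sig a).Structure N] (h : IsEmpty (DTree (sig a) N)) (B : Set N) :
    ∃ (S : Type) (_ : Nonempty S) (_ : Countable S) (_ : (sig a).Structure S)
      (i : S ↪ₑ[sig a] N), B ⊆ Set.range i ∧ Constr (sig a) (i ⁻¹' B) := by
  have hcf : ∀ k, Countable ((sig a).Formula (Fin (k + 1))) := fun k => countable_formula a (k + 1)
  have : Nonempty (Σ k, (sig a).Formula (Fin (k + 1)) × (Fin k → N)) :=
    ⟨⟨0, ⊤, Fin.elim0⟩⟩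
  obtain ⟨e, he⟩ := exists_surjective_nat (Σ k, (sig a).Formula (Fin (k + 1)) × (Fin k → N))
  obtain ⟨u, hu⟩ := exists_seq B (fun n B' y => IsolS (sig a) B' y ∧
    ((∀ i, (e (Nat.unpair n).1).2.2 i ∈ B') →
      (Dset (sig a) (e (Nat.unpair n).1).2.1 (e (Nat.unpair n).1).2.2).Nonempty →
      y ∈ Dset (sig a) (e (Nat.unpair n).1).2.1 (e (Nat.unpair n).1).2.2)) (by
    intro n B'
    by_cases hc : (∀ i, (e (Nat.unpair n).1).2.2 i ∈ B') ∧
      (Dset (sig a) (e (Nat.unpair n).1).2.1 (e (Nat.unpair n).1).2.2).Nonempty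
    · obtain ⟨y, hy1, hy2⟩ := exists_isol h B' _ _ hc.1 hc.2
      exact ⟨y, hy2, fun _ _ => hy1⟩
    · obtain ⟨ρ, hρ⟩ := dset_univ (L := sig a)
      obtain ⟨y, hy1, hy2⟩ := exists_isol h B' ρ Fin.elim0 (fun i => i.elim0) (by
        rw [hρ]
        exact Set.univ_nonempty)
      exact ⟨y, hy2, fun h1 h2 => absurd ⟨h1, h2⟩ hc⟩)
  obtain ⟨S, hS⟩ := exists_elSub (a := a) (N := N) (B ∪ Set.range u) (by
    intro n φ x hx hex
    have h1 : ∀ i, ∃ m, x i ∈ B ∪ u '' {m' | m' < m} := by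
      intro i
      rcases hx i with h2 | ⟨m, hm⟩
      · exact ⟨0, Or.inl h2⟩
      · exact ⟨m + 1, Or.inr ⟨m, Nat.lt_succ_self m, hm⟩⟩
    choose m hm using h1
    obtain ⟨k, hk⟩ := he ⟨n, φ, x⟩
    have h3 := (hu (Nat.pair k (Finset.univ.sup m))).2
    rw [Nat.unpair_pair] at h3
    simp only at h3
    rw [hk] at h3
    refine ⟨u (Nat.pair k (Finset.univ.sup m)), Or.inr ⟨_, rfl⟩, ?_⟩
    refine h3 ?_ hex
    intro i
    rcases hm i with h4 | ⟨m', h4, h5⟩
    · exact Or.inl h4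
    · refine Or.inr ⟨m', ?_, h5⟩
      have h6 : m i ≤ Finset.univ.sup m := Finset.le_sup (Finset.mem_univ i)
      have h7 := Nat.right_le_pair k (Finset.univ.sup m)
      have h8 : m' < m i := h4
      exact lt_of_lt_of_le h8 (h6.trans h7))
  have hmem : ∀ y : N, y ∈ S ↔ y ∈ B ∪ Set.range u := fun y => by
    rw [← hS]
    rfl
  refine ⟨S, ⟨⟨u 0, (hmem _).2 (Or.inr ⟨0, rfl⟩)⟩⟩, Subtype.countable, inferInstance, S.subtype,
    ?_, ?_⟩
  · intro b hb
    exact ⟨⟨b, (hmem _).2 (Or.inl hb)⟩, rfl⟩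
  · have htp : ∀ {k : ℕ} (b : Fin k → S) (y : S) (χ : (sig a).Formula (Fin (k + 1))),
        χ.Realize (Fin.snoc b y : Fin (k + 1) → S) ↔
          χ.Realize (Fin.snoc (fun i => (b i : N)) (y : N) : Fin (k + 1) → N) := by
      intro k b y χ
      rw [sameTp_coe S (Fin.snoc b y : Fin (k + 1) → S) χ]
      have e1 : (fun i => ((Fin.snoc b y : Fin (k + 1) → S) i : N)) =
          (Fin.snoc (fun i => (b i : N)) (y : N) : Fin (k + 1) → N) := by
        funext i
        refine Fin.lastCases ?_ (fun i => ?_) i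
        · simp
        · simp
      rw [e1]
    refine ⟨fun n => ⟨u n, (hmem _).2 (Or.inr ⟨n, rfl⟩)⟩, ?_, ?_⟩
    · refine Set.eq_univ_of_forall ?_
      rintro ⟨y, hy⟩
      rcases (hmem y).1 hy with h1 | ⟨n, h1⟩
      · exact Or.inl h1
      · exact Or.inr ⟨n, Subtype.ext h1⟩
    · intro n
      have hsub : ∀ y : S, (y : N) ∈ B ∪ u '' {m | m < n} ↔
          y ∈ (S.subtype ⁻¹' B) ∪ (fun n => (⟨u n, (hmem _).2 (Or.inr ⟨n, rfl⟩)⟩ : S)) ''
            {m | m < n} := by
        intro y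
        constructor
        · rintro (h1 | ⟨m, h1, h2⟩)
          · exact Or.inl h1
          · exact Or.inr ⟨m, h1, Subtype.ext h2⟩
        · rintro (h1 | ⟨m, h1, h2⟩)
          · exact Or.inl h1
          · exact Or.inr ⟨m, h1, congrArg Subtype.val h2⟩
      obtain ⟨k, c, ψ, hc, hψ, hall⟩ := (hu n).1
      have hcS : ∀ i, c i ∈ S := by
        intro i
        rw [hmem]
        rcases hc i with h1 | ⟨m, _, h1⟩
        · exact Or.inl h1
        · exact Or.inr ⟨m, h1⟩
      refine ⟨k, fun i => ⟨c i, hcS i⟩, ψ, fun i => (hsub _).1 (hc i), (htp _ _ _).2 hψ, ?_⟩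
      intro l b χ hb hχ y' hy'
      rw [htp] at hχ hy' ⊢
      exact hall l _ χ (fun i => (hsub _).2 (hb i)) hχ _ hy'

end Pool.Agent.Work.MP_ed0a9a_lc.E
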