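import Pool.Agent.Work.MP_ed0a9a_lc.E.ElB
import Pool.Agent.Work.MP_ed0a9a_lc.E.Clo

/-!
# Module `CtP` (size M): countable saturated pairs

PROOF.  Let `C` be the countable structure of `Small T`.  For `k : ℕ` and `d : Fin (k + 1) → C` define functions
`F_{k,d}, G_{k,d} : (Fin k → U) → U`: `F_{k,d} b` is some `y` with `SameTp (Fin.snoc b y) d` if there is one (arbitrary
otherwise); `G_{k,d} b` is, if all `b i ∈ S`, some `y ∈ S` with `SameTp (Fin.snoc b y) d` if there is one (otherwise arbitrary).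
There are countably many such functions (`Σ k, Fin (k + 1) → C` is countable), so by `exists_closed` (`κ = ℵ₀`) there is a
countable set `N₁ ⊇ A` closed under all of them.
* `N₁` is the carrier of an elementary substructure (`exists_elSub`): if `φ(x, y)`, `x` in `N₁`, there is `d` in `C` with
  `SameTp (Fin.snoc x y) d` (smallness), so `z = F_{n,d} x ∈ N₁` has `SameTp (Fin.snoc x z) d`, so `φ(x, z)`.
* `Sat0 N₁`: let `b` be a tuple of `N₁` and `SameTp b b'`, `y' : N'`.  `Sat0 U` gives `y : U` with `SameTp (snoc b y) (snoc b' y')`; let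
  `d` in `C` have the type of `snoc b y`; `F_{k,d} b ∈ N₁` works.  (Types of tuples of `N₁` in `N₁` and in `U` are equal,
  `sameTp_coe`.)
* `S₁ = N₁ ∩ S`: the same with `G` and `Sat0 S` (`S` is an elementary substructure of `U`: if `φ(x, y)` with `x` in `S` there is
  such `y` in `S`).
-/

namespace Pool.Agent.Work.MP_ed0a9a_lc.E

open FirstOrder FirstOrder.Language

private theorem ctp_trans {L : FirstOrder.Language.{0, 0}} {N₁ N₂ N₃ : Type} [L.Structure N₁]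
    [L.Structure N₂] [L.Structure N₃] {k : ℕ} {b₁ : Fin k → N₁} {b₂ : Fin k → N₂}
    {b₃ : Fin k → N₃} (h : SameTp L b₁ b₂) (h' : SameTp L b₂ b₃) : SameTp L b₁ b₃ :=
  fun φ => (h φ).trans (h' φ)

private theorem ctp_symm {L : FirstOrder.Language.{0, 0}} {N₁ N₂ : Type} [L.Structure N₁]
    [L.Structure N₂] {k : ℕ} {b₁ : Fin k → N₁} {b₂ : Fin k → N₂}
    (h : SameTp L b₁ b₂) : SameTp L b₂ b₁ := fun φ => (h φ).symm

private theorem ctp_snoc {α β : Type} (f : α → β) {k : ℕ} (b : Fin k → α) (z : α) :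
    (fun i => f ((Fin.snoc b z : Fin (k + 1) → α) i)) =
      (Fin.snoc (fun i => f (b i)) (f z) : Fin (k + 1) → β) := by
  funext i
  refine Fin.lastCases ?_ (fun j => ?_) i
  · rw [Fin.snoc_last, Fin.snoc_last]
  · rw [Fin.snoc_castSucc, Fin.snoc_castSucc]

private theorem ctp_closure {C U : Type} [Countable C] [Nonempty U]
    (R : ∀ k : ℕ, (Fin k → U) → (Fin (k + 1) → C) → U → Prop) (S A : Set U)
    (hA : A.Countable) : ∃ W : Set U, A ⊆ W ∧ Countable W ∧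
      (∀ k b d, (∀ i, b i ∈ W) → (∃ y, R k b d y) → ∃ y ∈ W, R k b d y) ∧
      ∀ k b d, (∀ i, b i ∈ W) → (∃ y ∈ S, R k b d y) → ∃ y ∈ W, y ∈ S ∧ R k b d y := by
  classical
  obtain ⟨u0⟩ := (inferInstance : Nonempty U)
  let F : ∀ i : (Σ k : ℕ, (Fin (k + 1) → C)) × Bool, (Fin i.1.1 → U) → U := fun i b =>
    if i.2 = true then
      (if h : ∃ y, R i.1.1 b i.1.2 y then h.choose else u0)
    else (if h : ∃ y, y ∈ S ∧ R i.1.1 b i.1.2 y then h.choose else u0)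
  have hι : Cardinal.mk ((Σ k : ℕ, (Fin (k + 1) → C)) × Bool) ≤ Cardinal.aleph0 :=
    Cardinal.mk_le_aleph0
  have hA' : Cardinal.mk A ≤ Cardinal.aleph0 := Cardinal.le_aleph0_iff_set_countable.2 hA
  obtain ⟨W, hAW, hW, hcl⟩ := exists_closed Cardinal.aleph0 le_rfl hι (fun i => i.1.1) F A hA'
  refine ⟨W, hAW, Cardinal.mk_le_aleph0_iff.1 hW, ?_, ?_⟩
  · intro k b d hb hex
    have h1 := hcl (⟨k, d⟩, true) b hb
    have h2 : F (⟨k, d⟩, true) b = hex.choose := by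
      show (if true = true then (if h : ∃ y, R k b d y then h.choose else u0)
        else (if h : ∃ y, y ∈ S ∧ R k b d y then h.choose else u0)) = _
      rw [if_pos rfl, dif_pos hex]
    rw [h2] at h1
    exact ⟨_, h1, hex.choose_spec⟩
  · intro k b d hb hex
    have h1 := hcl (⟨k, d⟩, false) b hb
    have h2 : F (⟨k, d⟩, false) b = hex.choose := by
      show (if false = true then (if h : ∃ y, R k b d y then h.choose else u0)
        else (if h : ∃ y, y ∈ S ∧ R k b d y then h.choose else u0)) = _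
      rw [if_neg (by decide), dif_pos hex]
    rw [h2] at h1
    exact ⟨_, h1, hex.choose_spec.1, hex.choose_spec.2⟩

theorem exists_countable_pair {a : ℕ → ℕ} {T : (sig a).Theory} (hs : Small T) {U : Type}
    [Nonempty U] [(sig a).Structure U] (hU : U ⊨ T) (S : (sig a).ElementarySubstructure U)
    (h1 : Sat0 (sig a) U) (h2 : Sat0 (sig a) S) (A : Set U) (hA : A.Countable) :
    ∃ N₁ S₁ : (sig a).ElementarySubstructure U, A ⊆ N₁ ∧ Countable N₁ ∧ Sat0 (sig a) N₁ ∧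
      (S₁ : Set U) = (N₁ : Set U) ∩ S ∧ Sat0 (sig a) S₁ := by
  obtain ⟨C, iC, SC, hC⟩ := hs
  obtain ⟨W, hAW, hWc, hP1, hP2⟩ := ctp_closure (C := C)
    (fun k b d y => SameTp (sig a) (Fin.snoc b y : Fin (k + 1) → U) d) (S : Set U) A hA
  -- the big one
  obtain ⟨N₁, hN₁⟩ := exists_elSub (a := a) W fun n φ x hx hex => by
    obtain ⟨y, hy⟩ := hex
    obtain ⟨d, hd⟩ := hC U hU (n + 1) (Fin.snoc x y : Fin (n + 1) → U)
    obtain ⟨z, hz, hzd⟩ := hP1 n x d hx ⟨y, hd⟩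
    exact ⟨z, hz, (hzd φ).2 ((hd φ).1 hy)⟩
  -- the small one
  obtain ⟨S₁, hS₁⟩ := exists_elSub (a := a) (W ∩ S) fun n φ x hx hex => by
    obtain ⟨ψ, hψ⟩ := exists_ex φ
    let x' : Fin n → S := fun i => ⟨x i, (hx i).2⟩
    have h3 : ψ.Realize x := (hψ U x).2 hex
    have h4 : SameTp (sig a) x' x := sameTp_coe S x'
    obtain ⟨y', hy'⟩ := (hψ S x').1 ((h4 ψ).2 h3)
    have h5 := sameTp_coe S (Fin.snoc x' y' : Fin (n + 1) → S)
    rw [ctp_snoc (fun s : S => (s : U)) x' y'] at h5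
    have hy : φ.Realize (Fin.snoc x (y' : U) : Fin (n + 1) → U) := (h5 φ).1 hy'
    obtain ⟨d, hd⟩ := hC U hU (n + 1) (Fin.snoc x (y' : U) : Fin (n + 1) → U)
    obtain ⟨z, hz, hzS, hzd⟩ := hP2 n x d (fun i => (hx i).1) ⟨y', y'.2, hd⟩
    exact ⟨z, ⟨hz, hzS⟩, (hzd φ).2 ((hd φ).1 hy)⟩
  have hmN : ∀ x, x ∈ N₁ ↔ x ∈ W := fun x => by
    rw [← hN₁]
    exact Iff.rfl
  have hmS : ∀ x, x ∈ S₁ ↔ x ∈ W ∩ S := fun x => by
    rw [← hS₁]
    exact Iff.rfl
  refine ⟨N₁, S₁, ?_, ?_, ?_, ?_, ?_⟩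
  · rw [hN₁]
    exact hAW
  · have h3 : Countable ((N₁ : Set U) : Type) := by
      rw [hN₁]
      exact hWc
    exact h3
  · intro k b N' _ b' hb y'
    have h3 : SameTp (sig a) b (fun i => (b i : U)) := sameTp_coe N₁ b
    obtain ⟨y, hy⟩ := h1 k (fun i => (b i : U)) N' b' (ctp_trans (ctp_symm h3) hb) y'
    obtain ⟨d, hd⟩ := hC U hU (k + 1) (Fin.snoc (fun i => (b i : U)) y : Fin (k + 1) → U)
    obtain ⟨z, hz, hzd⟩ := hP1 k (fun i => (b i : U)) d (fun i => (hmN _).1 (b i).2) ⟨y, hd⟩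
    refine ⟨⟨z, (hmN z).2 hz⟩, ?_⟩
    have h5 := sameTp_coe N₁ (Fin.snoc b ⟨z, (hmN z).2 hz⟩ : Fin (k + 1) → N₁)
    rw [ctp_snoc (fun s : N₁ => (s : U)) b ⟨z, (hmN z).2 hz⟩] at h5
    exact ctp_trans h5 (ctp_trans hzd (ctp_trans (ctp_symm hd) hy))
  · rw [hS₁, hN₁]
  · intro k b N' _ b' hb y'
    have h3 : SameTp (sig a) b (fun i => (b i : U)) := sameTp_coe S₁ b
    let bS : Fin k → S := fun i => ⟨(b i : U), ((hmS _).1 (b i).2).2⟩
    have h4 : SameTp (sig a) bS (fun i => (b i : U)) := sameTp_coe S bS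
    obtain ⟨y, hy⟩ := h2 k bS N' b' (ctp_trans h4 (ctp_trans (ctp_symm h3) hb)) y'
    have h6 := sameTp_coe S (Fin.snoc bS y : Fin (k + 1) → S)
    rw [ctp_snoc (fun s : S => (s : U)) bS y] at h6
    obtain ⟨d, hd⟩ := hC U hU (k + 1)
      (Fin.snoc (fun i => (b i : U)) (y : U) : Fin (k + 1) → U)
    obtain ⟨z, hz, hzS, hzd⟩ := hP2 k (fun i => (b i : U)) d
      (fun i => ((hmS _).1 (b i).2).1) ⟨y, y.2, hd⟩
    refine ⟨⟨z, (hmS z).2 ⟨hz, hzS⟩⟩, ?_⟩
    have h5 := sameTp_coe S₁ (Fin.snoc b ⟨z, (hmS z).2 ⟨hz, hzS⟩⟩ : Fin (k + 1) → S₁)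
    rw [ctp_snoc (fun s : S₁ => (s : U)) b ⟨z, (hmS z).2 ⟨hz, hzS⟩⟩] at h5
    exact ctp_trans h5 (ctp_trans hzd (ctp_trans (ctp_symm hd) (ctp_trans (ctp_symm h6) hy)))

end Pool.Agent.Work.MP_ed0a9a_lc.E
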