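import Pool.Agent.Work.MP_ed0a9a_lc.E.BDefs

/-!
# Module `DTr` (size S-M): a splitting property gives a tree

PROOF.  Let `Q = {x : Σ k, L.Formula (Fin (k + 1)) × (Fin k → N) // P x.1 x.2.1 x.2.2}`.  By `hs` there are functions
`s₁ s₂ : Q → Q` with `D (s₁ x), D (s₂ x) ⊆ D x` and `D (s₁ x)`, `D (s₂ x)` disjoint.  Define `node' : List Bool → Q` by `node' [] = q₀`,
`node' (true :: s) = s₁ (node' s)`, `node' (false :: s) = s₂ (node' s)`, and `node s = node' s.reverse`, so that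
`node (s ++ [b]) = node' (b :: s.reverse)` (`List.reverse_append`).  The tree: `k s = (node s).1.1`, etc.
-/

namespace Pool.Agent.Work.MP_ed0a9a_lc.E

open FirstOrder FirstOrder.Language

theorem exists_dtree {L : FirstOrder.Language.{0, 0}} {N : Type} [L.Structure N]
    (P : ∀ k : ℕ, L.Formula (Fin (k + 1)) → (Fin k → N) → Prop)
    (h0 : ∃ (k : ℕ) (φ : L.Formula (Fin (k + 1))) (c : Fin k → N), P k φ c)
    (hne : ∀ k φ c, P k φ c → (Dset L φ c).Nonempty)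
    (hs : ∀ k φ c, P k φ c → ∃ (k₁ : ℕ) (φ₁ : L.Formula (Fin (k₁ + 1))) (c₁ : Fin k₁ → N)
      (k₂ : ℕ) (φ₂ : L.Formula (Fin (k₂ + 1))) (c₂ : Fin k₂ → N), P k₁ φ₁ c₁ ∧ P k₂ φ₂ c₂ ∧
        Dset L φ₁ c₁ ⊆ Dset L φ c ∧ Dset L φ₂ c₂ ⊆ Dset L φ c ∧
        Disjoint (Dset L φ₁ c₁) (Dset L φ₂ c₂)) : Nonempty (DTree L N) := by
  classical
  let Q : Type := {x : Σ k, L.Formula (Fin (k + 1)) × (Fin k → N) // P x.1 x.2.1 x.2.2}
  let D : Q → Set N := fun q => Dset L q.1.2.1 q.1.2.2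
  have hs' : ∀ x : Q, ∃ y z : Q, D y ⊆ D x ∧ D z ⊆ D x ∧ Disjoint (D y) (D z) := by
    intro x
    obtain ⟨k₁, φ₁, c₁, k₂, φ₂, c₂, h1, h2, h3, h4, h5⟩ := hs _ _ _ x.2
    exact ⟨⟨⟨k₁, φ₁, c₁⟩, h1⟩, ⟨⟨k₂, φ₂, c₂⟩, h2⟩, h3, h4, h5⟩
  choose s₁ s₂ hsub1 hsub2 hdis using hs'
  obtain ⟨k, φ, c, h0⟩ := h0
  let node : List Bool → Q := List.foldl (fun q b => if b = true then s₁ q else s₂ q)
    ⟨⟨k, φ, c⟩, h0⟩
  have hnode : ∀ s b, node (s ++ [b]) = if b = true then s₁ (node s) else s₂ (node s) := by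
    intro s b
    change List.foldl _ _ (s ++ [b]) = _
    rw [List.foldl_append]
    rfl
  exact ⟨
    { k := fun s => (node s).1.1
      φ := fun s => (node s).1.2.1
      c := fun s => (node s).1.2.2
      ne := fun s => hne _ _ _ (node s).2
      sub := by
        intro s b
        change D (node (s ++ [b])) ⊆ D (node s)
        rw [hnode]
        cases b
        · exact hsub2 _
        · exact hsub1 _
      disj := by
        intro s
        change Disjoint (D (node (s ++ [true]))) (D (node (s ++ [false])))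
        rw [hnode, hnode]
        exact hdis _ }⟩

end Pool.Agent.Work.MP_ed0a9a_lc.E
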