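import Pool.Agent.Work.MP_ed0a9a_lc.Defs

/-!
# Strongly minimal model complete theories: definitions (block `E`)

All statements of the block `E` are about structures `N : Type` for a language
`L : Language.{0, 0}` (or for `sig a`).  Tuples are functions `Fin k → N`, `Fin.snoc b y` is the
tuple `b` followed by `y`.
-/

namespace Pool.Agent.Work.MP_ed0a9a_lc.E

open FirstOrder FirstOrder.Language

/-- `T` is model complete: every embedding between models of `T` is elementary. -/
def ModelComplete {L : FirstOrder.Language.{0, 0}} (T : L.Theory) : Prop :=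
  ∀ (M N : Type) [Nonempty M] [Nonempty N] [L.Structure M] [L.Structure N], M ⊨ T → N ⊨ T →
    ∀ (f : M ↪[L] N) (n : ℕ) (φ : L.Formula (Fin n)) (v : Fin n → M),
      φ.Realize (f ∘ v) ↔ φ.Realize v

/-- `T` is strongly minimal: its models are infinite, and every subset of a model which is
definable with parameters is finite or cofinite. -/
def StronglyMinimal {L : FirstOrder.Language.{0, 0}} (T : L.Theory) : Prop :=
  ∀ (M : Type) [Nonempty M] [L.Structure M], M ⊨ T → Infinite M ∧
    ∀ (n : ℕ) (φ : L.Formula (Fin (n + 1))) (v : Fin n → M),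
      {x | φ.Realize (Fin.snoc v x : Fin (n + 1) → M)}.Finite ∨
        {x | ¬ φ.Realize (Fin.snoc v x : Fin (n + 1) → M)}.Finite

section

variable (L : FirstOrder.Language.{0, 0}) {N : Type} [L.Structure N]

/-- `y` is algebraic over the tuple `b`. -/
def Acl {k : ℕ} (b : Fin k → N) (y : N) : Prop :=
  ∃ φ : L.Formula (Fin (k + 1)), φ.Realize (Fin.snoc b y : Fin (k + 1) → N) ∧
    {z | φ.Realize (Fin.snoc b z : Fin (k + 1) → N)}.Finite

/-- The algebraic closure of the set `B`. -/
def cl (B : Set N) : Set N :=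
  {y | ∃ (k : ℕ) (b : Fin k → N), (∀ i, b i ∈ B) ∧ Acl L b y}

/-- The tuple `b` is (algebraically) independent. -/
def Ind {k : ℕ} (b : Fin k → N) : Prop := ∀ j : Fin k, b j ∉ cl L (b '' {i | i < j})

/-- The structure `N` has a basis of length `d`. -/
def HasDim (N : Type) [L.Structure N] (d : ℕ) : Prop :=
  ∃ b : Fin d → N, Ind L b ∧ cl L (Set.range b) = Set.univ

/-- The tuples `b`, `b'` have the same type. -/
def SameTp {N' : Type} [L.Structure N'] {k : ℕ} (b : Fin k → N) (b' : Fin k → N') : Prop :=
  ∀ φ : L.Formula (Fin k), φ.Realize b ↔ φ.Realize b'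

end

/-- The formula `φ` is true at the independent `k`-tuples of the models of `T`. -/
def Gen {L : FirstOrder.Language.{0, 0}} (T : L.Theory) {k : ℕ} (φ : L.Formula (Fin k)) : Prop :=
  ∀ (N : Type) [Nonempty N] [L.Structure N], N ⊨ T → ∀ b : Fin k → N, Ind L b → φ.Realize b

/-! ## Primitive formulas for the signatures `sig a` -/

/-- A literal: `(0, [x, y], s)` is `v x = v y` (if `s = true`) or `v x ≠ v y` (if `s = false`);
`(i + 1, l, s)` says that the relation `i` holds (if `s = true`) or does not hold of the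
variables in the list `l`. -/
abbrev Lit := ℕ × List ℕ × Bool

/-- The atomic formula of a literal is true for the relations `H` under the assignment `c`. -/
def AtTrue {N : Type} (H : ℕ → List N → Prop) (c : ℕ → N) (l : Lit) : Prop :=
  (l.1 = 0 ∧ ∃ x y, l.2.1 = [x, y] ∧ c x = c y) ∨ (l.1 ≠ 0 ∧ H (l.1 - 1) (l.2.1.map c))

/-- The literal `l` is true for the relations `H` under the assignment `c`. -/
def LTrue {N : Type} (H : ℕ → List N → Prop) (c : ℕ → N) (l : Lit) : Prop :=
  AtTrue H c l ↔ l.2.2 = true

/-- The primitive formula `∃ …, ⋀ θ` is true at `b` (the variables `≥ b.length` are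
quantified existentially). -/
def PTrue {N : Type} (H : ℕ → List N → Prop) (θ : List Lit) (b : List N) : Prop :=
  ∃ c : ℕ → N, (∀ (i : ℕ) (h : i < b.length), c i = b[i]) ∧ ∀ l ∈ θ, LTrue H c l

/-- For every `m` there is a sequence of `m` distinct elements all whose increasing `k`-tuples
satisfy `θ`. -/
def SeqT {N : Type} (H : ℕ → List N → Prop) (k : ℕ) (θ : List Lit) : Prop :=
  ∀ m : ℕ, ∃ c : Fin m → N, Function.Injective c ∧
    ∀ g : Fin k → Fin m, StrictMono g → PTrue H θ (List.ofFn (c ∘ g))

/-- The `∀∃` sentences `∀ x₀ … x_{k-1}, ⋁ Θ` true in `H` are true in `H'`. -/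
def Le2 {N N' : Type} (H : ℕ → List N → Prop) (H' : ℕ → List N' → Prop) : Prop :=
  ∀ (k : ℕ) (Θ : List (List Lit)), (∀ v : Fin k → N, ∃ θ ∈ Θ, PTrue H θ (List.ofFn v)) →
    ∀ v : Fin k → N', ∃ θ ∈ Θ, PTrue H' θ (List.ofFn v)

/-- The condition on the tuple `b` in the structure with the relations `H'` which says that it
is a basis of a model of the theory of the model with the relations `H`. -/
def Basic {N N' : Type} (H : ℕ → List N → Prop) (H' : ℕ → List N' → Prop) {d : ℕ}
    (b : Fin d → N') : Prop :=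
  Le2 H H' ∧ (∀ θ, PTrue H' θ (List.ofFn b) → SeqT H d θ) ∧
    ∀ y : N', ∃ θ, PTrue H' θ (List.ofFn b ++ [y]) ∧ ¬ SeqT H (d + 1) θ

end Pool.Agent.Work.MP_ed0a9a_lc.E
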