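import Pool.Agent.Work.MP_ed0a9a_lc.E.DTr
import Pool.Agent.Work.MP_ed0a9a_lc.E.DsB

/-!
# Module `Dens` (size S-M): isolated types are dense

PROOF.  Suppose there is none.  `exists_dtree` with `P k' φ' c'` = `(∀ i, c' i ∈ B) ∧ (Dset φ' c').Nonempty ∧ Dset φ' c' ⊆ Dset φ c` gives a
tree: it holds for `φ`, `c`; let it hold for `φ'`, `c'`, let `y ∈ Dset φ' c'`.  As `y ∈ Dset φ c` is not isolated over `B`, the formula `φ'`
with the parameters `c'` does not isolate its type: there are `b` in `B`, `χ` with `y ∈ Dset χ b` and `y' ∈ Dset φ' c'` with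
`y' ∉ Dset χ b`.  The sets `Dset φ' c' ∩ Dset χ b` and `Dset φ' c' \ Dset χ b` are as required (`dset_inter`, `dset_diff`).
-/

namespace Pool.Agent.Work.MP_ed0a9a_lc.E

open FirstOrder FirstOrder.Language

theorem exists_isol {L : FirstOrder.Language.{0, 0}} {N : Type} [L.Structure N]
    (h : IsEmpty (DTree L N)) (B : Set N) {k : ℕ} (φ : L.Formula (Fin (k + 1)))
    (c : Fin k → N) (hc : ∀ i, c i ∈ B) (hne : (Dset L φ c).Nonempty) :
    ∃ y ∈ Dset L φ c, IsolS L B y := by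
  by_contra hcon
  push Not at hcon
  refine h.elim (Classical.choice (exists_dtree
    (fun k' φ' c' => (∀ i, c' i ∈ B) ∧ (Dset L φ' c').Nonempty ∧ Dset L φ' c' ⊆ Dset L φ c)
    ⟨k, φ, c, hc, hne, subset_rfl⟩ (fun k' φ' c' hp => hp.2.1) ?_))
  rintro k' φ' c' ⟨hc', ⟨y, hy⟩, hsub⟩
  have hy2 := hcon y (hsub hy)
  have key : ∃ (l : ℕ) (b : Fin l → N) (χ : L.Formula (Fin (l + 1))), (∀ i, b i ∈ B) ∧
      y ∈ Dset L χ b ∧ ∃ y' ∈ Dset L φ' c', y' ∉ Dset L χ b := by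
    by_contra hk
    push Not at hk
    exact hy2 ⟨k', c', φ', hc', hy, fun l b χ hb hχ y' hy' => hk l b χ hb hχ y' hy'⟩
  obtain ⟨l, b, χ, hb, hyb, y', hy', hny'⟩ := key
  obtain ⟨ρ₁, h₁⟩ := dset_inter φ' χ
  obtain ⟨ρ₂, h₂⟩ := dset_diff φ' χ
  have hap : ∀ i, (Fin.append c' b) i ∈ B := by
    intro i
    refine Fin.addCases (fun j => ?_) (fun j => ?_) i
    · rw [Fin.append_left]
      exact hc' j
    · rw [Fin.append_right]
      exact hb j
  refine ⟨k' + l, ρ₁, Fin.append c' b, k' + l, ρ₂, Fin.append c' b, ⟨hap, ?_, ?_⟩,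
    ⟨hap, ?_, ?_⟩, ?_, ?_, ?_⟩
  · rw [h₁ N c' b]
    exact ⟨y, hy, hyb⟩
  · rw [h₁ N c' b]
    exact fun z hz => hsub hz.1
  · rw [h₂ N c' b]
    exact ⟨y', hy', hny'⟩
  · rw [h₂ N c' b]
    exact fun z hz => hsub hz.1
  · rw [h₁ N c' b]
    exact fun z hz => hz.1
  · rw [h₂ N c' b]
    exact fun z hz => hz.1
  · rw [h₁ N c' b, h₂ N c' b]
    exact Set.disjoint_left.2 fun z hz hz2 => hz2.2 hz.2

end Pool.Agent.Work.MP_ed0a9a_lc.E
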