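import Pool.Agent.Work.MP_ed0a9a_lc.E.Defs

/-!
# Module `Diag` (size S-M): embeddings and literals

PROOFS.
* `lTrue_map`: equality: `f` is injective; relations: `hd a SN i (l.map f) ↔ hd a SM i l` (`map_rel`; both sides
  contain the condition on the length).
* `pTrue_map`: compose the assignment with `f`.
* `exists_emb`: injectivity from the literals `(0, [0, 1], false)`; the relations in both directions from the literals
  `(i + 1, [0, …, a i - 1], s)`, `s = true, false`, for assignments `c` which begin with the given tuple.
-/

namespace Pool.Agent.Work.MP_ed0a9a_lc.E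

open FirstOrder FirstOrder.Language

variable {a : ℕ → ℕ} {M N : Type} [SM : (sig a).Structure M] [SN : (sig a).Structure N]

private theorem hd_map (f : M ↪[sig a] N) (i : ℕ) (l : List M) :
    hd a SN i (l.map f) ↔ hd a SM i l := by
  unfold hd
  constructor
  · rintro ⟨h, hr⟩
    have h' : l.length = a i := by simpa using h
    refine ⟨h', ?_⟩
    have key := f.map_rel (n := a i) (⟨i, rfl⟩ : (sig a).Relations (a i))
      (fun t => l.get (t.cast h'.symm))
    refine key.mp ?_
    convert hr using 1
    funext t
    simp
  · rintro ⟨h', hr⟩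
    have h : (l.map f).length = a i := by simpa using h'
    refine ⟨h, ?_⟩
    have key := f.map_rel (n := a i) (⟨i, rfl⟩ : (sig a).Relations (a i))
      (fun t => l.get (t.cast h'.symm))
    have := key.mpr hr
    convert this using 1
    funext t
    simp

private theorem hd_ofFn (S : (sig a).Structure M) (i : ℕ) (x : Fin (a i) → M) :
    hd a S i (List.ofFn x) ↔ S.RelMap (n := a i) ⟨i, rfl⟩ x := by
  unfold hd
  have e : ∀ h : (List.ofFn x).length = a i,
      (fun t : Fin (a i) => (List.ofFn x).get (t.cast h.symm)) = x := by
    intro h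
    funext t
    simp
  constructor
  · rintro ⟨h, hr⟩
    rw [e h] at hr
    exact hr
  · intro hr
    refine ⟨List.length_ofFn, ?_⟩
    rw [e List.length_ofFn]
    exact hr

theorem lTrue_map (f : M ↪[sig a] N) (c : ℕ → M) (l : Lit) :
    LTrue (hd a SN) (f ∘ c) l ↔ LTrue (hd a SM) c l := by
  have key : AtTrue (hd a SN) (f ∘ c) l ↔ AtTrue (hd a SM) c l := by
    unfold AtTrue
    have e : l.2.1.map (f ∘ c) = (l.2.1.map c).map f := by simp
    rw [e, hd_map]
    constructor
    · rintro (⟨h0, x, y, hl, h⟩ | h)
      · exact Or.inl ⟨h0, x, y, hl, f.injective h⟩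
      · exact Or.inr h
    · rintro (⟨h0, x, y, hl, h⟩ | h)
      · exact Or.inl ⟨h0, x, y, hl, congrArg f h⟩
      · exact Or.inr h
  unfold LTrue
  rw [key]

theorem pTrue_map (f : M ↪[sig a] N) {θ : List Lit} {b : List M} (h : PTrue (hd a SM) θ b) :
    PTrue (hd a SN) θ (b.map f) := by
  obtain ⟨c, hc, hθ⟩ := h
  refine ⟨f ∘ c, ?_, fun l hl => (lTrue_map f c l).mpr (hθ l hl)⟩
  intro i hi
  have hi' : i < b.length := by simpa using hi
  simp [hc i hi']

theorem exists_emb [Nonempty M] (v : M → N)
    (h : ∀ (c : ℕ → M) (l : Lit), LTrue (hd a SM) c l → LTrue (hd a SN) (v ∘ c) l) :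
    ∃ f : M ↪[sig a] N, ∀ x, f x = v x := by
  classical
  have hinj : Function.Injective v := by
    intro x y hxy
    by_contra hne
    have h1 : LTrue (hd a SM) (fun n : ℕ => if n = 0 then x else y) (0, [0, 1], false) := by
      unfold LTrue AtTrue
      simp only [Bool.false_eq_true, iff_false]
      rintro (⟨-, p, q, hpq, he⟩ | ⟨h0, -⟩)
      · simp only [List.cons.injEq, and_true] at hpq
        obtain ⟨rfl, rfl⟩ := hpq
        simp at he
        exact hne he
      · exact h0 rfl
    have h2 := h _ _ h1
    unfold LTrue AtTrue at h2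
    simp only [Bool.false_eq_true, iff_false] at h2
    apply h2
    refine Or.inl ⟨trivial, 0, 1, rfl, ?_⟩
    simpa using hxy
  have hrel : ∀ {n : ℕ} (r : (sig a).Relations n) (x : Fin n → M),
      Structure.RelMap r (v ∘ x) ↔ Structure.RelMap r x := by
    rintro n ⟨i, rfl⟩ x
    set c : ℕ → M := fun k => if hk : k < a i then x ⟨k, hk⟩ else Classical.arbitrary M with hc
    have e1 : (List.range (a i)).map c = List.ofFn x := by
      apply List.ext_getElem
      · simp
      · intro k hk1 hk2
        have hk : k < a i := by simpa using hk1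
        simp [hc, hk]
    have e2 : (List.range (a i)).map (v ∘ c) = List.ofFn (v ∘ x) := by
      apply List.ext_getElem
      · simp
      · intro k hk1 hk2
        have hk : k < a i := by simpa using hk1
        simp [hc, hk]
    have a1 : ∀ s, AtTrue (hd a SM) c (i + 1, List.range (a i), s) ↔
        SM.RelMap (n := a i) ⟨i, rfl⟩ x := by
      intro s
      unfold AtTrue
      simp only [Nat.add_eq_zero_iff, one_ne_zero, and_false, false_and, ne_eq, not_false_eq_true,
        true_and, false_or, Nat.add_sub_cancel]
      rw [e1]
      exact hd_ofFn SM i x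
    have a2 : ∀ s, AtTrue (hd a SN) (v ∘ c) (i + 1, List.range (a i), s) ↔
        SN.RelMap (n := a i) ⟨i, rfl⟩ (v ∘ x) := by
      intro s
      unfold AtTrue
      simp only [Nat.add_eq_zero_iff, one_ne_zero, and_false, false_and, ne_eq, not_false_eq_true,
        true_and, false_or, Nat.add_sub_cancel]
      rw [e2]
      exact hd_ofFn SN i (v ∘ x)
    constructor
    · intro hN
      by_contra hM
      have h1 : LTrue (hd a SM) c (i + 1, List.range (a i), false) := by
        unfold LTrue
        rw [a1]
        simp only [Bool.false_eq_true, iff_false]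
        exact hM
      have h2 := h _ _ h1
      unfold LTrue at h2
      rw [a2] at h2
      simp only [Bool.false_eq_true, iff_false] at h2
      exact h2 hN
    · intro hM
      have h1 : LTrue (hd a SM) c (i + 1, List.range (a i), true) := by
        unfold LTrue
        rw [a1]
        simp only [iff_true]
        exact hM
      have h2 := h _ _ h1
      unfold LTrue at h2
      rw [a2] at h2
      simp only [iff_true] at h2
      exact h2
  refine ⟨{ toFun := v, inj' := hinj, map_fun' := ?_, map_rel' := ?_ }, fun x => rfl⟩
  · intro n g x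
    exact Empty.elim g
  · intro n r x
    exact hrel r x

end Pool.Agent.Work.MP_ed0a9a_lc.E
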