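import Pool.Agent.Work.MP_ed0a9a_lc.E.ClB

/-!
# Module `SameT` (size M): types and elementary embeddings

PROOFS.
* `sameTp_comp`: `Formula.realize_relabel`.
* `acl_of_sameTp`: if `SameTp (snoc b y) (snoc b' y')` and `Acl b y` is witnessed by `φ`, `n` (`acl_iff`), apply
  the hypothesis to the formula `φ(b, y)` and `φ(b, ·)` has at most `n` solutions (`exists_atMost`,
  relabelled with `Fin.castSucc`).
* `sameTp_ind`: if `b' j ∈ cl (b' '' {i | i < j})`, then (choose indices) `Acl L (b' ∘ g) (b' j)` for some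
  `g : Fin m → Fin k` with `g i < j`; `Fin.snoc (b' ∘ g) (b' j) = b' ∘ Fin.snoc g j`, so by `sameTp_comp` and
  `acl_of_sameTp` also `Acl L (b ∘ g) (b j)`, which contradicts `Ind L b`.
* `sameTp_map`: `ElementaryEmbedding.map_formula`.
* `map_mem_cl`: `y ∈ cl B` is witnessed by a tuple `b` in `B`; `sameTp_map` for `Fin.snoc b y`, `acl_of_sameTp`;
  conversely for a tuple in `f '' B` choose preimages in `B`.
* `cl_map_subset`: let `Acl L (f ∘ b) y'` be witnessed by `φ`; the set `S` of the solutions of `φ(b, ·)` in `N` and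
  the set `S'` of the solutions of `φ(f ∘ b, ·)` in `N'` satisfy `f '' S ⊆ S'`; `S` is finite (`f` is injective); by
  `exists_atMost` with `n = S.ncard` (`sameTp_map`) `S'.ncard ≤ S.ncard`, so `f '' S = S'` and `y' ∈ f '' S`.
* `hasDim_of_equiv`: `e.toElementaryEmbedding`, `b' = e ∘ b`, `sameTp_ind`, `map_mem_cl`.
-/

namespace Pool.Agent.Work.MP_ed0a9a_lc.E

open FirstOrder FirstOrder.Language

variable {L : FirstOrder.Language.{0, 0}} {N N' : Type} [L.Structure N] [L.Structure N']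

theorem SameTp.symm' {k : ℕ} {b : Fin k → N} {b' : Fin k → N'} (h : SameTp L b b') :
    SameTp L b' b := fun φ => (h φ).symm

theorem sameTp_comp {k m : ℕ} {b : Fin k → N} {b' : Fin k → N'} (h : SameTp L b b')
    (g : Fin m → Fin k) : SameTp L (b ∘ g) (b' ∘ g) := by
  intro φ
  rw [← Formula.realize_relabel, ← Formula.realize_relabel]
  exact h _

theorem acl_of_sameTp {k : ℕ} {b : Fin k → N} {b' : Fin k → N'} {y : N} {y' : N'}
    (h : SameTp L (Fin.snoc b y : Fin (k + 1) → N) (Fin.snoc b' y' : Fin (k + 1) → N'))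
    (hy : Acl L b y) : Acl L b' y' := by
  obtain ⟨φ, n, h1, h2, h3⟩ := acl_iff.1 hy
  obtain ⟨ψ, hψ⟩ := exists_atMost φ n
  have h4 : SameTp L b b' := by
    have h5 := sameTp_comp h Fin.castSucc
    have e1 : (Fin.snoc b y : Fin (k + 1) → N) ∘ Fin.castSucc = b := by
      funext i
      simp
    have e2 : (Fin.snoc b' y' : Fin (k + 1) → N') ∘ Fin.castSucc = b' := by
      funext i
      simp
    rwa [e1, e2] at h5
  have h6 := (h4 ψ).1 ((hψ N b).2 ⟨h2, h3⟩)
  exact ⟨φ, (h φ).1 h1, ((hψ N' b').1 h6).1⟩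

theorem sameTp_ind {k : ℕ} {b : Fin k → N} {b' : Fin k → N'} (h : SameTp L b b')
    (hb : Ind L b) : Ind L b' := by
  intro j hj
  obtain ⟨m, c, hc, hA⟩ := hj
  choose g hg hg' using hc
  have hcg : c = b' ∘ g := by
    funext i
    exact (hg' i).symm
  subst hcg
  refine hb j ⟨m, b ∘ g, fun i => ⟨g i, hg i, rfl⟩, ?_⟩
  refine acl_of_sameTp ?_ hA
  have h1 := (sameTp_comp h (Fin.snoc g j : Fin (m + 1) → Fin k)).symm'
  rwa [Fin.comp_snoc, Fin.comp_snoc] at h1

theorem sameTp_map (f : N ↪ₑ[L] N') {k : ℕ} (b : Fin k → N) : SameTp L b (f ∘ b) := by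
  intro φ
  exact (f.map_formula φ b).symm

theorem map_mem_cl (f : N ↪ₑ[L] N') {B : Set N} {y : N} :
    f y ∈ cl L (f '' B) ↔ y ∈ cl L B := by
  constructor
  · rintro ⟨k, c, hc, hA⟩
    choose b hb hb' using hc
    have hcb : c = f ∘ b := by
      funext i
      exact (hb' i).symm
    subst hcb
    refine ⟨k, b, hb, acl_of_sameTp ?_ hA⟩
    have h1 := (sameTp_map f (Fin.snoc b y : Fin (k + 1) → N)).symm'
    rwa [Fin.comp_snoc] at h1
  · rintro ⟨k, b, hb, hA⟩
    refine ⟨k, f ∘ b, fun i => ⟨b i, hb i, rfl⟩, acl_of_sameTp ?_ hA⟩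
    have h1 := sameTp_map f (Fin.snoc b y : Fin (k + 1) → N)
    rwa [Fin.comp_snoc] at h1

theorem cl_map_subset (f : N ↪ₑ[L] N') {k : ℕ} (b : Fin k → N) :
    cl L (Set.range (f ∘ b)) ⊆ Set.range f := by
  intro y' hy'
  rw [mem_cl_range] at hy'
  obtain ⟨φ, h1, h2⟩ := hy'
  set S : Set N := {z | φ.Realize (Fin.snoc b z : Fin (k + 1) → N)} with hS
  have hsub : f '' S ⊆ {z | φ.Realize (Fin.snoc (f ∘ b) z : Fin (k + 1) → N')} := by
    rintro _ ⟨z, hz, rfl⟩
    have h3 := (sameTp_map f (Fin.snoc b z : Fin (k + 1) → N) φ).1 hz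
    rwa [Fin.comp_snoc] at h3
  have hSf : S.Finite := (h2.subset hsub).of_finite_image f.injective.injOn
  obtain ⟨ψ, hψ⟩ := exists_atMost φ S.ncard
  have h4 := (hψ N' (f ∘ b)).1 ((sameTp_map f b ψ).1 ((hψ N b).2 ⟨hSf, le_rfl⟩))
  have h5 : f '' S = {z | φ.Realize (Fin.snoc (f ∘ b) z : Fin (k + 1) → N')} := by
    refine Set.eq_of_subset_of_ncard_le hsub ?_ h4.1
    rw [Set.ncard_image_of_injective _ f.injective]
    exact h4.2
  have h6 : y' ∈ f '' S := by
    rw [h5]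
    exact h1
  obtain ⟨z, -, hz⟩ := h6
  exact ⟨z, hz⟩

theorem hasDim_of_equiv (e : N ≃[L] N') {d : ℕ} (h : HasDim L N d) : HasDim L N' d := by
  obtain ⟨b, hb, hc⟩ := h
  refine ⟨e.toElementaryEmbedding ∘ b, sameTp_ind (sameTp_map _ b) hb, ?_⟩
  rw [Set.range_comp]
  refine Set.eq_univ_of_forall fun y => ?_
  have h1 : e.toElementaryEmbedding (e.symm y) = y := e.apply_symm_apply y
  rw [← h1, map_mem_cl, hc]
  exact Set.mem_univ _

end Pool.Agent.Work.MP_ed0a9a_lc.E
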