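import Pool.Agent.Work.MP_ed0a9a_lc.E.ClT
import Pool.Agent.Work.MP_ed0a9a_lc.E.SameT

/-!
# Module `Sub` (size M): infinite algebraically closed sets are elementary substructures

PROOFS.  `exists_sub`: the language is relational, so `cl B` is the carrier of a substructure
(`fun_mem`: `Empty.elim`).  `Substructure.isElementary_of_exists`: let
`φ : (sig a).BoundedFormula Empty (n + 1)`, `x : Fin n → S`, `y : N` with `φ` true at
`Fin.snoc (coe ∘ x) y`.  Let `ψ : (sig a).Formula (Fin (n + 1))` be equivalent to `φ`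
(`φ.toFormula.relabel (Sum.elim Empty.elim id)`, `BoundedFormula.realize_toFormula`).  If the set
`{z | ψ(x, z)}` is finite then `y ∈ cl (cl B) ⊆ cl B` (`cl_cl`), take `y`.  Otherwise, by
`StronglyMinimal`, `{z | ¬ ψ(x, z)}` is finite, and `cl B` is infinite, so there is `z ∈ cl B` with `ψ(x, z)`.
`exists_sub_dim`: `M = S` of `exists_sub` for `B = Set.range b`; `S.subtype` is the elementary embedding;
`M ⊨ T` (`ElementarySubstructure.theory_model`); `b' i = ⟨b i, _⟩` (`subset_cl`); `Ind` by `sameTp_map` for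
`S.subtype` and `sameTp_ind`; spanning by `map_mem_cl`.
-/

namespace Pool.Agent.Work.MP_ed0a9a_lc.E

open FirstOrder FirstOrder.Language

variable {a : ℕ → ℕ} {T : (sig a).Theory}

theorem exists_sub (hT : StronglyMinimal T) {N : Type} [Nonempty N] [(sig a).Structure N]
    (hN : N ⊨ T) (B : Set N) (hB : (cl (sig a) B).Infinite) :
    ∃ S : (sig a).ElementarySubstructure N, (S : Set N) = cl (sig a) B := by
  classical
  let S0 : (sig a).Substructure N := ⟨cl (sig a) B, fun f => Empty.elim f⟩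
  refine ⟨S0.toElementarySubstructure ?_, rfl⟩
  intro n φ x y hy
  let ψ : (sig a).Formula (Fin (n + 1)) := φ.toFormula.relabel (Sum.elim Empty.elim id)
  have hψ : ∀ w : Fin (n + 1) → N, ψ.Realize w ↔ φ.Realize default w := by
    intro w
    rw [Formula.realize_relabel, BoundedFormula.realize_toFormula]
    have e1 : (w ∘ (Sum.elim Empty.elim id : Empty ⊕ Fin (n + 1) → Fin (n + 1))) ∘ Sum.inl =
      (default : Empty → N) := Subsingleton.elim _ _
    have e2 : (w ∘ (Sum.elim Empty.elim id : Empty ⊕ Fin (n + 1) → Fin (n + 1))) ∘ Sum.inr =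
      w := rfl
    rw [e1, e2]
  let c : Fin n → N := fun i => (x i : N)
  have hc : ∀ i, c i ∈ cl (sig a) B := fun i => (x i).2
  have key : ∃ z ∈ cl (sig a) B, ψ.Realize (Fin.snoc c z : Fin (n + 1) → N) := by
    rcases (hT N hN).2 n ψ c with h | h
    · exact ⟨y, cl_cl B ⟨n, c, hc, ψ, (hψ _).2 hy, h⟩, (hψ _).2 hy⟩
    · obtain ⟨z, hz, hz'⟩ := hB.exists_notMem_finite h
      exact ⟨z, hz, by
        by_contra h2
        exact hz' h2⟩
  obtain ⟨z, hz, hz'⟩ := key
  exact ⟨⟨z, hz⟩, (hψ _).1 hz'⟩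

theorem exists_sub_dim (hT : StronglyMinimal T) {N : Type} [Nonempty N] [(sig a).Structure N]
    (hN : N ⊨ T) {k : ℕ} {b : Fin k → N} (hb : Ind (sig a) b)
    (hB : (cl (sig a) (Set.range b)).Infinite) :
    ∃ (M : Type) (_ : Nonempty M) (_ : (sig a).Structure M), M ⊨ T ∧
      HasDim (sig a) M k ∧ Nonempty (M ↪ₑ[sig a] N) := by
  obtain ⟨S, hS⟩ := exists_sub hT hN (Set.range b) hB
  have hbS : ∀ i, b i ∈ S := by
    intro i
    have : b i ∈ (S : Set N) := by
      rw [hS]
      exact subset_cl _ ⟨i, rfl⟩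
    exact this
  let b' : Fin k → S := fun i => ⟨b i, hbS i⟩
  have hbb : S.subtype ∘ b' = b := rfl
  refine ⟨S, inferInstance, inferInstance, inferInstance, ⟨b', ?_, ?_⟩, ⟨S.subtype⟩⟩
  · have h1 := sameTp_map S.subtype b'
    rw [hbb] at h1
    exact sameTp_ind h1.symm' hb
  · refine Set.eq_univ_of_forall fun y => ?_
    have h2 : S.subtype y ∈ cl (sig a) (S.subtype '' Set.range b') := by
      rw [← Set.range_comp, hbb, ← hS]
      exact y.2
    exact (map_mem_cl S.subtype).1 h2

end Pool.Agent.Work.MP_ed0a9a_lc.E
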