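import Pool.Agent.Work.MP_ed0a9a_lc.E.Emb
import Pool.Agent.Work.MP_ed0a9a_lc.E.Sub

/-!
# Module `Dim` (size M-L): the dimension of the `i`-th model is `d₀ + i`

PROOF.
(0) All `A i` are nonempty: `T` is satisfiable and the language is countable, so `T` has a countable nonempty model
(downward Loewenheim-Skolem `exists_elementarySubstructure_card_eq`, or any model `N` of `T` and the
`exists_small_elementarySubstructure`), so some `A i₀` is nonempty (`h2`); any two `A i`, `A j` are elementarily equivalent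
by `h3` (`le_total`), so all are nonempty (the sentence `∃ x, ⊤`).
(1) For `i : ℕ` there is `k` such that `A i` has no independent `k`-tuple: otherwise `emb_of_infinite` gives an elementary
embedding of `A ⊤` into `A i`, so `⊤ ≤ i`.  So (the least such `k` is `> 0`, as `ind_zero`) `exists_basis` gives `HasDim (A i) (D i)` for
some `D i`.
(2) `i < j` in `ℕ` implies `D i < D j`: `≤` by `dim_le_of_emb`; if `D i = D j` then `A i ≃ A j` by `iso_of_dim`, so `j ≤ i` by
`h3`.
(3) `D (i + 1) = D i + 1`: suppose `D i + 1 < D (i + 1)`.  Let `b` be a basis of `A (i + 1)` and `b'` its restriction to the first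
`D i + 1` entries (`ind_comp` with `Fin.castLE`).  `cl (Set.range b')` is infinite: let `c` be a basis of `A i`; by `sameTp_of_ind` `c`
and the first `D i` entries of `b` have the same type, so `emb_of_span` gives `f : A i ↪ₑ A (i + 1)` with `f ∘ c` = the first `D i`
entries of `b`; `A i` is infinite and `Set.range f ⊆ cl (Set.range (f ∘ c))` (`map_mem_cl`) `⊆ cl (Set.range b')`.  By
`exists_sub_dim` there is a countable model `M` of `T` with `HasDim M (D i + 1)` (countable: it embeds into `A (i + 1)`), so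
`A j ≃ M` for some `j : ℕ∞` (`h2`), `HasDim (A j) (D i + 1)` (`hasDim_of_equiv`).  `M` embeds into `A (i + 1)`, so `j ≤ i + 1`, `j` is
a natural number, and `D j = D i + 1` (`hasDim_unique`) is strictly between `D i` and `D (i + 1)`, which contradicts (2)
(`StrictMono D`).
So `D i = D 0 + i` by induction; `d₀ = D 0`.
-/

namespace Pool.Agent.Work.MP_ed0a9a_lc.E

open FirstOrder FirstOrder.Language

private instance sig_countable (a : ℕ → ℕ) : Countable (sig a).Symbols := by
  unfold FirstOrder.Language.Symbols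
  have h1 : ∀ n, IsEmpty ((sig a).Functions n) := fun n =>
    inferInstanceAs (IsEmpty Empty)
  have h2 : ∀ n, Countable ((sig a).Relations n) := fun n =>
    inferInstanceAs (Countable {i : ℕ // a i = n})
  infer_instance

private theorem dim_ctbl {a : ℕ → ℕ} {T : (sig a).Theory} (hc : T.IsComplete)
    (hT : StronglyMinimal T) : ∃ (N : Type) (_ : Nonempty N) (_ : Countable N)
      (_ : (sig a).Structure N), N ⊨ T := by
  obtain ⟨M⟩ := hc.1
  have hMT : (M : Type) ⊨ T := M.is_model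
  have hinf : Infinite (M : Type) := (hT M hMT).1
  obtain ⟨S, -, hS⟩ := exists_elementarySubstructure_card_eq (sig a) (M := (M : Type)) ∅
    Cardinal.aleph0.{0} le_rfl (by simp)
    (by
      rw [Cardinal.lift_id, Cardinal.lift_aleph0]
      exact Cardinal.mk_le_aleph0)
    (by
      rw [Cardinal.lift_id, Cardinal.lift_id]
      exact Cardinal.aleph0_le_mk _)
  rw [Cardinal.lift_id, Cardinal.lift_id] at hS
  have hcS : Countable S := Cardinal.mk_le_aleph0_iff.mp hS.le
  have hST : S ⊨ T := (S.theory_model_iff T).mpr hMT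
  have hSne : Nonempty S := Cardinal.mk_ne_zero_iff.mp (by rw [hS]; exact Cardinal.aleph0_ne_zero)
  exact ⟨S, hSne, hcS, inferInstance, hST⟩

private theorem dim_succ {a : ℕ → ℕ} {T : (sig a).Theory} (hc : T.IsComplete)
    (hT : StronglyMinimal T) {N N' : Type} [Nonempty N] [Nonempty N'] [Countable N]
    [Countable N'] [(sig a).Structure N] [(sig a).Structure N'] (hN : N ⊨ T) (hN' : N' ⊨ T)
    {d d' : ℕ} (h : HasDim (sig a) N d) (h' : HasDim (sig a) N' d') (hlt : d + 1 < d') :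
    ∃ (M : Type) (_ : Nonempty M) (_ : Countable M) (_ : (sig a).Structure M), M ⊨ T ∧
      HasDim (sig a) M (d + 1) ∧ Nonempty (M ↪ₑ[sig a] N') := by
  obtain ⟨c, hc1, hc2⟩ := h
  obtain ⟨b, hb1, hb2⟩ := h'
  have m1 : StrictMono (Fin.castLE (show d + 1 ≤ d' by omega)) := fun i j hij => hij
  have m2 : StrictMono (Fin.castLE (show d ≤ d' by omega)) := fun i j hij => hij
  have i1 : Ind (sig a) (b ∘ Fin.castLE (show d + 1 ≤ d' by omega)) := ind_comp hb1 m1
  have i2 : Ind (sig a) (b ∘ Fin.castLE (show d ≤ d' by omega)) := ind_comp hb1 m2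
  obtain ⟨f, hf⟩ := emb_of_span hc2 (sameTp_of_ind hc hT hN hN' hc1 i2)
  have hinfN : Infinite N := (hT N hN).1
  have hsub : Set.range f ⊆
      cl (sig a) (Set.range (b ∘ Fin.castLE (show d + 1 ≤ d' by omega))) := by
    rintro _ ⟨y, rfl⟩
    have h1 : f y ∈ cl (sig a) (f '' Set.range c) := by
      rw [map_mem_cl, hc2]
      exact Set.mem_univ y
    refine cl_mono ?_ h1
    rintro _ ⟨_, ⟨i, rfl⟩, rfl⟩
    rw [hf]
    exact ⟨Fin.castLE (show d ≤ d + 1 by omega) i, rfl⟩
  have hinf : (cl (sig a) (Set.range (b ∘ Fin.castLE (show d + 1 ≤ d' by omega)))).Infinite :=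
    (Set.infinite_range_of_injective f.injective).mono hsub
  obtain ⟨M, hM1, hM2, hM3, hM4, ⟨g⟩⟩ := exists_sub_dim hT hN' i1 hinf
  exact ⟨M, hM1, g.injective.countable, hM2, hM3, hM4, ⟨g⟩⟩

theorem exists_dim {a : ℕ → ℕ} {T : (sig a).Theory} (hc : T.IsComplete)
    (hT : StronglyMinimal T) (A : ℕ∞ → Type) (S : ∀ i, (sig a).Structure (A i))
    (h1 : ∀ i, Countable (A i) ∧ A i ⊨ T)
    (h2 : ∀ (N : Type) [Nonempty N] [Countable N] [(sig a).Structure N], N ⊨ T →
      ∃ i, Nonempty (A i ≃[sig a] N))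
    (h3 : ∀ i j, Nonempty (A i ↪ₑ[sig a] A j) ↔ i ≤ j) :
    (∀ i, Nonempty (A i)) ∧ ∃ d₀ : ℕ, ∀ i : ℕ, HasDim (sig a) (A i) (d₀ + i) := by
  obtain ⟨N₀, hN1, hN2, hN3, hN4⟩ := dim_ctbl hc hT
  obtain ⟨i₀, ⟨e₀⟩⟩ := h2 N₀ hN4
  have hne0 : Nonempty (A i₀) := hN1.map e₀.symm
  obtain ⟨ψ, hψ⟩ := exists_ex (L := sig a) (k := 0) ⊤
  have hne : ∀ i, Nonempty (A i) := by
    intro i
    rcases le_total i₀ i with h | h
    · obtain ⟨f⟩ := (h3 i₀ i).mpr h
      exact hne0.map f
    · obtain ⟨f⟩ := (h3 i i₀).mpr h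
      obtain ⟨x₀⟩ := hne0
      have q1 : ψ.Realize (f ∘ (Fin.elim0 : Fin 0 → A i)) :=
        (hψ (A i₀) _).mpr ⟨x₀, Formula.realize_top.mpr trivial⟩
      have q2 : ψ.Realize (Fin.elim0 : Fin 0 → A i) := (f.map_formula ψ _).mp q1
      obtain ⟨x, -⟩ := (hψ (A i) _).mp q2
      exact ⟨x⟩
  refine ⟨hne, ?_⟩
  have hctb : ∀ i, Countable (A i) := fun i => (h1 i).1
  have hmod : ∀ i, A i ⊨ T := fun i => (h1 i).2
  have hD : ∀ i : ℕ, ∃ d, HasDim (sig a) (A i) d := by
    intro i
    have h4 : ¬ ∀ k, ∃ b : Fin k → A i, Ind (sig a) b := by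
      intro h5
      have h6 := emb_of_infinite hc hT (hmod ⊤) (hmod i) h5
      have h7 := (h3 ⊤ i).mp h6
      exact absurd h7 (not_le.mpr (ENat.natCast_lt_top i))
    push Not at h4
    obtain ⟨k, hk⟩ := h4
    rcases Nat.eq_zero_or_pos k with h0 | hpos
    · subst h0
      exact absurd (ind_zero _) (hk Fin.elim0)
    · obtain ⟨k', rfl⟩ : ∃ k', k = k' + 1 := ⟨k - 1, by omega⟩
      obtain ⟨d, -, hd⟩ := exists_basis hk
      exact ⟨d, hd⟩
  choose D hD using hD
  have hlt : ∀ i j : ℕ, i < j → D i < D j := by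
    intro i j hij
    have hle : ((i : ℕ) : ℕ∞) ≤ (j : ℕ∞) := by exact_mod_cast hij.le
    obtain ⟨f⟩ := (h3 i j).mpr hle
    refine lt_of_le_of_ne (dim_le_of_emb hT (hmod j) (hD i) (hD j) f) ?_
    intro heq
    have hDi := hD i
    rw [heq] at hDi
    obtain ⟨e⟩ := iso_of_dim hc hT (hmod j) (hmod i) (hD j) hDi
    have h5 : (j : ℕ∞) ≤ (i : ℕ∞) := (h3 j i).mp ⟨e.toElementaryEmbedding⟩
    have h6 : j ≤ i := by exact_mod_cast h5
    omega
  have hsm : StrictMono D := fun i j hij => hlt i j hij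
  have hstep : ∀ i : ℕ, D (i + 1) = D i + 1 := by
    intro i
    by_contra hcon
    have h4 := hlt i (i + 1) (Nat.lt_succ_self i)
    have h5 : D i + 1 < D (i + 1) := by omega
    obtain ⟨M, hM1, hM2, hM3, hM4, hM5, ⟨g⟩⟩ :=
      dim_succ hc hT (hmod i) (hmod (i + 1 : ℕ)) (hD i) (hD (i + 1)) h5
    obtain ⟨j, ⟨e⟩⟩ := h2 M hM4
    have h6 : HasDim (sig a) (A j) (D i + 1) := hasDim_of_equiv e.symm hM5
    have h7 : j ≤ ((i + 1 : ℕ) : ℕ∞) := (h3 j (i + 1 : ℕ)).mp ⟨g.comp e.toElementaryEmbedding⟩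
    obtain ⟨n, rfl⟩ : ∃ n : ℕ, (n : ℕ∞) = j :=
      ENat.ne_top_iff_exists.mp (ne_top_of_le_ne_top (ENat.natCast_ne_top _) h7)
    have h8 := hasDim_unique hT (hmod n) (hD n) h6
    have h9 : i < n := hsm.lt_iff_lt.mp (by rw [h8]; exact Nat.lt_succ_self _)
    have h10 : n < i + 1 := hsm.lt_iff_lt.mp (by rw [h8]; exact h5)
    omega
  refine ⟨D 0, fun i => ?_⟩
  have h4 : ∀ i : ℕ, D i = D 0 + i := by
    intro i
    induction i with
    | zero => rfl
    | succ i ih => rw [hstep, ih, Nat.add_assoc]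
  rw [← h4]
  exact hD i

end Pool.Agent.Work.MP_ed0a9a_lc.E
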