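import Pool.Agent.Work.MP_ed0a9a_lc.E.ElB

/-!
# Module `UltP` (size M): ultraproducts of sequences of pairs

PROOF.  `U = (Filter.hyperfilter ℕ : Filter ℕ).Product N`, `S'` = the set of the classes of the sequences `x` with
`x n ∈ S n` for all `n`, `c' i` = the class of `n ↦ c n i`.  As in module `Ult`: `S'` is an elementary substructure
(`exists_elSub`, `Ultraproduct.realize_formula_cast`); a formula true at `c n` for all `n ≥ m₀` is true at `c'`
(cofinite sets are in the ultrafilter); choose `x n ∉ S n`, the class of `x` is not in `S'` (a sequence which is in `S n` for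
almost all `n` would be needed, the ultrafilter is proper); if `φ(c n, x) → x ∈ S n` for all `n` and `φ(c', [y])`, then
`y n ∈ S n` for almost all `n`, change `y` elsewhere (`S n` is nonempty, as the elementary substructure of a nonempty
structure; or because `N n ⊨ ∃ x, ⊤`); `U ⊨ T`: `Ultraproduct.sentence_realize`.
-/

namespace Pool.Agent.Work.MP_ed0a9a_lc.E

open FirstOrder FirstOrder.Language

/-- Elementary substructures contain witnesses. -/
private theorem ultP_wit {a : ℕ → ℕ} {N : Type} [(sig a).Structure N]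
    (S : (sig a).ElementarySubstructure N) {k : ℕ} (φ : (sig a).Formula (Fin (k + 1)))
    (c : Fin k → N) (hc : ∀ i, c i ∈ S)
    (h : ∃ y, φ.Realize (Fin.snoc c y : Fin (k + 1) → N)) :
    ∃ y ∈ S, φ.Realize (Fin.snoc c y : Fin (k + 1) → N) := by
  obtain ⟨ψ, hψ⟩ := exists_ex φ
  set b : Fin k → S := fun i => ⟨c i, hc i⟩ with hb
  have hcb : (fun i => (b i : N)) = c := rfl
  have h1 : ψ.Realize c := (hψ N c).2 h
  rw [← hcb] at h1
  obtain ⟨y, hy⟩ := (hψ S b).1 ((sameTp_coe S b ψ).2 h1)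
  refine ⟨y, y.2, ?_⟩
  have h2 := (sameTp_coe S (Fin.snoc b y : Fin (k + 1) → S) φ).1 hy
  have h3 : (fun i => (((Fin.snoc b y : Fin (k + 1) → S) i : S) : N)) =
      (Fin.snoc c (y : N) : Fin (k + 1) → N) := by
    funext i
    refine Fin.lastCases ?_ (fun j => ?_) i
    · simp only [Fin.snoc_last]
    · simp only [Fin.snoc_castSucc, hb]
  rw [h3] at h2
  exact h2

private theorem ultP_ne {a : ℕ → ℕ} {N : Type} [Nonempty N] [(sig a).Structure N]
    (S : (sig a).ElementarySubstructure N) : ∃ y, y ∈ S := by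
  obtain ⟨y, hy, -⟩ := ultP_wit S (k := 0) ⊤ Fin.elim0 (fun i => i.elim0)
    ⟨Classical.arbitrary N, Formula.realize_top.2 trivial⟩
  exact ⟨y, hy⟩

/-- The class of a sequence. -/
private def cls (u : Ultrafilter ℕ) (N : ℕ → Type) (x : ∀ n, N n) : (u : Filter ℕ).Product N :=
  (x : (u : Filter ℕ).Product N)

private theorem cls_surj (u : Ultrafilter ℕ) (N : ℕ → Type) (y : (u : Filter ℕ).Product N) :
    ∃ x, cls u N x = y := Quotient.exists_rep y

private theorem cls_eq (u : Ultrafilter ℕ) (N : ℕ → Type) (x x' : ∀ n, N n) :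
    cls u N x = cls u N x' ↔ ∀ᶠ n in (u : Filter ℕ), x n = x' n := Quotient.eq''

private theorem cls_real {a : ℕ → ℕ} (u : Ultrafilter ℕ) (N : ℕ → Type) [∀ n, Nonempty (N n)]
    [∀ n, (sig a).Structure (N n)] {β : Type} (φ : (sig a).Formula β) (x : β → ∀ n, N n) :
    φ.Realize (fun i => cls u N (x i)) ↔ ∀ᶠ n in (u : Filter ℕ), φ.Realize (fun i => x i n) :=
  Ultraproduct.realize_formula_cast φ x

private theorem ultP_snoc {a : ℕ → ℕ} (u : Ultrafilter ℕ) (N : ℕ → Type) [∀ n, Nonempty (N n)]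
    [∀ n, (sig a).Structure (N n)] {k : ℕ} (φ : (sig a).Formula (Fin (k + 1)))
    (x : Fin k → ∀ n, N n) (y : ∀ n, N n) :
    φ.Realize (Fin.snoc (fun i => cls u N (x i)) (cls u N y) :
      Fin (k + 1) → (u : Filter ℕ).Product N) ↔
      ∀ᶠ n in (u : Filter ℕ), φ.Realize (Fin.snoc (fun i => x i n) (y n) : Fin (k + 1) → N n) := by
  have h1 : (Fin.snoc (fun i => cls u N (x i)) (cls u N y) :
      Fin (k + 1) → (u : Filter ℕ).Product N) =
      fun j => cls u N ((Fin.snoc x y : Fin (k + 1) → ∀ n, N n) j) := by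
    funext j
    refine Fin.lastCases ?_ (fun i => ?_) j
    · simp only [Fin.snoc_last]
    · simp only [Fin.snoc_castSucc]
  have h2 : ∀ n, (fun j => (Fin.snoc x y : Fin (k + 1) → ∀ n, N n) j n) =
      (Fin.snoc (fun i => x i n) (y n) : Fin (k + 1) → N n) := by
    intro n
    funext j
    refine Fin.lastCases ?_ (fun i => ?_) j
    · simp only [Fin.snoc_last]
    · simp only [Fin.snoc_castSucc]
  rw [h1, cls_real]
  simp only [h2]

theorem exists_ultP {a : ℕ → ℕ} (N : ℕ → Type) [∀ n, Nonempty (N n)]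
    [∀ n, (sig a).Structure (N n)] (S : ∀ n, (sig a).ElementarySubstructure (N n)) {k : ℕ}
    (c : ∀ n, Fin k → N n) (hc : ∀ n i, c n i ∈ S n) (hne : ∀ n, ∃ x, x ∉ S n)
    (T : (sig a).Theory) (hT : ∀ n, N n ⊨ T) (φ : (sig a).Formula (Fin (k + 1)))
    (hφ : ∀ n x, φ.Realize (Fin.snoc (c n) x : Fin (k + 1) → N n) → x ∈ S n) :
    ∃ (U : Type) (_ : Nonempty U) (_ : (sig a).Structure U)
      (S' : (sig a).ElementarySubstructure U) (c' : Fin k → U), U ⊨ T ∧ (∀ i, c' i ∈ S') ∧
      (∃ x, x ∉ S') ∧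
      (∀ ψ : (sig a).Formula (Fin k), (∃ m, ∀ n, m ≤ n → ψ.Realize (c n)) → ψ.Realize c') ∧
      ∀ x, φ.Realize (Fin.snoc c' x : Fin (k + 1) → U) → x ∈ S' := by
  classical
  set u : Ultrafilter ℕ := Filter.hyperfilter ℕ with hu
  have hdef : ∀ n, ∃ y, y ∈ S n := fun n => ultP_ne (S n)
  choose s0 hs0 using hdef
  obtain ⟨S', hS'⟩ := exists_elSub (a := a) (N := (u : Filter ℕ).Product N)
    {y | ∃ x : ∀ n, N n, (∀ n, x n ∈ S n) ∧ cls u N x = y} (by
      intro m ψ x hx hy
      choose x' hx' hxx using hx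
      obtain ⟨y, hy⟩ := hy
      obtain ⟨y0, rfl⟩ := cls_surj u N y
      have hx0 : x = fun i => cls u N (x' i) := funext fun i => (hxx i).symm
      rw [hx0, ultP_snoc u N ψ x' y0] at hy
      have hex : ∀ n, ∃ z : N n, z ∈ S n ∧
          (ψ.Realize (Fin.snoc (fun i => x' i n) (y0 n) : Fin (m + 1) → N n) →
            ψ.Realize (Fin.snoc (fun i => x' i n) z : Fin (m + 1) → N n)) := by
        intro n
        by_cases h : ψ.Realize (Fin.snoc (fun i => x' i n) (y0 n) : Fin (m + 1) → N n)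
        · obtain ⟨z, hz, h1⟩ := ultP_wit (S n) ψ (fun i => x' i n) (fun i => hx' i n) ⟨_, h⟩
          exact ⟨z, hz, fun _ => h1⟩
        · exact ⟨s0 n, hs0 n, fun h1 => absurd h1 h⟩
      choose z hz hz' using hex
      refine ⟨cls u N z, ⟨z, hz, rfl⟩, ?_⟩
      rw [hx0, ultP_snoc u N ψ x' z]
      exact hy.mono fun n hn => hz' n hn)
  have hmem : ∀ y : (u : Filter ℕ).Product N, y ∈ S' ↔
      ∃ x : ∀ n, N n, (∀ n, x n ∈ S n) ∧ cls u N x = y := by
    intro y
    rw [← SetLike.mem_coe, hS']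
    exact Iff.rfl
  refine ⟨(u : Filter ℕ).Product N, inferInstance, inferInstance, S',
    fun i => cls u N (fun n => c n i), ?_, ?_, ?_, ?_, ?_⟩
  · rw [Theory.model_iff]
    intro σ hσ
    rw [Ultraproduct.sentence_realize]
    exact Filter.Eventually.of_forall fun n => (hT n).realize_of_mem σ hσ
  · intro i
    exact (hmem _).2 ⟨fun n => c n i, fun n => hc n i, rfl⟩
  · choose x hx using hne
    refine ⟨cls u N x, fun h => ?_⟩
    obtain ⟨x', h1, h2⟩ := (hmem _).1 h
    obtain ⟨n, hn⟩ := ((cls_eq u N x' x).1 h2).exists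
    exact hx n (hn ▸ h1 n)
  · rintro ψ ⟨m, hm⟩
    rw [cls_real]
    have h1 : ∀ᶠ n in (u : Filter ℕ), m ≤ n :=
      (Filter.eventually_ge_atTop m).filter_mono Nat.hyperfilter_le_atTop
    exact h1.mono fun n hn => hm n hn
  · intro x hx
    obtain ⟨x0, rfl⟩ := cls_surj u N x
    rw [ultP_snoc u N φ (fun i n => c n i) x0] at hx
    rw [hmem]
    refine ⟨fun n => if x0 n ∈ S n then x0 n else s0 n, fun n => ?_, ?_⟩
    · by_cases h : x0 n ∈ S n
      · simp only [if_pos h]
        exact h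
      · simp only [if_neg h]
        exact hs0 n
    · rw [cls_eq]
      refine hx.mono fun n hn => ?_
      exact if_pos (hφ n (x0 n) hn)

end Pool.Agent.Work.MP_ed0a9a_lc.E
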