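import Pool.Agent.Work.MP_ed0a9a_lc.E.NVP
import Pool.Agent.Work.MP_ed0a9a_lc.E.UltP

/-!
# Module `EInf` (size M): uniform bounds for finite definable sets

PROOF.  Suppose that for every `n` there are `M_n ⊨ T`, `c_n` with `Dset φ c_n` finite of more than `n` elements.  Let `N_n` be a
proper elementary extension of `M_n` (`M_n` is infinite: e.g. `exists_elementaryEmbedding_card_eq` for a larger cardinal, or
compactness `compact`), `S_n` the image of `M_n` in `N_n` (`exists_range`).  The set `Dset φ c_n` has the same finite number of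
elements in `N_n` and in `S_n`, so it is contained in `S_n`.  `exists_ultP` gives `U ⊨ T`, `S'`, `c'` with `φ(c', x) → x ∈ S'`,
`∃ x, x ∉ S'`, and `Dset φ c'` has more than `n` elements for every `n` (the formula `∼` at most `n`, `exists_atMost`, is true at
`c_m` for `m ≥ n`), so it is infinite.  This contradicts `no_vaught`.
-/

namespace Pool.Agent.Work.MP_ed0a9a_lc.E

open FirstOrder FirstOrder.Language

private theorem ei_card (a : ℕ → ℕ) : (sig a).card ≤ Cardinal.aleph0 := by
  unfold FirstOrder.Language.card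
  rw [Cardinal.mk_le_aleph0_iff]
  exact inferInstanceAs (Countable ((Σ _ : ℕ, Empty) ⊕ (Σ n : ℕ, {i : ℕ // a i = n})))

private theorem ei_ext {a : ℕ → ℕ} (M : Type) [Infinite M] [(sig a).Structure M] :
    ∃ (N : Type) (_ : Nonempty N) (_ : (sig a).Structure N) (f : M ↪ₑ[sig a] N),
      ∃ x, x ∉ Set.range f := by
  obtain ⟨N, ⟨f⟩, hN⟩ := exists_elementaryEmbedding_card_eq_of_ge (sig a) M
    ((2 : Cardinal.{0}) ^ Cardinal.mk M) (by
      simp only [Cardinal.lift_id]
      exact (ei_card a).trans ((Cardinal.aleph0_le_mk M).trans (Cardinal.cantor _).le)) (by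
      simp only [Cardinal.lift_id]
      exact (Cardinal.cantor _).le)
  have hne : Nonempty N := ⟨f (Classical.arbitrary M)⟩
  refine ⟨N, hne, inferInstance, f, ?_⟩
  by_contra h
  push Not at h
  have h1 : Cardinal.mk N ≤ Cardinal.mk M := Cardinal.mk_le_of_surjective (f := f) h
  rw [hN] at h1
  exact absurd (Cardinal.cantor (Cardinal.mk M)) (not_lt.2 h1)

private theorem ei_same {a : ℕ → ℕ} {M N : Type} [(sig a).Structure M] [(sig a).Structure N]
    (f : M ↪ₑ[sig a] N) {k : ℕ} (φ : (sig a).Formula (Fin (k + 1))) (v : Fin k → M)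
    (h : (Dset (sig a) φ v).Finite) :
    f '' Dset (sig a) φ v = Dset (sig a) φ (f ∘ v) := by
  obtain ⟨ψ, hψ⟩ := exists_atMost φ (Dset (sig a) φ v).ncard
  have h1 : ψ.Realize v := (hψ M v).2 ⟨h, le_rfl⟩
  obtain ⟨h2, h3⟩ := (hψ N (f ∘ v)).1 ((f.map_formula ψ v).2 h1)
  refine Set.eq_of_subset_of_ncard_le ?_ ?_ h2
  · rintro _ ⟨x, hx, rfl⟩
    have h4 := sameTp_map f (Fin.snoc v x : Fin (k + 1) → M) φ
    rw [Fin.comp_snoc] at h4
    exact h4.1 hx
  · rw [Set.ncard_image_of_injective _ f.injective]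
    exact h3

theorem elim_inf {a : ℕ → ℕ} {T : (sig a).Theory}
    (hcat : (Cardinal.aleph 1 : Cardinal.{0}).Categorical T) (hs : Small T)
    (hinf : ∀ (N : Type) [Nonempty N] [(sig a).Structure N], N ⊨ T → Infinite N) {k : ℕ}
    (φ : (sig a).Formula (Fin (k + 1))) :
    ∃ n : ℕ, ∀ (N : Type) [Nonempty N] [(sig a).Structure N], N ⊨ T → ∀ v : Fin k → N,
      (Dset (sig a) φ v).Finite → (Dset (sig a) φ v).ncard ≤ n := by
  classical
  by_contra hno
  have key : ∀ n : ℕ, ∃ (N : Type) (_ : Nonempty N) (_ : (sig a).Structure N)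
      (S : (sig a).ElementarySubstructure N) (c : Fin k → N), N ⊨ T ∧ (∀ i, c i ∈ S) ∧
      (∃ x, x ∉ S) ∧ (∀ x, φ.Realize (Fin.snoc c x : Fin (k + 1) → N) → x ∈ S) ∧
      n < (Dset (sig a) φ c).ncard := by
    intro n
    by_contra hcon
    apply hno
    refine ⟨n, fun M _ _ hM v hv => ?_⟩
    by_contra hlt
    apply hcon
    have := hinf M hM
    obtain ⟨N, hN0, sN, f, x, hx⟩ := ei_ext (a := a) M
    obtain ⟨S, hS, -⟩ := exists_range f
    have hmem : ∀ y : N, y ∈ S ↔ y ∈ Set.range f := by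
      intro y
      rw [← hS]
      exact Iff.rfl
    have hsame := ei_same f φ v hv
    refine ⟨N, hN0, sN, S, f ∘ v, (f.theory_model_iff T).1 hM, fun i => (hmem _).2 ⟨v i, rfl⟩,
      ⟨x, fun h => hx ((hmem x).1 h)⟩, fun y hy => ?_, ?_⟩
    · have h1 : y ∈ f '' Dset (sig a) φ v := by
        rw [hsame]
        exact hy
      obtain ⟨z, -, rfl⟩ := h1
      exact (hmem _).2 ⟨z, rfl⟩
    · rw [← hsame, Set.ncard_image_of_injective _ f.injective]
      exact not_le.1 hlt
  choose N hN0 sN S c hNT hcS hne hφ hn using key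
  obtain ⟨U, hU0, sU, S', c', hUT, hc', hne', hψ, hφ'⟩ := exists_ultP N S c hcS hne T hNT φ hφ
  have hinf' : (Dset (sig a) φ c').Infinite := by
    intro hfin
    obtain ⟨α, hα⟩ := exists_atMost φ (Dset (sig a) φ c').ncard
    have h1 : Formula.Realize (∼α) c' := by
      apply hψ
      refine ⟨(Dset (sig a) φ c').ncard, fun n hmn => ?_⟩
      rw [Formula.realize_not, hα]
      rintro ⟨-, h2⟩
      have h3 := hn n
      have h4 : (Dset (sig a) φ (c n)).ncard ≤ (Dset (sig a) φ c').ncard := h2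
      omega
    rw [Formula.realize_not, hα] at h1
    exact h1 ⟨hfin, le_rfl⟩
  obtain ⟨x, hx1, hx2⟩ := no_vaught hcat hs hUT S' hne' c' hc' φ hinf'
  exact hx2 (hφ' x hx1)

end Pool.Agent.Work.MP_ed0a9a_lc.E
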