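import Pool.Agent.Work.MP_ed0a9a_lc.E.ElB

/-!
# Module `Skl` (size M): hulls for Skolem functions are elementary

`(sig a).sum (sig a).skolem₁` (`Mathlib.ModelTheory.Skolem`) is the language with a function symbol `f_φ` of arity `n` for each
`φ : (sig a).BoundedFormula Empty (n + 1)`; the structure on `N₀` interprets it by an element `f_φ(x)` with `φ(x, f_φ(x))`, if there
is one.

PROOF.  The sentences `∀ x₀ … x_{n-1}, (∃ y, φ(x, y)) → φ(x, f_φ(x))` are true in `N₀` (`Classical.epsilon_spec`, see the proof of
`skolem₁_reduct_isElementary` in `Mathlib.ModelTheory.Skolem`), so they belong to the complete theory, and are true in `N`.  Formulas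
of `sig a` have the same meaning in the structure and its reduct (`LHom.realize_onFormula`, `LHom.isExpansionOn_reduct`).  The
set `closure B` is closed under the functions `f_φ` (`Substructure.fun_mem`), so by `exists_elSub` (for the structure
`LHom.sumInl.reduct N`) it is the carrier of an elementary substructure.  The first statement: a sentence of `sig a` true in
`N₀` is, as a sentence of the larger language, in the complete theory.
-/

namespace Pool.Agent.Work.MP_ed0a9a_lc.E

open FirstOrder FirstOrder.Language

private noncomputable def skSent {L : FirstOrder.Language.{0, 0}} {n : ℕ} (φ : L.BoundedFormula Empty (n + 1)) :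
    (L.sum L.skolem₁).Sentence :=
  Formula.iAlls (Fin n)
    ((((LHom.sumInl : L →ᴸ L.sum L.skolem₁).onBoundedFormula φ).ex.toFormula).imp
      (((LHom.sumInl : L →ᴸ L.sum L.skolem₁).onBoundedFormula φ).toFormula.subst
        (Sum.elim Empty.elim
          (Fin.snoc (fun i => Term.var (Sum.inr i))
            (Term.func ((LHom.sumInr : L.skolem₁ →ᴸ L.sum L.skolem₁).onFunction φ)
              (fun i => Term.var (Sum.inr i)))
            : Fin (n + 1) → (L.sum L.skolem₁).Term (Empty ⊕ Fin n)))))

private theorem realize_skSent {L : FirstOrder.Language.{0, 0}} {M : Type} [Nonempty M] [L.Structure M]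
    [(L.sum L.skolem₁).Structure M]
    [(LHom.sumInl : L →ᴸ L.sum L.skolem₁).IsExpansionOn M] {n : ℕ}
    (φ : L.BoundedFormula Empty (n + 1)) :
    M ⊨ skSent φ ↔ ∀ x : Fin n → M,
      (∃ y, φ.Realize default (Fin.snoc x y : Fin (n + 1) → M)) →
      φ.Realize default (Fin.snoc x (Structure.funMap
        ((LHom.sumInr : L.skolem₁ →ᴸ L.sum L.skolem₁).onFunction φ) x) : Fin (n + 1) → M) := by
  unfold skSent Sentence.Realize
  rw [Formula.realize_iAlls]
  refine forall_congr' fun x => ?_
  rw [Formula.realize_imp]
  have h1 : ((((LHom.sumInl : L →ᴸ L.sum L.skolem₁).onBoundedFormula φ).ex.toFormula).Realize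
      (fun i => Sum.elim (default : Empty → M) x i)) ↔
      ∃ y, φ.Realize default (Fin.snoc x y : Fin (n + 1) → M) := by
    rw [BoundedFormula.realize_toFormula, BoundedFormula.realize_ex]
    refine exists_congr fun y => ?_
    rw [LHom.realize_onBoundedFormula]
    have e1 : (fun i => Sum.elim (default : Empty → M) x i) ∘ Sum.inl = (default : Empty → M) :=
      Subsingleton.elim _ _
    have e2 : (fun i => Sum.elim (default : Empty → M) x i) ∘ Sum.inr = x := rfl
    rw [e1, e2]
  have h2 : Formula.Realize
        ((((LHom.sumInl : L →ᴸ L.sum L.skolem₁).onBoundedFormula φ).toFormula.subst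
        (Sum.elim Empty.elim
          (Fin.snoc (fun i => Term.var (Sum.inr i))
            (Term.func ((LHom.sumInr : L.skolem₁ →ᴸ L.sum L.skolem₁).onFunction φ)
              (fun i => Term.var (Sum.inr i)))
            : Fin (n + 1) → (L.sum L.skolem₁).Term (Empty ⊕ Fin n)))))
      (fun i => Sum.elim (default : Empty → M) x i) ↔
      φ.Realize default (Fin.snoc x (Structure.funMap
        ((LHom.sumInr : L.skolem₁ →ᴸ L.sum L.skolem₁).onFunction φ) x) : Fin (n + 1) → M) := by
    unfold Formula.Realize
    rw [BoundedFormula.realize_subst]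
    change Formula.Realize _ _ ↔ _
    rw [BoundedFormula.realize_toFormula, LHom.realize_onBoundedFormula]
    have e1 : ((fun i => Term.realize (fun i => Sum.elim (default : Empty → M) x i)
        ((Sum.elim Empty.elim
          (Fin.snoc (fun i => Term.var (Sum.inr i))
            (Term.func ((LHom.sumInr : L.skolem₁ →ᴸ L.sum L.skolem₁).onFunction φ)
              (fun i => Term.var (Sum.inr i)))
            : Fin (n + 1) → (L.sum L.skolem₁).Term (Empty ⊕ Fin n)) :
            Empty ⊕ Fin (n + 1) → (L.sum L.skolem₁).Term (Empty ⊕ Fin n)) i)) ∘ Sum.inl) =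
        (default : Empty → M) := Subsingleton.elim _ _
    have e2 : ((fun i => Term.realize (fun i => Sum.elim (default : Empty → M) x i)
        ((Sum.elim Empty.elim
          (Fin.snoc (fun i => Term.var (Sum.inr i))
            (Term.func ((LHom.sumInr : L.skolem₁ →ᴸ L.sum L.skolem₁).onFunction φ)
              (fun i => Term.var (Sum.inr i)))
            : Fin (n + 1) → (L.sum L.skolem₁).Term (Empty ⊕ Fin n)) :
            Empty ⊕ Fin (n + 1) → (L.sum L.skolem₁).Term (Empty ⊕ Fin n)) i)) ∘ Sum.inr) =
        (Fin.snoc x (Structure.funMap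
        ((LHom.sumInr : L.skolem₁ →ᴸ L.sum L.skolem₁).onFunction φ) x) : Fin (n + 1) → M) := by
      funext j
      refine Fin.lastCases ?_ (fun j => ?_) j
      · simp only [Function.comp_apply, Sum.elim_inr, Fin.snoc_last]
        rfl
      · simp only [Function.comp_apply, Sum.elim_inr, Fin.snoc_castSucc]
        rfl
    rw [e1, e2]
  exact imp_congr h1 h2

private theorem model_skSent {L : FirstOrder.Language.{0, 0}} {M : Type} [Nonempty M] [L.Structure M] {n : ℕ}
    (φ : L.BoundedFormula Empty (n + 1)) : M ⊨ skSent φ := by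
  rw [realize_skSent]
  intro x h
  exact Classical.epsilon_spec (p := fun a => BoundedFormula.Realize φ default
          (Fin.snoc x a)) h

theorem exists_hull {a : ℕ → ℕ} {N₀ : Type} [Nonempty N₀] [(sig a).Structure N₀] {N : Type}
    [Nonempty N] [((sig a).sum (sig a).skolem₁).Structure N]
    (hN : N ⊨ ((sig a).sum (sig a).skolem₁).completeTheory N₀) :
    letI : (sig a).Structure N :=
      (LHom.sumInl : sig a →ᴸ (sig a).sum (sig a).skolem₁).reduct N
    N ⊨ (sig a).completeTheory N₀ ∧ ∀ B : Set N, ∃ S : (sig a).ElementarySubstructure N,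
      (S : Set N) =
        (Substructure.closure ((sig a).sum (sig a).skolem₁) B : Set N) := by
  let _ : (sig a).Structure N :=
      (LHom.sumInl : sig a →ᴸ (sig a).sum (sig a).skolem₁).reduct N
  have _ : (LHom.sumInl : sig a →ᴸ (sig a).sum (sig a).skolem₁).IsExpansionOn N :=
    LHom.isExpansionOn_reduct _ _
  refine ⟨?_, ?_⟩
  · rw [Theory.model_iff]
    intro θ hθ
    rw [mem_completeTheory] at hθ
    have h1 : N₀ ⊨ (LHom.sumInl : sig a →ᴸ (sig a).sum (sig a).skolem₁).onSentence θ :=
      (LHom.realize_onSentence _ _ _).2 hθ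
    have h2 := hN.realize_of_mem _ (mem_completeTheory.2 h1)
    exact (LHom.realize_onSentence _ _ _).1 h2
  · intro B
    refine ⟨⟨(LHom.sumInl : sig a →ᴸ (sig a).sum (sig a).skolem₁).substructureReduct
      (Substructure.closure ((sig a).sum (sig a).skolem₁) B), ?_⟩, rfl⟩
    apply Substructure.isElementary_of_exists
    intro n φ x y h
    have h2 : N ⊨ skSent φ :=
      hN.realize_of_mem _ (mem_completeTheory.2 (model_skSent φ))
    rw [realize_skSent] at h2
    exact ⟨⟨_, (Substructure.closure ((sig a).sum (sig a).skolem₁) B).fun_mem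
      ((LHom.sumInr : (sig a).skolem₁ →ᴸ (sig a).sum (sig a).skolem₁).onFunction φ)
      (fun i => (x i : N)) (fun i => (x i).2)⟩, h2 _ ⟨y, h⟩⟩

end Pool.Agent.Work.MP_ed0a9a_lc.E
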