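import Pool.Agent.Work.MP_ed0a9a_lc.E.Indis
import Pool.Agent.Work.MP_ed0a9a_lc.E.Skl
import Pool.Agent.Work.MP_ed0a9a_lc.E.CntF

/-!
# Module `Em` (size M): Ehrenfeucht-Mostowski models

PROOF.  Let `L' = (sig a).sum (sig a).skolem₁`, `exists_indisc (L := L') N₀ I` gives `N`, `v`; the structure of `sig a` on `N` is the
reduct as in `exists_hull`.  The language `L'` is countable (`card_functions_sum_skolem₁_le`, `countable_formula` or
`Countable ((sig a).BoundedFormula Empty (n + 1))`; no relation symbols of `skolem₁`), so for each `n` the set of the terms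
`L'.Term (Fin n)` is countable; for `n ≥ 1` it is nonempty: let `t n : ℕ → (Fin n → N) → N`, `t n k x` = the value of the `k`-th term at
`x` (`exists_surjective_nat`; for `n = 0` the set of terms may be empty: then take `t 0 k` constant equal to ... it must satisfy the
last property, so instead choose: if there is no term in `0` variables let `t 0 k x` be the value of the closed term
obtained from the Skolem function for the formula `⊤` in one variable, which is a term in `0` variables; so the set of
terms in `0` variables is nonempty too: the constant symbol `f_⊤ : L'.Functions 0`).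
* hull: the set is `closure (v '' J)`: `Substructure.mem_closure_iff_exists_term` or: `⊆` by closure under terms
  (`Term.realize_mem`); `⊇`: by `Substructure.closure_induction`, or: a term in variables from `v '' J` has finitely many variables
  `v i₁, …, v i_n`, `i₁ < … < i_n` in `J`; relabel it.
* the last property: the formula `φ(s₁, …, s_m)` obtained by substituting the terms for the variables
  (`BoundedFormula.subst`/`Formula`: `realize_subst`) is an `L'`-formula in the variables `Σ j, Fin (n j)`, a finite type, equivalent to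
  `Fin r`; apply `indisc_general` to the tuples `q`, `q'` of length `r` (`LHom.onFormula`, `LHom.realize_onFormula` for `φ`).
-/

namespace Pool.Agent.Work.MP_ed0a9a_lc.E

open FirstOrder FirstOrder.Language

private theorem em_countable (a : ℕ → ℕ) (n : ℕ) :
    Countable (((sig a).sum (sig a).skolem₁).Term (Fin n)) := by
  have h1 : Countable (sig a).Symbols :=
    inferInstanceAs (Countable ((Σ _ : ℕ, Empty) ⊕ (Σ n : ℕ, {i : ℕ // a i = n})))
  have h2 : ∀ k, Countable ((sig a).BoundedFormula Empty k) := by
    intro k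
    have h3 : Function.Injective (fun φ : (sig a).BoundedFormula Empty k =>
        (⟨k, φ⟩ : Σ n, (sig a).BoundedFormula Empty n)) := by
      intro φ ψ h
      simpa using h
    exact h3.countable
  have h4 : ∀ l, Countable (((sig a).sum (sig a).skolem₁).Functions l) := by
    intro l
    have := h2 (l + 1)
    exact inferInstanceAs (Countable (Empty ⊕ (sig a).BoundedFormula Empty (l + 1)))
  infer_instance

private theorem em_nonempty (a : ℕ → ℕ) (n : ℕ) :
    Nonempty (((sig a).sum (sig a).skolem₁).Term (Fin n)) :=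
  ⟨Term.func (l := 0) (Sum.inr (⊥ : (sig a).BoundedFormula Empty 1)) Fin.elim0⟩

private theorem em_hull {L : FirstOrder.Language.{0, 0}} {N I : Type} [LinearOrder I]
    [L.Structure N] (e : ∀ n : ℕ, ℕ → L.Term (Fin n)) (he : ∀ n, Function.Surjective (e n))
    (v : I → N) (J : Set I) (x : N) :
    x ∈ Substructure.closure L (v '' J) ↔ ∃ (n k : ℕ) (q : Fin n → I), StrictMono q ∧
      (∀ i, q i ∈ J) ∧ x = (e n k).realize (v ∘ q) := by
  classical
  constructor
  · intro hx
    rw [Substructure.mem_closure_iff_exists_term] at hx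
    obtain ⟨τ, rfl⟩ := hx
    have hch : ∀ y : (v '' J : Set N), ∃ i, i ∈ J ∧ v i = y := fun y => y.2
    choose ι hι1 hι2 using hch
    obtain ⟨F, hF⟩ : ∃ F : Finset I, F = τ.varFinset.image ι := ⟨_, rfl⟩
    have hmem : ∀ y : τ.varFinset, ι y ∈ F := fun y => by
      rw [hF]
      exact Finset.mem_image_of_mem _ y.2
    obtain ⟨k, hk⟩ := he F.card (τ.restrictVar fun y =>
      (F.orderIsoOfFin rfl).symm ⟨ι y, hmem y⟩)
    refine ⟨F.card, k, fun i => ((F.orderIsoOfFin rfl) i : I), ?_, ?_, ?_⟩
    · intro i j hij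
      exact (F.orderIsoOfFin rfl).strictMono hij
    · intro i
      have hall : ∀ z ∈ F, z ∈ J := by
        intro z hz
        rw [hF, Finset.mem_image] at hz
        obtain ⟨y, -, rfl⟩ := hz
        exact hι1 y
      exact hall _ ((F.orderIsoOfFin rfl) i).2
    · rw [hk]
      symm
      refine Term.realize_restrictVar _ fun y => ?_
      change v ((F.orderIsoOfFin rfl) ((F.orderIsoOfFin rfl).symm ⟨ι y, hmem y⟩) : F) = _
      rw [OrderIso.apply_symm_apply]
      exact hι2 y
  · rintro ⟨n, k, q, -, hq, rfl⟩
    exact Term.realize_mem _ _ fun i => Substructure.subset_closure ⟨q i, hq i, rfl⟩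

private theorem em_last {L L' : FirstOrder.Language.{0, 0}} (ρ : L →ᴸ L') {N I : Type}
    [LinearOrder I] [L'.Structure N] (v : I → N)
    (hv : ∀ (n : ℕ) (φ : L'.Formula (Fin n)) (g g' : Fin n → I), StrictMono g →
      StrictMono g' → (φ.Realize (v ∘ g) ↔ φ.Realize (v ∘ g')))
    (m : ℕ) (φ : L.Formula (Fin m)) (n : Fin m → ℕ) (τ : ∀ j, L'.Term (Fin (n j)))
    (q q' : ∀ j, Fin (n j) → I) (h : ∀ j j' i i', q j i ≤ q j' i' ↔ q' j i ≤ q' j' i') :
    letI : L.Structure N := ρ.reduct N
    (φ.Realize (fun j => (τ j).realize (v ∘ q j)) ↔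
      φ.Realize (fun j => (τ j).realize (v ∘ q' j))) := by
  letI : L.Structure N := ρ.reduct N
  obtain ⟨r, ⟨ε⟩⟩ : ∃ r, Nonempty ((Σ j : Fin m, Fin (n j)) ≃ Fin r) :=
    ⟨_, ⟨Fintype.equivFin _⟩⟩
  have key : ∀ q : ∀ j, Fin (n j) → I,
      φ.Realize (fun j => (τ j).realize (v ∘ q j)) ↔
      Formula.Realize (M := N) (BoundedFormula.subst (ρ.onFormula φ)
        (fun j => (τ j).relabel (fun i => ε ⟨j, i⟩)) : L'.Formula (Fin r))
          (v ∘ fun x => q (ε.symm x).1 (ε.symm x).2) := by
    intro q
    symm
    rw [Formula.Realize, BoundedFormula.realize_subst, ← Formula.Realize,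
      LHom.realize_onFormula]
    have h1 : (fun j => ((τ j).relabel (fun i => ε ⟨j, i⟩)).realize
        (v ∘ fun x => q (ε.symm x).1 (ε.symm x).2)) = fun j => (τ j).realize (v ∘ q j) := by
      funext j
      rw [Term.realize_relabel]
      congr 1
      funext i
      have h2 : ∀ s : (Σ j : Fin m, Fin (n j)), s = ⟨j, i⟩ → v (q s.1 s.2) = v (q j i) := by
        rintro _ rfl
        rfl
      exact h2 _ (ε.symm_apply_apply ⟨j, i⟩)
    rw [h1]
  rw [key q, key q']
  exact indisc_general v hv _ _ _ fun x x' => h _ _ _ _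

theorem exists_em {a : ℕ → ℕ} (N₀ : Type) [Nonempty N₀] [Infinite N₀] [(sig a).Structure N₀]
    (I : Type) [LinearOrder I] :
    ∃ (N : Type) (_ : Nonempty N) (_ : (sig a).Structure N) (t : ∀ n : ℕ, ℕ → (Fin n → N) → N)
      (v : I → N), N ⊨ (sig a).completeTheory N₀ ∧ Function.Injective v ∧
      (∀ J : Set I, ∃ S : (sig a).ElementarySubstructure N, (∀ i ∈ J, v i ∈ S) ∧
        ∀ x, x ∈ S ↔ ∃ (n k : ℕ) (q : Fin n → I), StrictMono q ∧ (∀ i, q i ∈ J) ∧
          x = t n k (v ∘ q)) ∧
      ∀ (m : ℕ) (φ : (sig a).Formula (Fin m)) (n k : Fin m → ℕ) (q q' : ∀ j, Fin (n j) → I),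
        (∀ j j' i i', q j i ≤ q j' i' ↔ q' j i ≤ q' j' i') →
        (φ.Realize (fun j => t (n j) (k j) (v ∘ q j)) ↔
          φ.Realize (fun j => t (n j) (k j) (v ∘ q' j))) := by
  classical
  obtain ⟨N, hne, SN, hN, v, hv, hind⟩ :=
    exists_indisc (L := (sig a).sum (sig a).skolem₁) N₀ I
  letI SL : (sig a).Structure N := (LHom.sumInl : sig a →ᴸ (sig a).sum (sig a).skolem₁).reduct N
  obtain ⟨h1, h2⟩ := exists_hull hN
  have he : ∀ n, ∃ e : ℕ → ((sig a).sum (sig a).skolem₁).Term (Fin n),
      Function.Surjective e := by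
    intro n
    have := em_countable a n
    have := em_nonempty a n
    exact exists_surjective_nat _
  choose e he using he
  refine ⟨N, hne, SL, fun n k x => (e n k).realize x, v, h1, hv, ?_, ?_⟩
  · intro J
    obtain ⟨S, hS⟩ := h2 (v '' J)
    have hmem : ∀ x, x ∈ S ↔
        x ∈ Substructure.closure ((sig a).sum (sig a).skolem₁) (v '' J) := by
      intro x
      have h3 : x ∈ (S : Set N) ↔ x ∈ ((Substructure.closure ((sig a).sum (sig a).skolem₁)
        (v '' J) : ((sig a).sum (sig a).skolem₁).Substructure N) : Set N) := by rw [hS]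
      exact h3
    refine ⟨S, ?_, ?_⟩
    · intro i hi
      rw [hmem]
      exact Substructure.subset_closure ⟨i, hi, rfl⟩
    · intro x
      rw [hmem]
      exact em_hull e he v J x
  · intro m φ n k q q' h
    exact em_last _ v hind m φ n (fun j => e (n j) (k j)) q q' h

end Pool.Agent.Work.MP_ed0a9a_lc.E
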