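import Pool.Agent.Work.MP_ed0a9a_lc.E.ClB

/-!
# Module `Exch` (size M): the exchange property

PROOF.  Let `x ∉ cl B`, `x ∈ cl (insert y B)` and suppose `y ∉ cl (insert x B)`.  By `mem_cl_insert`
and `acl_iff` there are `b : Fin k → N` with values in `B`, `φ` and `n` with `φ(b, y, x)`, `φ(b, y, ·)` has
at most `n` solutions.  Let `χ(b, x', y')` be the formula `φ(b, y', x')` and `φ(b, y', ·)` has at most `n`
solutions (`exists_atMost`, relabelling; `χ` has its variables in `Fin (k + 1 + 1)`).  `χ(b, x, y)` holds.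
As `y ∉ cl (insert x B)`, the set `{y' | χ(b, x, y')}` is infinite (`mem_cl_insert`), so by
`StronglyMinimal` its complement is finite, with `m` elements.  Let `ρ(b, x')` be the formula: at most `m`
elements `y'` with `¬ χ(b, x', y')`.  `ρ(b, x)` holds and `x ∉ cl B`, so `{x' | ρ(b, x')}` is infinite;
choose `n + 1` distinct elements `x₀, …, x_n` of it.  The sets `{y' | ¬ χ(b, x_i, y')}` are finite and `N` is
infinite, so there is `y*` with `χ(b, x_i, y*)` for all `i`.  Hence `φ(b, y*, ·)` has at most `n`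
solutions and the solutions `x₀, …, x_n`: contradiction.
-/

namespace Pool.Agent.Work.MP_ed0a9a_lc.E

open FirstOrder FirstOrder.Language

private theorem exch_fml {L : FirstOrder.Language.{0, 0}} {k : ℕ}
    (φ : L.Formula (Fin (k + 1 + 1))) (n : ℕ) : ∃ χ : L.Formula (Fin (k + 1 + 1)),
    ∀ (N : Type) [L.Structure N] (b : Fin k → N) (x y : N),
      χ.Realize (Fin.snoc (Fin.snoc b x : Fin (k + 1) → N) y : Fin (k + 1 + 1) → N) ↔
        φ.Realize (Fin.snoc (Fin.snoc b y : Fin (k + 1) → N) x : Fin (k + 1 + 1) → N) ∧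
        {z | φ.Realize (Fin.snoc (Fin.snoc b y : Fin (k + 1) → N) z :
          Fin (k + 1 + 1) → N)}.Finite ∧
        {z | φ.Realize (Fin.snoc (Fin.snoc b y : Fin (k + 1) → N) z :
          Fin (k + 1 + 1) → N)}.ncard ≤ n := by
  obtain ⟨ψ, hψ⟩ := exists_atMost φ n
  refine ⟨φ.relabel (Fin.snoc (Fin.snoc (fun i : Fin k => i.castSucc.castSucc)
      (Fin.last (k + 1)) : Fin (k + 1) → Fin (k + 1 + 1)) (Fin.last k).castSucc :
        Fin (k + 1 + 1) → Fin (k + 1 + 1)) ⊓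
    ψ.relabel (Fin.snoc (fun i : Fin k => i.castSucc.castSucc)
      (Fin.last (k + 1)) : Fin (k + 1) → Fin (k + 1 + 1)), ?_⟩
  intro N _ b x y
  rw [Formula.realize_inf, Formula.realize_relabel, Formula.realize_relabel]
  have e1 : (Fin.snoc (Fin.snoc b x : Fin (k + 1) → N) y : Fin (k + 1 + 1) → N) ∘
      (Fin.snoc (fun i : Fin k => i.castSucc.castSucc)
      (Fin.last (k + 1)) : Fin (k + 1) → Fin (k + 1 + 1)) = (Fin.snoc b y : Fin (k + 1) → N) := by
    rw [Fin.comp_snoc]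
    simp [Function.comp_def]
  have e2 : (Fin.snoc (Fin.snoc b x : Fin (k + 1) → N) y : Fin (k + 1 + 1) → N) ∘
      (Fin.snoc (Fin.snoc (fun i : Fin k => i.castSucc.castSucc)
      (Fin.last (k + 1)) : Fin (k + 1) → Fin (k + 1 + 1)) (Fin.last k).castSucc :
        Fin (k + 1 + 1) → Fin (k + 1 + 1)) =
      (Fin.snoc (Fin.snoc b y : Fin (k + 1) → N) x : Fin (k + 1 + 1) → N) := by
    rw [Fin.comp_snoc, e1]
    simp
  rw [e1, e2, hψ]

theorem exchange {L : FirstOrder.Language.{0, 0}} {T : L.Theory} (hT : StronglyMinimal T)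
    {N : Type} [Nonempty N] [L.Structure N] (hN : N ⊨ T) {B : Set N} {x y : N}
    (hx : x ∉ cl L B) (h : x ∈ cl L (insert y B)) : y ∈ cl L (insert x B) := by
  by_contra hy
  obtain ⟨k, b, hb, hA⟩ := mem_cl_insert.1 h
  obtain ⟨φ, n, h1, h2, h3⟩ := acl_iff.1 hA
  obtain ⟨χ, hχ⟩ := exch_fml φ n
  have hinf : Infinite N := (hT N hN).1
  have hχ1 := (hχ N b x y).2 ⟨h1, h2, h3⟩
  have hfin : {y' | ¬ χ.Realize (Fin.snoc (Fin.snoc b x : Fin (k + 1) → N) y' :
      Fin (k + 1 + 1) → N)}.Finite := by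
    rcases (hT N hN).2 (k + 1) χ (Fin.snoc b x) with h4 | h4
    · exact absurd (mem_cl_insert.2 ⟨k, b, hb, χ, hχ1, h4⟩) hy
    · exact h4
  obtain ⟨ρ, hρ⟩ := exists_atMost χ.not ({y' | ¬ χ.Realize (Fin.snoc
    (Fin.snoc b x : Fin (k + 1) → N) y' : Fin (k + 1 + 1) → N)}.ncard)
  have hρ1 : ρ.Realize (Fin.snoc b x : Fin (k + 1) → N) := by
    rw [hρ]
    simp only [Formula.realize_not]
    exact ⟨hfin, le_rfl⟩
  have hinf2 : {x' | ρ.Realize (Fin.snoc b x' : Fin (k + 1) → N)}.Infinite := by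
    intro h4
    exact hx ⟨k, b, hb, ρ, hρ1, h4⟩
  obtain ⟨t, ht, htc⟩ := hinf2.exists_subset_card_eq (n + 1)
  have hU : (⋃ x' ∈ t, {y' | ¬ χ.Realize (Fin.snoc (Fin.snoc b x' : Fin (k + 1) → N) y' :
      Fin (k + 1 + 1) → N)}).Finite := by
    refine t.finite_toSet.biUnion fun x' hx' => ?_
    have h5 := ht hx'
    rw [Set.mem_ofPred_eq, hρ] at h5
    simp only [Formula.realize_not] at h5
    exact h5.1
  obtain ⟨ys, hys⟩ := hU.infinite_compl.nonempty
  have hall : ∀ x' ∈ t, χ.Realize (Fin.snoc (Fin.snoc b x' : Fin (k + 1) → N) ys :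
      Fin (k + 1 + 1) → N) := by
    intro x' hx'
    by_contra h6
    exact hys (Set.mem_biUnion hx' h6)
  have hne : t.Nonempty := by
    rw [← Finset.card_pos, htc]
    omega
  obtain ⟨x0, hx0⟩ := hne
  obtain ⟨-, h7, h8⟩ := (hχ N b x0 ys).1 (hall x0 hx0)
  have h9 : (t : Set N) ⊆ {z | φ.Realize (Fin.snoc (Fin.snoc b ys : Fin (k + 1) → N) z :
          Fin (k + 1 + 1) → N)} := fun x' hx' => ((hχ N b x' ys).1 (hall x' hx')).1
  have h10 := Set.ncard_le_ncard h9 h7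
  rw [Set.ncard_coe_finset, htc] at h10
  omega

end Pool.Agent.Work.MP_ed0a9a_lc.E
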