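import Pool.Agent.Work.MP_ed0a9a_lc.E.Defs

/-!
# Module `Stein` (size M, pure combinatorics): Steinitz exchange lemma

PROOF.  Prove by induction on `k` the statement with a base set `E`: if `b : Fin k → α`, `d : Fin l → α`,
`d j ∉ c (E ∪ d '' {i | i < j})` and `d j ∈ c (E ∪ Set.range b)` for all `j`, then `l ≤ k`.
`k = 0`: if `l > 0` then `d 0 ∉ c E` but `d 0 ∈ c (E ∪ ∅)`.
Step `k → k + 1`: if `l = 0` done.  Let `x = d 0`.  Let `i` be least with `x ∈ c (E ∪ {b 0, …, b (i - 1)})`
(it exists, `i ≤ k + 1`, and `i ≠ 0` as `x ∉ c E`).  With `A = E ∪ {b 0, …, b (i - 2)}`, `y = b (i - 1)`: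
`x ∉ c A`, `x ∈ c (insert y A)`, so `y ∈ c (insert x A)`.  Let `E' = insert x E`, `b'` = `b` without the entry
`i - 1` (`b ∘ Fin.succAbove`), `d' = fun j => d j.succ`.  Then `y ∈ c (E' ∪ Set.range b')`, so
`E ∪ Set.range b ⊆ c (E' ∪ Set.range b')` and `d' j ∈ c (E' ∪ Set.range b')` by `mono` and `idem`;
`d' j ∉ c (E' ∪ d' '' {i | i < j})` because this set is contained in `E ∪ d '' {i | i < j.succ}`.  So `l - 1 ≤ k`.
-/

namespace Pool.Agent.Work.MP_ed0a9a_lc.E

private theorem stein_aux {α : Type} (c : Set α → Set α) (mono : ∀ A B, A ⊆ B → c A ⊆ c B)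
    (sub : ∀ A, A ⊆ c A) (idem : ∀ A, c (c A) ⊆ c A)
    (exch : ∀ A x y, x ∉ c A → x ∈ c (insert y A) → y ∈ c (insert x A)) (k : ℕ) :
    ∀ (l : ℕ) (E : Set α) (b : Fin k → α) (d : Fin l → α),
      (∀ j, d j ∉ c (E ∪ d '' {i | i < j})) → (∀ j, d j ∈ c (E ∪ Set.range b)) → l ≤ k := by
  induction k with
  | zero =>
    intro l E b d hd hb
    rcases l with _ | l
    · exact le_rfl
    · exfalso
      refine hd 0 (mono _ _ ?_ (hb 0))
      rintro z (hz | ⟨j, -⟩)
      · exact Or.inl hz
      · exact j.elim0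
  | succ k ih =>
    intro l E b d hd hb
    rcases l with _ | l
    · exact Nat.zero_le _
    · classical
      set x := d 0 with hx
      have hxE : x ∉ c E := fun h => hd 0 (mono _ _ Set.subset_union_left h)
      have hP : ∃ i : ℕ, x ∈ c (E ∪ b '' {j | (j : ℕ) < i}) := by
        refine ⟨k + 1, mono _ _ ?_ (hb 0)⟩
        rintro z (hz | ⟨j, rfl⟩)
        · exact Or.inl hz
        · exact Or.inr ⟨j, j.2, rfl⟩
      obtain ⟨i, hi⟩ : ∃ i, Nat.find hP = i := ⟨_, rfl⟩
      have hi1 : x ∈ c (E ∪ b '' {j | (j : ℕ) < i}) := hi ▸ Nat.find_spec hP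
      have hi2 : i ≤ k + 1 := by
        rw [← hi]
        apply Nat.find_min' hP
        refine mono _ _ ?_ (hb 0)
        rintro z (hz | ⟨j, rfl⟩)
        · exact Or.inl hz
        · exact Or.inr ⟨j, j.2, rfl⟩
      rcases i with _ | i
      · exfalso
        refine hxE (mono _ _ ?_ hi1)
        rintro z (hz | ⟨j, hj, -⟩)
        · exact hz
        · exact absurd hj (Nat.not_lt_zero _)
      · have hi3 : x ∉ c (E ∪ b '' {j | (j : ℕ) < i}) := Nat.find_min hP (by omega)
        have hlt : i < k + 1 := by omega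
        set p : Fin (k + 1) := ⟨i, hlt⟩ with hp
        have h1 : x ∈ c (insert (b p) (E ∪ b '' {j | (j : ℕ) < i})) := by
          refine mono _ _ ?_ hi1
          rintro z (hz | ⟨j, hj, rfl⟩)
          · exact Or.inr (Or.inl hz)
          · have hj' : (j : ℕ) < i + 1 := hj
            rcases Nat.lt_succ_iff_lt_or_eq.1 hj' with h | h
            · exact Or.inr (Or.inr ⟨j, h, rfl⟩)
            · left
              congr 1
              exact Fin.ext h
        have h2 := exch _ _ _ hi3 h1
        have hr : ∀ j : Fin (k + 1), j ≠ p → b j ∈ Set.range (b ∘ p.succAbove) := by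
          intro j hj
          obtain ⟨j', hj'⟩ := Fin.exists_succAbove_eq hj
          exact ⟨j', by simp [hj']⟩
        have h3 : b p ∈ c (insert x E ∪ Set.range (b ∘ p.succAbove)) := by
          refine mono _ _ ?_ h2
          rintro z (rfl | hz | ⟨j, hj, rfl⟩)
          · exact Or.inl (Or.inl rfl)
          · exact Or.inl (Or.inr hz)
          · right
            apply hr
            rintro rfl
            exact absurd hj (lt_irrefl i)
        have h4 : E ∪ Set.range b ⊆ c (insert x E ∪ Set.range (b ∘ p.succAbove)) := by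
          rintro z (hz | ⟨j, rfl⟩)
          · exact sub _ (Or.inl (Or.inr hz))
          · by_cases hj : j = p
            · rw [hj]
              exact h3
            · exact sub _ (Or.inr (hr j hj))
        have h5 := ih l (insert x E) (b ∘ p.succAbove) (fun j => d j.succ) ?_ ?_
        · omega
        · intro j hj
          refine hd j.succ (mono _ _ ?_ hj)
          rintro z ((rfl | hz) | ⟨j', hj', rfl⟩)
          · exact Or.inr ⟨0, Fin.succ_pos j, rfl⟩
          · exact Or.inl hz
          · exact Or.inr ⟨j'.succ, Fin.succ_lt_succ_iff.2 hj', rfl⟩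
        · intro j
          exact idem _ (mono _ _ h4 (hb j.succ))

theorem steinitz {α : Type} (c : Set α → Set α) (mono : ∀ A B, A ⊆ B → c A ⊆ c B)
    (sub : ∀ A, A ⊆ c A) (idem : ∀ A, c (c A) ⊆ c A)
    (exch : ∀ A x y, x ∉ c A → x ∈ c (insert y A) → y ∈ c (insert x A)) {k l : ℕ}
    (b : Fin k → α) (d : Fin l → α) (hd : ∀ j, d j ∉ c (d '' {i | i < j}))
    (hb : ∀ j, d j ∈ c (Set.range b)) : l ≤ k := by
  refine stein_aux c mono sub idem exch k l ∅ b d ?_ ?_
  · intro j
    rw [Set.empty_union]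
    exact hd j
  · intro j
    rw [Set.empty_union]
    exact hb j

end Pool.Agent.Work.MP_ed0a9a_lc.E
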