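import Pool.Agent.Work.MP_ed0a9a_lc.E.ClT
import Pool.Agent.Work.MP_ed0a9a_lc.E.Exch
import Pool.Agent.Work.MP_ed0a9a_lc.E.Stein

/-!
# Module `IndB` (size M): independent tuples

PROOFS.
* `ind_snoc_iff`: `Fin.snoc b y '' {i | i < castSucc j} = b '' {i | i < j}` and
  `Fin.snoc b y '' {i | i < last k} = Set.range b`; cases with `Fin.lastCases`.
* `ind_comp`: for `g` strictly monotone, `(b ∘ g) '' {i | i < j} ⊆ b '' {i | i < g j}`; `cl_mono`.
* `ind_injective`: if `b i = b j`, `i < j`, then `b j ∈ b '' {i | i < j} ⊆ cl ..` (`subset_cl`).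
* `ind_zero`: no `j : Fin 0`.
* `ind_le`: `steinitz` with `c = cl L`, `cl_mono`, `subset_cl`, `cl_cl`, `exchange`.
* `exists_basis`: by `Nat.find` (or strong induction) take the largest `d ≤ k` such that there is an
  independent tuple `b : Fin d → N` (`d = 0` works); there is no independent `d + 1`-tuple, so by
  `ind_snoc_iff` every `y` is in `cl (Set.range b)`.
-/

namespace Pool.Agent.Work.MP_ed0a9a_lc.E

open FirstOrder FirstOrder.Language

variable {L : FirstOrder.Language.{0, 0}}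

section
variable {N : Type} [L.Structure N]

theorem ind_zero (b : Fin 0 → N) : Ind L b := fun j => j.elim0

private theorem snoc_img {k : ℕ} (b : Fin k → N) (y : N) (j : Fin k) :
    (Fin.snoc b y : Fin (k + 1) → N) '' {i | i < j.castSucc} = b '' {i | i < j} := by
  ext z
  constructor
  · rintro ⟨i, hi, rfl⟩
    have hne : i ≠ Fin.last k := (lt_of_lt_of_le hi (Fin.le_last _)).ne
    obtain ⟨i', rfl⟩ := Fin.exists_castSucc_eq.mpr hne
    refine ⟨i', ?_, ?_⟩
    · exact Fin.castSucc_lt_castSucc_iff.mp hi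
    · exact (Fin.snoc_castSucc (α := fun _ => N) y b i').symm
  · rintro ⟨i, hi, rfl⟩
    exact ⟨i.castSucc, Fin.castSucc_lt_castSucc_iff.mpr hi,
      Fin.snoc_castSucc (α := fun _ => N) y b i⟩

private theorem snoc_img_last {k : ℕ} (b : Fin k → N) (y : N) :
    (Fin.snoc b y : Fin (k + 1) → N) '' {i | i < Fin.last k} = Set.range b := by
  ext z
  constructor
  · rintro ⟨i, hi, rfl⟩
    obtain ⟨i', rfl⟩ := Fin.exists_castSucc_eq.mpr (ne_of_lt hi)
    exact ⟨i', (Fin.snoc_castSucc (α := fun _ => N) y b i').symm⟩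
  · rintro ⟨i, rfl⟩
    exact ⟨i.castSucc, Fin.castSucc_lt_last i, Fin.snoc_castSucc (α := fun _ => N) y b i⟩

theorem ind_snoc_iff {k : ℕ} {b : Fin k → N} {y : N} :
    Ind L (Fin.snoc b y : Fin (k + 1) → N) ↔ Ind L b ∧ y ∉ cl L (Set.range b) := by
  unfold Ind
  rw [Fin.forall_fin_succ']
  refine and_congr (forall_congr' fun j => ?_) ?_
  · rw [snoc_img, Fin.snoc_castSucc]
  · rw [snoc_img_last, Fin.snoc_last]

theorem ind_comp {k m : ℕ} {b : Fin k → N} (hb : Ind L b) {g : Fin m → Fin k}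
    (hg : StrictMono g) : Ind L (b ∘ g) := by
  intro j hj
  refine hb (g j) (cl_mono ?_ hj)
  rintro _ ⟨i, hi, rfl⟩
  exact ⟨g i, hg hi, rfl⟩

theorem ind_injective {k : ℕ} {b : Fin k → N} (hb : Ind L b) : Function.Injective b := by
  have key : ∀ i j : Fin k, i < j → b i ≠ b j := by
    intro i j hij he
    exact hb j (subset_cl _ ⟨i, hij, he⟩)
  intro i j he
  by_contra hne
  rcases lt_or_gt_of_ne hne with h | h
  · exact key i j h he
  · exact key j i h he.symm

end

theorem ind_le {T : L.Theory} (hT : StronglyMinimal T) {N : Type} [Nonempty N] [L.Structure N]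
    (hN : N ⊨ T) {k l : ℕ} (b : Fin k → N) (d : Fin l → N) (hd : Ind L d)
    (hb : ∀ j, d j ∈ cl L (Set.range b)) : l ≤ k :=
  steinitz (cl L) (fun _ _ h => cl_mono h) (fun A => subset_cl A) (fun A => cl_cl A)
    (fun _ _ _ hx h => exchange hT hN hx h) b d hd hb

theorem exists_basis {N : Type} [L.Structure N] {k : ℕ}
    (h : ∀ b : Fin (k + 1) → N, ¬ Ind L b) : ∃ d ≤ k, HasDim L N d := by
  classical
  have hex : ∃ n, ∀ b : Fin (n + 1) → N, ¬ Ind L b := ⟨k, h⟩
  obtain ⟨d, hd⟩ : ∃ d, d = Nat.find hex := ⟨_, rfl⟩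
  have hspec : ∀ b : Fin (d + 1) → N, ¬ Ind L b := by
    rw [hd]
    exact Nat.find_spec hex
  have hdk : d ≤ k := by
    rw [hd]
    exact Nat.find_min' hex h
  have hb : ∃ b : Fin d → N, Ind L b := by
    rcases Nat.eq_zero_or_pos d with h0 | hpos
    · subst h0
      exact ⟨fun i => i.elim0, ind_zero _⟩
    · obtain ⟨d', rfl⟩ : ∃ d', d = d' + 1 := ⟨d - 1, by omega⟩
      have h1 : ¬ ∀ b : Fin (d' + 1) → N, ¬ Ind L b := Nat.find_min hex (by omega)
      push Not at h1
      exact h1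
  obtain ⟨b, hb⟩ := hb
  refine ⟨d, hdk, b, hb, Set.eq_univ_of_forall fun y => ?_⟩
  by_contra hy
  exact hspec (Fin.snoc b y) (ind_snoc_iff.mpr ⟨hb, hy⟩)

end Pool.Agent.Work.MP_ed0a9a_lc.E
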