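import Pool.Agent.Work.MP_ed0a9a_lc.E.ExtA
import Pool.Agent.Work.MP_ed0a9a_lc.E.IndB

/-!
# Module `Uniq` (size S): all independent tuples have the same type

PROOF: induction on `k`; `b = Fin.snoc (Fin.init b) (b (Fin.last k))` (`Fin.snoc_init_self`), `ind_snoc_iff`,
`mem_cl_range`, `ext_gen`.  `k = 0`: a formula `φ : L.Formula (Fin 0)` is relabelled to the sentence
`φ.relabel (fun i : Fin 0 => i.elim0) : L.Formula Empty`, true in `N` iff true in `N'` as `T` is complete
(`Theory.IsComplete.realize_sentence_iff`).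
-/

namespace Pool.Agent.Work.MP_ed0a9a_lc.E

open FirstOrder FirstOrder.Language

theorem sameTp_of_ind {L : FirstOrder.Language.{0, 0}} {T : L.Theory} (hc : T.IsComplete)
    (hT : StronglyMinimal T) {N N' : Type} [Nonempty N] [Nonempty N'] [L.Structure N]
    [L.Structure N'] (hN : N ⊨ T) (hN' : N' ⊨ T) {k : ℕ} {b : Fin k → N} {b' : Fin k → N'}
    (hb : Ind L b) (hb' : Ind L b') : SameTp L b b' := by
  have := hN
  have := hN'
  induction k with
  | zero =>
    intro φ
    have h1 : φ.Realize b ↔ N ⊨ (φ.relabel (fun i : Fin 0 => i.elim0) : L.Formula Empty) := by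
      rw [Sentence.Realize, Formula.realize_relabel]
      exact iff_of_eq (congrArg _ (Subsingleton.elim _ _))
    have h2 : φ.Realize b' ↔ N' ⊨ (φ.relabel (fun i : Fin 0 => i.elim0) : L.Formula Empty) := by
      rw [Sentence.Realize, Formula.realize_relabel]
      exact iff_of_eq (congrArg _ (Subsingleton.elim _ _))
    rw [h1, h2, hc.realize_sentence_iff, hc.realize_sentence_iff]
  | succ k ih =>
    obtain ⟨c, y, rfl⟩ : ∃ (c : Fin k → N) (y : N), b = (Fin.snoc c y : Fin (k + 1) → N) :=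
      ⟨Fin.init b, b (Fin.last k), (Fin.snoc_init_self b).symm⟩
    obtain ⟨c', y', rfl⟩ : ∃ (c' : Fin k → N') (y' : N'),
        b' = (Fin.snoc c' y' : Fin (k + 1) → N') :=
      ⟨Fin.init b', b' (Fin.last k), (Fin.snoc_init_self b').symm⟩
    obtain ⟨h1, h2⟩ := ind_snoc_iff.1 hb
    obtain ⟨h1', h2'⟩ := ind_snoc_iff.1 hb'
    exact ext_gen hT hN hN' (ih h1 h1') (fun h => h2 ((mem_cl_range _ _).2 h))
      (fun h => h2' ((mem_cl_range _ _).2 h))

end Pool.Agent.Work.MP_ed0a9a_lc.E
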