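import Pool.Agent.Work.MP_ed0a9a_lc.E.Frth
import Pool.Agent.Work.MP_ed0a9a_lc.E.Uniq

/-!
# Module `Emb` (size M): elementary embeddings and dimensions

PROOFS.
* `emb_of_span`: `forth` with `E k c c' := SameTp L c c' ∧ cl L (Set.range c) = Set.univ`; step: `ext_alg`
  (`mem_cl_range`) and `cl_mono`.
* `iso_of_dim`: bases `b`, `b'`; `SameTp L b b'` (`sameTp_of_ind`); `emb_of_span` gives `f` with `f ∘ b = b'`; `f` is
  surjective by `cl_map_subset`; a surjective embedding is an isomorphism (`Equiv.ofBijective`).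
* `emb_of_infinite`: `forth` with `E k c c' := SameTp L c c'`, starting from `k = 0` (`sameTp_of_ind`, `ind_zero`).
  Step: given `y`; if `Acl L c y`: `ext_alg`.  If not: there is an independent `k + 1`-tuple `d` in `N'`; by
  `ind_le` not all `d j` are in `cl (Set.range c')`; take this `d j` for `y'`; `ext_gen`.
* `dim_le_of_emb`: bases `b` of `N`, `b'` of `N'`; `f ∘ b` is independent (`sameTp_map`, `sameTp_ind`), and all its values
  are in `cl (Set.range b') = univ`; `ind_le`.
* `hasDim_unique`: `dim_le_of_emb` for the identity, twice.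
-/

namespace Pool.Agent.Work.MP_ed0a9a_lc.E

open FirstOrder FirstOrder.Language

variable {L : FirstOrder.Language.{0, 0}}

theorem emb_of_span {N N' : Type} [Nonempty N] [Countable N] [L.Structure N] [L.Structure N']
    {k : ℕ} {b : Fin k → N} {b' : Fin k → N'} (hb : cl L (Set.range b) = Set.univ)
    (h : SameTp L b b') : ∃ f : N ↪ₑ[L] N', ∀ i, f (b i) = b' i := by
  refine forth (fun k c c' => SameTp L c c' ∧ cl L (Set.range c) = Set.univ)
    (fun k c c' h => h.1) ?_ ⟨h, hb⟩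
  rintro m c c' ⟨h1, h2⟩ y
  have h3 : Acl L c y := (mem_cl_range c y).1 (by rw [h2]; exact Set.mem_univ y)
  obtain ⟨y', -, h4⟩ := ext_alg h1 h3
  refine ⟨y', h4, ?_⟩
  refine Set.eq_univ_of_univ_subset ?_
  rw [← h2]
  refine cl_mono ?_
  rintro _ ⟨i, rfl⟩
  exact ⟨i.castSucc, Fin.snoc_castSucc (α := fun _ => N) y c i⟩

variable {T : L.Theory} {N N' : Type} [Nonempty N] [Nonempty N'] [L.Structure N]
  [L.Structure N']

theorem iso_of_dim (hc : T.IsComplete) (hT : StronglyMinimal T) [Countable N]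
    (hN : N ⊨ T) (hN' : N' ⊨ T) {d : ℕ} (h : HasDim L N d) (h' : HasDim L N' d) :
    Nonempty (N ≃[L] N') := by
  obtain ⟨b, hb1, hb2⟩ := h
  obtain ⟨b', hb1', hb2'⟩ := h'
  obtain ⟨f, hf⟩ := emb_of_span hb2 (sameTp_of_ind hc hT hN hN' hb1 hb1')
  have hfb : f ∘ b = b' := funext hf
  have h1 := cl_map_subset f b
  rw [hfb, hb2'] at h1
  have hsur : Function.Surjective f := fun y => h1 (Set.mem_univ y)
  exact ⟨{ Equiv.ofBijective f ⟨f.injective, hsur⟩ with
    map_fun' := fun g x => f.map_fun g x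
    map_rel' := fun r x => f.map_rel r x }⟩

theorem emb_of_infinite (hc : T.IsComplete) (hT : StronglyMinimal T) [Countable N]
    (hN : N ⊨ T) (hN' : N' ⊨ T) (h : ∀ k, ∃ b : Fin k → N', Ind L b) :
    Nonempty (N ↪ₑ[L] N') := by
  have h0 : SameTp L (Fin.elim0 : Fin 0 → N) (Fin.elim0 : Fin 0 → N') :=
    sameTp_of_ind hc hT hN hN' (ind_zero _) (ind_zero _)
  obtain ⟨f, -⟩ := forth (fun k (c : Fin k → N) (c' : Fin k → N') => SameTp L c c')
    (fun k c c' h => h) (fun k c c' h1 y => by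
      by_cases hy : Acl L c y
      · obtain ⟨y', -, h4⟩ := ext_alg h1 hy
        exact ⟨y', h4⟩
      · obtain ⟨d, hd⟩ := h (k + 1)
        have h2 : ∃ j, d j ∉ cl L (Set.range c') := by
          by_contra h3
          push Not at h3
          have h4 := ind_le hT hN' c' d hd h3
          omega
        obtain ⟨j, hj⟩ := h2
        rw [mem_cl_range] at hj
        exact ⟨d j, ext_gen hT hN hN' h1 hy hj⟩) h0
  exact ⟨f⟩

theorem dim_le_of_emb (hT : StronglyMinimal T) (hN' : N' ⊨ T) {d d' : ℕ}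
    (h : HasDim L N d) (h' : HasDim L N' d') (f : N ↪ₑ[L] N') : d ≤ d' := by
  obtain ⟨b, hb1, hb2⟩ := h
  obtain ⟨b', hb1', hb2'⟩ := h'
  refine ind_le hT hN' b' (f ∘ b) (sameTp_ind (sameTp_map f b) hb1) fun j => ?_
  rw [hb2']
  exact Set.mem_univ _

theorem hasDim_unique (hT : StronglyMinimal T) (hN : N ⊨ T) {d d' : ℕ}
    (h : HasDim L N d) (h' : HasDim L N d') : d = d' :=
  le_antisymm (dim_le_of_emb hT hN h h' (ElementaryEmbedding.refl L N))
    (dim_le_of_emb hT hN h' h (ElementaryEmbedding.refl L N))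

end Pool.Agent.Work.MP_ed0a9a_lc.E
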