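import Pool.Agent.Work.MP_ed0a9a_lc.E.PFm
import Pool.Agent.Work.MP_ed0a9a_lc.E.Cmp
import Pool.Agent.Work.MP_ed0a9a_lc.E.Diag

/-!
# Module `EmbC` (size M-L): embeddings into models of `T` by compactness

PROOF.  `compact T` with `C = M` and `Γ' =` the set of the formulas `ψ : (sig a).Formula M` such that
(1) there are `c : ℕ → M` and a literal `l` with `LTrue (hd a SM) c l` and
`∀ N S v, ψ.Realize v ↔ LTrue (hd a S) (v ∘ c) l`, or (2) `ψ = φ.relabel b` for some `φ ∈ Γ`.
Let `Δ' ⊆ Γ'` be finite.  For its elements of type (1) choose `(c_j, l_j)`, `j < r`; for those of type (2) choose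
`φ`, this gives a finite `Δ ⊆ Γ`.  Let `e : ℕ → M` be such that `e i = b i` for `i < k` and all elements
`c_j x` with `x` a variable occurring in `l_j` are among `e k, …, e (K - 1)` (a finite list; `e` arbitrary from `K` on).
Let `θ` consist of the literals `(l_j.1, l_j.2.1.map (index of c_j x), l_j.2.2)` and of the literals
`(0, [i, i'], true)` for `i, i' < K` with `e i = e i'`.  `PTrue (hd a SM) θ (List.ofFn b)` by `e`.  Take `N`, `b'` from
the hypothesis `h` for `θ`, `Δ` and `c' : ℕ → N` from `PTrue (hd a S) θ (List.ofFn b')`.  Let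
`v x = c' i` for some chosen `i < K` with `e i = x` if there is one (arbitrary otherwise); then `v (e i) = c' i` for
all `i < K` by the equality literals, in particular `v ∘ b = b'`, and `v` satisfies all formulas in `Δ'`
(only the values of the assignments at the variables which occur in the literal matter).
So there are `N ⊨ T` and `v : M → N` with all formulas of `Γ'` true; by `exists_lit` every literal true in `M` is
preserved by `v`, `exists_emb` gives `f`; for `φ ∈ Γ`: `φ.relabel b` true at `v` is `φ` true at `v ∘ b`.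
-/

namespace Pool.Agent.Work.MP_ed0a9a_lc.E

open FirstOrder FirstOrder.Language

/-- Renaming the variables of a literal. -/
private theorem ltrue_ren {N : Type} (H : ℕ → List N → Prop) (e c : ℕ → N) (ρ : ℕ → ℕ) (l : Lit)
    (h : ∀ x ∈ l.2.1, e (ρ x) = c x) :
    LTrue H e (l.1, l.2.1.map ρ, l.2.2) ↔ LTrue H c l := by
  obtain ⟨i, vs, s⟩ := l
  simp only at h ⊢
  have h1 : (vs.map ρ).map e = vs.map c := by
    rw [List.map_map]
    exact List.map_congr_left fun x hx => h x hx
  have h2 : (∃ x y, vs.map ρ = [x, y] ∧ e x = e y) ↔ (∃ x y, vs = [x, y] ∧ c x = c y) := by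
    constructor
    · rintro ⟨x, y, hxy, he⟩
      match vs, hxy, h with
      | [u, w], hxy, h =>
        simp only [List.map_cons, List.map_nil, List.cons.injEq, and_true] at hxy
        refine ⟨u, w, rfl, ?_⟩
        rw [← h u (by simp), ← h w (by simp), hxy.1, hxy.2]
        exact he
    · rintro ⟨u, w, rfl, he⟩
      refine ⟨ρ u, ρ w, by simp, ?_⟩
      rw [h u (by simp), h w (by simp)]
      exact he
  unfold LTrue AtTrue
  simp only
  rw [h1, h2]

theorem exists_emb_compact {a : ℕ → ℕ} (T : (sig a).Theory) {M : Type} [Nonempty M]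
    [SM : (sig a).Structure M] {k : ℕ} (b : Fin k → M) (Γ : Set ((sig a).Formula (Fin k)))
    (h : ∀ θ, PTrue (hd a SM) θ (List.ofFn b) → ∀ Δ : Finset ((sig a).Formula (Fin k)),
      (Δ : Set ((sig a).Formula (Fin k))) ⊆ Γ →
      ∃ (N : Type) (_ : Nonempty N) (S : (sig a).Structure N), N ⊨ T ∧
        ∃ b' : Fin k → N, PTrue (hd a S) θ (List.ofFn b') ∧ ∀ φ ∈ Δ, φ.Realize b') :
    ∃ (N : Type) (_ : Nonempty N) (_ : (sig a).Structure N), N ⊨ T ∧
      ∃ f : M ↪[sig a] N, ∀ φ ∈ Γ, φ.Realize (f ∘ b) := by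
  classical
  -- the diagram of `M` together with `Γ`
  set Γ' : Set ((sig a).Formula M) := {ψ | (∃ (c : ℕ → M) (l : Lit), LTrue (hd a SM) c l ∧
      ∀ (N : Type) [S : (sig a).Structure N] (v : M → N),
        ψ.Realize v ↔ LTrue (hd a S) (v ∘ c) l) ∨ ∃ φ ∈ Γ, ψ = φ.relabel b} with hΓ'
  have key : ∀ Δ' : Finset ((sig a).Formula M), (Δ' : Set ((sig a).Formula M)) ⊆ Γ' →
      ∃ (N : Type) (_ : Nonempty N) (_ : (sig a).Structure N), N ⊨ T ∧
        ∃ v : M → N, ∀ φ ∈ Δ', φ.Realize v := by
    intro Δ' hΔ'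
    set P1 : (sig a).Formula M → Prop := fun ψ => ∃ (c : ℕ → M) (l : Lit),
      LTrue (hd a SM) c l ∧ ∀ (N : Type) [S : (sig a).Structure N] (v : M → N),
        ψ.Realize v ↔ LTrue (hd a S) (v ∘ c) l with hP1
    have hc1 : ∀ ψ : (sig a).Formula M, ∃ p : (ℕ → M) × Lit, P1 ψ →
        LTrue (hd a SM) p.1 p.2 ∧ ∀ (N : Type) [S : (sig a).Structure N] (v : M → N),
          ψ.Realize v ↔ LTrue (hd a S) (v ∘ p.1) p.2 := by
      intro ψ
      by_cases hψ : P1 ψ
      · obtain ⟨c, l, h1, h2⟩ := hψ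
        exact ⟨(c, l), fun _ => ⟨h1, h2⟩⟩
      · exact ⟨(fun _ => Classical.arbitrary M, (0, [], true)), fun hh => absurd hh hψ⟩
    choose p hp using hc1
    have hc2 : ∀ ψ : (sig a).Formula M, ∃ φ : (sig a).Formula (Fin k),
        (ψ ∈ Γ' ∧ ¬ P1 ψ) → φ ∈ Γ ∧ ψ = φ.relabel b := by
      intro ψ
      by_cases hψ : ψ ∈ Γ' ∧ ¬ P1 ψ
      · rcases hψ.1 with h1 | ⟨φ, h1, h2⟩
        · exact absurd h1 hψ.2
        · exact ⟨φ, fun _ => ⟨h1, h2⟩⟩
      · exact ⟨⊥, fun hh => absurd hh hψ⟩
    choose q hq using hc2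
    set D1 : Finset ((sig a).Formula M) := Δ'.filter P1 with hD1
    set D2 : Finset ((sig a).Formula M) := Δ'.filter (fun ψ => ¬ P1 ψ) with hD2
    set E : List M := List.ofFn b ++ D1.toList.flatMap (fun ψ => (p ψ).2.2.1.map (p ψ).1) with hE
    set idx : M → ℕ := fun x => E.idxOf x with hidx
    set e : ℕ → M := fun i => E.getD i (Classical.arbitrary M) with he
    have hei : ∀ x ∈ E, e (idx x) = x := by
      intro x hx
      have h1 : E.idxOf x < E.length := List.idxOf_lt_length_iff.2 hx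
      simp only [he, hidx]
      rw [List.getD_eq_getElem _ _ h1]
      exact List.getElem_idxOf h1
    have hek : ∀ (i : ℕ) (hi : i < k), e i = b ⟨i, hi⟩ := by
      intro i hi
      have h1 : i < (List.ofFn b).length := by simpa using hi
      have h2 : i < E.length := by
        rw [hE, List.length_append]
        exact lt_of_lt_of_le h1 (Nat.le_add_right _ _)
      simp only [he]
      rw [List.getD_eq_getElem _ _ h2]
      simp only [hE]
      rw [List.getElem_append_left h1]
      simp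
    have hbE : ∀ i, b i ∈ E := by
      intro i
      rw [hE]
      exact List.mem_append_left _ (by simp)
    set θ : List Lit := D1.toList.map (fun ψ => ((p ψ).2.1, (p ψ).2.2.1.map (idx ∘ (p ψ).1),
        (p ψ).2.2.2)) ++ (List.range k).map (fun i => (0, [i, idx (e i)], true)) with hθ
    have hPθ : PTrue (hd a SM) θ (List.ofFn b) := by
      refine ⟨e, ?_, ?_⟩
      · intro i hi
        have hi' : i < k := by simpa using hi
        rw [hek i hi']
        simp
      · intro l hl
        rw [hθ, List.mem_append] at hl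
        rcases hl with hl | hl
        · obtain ⟨ψ, hψ, rfl⟩ := List.mem_map.1 hl
          have hψ1 : P1 ψ := (Finset.mem_filter.1 (Finset.mem_toList.1 hψ)).2
          refine (ltrue_ren (hd a SM) e (p ψ).1 (idx ∘ (p ψ).1) (p ψ).2 ?_).2 (hp ψ hψ1).1
          intro x hx
          refine hei _ ?_
          rw [hE]
          refine List.mem_append_right _ (List.mem_flatMap.2 ⟨ψ, hψ, List.mem_map.2 ⟨x, hx, rfl⟩⟩)
        · obtain ⟨i, hi, rfl⟩ := List.mem_map.1 hl
          have hik : i < k := List.mem_range.1 hi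
          unfold LTrue AtTrue
          simp only [iff_true]
          left
          refine ⟨trivial, i, idx (e i), rfl, ?_⟩
          refine (hei _ ?_).symm
          rw [hek i hik]
          exact hbE _
    have hΔ : ((D2.image q : Finset ((sig a).Formula (Fin k))) :
        Set ((sig a).Formula (Fin k))) ⊆ Γ := by
      intro φ hφ
      obtain ⟨ψ, hψ, rfl⟩ := Finset.mem_image.1 (Finset.mem_coe.1 hφ)
      have h1 := Finset.mem_filter.1 hψ
      exact (hq ψ ⟨hΔ' (Finset.mem_coe.2 h1.1), h1.2⟩).1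
    obtain ⟨N, hN, S, hT, b', hb', hΔb⟩ := h θ hPθ (D2.image q) hΔ
    obtain ⟨c', hc', hl'⟩ := hb'
    have hvb : ((fun x => c' (idx x)) ∘ b : Fin k → N) = b' := by
      funext i
      have h1 : LTrue (hd a S) c' (0, [(i : ℕ), idx (e i)], true) := by
        refine hl' _ ?_
        rw [hθ]
        exact List.mem_append_right _ (List.mem_map.2 ⟨i, List.mem_range.2 i.2, rfl⟩)
      unfold LTrue AtTrue at h1
      simp only [iff_true] at h1
      rcases h1 with h1 | h1
      · obtain ⟨_, x, y, hxy, h2⟩ := h1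
        simp only [List.cons.injEq, and_true] at hxy
        rw [← hxy.1, ← hxy.2, hek i i.2] at h2
        have h3 : c' (i : ℕ) = b' i := by
          have h4 := hc' i (by simp)
          rw [h4]
          simp
        simp only [Function.comp]
        rw [← h3]
        exact h2.symm
      · exact absurd rfl h1.1
    refine ⟨N, hN, S, hT, fun x => c' (idx x), ?_⟩
    intro ψ hψ
    by_cases hψ1 : P1 ψ
    · rw [(hp ψ hψ1).2 N]
      refine (ltrue_ren (hd a S) c' ((fun x => c' (idx x)) ∘ (p ψ).1) (idx ∘ (p ψ).1) (p ψ).2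
        (fun x _ => rfl)).1 ?_
      refine hl' _ ?_
      rw [hθ]
      refine List.mem_append_left _ (List.mem_map.2 ⟨ψ, ?_, rfl⟩)
      exact Finset.mem_toList.2 (Finset.mem_filter.2 ⟨hψ, hψ1⟩)
    · have h1 := (hq ψ ⟨hΔ' (Finset.mem_coe.2 hψ), hψ1⟩).2
      rw [h1, Formula.realize_relabel, hvb]
      exact hΔb _ (Finset.mem_image.2 ⟨ψ, Finset.mem_filter.2 ⟨hψ, hψ1⟩, rfl⟩)
  obtain ⟨N, hN, S, hT, v, hv⟩ := compact T Γ' key
  refine ⟨N, hN, S, hT, ?_⟩
  obtain ⟨f, hf⟩ := exists_emb (a := a) (M := M) (N := N) v (by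
    intro c l hl
    obtain ⟨ψ, hψ⟩ := exists_lit a c l
    exact (hψ N v).1 (hv ψ (Or.inl ⟨c, l, hl, fun N' S' v' => hψ N' v'⟩)))
  refine ⟨f, fun φ hφ => ?_⟩
  have h1 := hv (φ.relabel b) (Or.inr ⟨φ, hφ, rfl⟩)
  rw [Formula.realize_relabel] at h1
  have h2 : (f ∘ b : Fin k → N) = v ∘ b := funext fun i => hf (b i)
  rw [h2]
  exact h1

end Pool.Agent.Work.MP_ed0a9a_lc.E
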