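import Pool.Agent.Work.MP_ed0a9a_lc.E.DsB
import Pool.Agent.Work.MP_ed0a9a_lc.E.ClB

/-!
# Module `IsT` (size M): isolated types

PROOFS.  Write `χ(b, y)` for `y ∈ Dset L χ b`.
* `isol_of_mem`: the formula `x = y` (`dset_single`).
* `isol_of_cl`: among the formulas `ψ`, tuples `e` in `B` with `ψ(e, y)` and `Dset ψ e` finite choose one with `(Dset ψ e).ncard`
  minimal.  If `χ(b, y)` and `y' ∈ Dset ψ e` does not satisfy `χ(b, ·)`, then `Dset ψ e ∩ Dset χ b` (`dset_inter`) has fewer elements and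
  contains `y`.
* `isol_trans`: let `θ(e, ·)` isolate the type of `x` over `B` and `ψ(e', ·)`, `e'` in `insert x B`, the type of `y` over
  `insert x B`.  Write `e'` in terms of a tuple `e''` in `B` and `x` (each `e' i` is `x` or in `B`): `ψ(e', z) ↔ ψ'(e'', x, z)`.  The type of
  `y` over `B` is isolated by `ρ(z) := ∃ x', θ(e, x') ∧ ψ'(e'', x', z)` with the parameters `e, e''` (formulas with the tuple
  `Fin.append e e''`, `Formula.relabel`, `exists_ex`): let `χ(b, y)`, `b` in `B`, and let `ρ(y')` hold by `x'`.  The formula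
  `∀ z, ψ'(e'', x, z) → χ(b, z)` holds of `x`, so it holds of `x'` (which has the same type over `B` as `x`); so `χ(b, y')`.
* `isol_of_constr`: let `u` be the sequence.  By induction on `n`: for all `y`, `IsolS (B ∪ u '' {m | m < n}) y → IsolS B y`: for `n + 1`
  the set is `insert (u n) (B ∪ u '' {m | m < n})`, use `isol_trans` and the induction hypothesis.  Each `y` is in `B`
  (`isol_of_mem`) or `y = u n`.
* `isol_tuple`: `u` from `Constr`; `θ_0 = ⊤`; `θ_{n+1}(x₀, …, x_n) = θ_n(x₀, …, x_{n-1}) ∧ ψ(x ∘ g, x_n)`, where the type of `u n` over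
  `{u m | m < n}` is isolated by `ψ` with the parameters `e = u ∘ g`, `g : Fin k → Fin n`.  If `χ(u₀, …, u_n)` then
  `θ_n(x) → ∀ z, (ψ(x ∘ g, z) → χ(x, z))` holds for all `x` as `∀ z, (ψ(x ∘ g, z) → χ(x, z))` is a formula true at `(u₀, …, u_{n-1})`.
-/

namespace Pool.Agent.Work.MP_ed0a9a_lc.E

open FirstOrder FirstOrder.Language

variable {L : FirstOrder.Language.{0, 0}} {N : Type} [L.Structure N]

theorem isol_of_mem {B : Set N} {y : N} (h : y ∈ B) : IsolS L B y := by
  obtain ⟨ρ, hρ⟩ := dset_single (L := L)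
  have key : ∀ y', ρ.Realize (Fin.snoc (fun _ : Fin 1 => y) y' : Fin (1 + 1) → N) ↔ y' = y := by
    intro y'
    have h1 := hρ N (fun _ : Fin 1 => y)
    have h2 : y' ∈ Dset L ρ (fun _ : Fin 1 => y) ↔ y' = y := by
      rw [h1]
      rfl
    exact h2
  refine ⟨1, fun _ => y, ρ, fun _ => h, (key y).2 rfl, ?_⟩
  intro l b χ _ hχ y' hy'
  rw [(key y').1 hy']
  exact hχ

theorem isol_of_cl {B : Set N} {y : N} (h : y ∈ cl L B) : IsolS L B y := by
  classical
  obtain ⟨k₀, e₀, he₀, φ₀, h1, h2⟩ := h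
  have hex : ∃ n : ℕ, ∃ (k : ℕ) (e : Fin k → N) (ψ : L.Formula (Fin (k + 1))), (∀ i, e i ∈ B) ∧
      y ∈ Dset L ψ e ∧ (Dset L ψ e).Finite ∧ (Dset L ψ e).ncard = n :=
    ⟨_, k₀, e₀, φ₀, he₀, h1, h2, rfl⟩
  obtain ⟨k, e, ψ, he, hy, hfin, hcard⟩ := Nat.find_spec hex
  refine ⟨k, e, ψ, he, hy, ?_⟩
  intro l b χ hb hχ y' hy'
  by_contra hno
  obtain ⟨ρ, hρ⟩ := dset_inter ψ χ
  have h3 : Dset L ρ (Fin.append e b) = Dset L ψ e ∩ Dset L χ b := hρ N e b
  have h4 : (Dset L ρ (Fin.append e b)).ncard < Nat.find hex := by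
    rw [h3, ← hcard]
    refine Set.ncard_lt_ncard ⟨Set.inter_subset_left, fun h5 => ?_⟩ hfin
    exact hno (h5 hy').2
  refine Nat.find_min hex h4 ⟨k + l, Fin.append e b, ρ, ?_, ?_, ?_, rfl⟩
  · intro i
    refine Fin.addCases (fun j => ?_) (fun j => ?_) i
    · rw [Fin.append_left]
      exact he j
    · rw [Fin.append_right]
      exact hb j
  · rw [h3]
    exact ⟨hy, hχ⟩
  · rw [h3]
    exact hfin.subset Set.inter_subset_left

private theorem imp_all {k : ℕ} (α β : L.Formula (Fin (k + 1))) : ∃ γ : L.Formula (Fin k),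
    ∀ (N : Type) [L.Structure N] (v : Fin k → N), γ.Realize v ↔
      ∀ z, α.Realize (Fin.snoc v z : Fin (k + 1) → N) →
        β.Realize (Fin.snoc v z : Fin (k + 1) → N) := by
  obtain ⟨γ, hγ⟩ := exists_ex (α ⊓ ∼β)
  refine ⟨∼γ, fun N _ v => ?_⟩
  rw [Formula.realize_not, hγ N v]
  constructor
  · intro h z hz
    by_contra hno
    refine h ⟨z, ?_⟩
    rw [Formula.realize_inf, Formula.realize_not]
    exact ⟨hz, hno⟩
  · rintro h ⟨z, hz⟩
    rw [Formula.realize_inf, Formula.realize_not] at hz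
    exact hz.2 (h z hz.1)

private theorem split_tuple {B : Set N} {x : N} {k' : ℕ} (e' : Fin k' → N)
    (he' : ∀ i, e' i ∈ insert x B) : ∃ (m : ℕ) (e'' : Fin m → N) (g : Fin k' → Fin (m + 1)),
    (∀ i, e'' i ∈ B) ∧ (Fin.snoc e'' x : Fin (m + 1) → N) ∘ g = e' := by
  classical
  let S := {i : Fin k' // e' i ∈ B}
  let q := Fintype.equivFin S
  refine ⟨Fintype.card S, fun j => e' (q.symm j).1,
    fun i => if h : e' i ∈ B then (q ⟨i, h⟩).castSucc else Fin.last _,
    fun j => (q.symm j).2, ?_⟩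
  funext i
  show (Fin.snoc (fun j => e' (q.symm j).1) x : Fin (Fintype.card S + 1) → N)
    (if h : e' i ∈ B then (q ⟨i, h⟩).castSucc else Fin.last _) = e' i
  by_cases h : e' i ∈ B
  · rw [dif_pos h, Fin.snoc_castSucc, Equiv.symm_apply_apply]
  · rw [dif_neg h, Fin.snoc_last]
    rcases he' i with h1 | h1
    · exact h1.symm
    · exact absurd h1 h

theorem isol_trans {B : Set N} {x y : N} (hx : IsolS L B x) (hy : IsolS L (insert x B) y) :
    IsolS L B y := by
  obtain ⟨k, e, θ, he, hθx, hθ⟩ := hx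
  obtain ⟨k', e', ψ, he', hψy, hψ⟩ := hy
  obtain ⟨m, e'', g, he'', hg⟩ := split_tuple e' he'
  obtain ⟨ψ', hψ'⟩ := dset_relabel ψ g
  have hψe : ∀ z, ψ'.Realize (Fin.snoc (Fin.snoc e'' x : Fin (m + 1) → N) z :
      Fin (m + 1 + 1) → N) ↔ ψ.Realize (Fin.snoc e' z : Fin (k' + 1) → N) := by
    intro z
    have h1 : z ∈ Dset L ψ' (Fin.snoc e'' x : Fin (m + 1) → N) ↔ z ∈ Dset L ψ e' := by
      rw [hψ' N, hg]
    exact h1
  -- the formula `ρ`
  let f0 : Fin k → Fin (k + m + 1 + 1) := fun i => (Fin.castAdd m i).castSucc.castSucc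
  let f1 : Fin (k + 1) → Fin (k + m + 1 + 1) :=
    Fin.snoc (α := fun _ => Fin (k + m + 1 + 1)) f0 (Fin.last _)
  let g0 : Fin m → Fin (k + m + 1 + 1) := fun i => (Fin.natAdd k i).castSucc.castSucc
  let g1 : Fin (m + 1) → Fin (k + m + 1 + 1) :=
    Fin.snoc (α := fun _ => Fin (k + m + 1 + 1)) g0 (Fin.last _)
  let g2 : Fin (m + 1 + 1) → Fin (k + m + 1 + 1) :=
    Fin.snoc (α := fun _ => Fin (k + m + 1 + 1)) g1 (Fin.last _).castSucc
  obtain ⟨ρ, hρ⟩ := exists_ex ((θ.relabel f1) ⊓ (ψ'.relabel g2))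
  have hρe : ∀ z, ρ.Realize (Fin.snoc (Fin.append e e'') z : Fin (k + m + 1) → N) ↔
      ∃ x', θ.Realize (Fin.snoc e x' : Fin (k + 1) → N) ∧
        ψ'.Realize (Fin.snoc (Fin.snoc e'' x' : Fin (m + 1) → N) z : Fin (m + 1 + 1) → N) := by
    intro z
    rw [hρ N]
    refine exists_congr fun x' => ?_
    rw [Formula.realize_inf, Formula.realize_relabel, Formula.realize_relabel]
    have e1 : (Fin.snoc (α := fun _ => N) (Fin.snoc (α := fun _ => N) (Fin.append e e'') z) x' :
        Fin (k + m + 1 + 1) → N) ∘ f1 = (Fin.snoc e x' : Fin (k + 1) → N) := by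
      simp only [f1]
      rw [Fin.comp_snoc, Fin.snoc_last]
      congr 1
      funext i
      simp only [f0, Function.comp_apply]
      rw [Fin.snoc_castSucc, Fin.snoc_castSucc, Fin.append_left]
    have e2 : (Fin.snoc (α := fun _ => N) (Fin.snoc (α := fun _ => N) (Fin.append e e'') z) x' :
        Fin (k + m + 1 + 1) → N) ∘ g2 =
        (Fin.snoc (Fin.snoc e'' x' : Fin (m + 1) → N) z : Fin (m + 1 + 1) → N) := by
      simp only [g2]
      rw [Fin.comp_snoc, Fin.snoc_castSucc, Fin.snoc_last]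
      congr 1
      simp only [g1]
      rw [Fin.comp_snoc, Fin.snoc_last]
      congr 1
      funext i
      simp only [g0, Function.comp_apply]
      rw [Fin.snoc_castSucc, Fin.snoc_castSucc, Fin.append_right]
    rw [e1, e2]
  refine ⟨k + m, Fin.append e e'', ρ, ?_, (hρe y).2 ⟨x, hθx, (hψe y).2 hψy⟩, ?_⟩
  · intro i
    refine Fin.addCases (fun j => ?_) (fun j => ?_) i
    · rw [Fin.append_left]
      exact he j
    · rw [Fin.append_right]
      exact he'' j
  · intro l b χ hb hχ y' hy'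
    obtain ⟨x', hx'1, hx'2⟩ := (hρe y').1 hy'
    -- the formula `∀ z, ψ' (e'', x, z) → χ (b, z)`
    let a0 : Fin m → Fin (m + l + 1 + 1) := fun i => (Fin.castAdd l i).castSucc.castSucc
    let a1 : Fin (m + 1) → Fin (m + l + 1 + 1) :=
      Fin.snoc (α := fun _ => Fin (m + l + 1 + 1)) a0 (Fin.last _).castSucc
    let a2 : Fin (m + 1 + 1) → Fin (m + l + 1 + 1) :=
      Fin.snoc (α := fun _ => Fin (m + l + 1 + 1)) a1 (Fin.last _)
    let b0 : Fin l → Fin (m + l + 1 + 1) := fun i => (Fin.natAdd m i).castSucc.castSucc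
    let b1 : Fin (l + 1) → Fin (m + l + 1 + 1) :=
      Fin.snoc (α := fun _ => Fin (m + l + 1 + 1)) b0 (Fin.last _)
    obtain ⟨γ, hγ⟩ := imp_all (ψ'.relabel a2) (χ.relabel b1)
    have hγe : ∀ t, γ.Realize (Fin.snoc (Fin.append e'' b) t : Fin (m + l + 1) → N) ↔
        ∀ z, ψ'.Realize (Fin.snoc (Fin.snoc e'' t : Fin (m + 1) → N) z : Fin (m + 1 + 1) → N) →
          χ.Realize (Fin.snoc b z : Fin (l + 1) → N) := by
      intro t
      rw [hγ N]
      refine forall_congr' fun z => ?_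
      rw [Formula.realize_relabel, Formula.realize_relabel]
      have e1 : (Fin.snoc (α := fun _ => N) (Fin.snoc (α := fun _ => N) (Fin.append e'' b) t) z :
          Fin (m + l + 1 + 1) → N) ∘ a2 =
          (Fin.snoc (Fin.snoc e'' t : Fin (m + 1) → N) z : Fin (m + 1 + 1) → N) := by
        simp only [a2]
        rw [Fin.comp_snoc, Fin.snoc_last]
        congr 1
        simp only [a1]
        rw [Fin.comp_snoc, Fin.snoc_castSucc, Fin.snoc_last]
        congr 1
        funext i
        simp only [a0, Function.comp_apply]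
        rw [Fin.snoc_castSucc, Fin.snoc_castSucc, Fin.append_left]
      have e2 : (Fin.snoc (α := fun _ => N) (Fin.snoc (α := fun _ => N) (Fin.append e'' b) t) z :
          Fin (m + l + 1 + 1) → N) ∘ b1 = (Fin.snoc b z : Fin (l + 1) → N) := by
        simp only [b1]
        rw [Fin.comp_snoc, Fin.snoc_last]
        congr 1
        funext i
        simp only [b0, Function.comp_apply]
        rw [Fin.snoc_castSucc, Fin.snoc_castSucc, Fin.append_right]
      rw [e1, e2]
    have h1 : γ.Realize (Fin.snoc (Fin.append e'' b) x : Fin (m + l + 1) → N) :=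
      (hγe x).2 fun z hz =>
        hψ l b χ (fun i => Set.mem_insert_of_mem _ (hb i)) hχ z ((hψe z).1 hz)
    have h2 := hθ (m + l) (Fin.append e'' b) γ (by
      intro i
      refine Fin.addCases (fun j => ?_) (fun j => ?_) i
      · rw [Fin.append_left]
        exact he'' j
      · rw [Fin.append_right]
        exact hb j) h1 x' hx'1
    exact (hγe x').1 h2 y' hx'2

theorem isol_of_constr {B : Set N} (h : Constr L B) (y : N) : IsolS L B y := by
  obtain ⟨u, hu, hn⟩ := h
  have key : ∀ (n : ℕ) (y : N), IsolS L (B ∪ u '' {m | m < n}) y → IsolS L B y := by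
    intro n
    induction n with
    | zero =>
      intro y hy
      have e : B ∪ u '' {m | m < 0} = B := by simp
      rwa [e] at hy
    | succ n ih =>
      intro y hy
      have e : B ∪ u '' {m | m < n + 1} = insert (u n) (B ∪ u '' {m | m < n}) := by
        ext z
        simp only [Set.mem_union, Set.mem_image, Set.mem_ofPred_eq, Set.mem_insert_iff]
        constructor
        · rintro (hz | ⟨m, hm, rfl⟩)
          · exact Or.inr (Or.inl hz)
          · rcases Nat.lt_succ_iff_lt_or_eq.1 hm with h1 | h1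
            · exact Or.inr (Or.inr ⟨m, h1, rfl⟩)
            · exact Or.inl (by rw [h1])
        · rintro (rfl | hz | ⟨m, hm, rfl⟩)
          · exact Or.inr ⟨n, Nat.lt_succ_self n, rfl⟩
          · exact Or.inl hz
          · exact Or.inr ⟨m, Nat.lt_succ_of_lt hm, rfl⟩
      rw [e] at hy
      exact ih y (isol_trans (hn n) hy)
  have hy : y ∈ B ∪ Set.range u := by
    rw [hu]
    exact Set.mem_univ y
  rcases hy with hy | ⟨n, rfl⟩
  · exact isol_of_mem hy
  · exact key n _ (hn n)

theorem isol_tuple (h : Constr L (∅ : Set N)) : ∃ u : ℕ → N, Set.range u = Set.univ ∧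
    ∀ n : ℕ, ∃ θ : L.Formula (Fin n), θ.Realize (fun i : Fin n => u i) ∧
      ∀ χ : L.Formula (Fin n), χ.Realize (fun i : Fin n => u i) →
        ∀ w : Fin n → N, θ.Realize w → χ.Realize w := by
  obtain ⟨u, hu, hn⟩ := h
  rw [Set.empty_union] at hu
  refine ⟨u, hu, fun n => ?_⟩
  induction n with
  | zero =>
    refine ⟨⊤, Formula.realize_top.2 trivial, fun χ hχ w _ => ?_⟩
    have e : w = fun i : Fin 0 => u i := Subsingleton.elim _ _
    rw [e]
    exact hχ
  | succ n ih =>
    obtain ⟨θ, hθ1, hθ2⟩ := ih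
    obtain ⟨k, e, ψ, he, hψ, hiso⟩ := hn n
    have he' : ∀ i, ∃ j : Fin n, u j = e i := by
      intro i
      rcases he i with h1 | ⟨m, hm, h1⟩
      · exact absurd h1 (Set.notMem_empty _)
      · exact ⟨⟨m, hm⟩, h1⟩
    choose g hg using he'
    have hge : (fun i : Fin n => u i) ∘ g = e := funext hg
    obtain ⟨ρ, hρ⟩ := dset_relabel ψ g
    have hρe : ∀ z, ρ.Realize (Fin.snoc (fun i : Fin n => u i) z : Fin (n + 1) → N) ↔
        ψ.Realize (Fin.snoc e z : Fin (k + 1) → N) := by
      intro z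
      have h1 : z ∈ Dset L ρ (fun i : Fin n => u i) ↔ z ∈ Dset L ψ e := by
        rw [hρ N, hge]
      exact h1
    have hsn : (Fin.snoc (fun i : Fin n => u i) (u n) : Fin (n + 1) → N) =
        fun i : Fin (n + 1) => u i := by
      funext i
      refine Fin.lastCases ?_ (fun i => ?_) i
      · rw [Fin.snoc_last]
        rfl
      · rw [Fin.snoc_castSucc]
        rfl
    have hw : ∀ w : Fin (n + 1) → N, (Fin.snoc (w ∘ Fin.castSucc) (w (Fin.last n)) :
        Fin (n + 1) → N) = w := by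
      intro w
      funext i
      refine Fin.lastCases ?_ (fun i => ?_) i
      · rw [Fin.snoc_last]
      · rw [Fin.snoc_castSucc]
        rfl
    refine ⟨(θ.relabel Fin.castSucc) ⊓ ρ, ?_, fun χ hχ w hθw => ?_⟩
    · rw [Formula.realize_inf, Formula.realize_relabel]
      refine ⟨hθ1, ?_⟩
      rw [← hsn]
      exact (hρe _).2 hψ
    · rw [Formula.realize_inf, Formula.realize_relabel] at hθw
      obtain ⟨γ, hγ⟩ := imp_all ρ χ
      have h1 : γ.Realize (fun i : Fin n => u i) := by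
        rw [hγ N]
        intro z hz
        refine hiso n (fun i : Fin n => u i) χ (fun i => Or.inr ⟨i, i.2, rfl⟩) ?_ z ((hρe z).1 hz)
        rw [hsn]
        exact hχ
      have h2 := hθ2 γ h1 _ hθw.1
      rw [hγ N] at h2
      have h3 := h2 (w (Fin.last n))
      rw [hw] at h3
      exact h3 hθw.2

end Pool.Agent.Work.MP_ed0a9a_lc.E
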