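import Pool.Agent.Work.MP_ed0a9a_lc.E.DTr
import Pool.Agent.Work.MP_ed0a9a_lc.E.DsB

/-!
# Module `MinF` (size S-M): minimal formulas

PROOF.  Suppose there is none.  `exists_dtree` with `P k φ c` = `(Dset φ c).Infinite` gives a tree: it holds for the set `univ`
(`dset_univ`); if `Dset φ c` is infinite, it is not minimal, so there are `ψ`, `c'` with `Dset φ c ∩ Dset ψ c'` and `Dset φ c \ Dset ψ c'`
both infinite; they are of the form `Dset ρ (Fin.append c c')` (`dset_inter`, `dset_diff`), and disjoint.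
-/

namespace Pool.Agent.Work.MP_ed0a9a_lc.E

open FirstOrder FirstOrder.Language

theorem exists_minForm {L : FirstOrder.Language.{0, 0}} {N : Type} [Infinite N]
    [L.Structure N] (h : IsEmpty (DTree L N)) :
    ∃ (k : ℕ) (φ : L.Formula (Fin (k + 1))) (b : Fin k → N), MinForm L φ b := by
  by_contra hno
  push Not at hno
  have hT : Nonempty (DTree L N) := by
    refine exists_dtree (fun k φ c => (Dset L φ c).Infinite) ?_ ?_ ?_
    · obtain ⟨ρ, hρ⟩ := dset_univ (L := L)
      refine ⟨0, ρ, Fin.elim0, ?_⟩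
      rw [hρ]
      exact Set.infinite_univ
    · intro k φ c hi
      exact hi.nonempty
    · intro k φ c hi
      have h1 := hno k φ c
      have h2 : ∃ (m : ℕ) (ψ : L.Formula (Fin (m + 1))) (c' : Fin m → N),
          (Dset L φ c ∩ Dset L ψ c').Infinite ∧ (Dset L φ c \ Dset L ψ c').Infinite := by
        by_contra h3
        push Not at h3
        refine h1 ⟨hi, fun m ψ c' => ?_⟩
        by_cases h4 : (Dset L φ c ∩ Dset L ψ c').Finite
        · exact Or.inl h4
        · exact Or.inr (h3 m ψ c' h4)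
      obtain ⟨m, ψ, c', h3, h4⟩ := h2
      obtain ⟨ρ₁, hρ₁⟩ := dset_inter φ ψ
      obtain ⟨ρ₂, hρ₂⟩ := dset_diff φ ψ
      refine ⟨k + m, ρ₁, Fin.append c c', k + m, ρ₂, Fin.append c c', ?_, ?_, ?_, ?_, ?_⟩
      · rw [hρ₁]
        exact h3
      · rw [hρ₂]
        exact h4
      · rw [hρ₁]
        exact Set.inter_subset_left
      · rw [hρ₂]
        exact Set.sdiff_subset
      · rw [hρ₁, hρ₂]
        exact Set.disjoint_left.2 fun x hx hx' => hx'.2 hx.2
  exact h.elim hT.some

end Pool.Agent.Work.MP_ed0a9a_lc.E
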