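import Pool.Agent.Work.MP_ed0a9a_lc.E.Ult
import Pool.Agent.Work.MP_ed0a9a_lc.E.DsB

/-!
# Module `Tree` (size M): a tree gives a model of cardinality `ℵ₁` realising many types

PROOF.  `exists_ult` for `N₀` (and the elementary substructure `⊤`) gives `U` with `Sat1 U` and `j : N₀ ↪ₑ U`.  For `f : ℕ → Bool`
let `s_n = [f 0, …, f (n-1)]` (`List.ofFn` or `(List.range n).map f`, so `s_{n+1} = s_n ++ [f n]`); the sets `D_n` defined in `U` by `φ s_n`,
`j ∘ c s_n` are nonempty and decreasing (`j` is elementary), so by `Sat1` (parameters: an enumeration of `Set.range j`, `N₀` is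
countable and nonempty; the formulas `φ s_n` relabelled) there is `x_f ∈ U` in all of them.  If `f ≠ g`, let `n` be the least number
with `f n ≠ g n`, then `x_f`, `x_g` are in the disjoint sets of `s_n ++ [true]`, `s_n ++ [false]` (same `s_n`); so the types of `x_f`,
`x_g` over `Set.range j` are different (the formula of `s_n ++ [f n]` with the parameters `j ∘ c _`), and `x_f ≠ x_g`.
`#(ℕ → Bool) = 2 ^ ℵ₀ ≥ ℵ₁`, so there is a set `F ⊆ (ℕ → Bool)` of cardinality `ℵ₁` (`Cardinal.le_mk_iff_exists_set`).  By downward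
Loewenheim-Skolem (`exists_elementarySubstructure_card_eq`) there is an elementary substructure `W` of `U` of cardinality `ℵ₁`
containing `Set.range j ∪ {x_f | f ∈ F}`.  `A = Set.range j`, `X = {x_f | f ∈ F}` (as subsets of `W`); types in `W` and in `U`
agree (`sameTp_coe`).
-/

namespace Pool.Agent.Work.MP_ed0a9a_lc.E

open FirstOrder FirstOrder.Language Cardinal

private theorem tree_card (a : ℕ → ℕ) : (sig a).card ≤ Cardinal.aleph0 := by
  unfold FirstOrder.Language.card
  rw [Cardinal.mk_le_aleph0_iff]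
  exact inferInstanceAs (Countable ((Σ _ : ℕ, Empty) ⊕ (Σ n : ℕ, {i : ℕ // a i = n})))

private def pre (f : ℕ → Bool) (n : ℕ) : List Bool := (List.range n).map f

private theorem pre_succ (f : ℕ → Bool) (n : ℕ) : pre f (n + 1) = pre f n ++ [f n] := by
  unfold pre
  rw [List.range_succ, List.map_append]
  rfl

private theorem pre_congr {f g : ℕ → Bool} {n : ℕ} (h : ∀ m < n, f m = g m) :
    pre f n = pre g n := by
  unfold pre
  refine List.map_congr_left fun m hm => h m (List.mem_range.1 hm)

section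

variable {a : ℕ → ℕ} {N U : Type} [(sig a).Structure N] [(sig a).Structure U]

private theorem tree_append (j : N → U) {k l : ℕ} (c : Fin k → N) (b : Fin l → N) :
    j ∘ Fin.append c b = Fin.append (j ∘ c) (j ∘ b) := by
  funext i
  refine Fin.addCases (fun i => ?_) (fun i => ?_) i
  · simp
  · simp

private theorem tree_sub (j : N ↪ₑ[sig a] U) {k l : ℕ} {φ : (sig a).Formula (Fin (k + 1))}
    {χ : (sig a).Formula (Fin (l + 1))} {c : Fin k → N} {b : Fin l → N}
    (h : Dset (sig a) φ c ⊆ Dset (sig a) χ b) :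
    Dset (sig a) φ (j ∘ c) ⊆ Dset (sig a) χ (j ∘ b) := by
  obtain ⟨ρ, hρ⟩ := dset_diff φ χ
  intro x hx
  by_contra hx'
  have h1 : (Dset (sig a) ρ (j ∘ Fin.append c b)).Nonempty := by
    rw [tree_append, hρ]
    exact ⟨x, hx, hx'⟩
  have h2 := dset_nonempty (L := sig a)
    (fun ψ => (sameTp_map j (Fin.append c b) ψ).symm) ρ h1
  rw [hρ] at h2
  obtain ⟨y, hy, hy'⟩ := h2
  exact hy' (h hy)

private theorem tree_disj (j : N ↪ₑ[sig a] U) {k l : ℕ} {φ : (sig a).Formula (Fin (k + 1))}
    {χ : (sig a).Formula (Fin (l + 1))} {c : Fin k → N} {b : Fin l → N}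
    (h : Disjoint (Dset (sig a) φ c) (Dset (sig a) χ b)) :
    Disjoint (Dset (sig a) φ (j ∘ c)) (Dset (sig a) χ (j ∘ b)) := by
  obtain ⟨ρ, hρ⟩ := dset_inter φ χ
  refine Set.disjoint_left.2 fun x hx hx' => ?_
  have h1 : (Dset (sig a) ρ (j ∘ Fin.append c b)).Nonempty := by
    rw [tree_append, hρ]
    exact ⟨x, hx, hx'⟩
  have h2 := dset_nonempty (L := sig a)
    (fun ψ => (sameTp_map j (Fin.append c b) ψ).symm) ρ h1
  rw [hρ] at h2
  obtain ⟨y, hy, hy'⟩ := h2
  exact Set.disjoint_left.1 h hy hy'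

end

theorem exists_many {a : ℕ → ℕ} {N₀ : Type} [Nonempty N₀] [Countable N₀]
    [(sig a).Structure N₀] (t : DTree (sig a) N₀) :
    ∃ (W : Type) (_ : Nonempty W) (_ : (sig a).Structure W),
      W ⊨ (sig a).completeTheory N₀ ∧ #W = aleph 1 ∧
      ∃ A X : Set W, A.Countable ∧ ¬ X.Countable ∧ ∀ y ∈ X, ∀ y' ∈ X, y ≠ y' →
        ∃ (k : ℕ) (b : Fin k → W), (∀ i, b i ∈ A) ∧
          ¬ SameTp (sig a) (Fin.snoc b y : Fin (k + 1) → W)
            (Fin.snoc b y' : Fin (k + 1) → W) := by
  classical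
  obtain ⟨U, hU, hUs, j, S', hsat, -, -, -⟩ :=
    exists_ult (⊤ : (sig a).ElementarySubstructure N₀)
  let D : (ℕ → Bool) → ℕ → Set U := fun f n =>
    Dset (sig a) (t.φ (pre f n)) (j ∘ t.c (pre f n))
  have hne : ∀ f n, (D f n).Nonempty := fun f n =>
    dset_nonempty (sameTp_map j (t.c (pre f n))) (t.φ (pre f n)) (t.ne (pre f n))
  have hsub1 : ∀ f n, D f (n + 1) ⊆ D f n := by
    intro f n
    have h1 := tree_sub j (t.sub (pre f n) (f n))
    rw [← pre_succ] at h1
    exact h1
  have hanti : ∀ f, Antitone (D f) := fun f => antitone_nat_of_succ_le (hsub1 f)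
  -- points of the branches
  obtain ⟨e, he⟩ := exists_surjective_nat N₀
  choose g hg using he
  have hx : ∀ f : ℕ → Bool, ∃ x : U, ∀ m, x ∈ D f m := by
    intro f
    obtain ⟨x, hx⟩ := hsat (fun i => j (e i))
      (fun m => (t.φ (pre f m)).relabel
        (Fin.snoc (fun i => some (g (t.c (pre f m) i))) none :
          Fin (t.k (pre f m) + 1) → Option ℕ)) (by
        intro n
        obtain ⟨x, hx⟩ := hne f n
        refine ⟨x, fun m hm => ?_⟩
        have h1 : x ∈ D f m := hanti f hm.le hx
        rw [Formula.realize_relabel]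
        have h2 : ((fun o : Option ℕ => o.elim x (fun i => j (e i))) ∘
            (Fin.snoc (fun i => some (g (t.c (pre f m) i))) none :
              Fin (t.k (pre f m) + 1) → Option ℕ)) =
            (Fin.snoc (j ∘ t.c (pre f m)) x : Fin (t.k (pre f m) + 1) → U) := by
          rw [Fin.comp_snoc]
          congr 1
          funext i
          simp only [Function.comp_apply, Option.elim_some, hg]
        rw [h2]
        exact h1)
    refine ⟨x, fun m => ?_⟩
    have h1 := hx m
    rw [Formula.realize_relabel] at h1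
    have h2 : ((fun o : Option ℕ => o.elim x (fun i => j (e i))) ∘
        (Fin.snoc (fun i => some (g (t.c (pre f m) i))) none :
          Fin (t.k (pre f m) + 1) → Option ℕ)) =
        (Fin.snoc (j ∘ t.c (pre f m)) x : Fin (t.k (pre f m) + 1) → U) := by
      rw [Fin.comp_snoc]
      congr 1
      funext i
      simp only [Function.comp_apply, Option.elim_some, hg]
    rw [h2] at h1
    exact h1
  choose x hx using hx
  -- different branches
  have hdiff : ∀ f f' : ℕ → Bool, f ≠ f' → ∃ n, x f' ∉ D f n := by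
    intro f f' hff
    have h1 : ∃ n, f n ≠ f' n := by
      by_contra hcon
      push Not at hcon
      exact hff (funext hcon)
    let n := Nat.find h1
    have hn : f n ≠ f' n := Nat.find_spec h1
    have hm : ∀ m < n, f m = f' m := fun m hm => by
      by_contra hcon
      exact Nat.find_min h1 hm hcon
    refine ⟨n + 1, fun hmem => ?_⟩
    have h2 : x f' ∈ D f' (n + 1) := hx f' (n + 1)
    have hp : pre f' n = pre f n := (pre_congr hm).symm
    have h3 : Disjoint (D f (n + 1)) (D f' (n + 1)) := by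
      change Disjoint (Dset (sig a) (t.φ (pre f (n + 1))) (j ∘ t.c (pre f (n + 1))))
        (Dset (sig a) (t.φ (pre f' (n + 1))) (j ∘ t.c (pre f' (n + 1))))
      rw [pre_succ, pre_succ, hp]
      have h4 := tree_disj j (t.disj (pre f n))
      cases hfn : f n <;> cases hfn' : f' n
      · exact absurd (hfn.trans hfn'.symm) hn
      · exact h4.symm
      · exact h4
      · exact absurd (hfn.trans hfn'.symm) hn
    exact Set.disjoint_left.1 h3 hmem h2
  have hinj : Function.Injective x := by
    intro f f' hff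
    by_contra hne'
    obtain ⟨n, hn⟩ := hdiff f f' hne'
    rw [← hff] at hn
    exact hn (hx f n)
  -- cardinalities
  have hc1 : (aleph 1 : Cardinal.{0}) ≤ #(ℕ → Bool) := by
    have h1 : #(ℕ → Bool) = Cardinal.continuum := by simp
    rw [h1]
    exact Cardinal.aleph_one_le_continuum
  obtain ⟨F, hF⟩ := Cardinal.le_mk_iff_exists_set.1 hc1
  have hB : #(↥(Set.range j ∪ x '' F)) ≤ aleph 1 := by
    refine (Cardinal.mk_union_le _ _).trans ?_
    have h1 : #(Set.range j) ≤ aleph 1 :=
      (Cardinal.mk_le_aleph0_iff.2 (Set.countable_range j).to_subtype).trans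
        (Cardinal.aleph0_le_aleph 1)
    have h2 : #(x '' F) ≤ aleph 1 := Cardinal.mk_image_le.trans hF.le
    exact (add_le_add h1 h2).trans_eq (Cardinal.add_eq_self (Cardinal.aleph0_le_aleph 1))
  have hUc : (aleph 1 : Cardinal.{0}) ≤ #U := by
    have h1 : #(ℕ → Bool) ≤ #U := Cardinal.mk_le_of_injective hinj
    exact hc1.trans h1
  obtain ⟨W, hW1, hW2⟩ := exists_elementarySubstructure_card_eq (sig a)
    (Set.range j ∪ x '' F) (Cardinal.aleph 1 : Cardinal.{0}) (Cardinal.aleph0_le_aleph 1) (by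
      simp only [Cardinal.lift_id]
      exact hB) (by
      simp only [Cardinal.lift_id]
      exact (tree_card a).trans (Cardinal.aleph0_le_aleph 1)) (by
      simp only [Cardinal.lift_id]
      exact hUc)
  simp only [Cardinal.lift_id] at hW2
  refine ⟨W, inferInstance, inferInstance, ?_, hW2, {y : W | (y : U) ∈ Set.range j},
    {y : W | (y : U) ∈ x '' F}, ?_, ?_, ?_⟩
  · have h1 : U ⊨ (sig a).completeTheory N₀ := (j.theory_model_iff _).1 inferInstance
    exact (W.theory_model_iff _).2 h1
  · exact (Set.countable_range j).preimage Subtype.val_injective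
  · intro hX
    have h1 : (x '' F).Countable := by
      refine (hX.image (fun y : W => (y : U))).mono ?_
      rintro y ⟨f, hf, rfl⟩
      exact ⟨⟨x f, hW1 (Or.inr ⟨f, hf, rfl⟩)⟩, ⟨f, hf, rfl⟩, rfl⟩
    have h2 : F.Countable := Set.countable_of_injective_of_countable_image hinj.injOn h1
    have h3 : #F ≤ Cardinal.aleph0 := Cardinal.mk_le_aleph0_iff.2 h2.to_subtype
    rw [hF] at h3
    exact absurd h3 (not_le.2 Cardinal.aleph0_lt_aleph_one)
  · rintro y ⟨f, hf, hfy⟩ y' ⟨f', hf', hfy'⟩ hyy
    have hff : f ≠ f' := by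
      rintro rfl
      exact hyy (Subtype.ext (hfy.symm.trans hfy'))
    obtain ⟨n, hn⟩ := hdiff f f' hff
    refine ⟨t.k (pre f n), fun i => ⟨j (t.c (pre f n) i), hW1 (Or.inl ⟨_, rfl⟩)⟩,
      fun i => ⟨_, rfl⟩, fun hs => ?_⟩
    have h1 := hs (t.φ (pre f n))
    have key : ∀ z : W, (t.φ (pre f n)).Realize
        (Fin.snoc (fun i => (⟨j (t.c (pre f n) i), hW1 (Or.inl ⟨_, rfl⟩)⟩ : W)) z :
          Fin (t.k (pre f n) + 1) → W) ↔ (z : U) ∈ D f n := by
      intro z
      rw [sameTp_coe W (Fin.snoc (fun i =>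
        (⟨j (t.c (pre f n) i), hW1 (Or.inl ⟨_, rfl⟩)⟩ : W)) z :
          Fin (t.k (pre f n) + 1) → W) (t.φ (pre f n))]
      have h2 : (fun i => (((Fin.snoc (fun i =>
          (⟨j (t.c (pre f n) i), hW1 (Or.inl ⟨_, rfl⟩)⟩ : W)) z :
          Fin (t.k (pre f n) + 1) → W) i : W) : U)) =
          (Fin.snoc (j ∘ t.c (pre f n)) (z : U) : Fin (t.k (pre f n) + 1) → U) := by
        funext i
        refine Fin.lastCases ?_ (fun i => ?_) i
        · simp only [Fin.snoc_last]
        · simp only [Fin.snoc_castSucc, Function.comp_apply]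
      rw [h2]
      rfl
    rw [key, key, ← hfy, ← hfy'] at h1
    exact hn (h1.1 (hx f n))

end Pool.Agent.Work.MP_ed0a9a_lc.E
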