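import Pool.Agent.Work.MP_ed0a9a_lc.E.Few
import Pool.Agent.Work.MP_ed0a9a_lc.E.Tree

/-!
# Module `NoTr` (size M): no trees in models of `ℵ₁`-categorical theories

PROOF.  Let `t` be a tree in `N`.  The set of all the parameters `t.c s i` is countable; by `exists_ctb` it is contained in a
countable elementary substructure `N₀` of `N`, and `t` gives a tree in `N₀` (nonemptiness, inclusion, disjointness of the
definable sets are expressed by formulas about the parameters, or use `sameTp_coe`: for inclusion of `Dset ρ c'` in `Dset φ c` in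
`N₀`: an element of `N₀` is in the set computed in `N₀` iff it is in the set computed in `N`; for nonemptiness use `dset_nonempty`).
`N₀` is infinite (e.g. the sets of `[true]`, `[false, true]`, `[false, false, true]`, … are nonempty and disjoint), `N₀ ⊨ T`.
`exists_few N₀` gives `W`, `exists_many` gives `W'`, both satisfy `T` (each sentence of `T` is in the complete theory of `N₀`) and have
cardinality `ℵ₁`, so there is an isomorphism `e : W' ≃ W` (`hcat`, `Theory.ModelType.of`).  For the countable set `e '' A` there is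
the countable set `D`; for `y ∈ X` choose `y' ∈ D` with the same type as `e y` over `e '' A`; for `y₁ ≠ y₂` in `X` the types of `y₁`, `y₂`
over `A` are different, hence `y₁' ≠ y₂'`.  So `X` injects into the countable set `D`: contradiction.
-/

namespace Pool.Agent.Work.MP_ed0a9a_lc.E

open FirstOrder FirstOrder.Language

private theorem notr_inf {a : ℕ → ℕ} {N : Type} [(sig a).Structure N] (t : DTree (sig a) N) :
    Infinite N := by
  have hmono : ∀ (m d : ℕ), Dset (sig a) (t.φ (List.replicate (m + d) false))
      (t.c (List.replicate (m + d) false)) ⊆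
        Dset (sig a) (t.φ (List.replicate m false)) (t.c (List.replicate m false)) := by
    intro m d
    induction d with
    | zero => exact subset_rfl
    | succ d ih =>
      have h1 := t.sub (List.replicate (m + d) false) false
      rw [← List.replicate_succ'] at h1
      exact h1.trans ih
  choose x hx using fun n : ℕ => t.ne (List.replicate n false ++ [true])
  have key : ∀ m n : ℕ, m < n → x m ≠ x n := by
    intro m n hmn he
    have h1 : x n ∈ Dset (sig a) (t.φ (List.replicate n false)) (t.c (List.replicate n false)) :=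
      t.sub _ _ (hx n)
    obtain ⟨d, rfl⟩ : ∃ d, n = m + 1 + d := ⟨n - (m + 1), by omega⟩
    have h2 := hmono (m + 1) d h1
    rw [List.replicate_succ'] at h2
    have h3 := hx m
    rw [he] at h3
    exact Set.disjoint_left.1 (t.disj (List.replicate m false)) h3 h2
  refine Infinite.of_injective x ?_
  intro m n he
  rcases lt_trichotomy m n with h | h | h
  · exact absurd he (key m n h)
  · exact h
  · exact absurd he.symm (key n m h)

private theorem notr_coe {a : ℕ → ℕ} {N : Type} [(sig a).Structure N]
    (S : (sig a).ElementarySubstructure N) {k : ℕ} (φ : (sig a).Formula (Fin (k + 1)))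
    (c : Fin k → S) (x : S) :
    x ∈ Dset (sig a) φ c ↔ (x : N) ∈ Dset (sig a) φ (fun i => (c i : N)) := by
  have h1 := sameTp_coe S (Fin.snoc c x : Fin (k + 1) → S) φ
  have h2 : (fun i => (((Fin.snoc c x : Fin (k + 1) → S) i : S) : N)) =
      (Fin.snoc (fun i => (c i : N)) (x : N) : Fin (k + 1) → N) := by
    funext i
    refine Fin.lastCases ?_ (fun i => ?_) i
    · simp only [Fin.snoc_last]
    · simp only [Fin.snoc_castSucc]
  rw [h2] at h1
  exact h1

private theorem notr_ctb {a : ℕ → ℕ} {N : Type} [Nonempty N] [(sig a).Structure N]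
    (t : DTree (sig a) N) : ∃ S : (sig a).ElementarySubstructure N,
      Countable S ∧ Nonempty (DTree (sig a) S) := by
  obtain ⟨S, hS, hc⟩ := exists_ctb (a := a) (⋃ s, Set.range (t.c s))
    (Set.countable_iUnion fun s => Set.countable_range _)
  have hmem : ∀ s i, t.c s i ∈ S := fun s i => hS (Set.mem_iUnion.2 ⟨s, ⟨i, rfl⟩⟩)
  refine ⟨S, hc, ⟨⟨t.k, t.φ, fun s i => ⟨t.c s i, hmem s i⟩, ?_, ?_, ?_⟩⟩⟩
  · intro s
    exact dset_nonempty (sameTp_coe S (fun i => (⟨t.c s i, hmem s i⟩ : S))).symm' (t.φ s) (t.ne s)
  · intro s b x hx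
    rw [notr_coe] at hx ⊢
    exact t.sub s b hx
  · intro s
    refine Set.disjoint_left.2 fun x hx hx' => ?_
    rw [notr_coe] at hx hx'
    exact Set.disjoint_left.1 (t.disj s) hx hx'

private theorem notr_model {a : ℕ → ℕ} {T : (sig a).Theory} {N₀ W : Type} [Nonempty N₀]
    [(sig a).Structure N₀] [(sig a).Structure W] (h0 : N₀ ⊨ T)
    (h : W ⊨ (sig a).completeTheory N₀) : W ⊨ T := by
  refine ⟨fun φ hφ => ?_⟩
  refine Theory.realize_sentence_of_mem ((sig a).completeTheory N₀) ?_
  exact Theory.realize_sentence_of_mem T hφ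

theorem no_dtree {a : ℕ → ℕ} {T : (sig a).Theory}
    (hcat : (Cardinal.aleph 1 : Cardinal.{0}).Categorical T) {N : Type} [Nonempty N]
    [(sig a).Structure N] (hN : N ⊨ T) : IsEmpty (DTree (sig a) N) := by
  refine ⟨fun t => ?_⟩
  obtain ⟨S, hSc, ⟨t'⟩⟩ := notr_ctb t
  haveI : Infinite S := notr_inf t'
  haveI := hSc
  have hST : S ⊨ T := inferInstance
  obtain ⟨W, hW1, hW2, hW3, hW4, hW5⟩ := exists_few (a := a) S
  obtain ⟨V, hV1, hV2, hV3, hV4, A, X, hA, hX, hAX⟩ := exists_many t'
  have hWT : W ⊨ T := notr_model hST hW3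
  have hVT : V ⊨ T := notr_model hST hV3
  obtain ⟨e⟩ := hcat (Theory.ModelType.of T V) (Theory.ModelType.of T W) hV4 hW4
  let e' : V ≃[sig a] W := e
  obtain ⟨D, hD, hDy⟩ := hW5 (e' '' A) (hA.image _)
  choose g hg hg' using hDy
  apply hX
  have hinj : Set.InjOn (fun y : V => g (e' y)) X := by
    intro y hy y' hy' he
    by_contra hne
    obtain ⟨k, b, hb, hb'⟩ := hAX y hy y' hy' hne
    apply hb'
    have he2 : g (e' y) = g (e' y') := he
    have h1 := hg' (e' y) k (e' ∘ b) (fun i => ⟨b i, hb i, rfl⟩)
    have h2 := hg' (e' y') k (e' ∘ b) (fun i => ⟨b i, hb i, rfl⟩)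
    have h3 := sameTp_map e'.toElementaryEmbedding (Fin.snoc b y : Fin (k + 1) → V)
    have h4 := sameTp_map e'.toElementaryEmbedding (Fin.snoc b y' : Fin (k + 1) → V)
    rw [Fin.comp_snoc] at h3 h4
    rw [← he2] at h2
    intro φ
    exact (h3 φ).trans ((h1 φ).trans ((h2 φ).symm.trans (h4 φ).symm))
  refine Set.MapsTo.countable_of_injOn (t := D) ?_ hinj hD
  intro y _
  exact hg (e' y)

end Pool.Agent.Work.MP_ed0a9a_lc.E
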