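import Pool.Agent.Work.MP_ed0a9a_lc.E.EInf
import Pool.Agent.Work.MP_ed0a9a_lc.E.NoTr
import Pool.Agent.Work.MP_ed0a9a_lc.E.MinF
import Pool.Agent.Work.MP_ed0a9a_lc.E.Cstr
import Pool.Agent.Work.MP_ed0a9a_lc.E.IsT
import Pool.Agent.Work.MP_ed0a9a_lc.E.Cpl

/-!
# Module `ExB` (size M): strongly minimal formulas

PROOF.  Let `N` be a countable model (`exists_ctb_model`), `S`, `i` from `exists_constr` for `B = ∅` (`no_dtree`); `i ⁻¹' ∅ = ∅`, `S ⊨ T`
(`i` is elementary), `S` is infinite.  `exists_minForm` for `S` (`no_dtree`): `MinForm φ₀ b`, `b : Fin k → S`.  `isol_tuple`: `u`, `θ_n`.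
Choose `n` such that all `b j` are among `u 0, …, u (n-1)`: `b = c₀ ∘ g`, `c₀ j = u j`, `g : Fin k → Fin n`.  Let `p = n`, `θ = θ_n`, and
`φ` with `Dset φ c = Dset φ₀ (c ∘ g)` (`dset_relabel`).  So `MinForm φ c₀`.
* For `N ⊨ T`, `θ(c)`: `SameTp c₀ c` (`sameTp_of_isol`).  So `iso` (symmetry and transitivity); `ex`: `exists_realize`; `inf`:
  `dset_infinite`.
* `sm`: let `ρ₁`, `ρ₂` be the formulas of `dset_inter`, `dset_diff` for `φ`, `ψ`; by `elim_inf` there is `n` such that in all models of `T`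
  the sets defined by `ρ₁` or `ρ₂` are infinite or have at most `n` elements.  If both sets are infinite for `c`, `v` in `N`, then the
  formula `∃ v, (more than n elements satisfy ρ₁(c, v, ·)) ∧ (more than n elements satisfy ρ₂(c, v, ·))` (`exists_atMost`, `exists_exs`) is true
  at `c`, hence at `c₀` in `S`, so there is `v₀` in `S` with both sets infinite: this contradicts `MinForm φ c₀`.
* `nvp`: if there were `x ∉ S'` then by `no_vaught` (`inf`) there is `x ∈ Dset φ c`, `x ∉ S'`.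
-/

set_option autoImplicit false

namespace Pool.Agent.Work.MP_ed0a9a_lc.E

open FirstOrder FirstOrder.Language

theorem exists_base {a : ℕ → ℕ} {T : (sig a).Theory} (hc : T.IsComplete)
    (hcat : (Cardinal.aleph 1 : Cardinal.{0}).Categorical T) (hs : Small T)
    (hinf : ∀ (N : Type) [Nonempty N] [(sig a).Structure N], N ⊨ T → Infinite N) :
    ∃ (p : ℕ) (θ : (sig a).Formula (Fin p)) (φ : (sig a).Formula (Fin (p + 1))),
      Base T θ φ := by
  classical
  obtain ⟨N, hN0, hNc, sN, hN⟩ := exists_ctb_model hc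
  obtain ⟨S, hS0, hSc, sS, i, -, hi⟩ := exists_constr (no_dtree hcat hN) (∅ : Set N)
  rw [Set.preimage_empty] at hi
  have hST : S ⊨ T := (i.theory_model_iff T).2 hN
  have hSinf : Infinite S := hinf S hST
  obtain ⟨k, φ₀, b, hmin⟩ := exists_minForm (no_dtree hcat hST)
  obtain ⟨u, hu, hθ⟩ := isol_tuple hi
  have hb : ∀ j, ∃ m, u m = b j := fun j => by
    have h0 : b j ∈ Set.range u := by
      rw [hu]
      trivial
    exact h0
  choose f hf using hb
  obtain ⟨n, hn⟩ : ∃ n, ∀ j, f j < n := ⟨∑ j, (f j + 1), fun j => by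
    have h0 := Finset.single_le_sum (f := fun j => f j + 1) (fun _ _ => Nat.zero_le _)
      (Finset.mem_univ j)
    exact Nat.lt_of_succ_le h0⟩
  obtain ⟨θ, h1, h2⟩ := hθ n
  obtain ⟨c₀, hc₀⟩ : ∃ c₀ : Fin n → S, c₀ = fun i : Fin n => u i := ⟨_, rfl⟩
  rw [← hc₀] at h1 h2
  obtain ⟨φ, hφ⟩ := dset_relabel φ₀ (fun j => (⟨f j, hn j⟩ : Fin n))
  have hbc : b = c₀ ∘ (fun j => (⟨f j, hn j⟩ : Fin n)) := by
    funext j
    rw [hc₀]
    exact (hf j).symm
  have hmin' : MinForm (sig a) φ c₀ := by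
    have h := hφ S c₀
    rw [← hbc] at h
    refine ⟨by rw [h]; exact hmin.1, fun m ψ c => ?_⟩
    rw [h]
    exact hmin.2 m ψ c
  have htp : ∀ (N : Type) [Nonempty N] [(sig a).Structure N], N ⊨ T → ∀ c : Fin n → N,
      θ.Realize c → SameTp (sig a) c₀ c := fun N _ _ hN c hθc =>
    sameTp_of_isol hc hST hN (θ := θ) h2 hθc
  refine ⟨n, θ, φ, ?_, ?_, ?_, ?_, ?_⟩
  · intro N _ _ hN
    exact exists_realize hc hST hN ⟨c₀, h1⟩
  · intro N N' _ _ _ _ hN hN' c c' h h' χ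
    exact ((htp N hN c h) χ).symm.trans ((htp N' hN' c' h') χ)
  · intro N _ _ hN c h
    exact dset_infinite (htp N hN c h) φ hmin'.1
  · intro N _ _ hN c h m ψ v
    obtain ⟨ρ₁, hρ₁⟩ := dset_inter φ ψ
    obtain ⟨ρ₂, hρ₂⟩ := dset_diff φ ψ
    obtain ⟨n₁, hn₁⟩ := elim_inf hcat hs hinf ρ₁
    obtain ⟨n₂, hn₂⟩ := elim_inf hcat hs hinf ρ₂
    by_contra hcon
    rw [not_or] at hcon
    obtain ⟨α₁, hα₁⟩ := exists_atMost ρ₁ n₁
    obtain ⟨α₂, hα₂⟩ := exists_atMost ρ₂ n₂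
    obtain ⟨β, hβ⟩ := exists_exs (k := n) (m := m) ((Formula.not α₁) ⊓ (Formula.not α₂))
    have hβc : β.Realize c := by
      refine (hβ N c).2 ⟨v, ?_⟩
      rw [Formula.realize_inf, Formula.realize_not, Formula.realize_not, hα₁, hα₂]
      constructor
      · rintro ⟨h3, -⟩
        refine hcon.1 ?_
        rw [← hρ₁]
        exact h3
      · rintro ⟨h3, -⟩
        refine hcon.2 ?_
        rw [← hρ₂]
        exact h3
    have hβ0 : β.Realize c₀ := ((htp N hN c h) β).2 hβc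
    obtain ⟨w, hw⟩ := (hβ S c₀).1 hβ0
    rw [Formula.realize_inf, Formula.realize_not, Formula.realize_not, hα₁, hα₂] at hw
    rcases hmin'.2 m ψ w with h4 | h4
    · rw [← hρ₁] at h4
      exact hw.1 ⟨h4, hn₁ S hST _ h4⟩
    · rw [← hρ₂] at h4
      exact hw.2 ⟨h4, hn₂ S hST _ h4⟩
  · intro N _ _ hN c h S' hcS hsub
    by_contra hne
    have hex : ∃ x, x ∉ S' := by
      by_contra h0
      push Not at h0
      exact hne (Set.eq_univ_of_forall h0)
    obtain ⟨x, hx, hx'⟩ := no_vaught hcat hs hN S' hex c hcS φ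
      (dset_infinite (htp N hN c h) φ hmin'.1)
    exact hx' (hsub hx)

end Pool.Agent.Work.MP_ed0a9a_lc.E
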