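import Pool.Agent.Work.MP_ed0a9a_lc.E.SameT

/-!
# Module `ExtA` (size M): extension of maps which preserve types

PROOFS.
* `ext_alg`: among the formulas `φ` with `φ(b, y)` and `φ(b, ·)` finite choose one with the least number `n` of
  solutions.  There is exactly this number of solutions `y'` of `φ(b', ·)` (`exists_atMost` for `n` and `n - 1`;
  `n ≥ 1`); choose one, `y'` (it exists as the set is nonempty: `exists_ex`).  If `ψ(b, y)` then
  `φ ⊓ ψ` has `n` solutions over `b` by minimality, so `φ(b, ·) → ψ(b, ·)` (`∀ z`, i.e. `¬ ∃ z (φ ∧ ¬ ψ)`), the same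
  holds for `b'`, so `ψ(b', y')`.  If `¬ ψ(b, y)` apply this to `∼ψ`.
* `ext_gen`: let `ψ(b, y)`.  `y` is not algebraic over `b`, so `ψ(b, ·)` is infinite, so by `StronglyMinimal` the set
  `{z | ¬ ψ(b, z)}` is finite, with at most `n` elements; by `exists_atMost` (for `∼ψ`) and `h` the set
  `{z | ¬ ψ(b', z)}` is finite; as `y'` is not algebraic over `b'`, `ψ(b', y')`.  Same argument for `∼ψ`.
* `sameTp_of_ind`: induction on `k`; `b = Fin.snoc (Fin.init b) (b (Fin.last k))`, `ind_snoc_iff`, `mem_cl_range`,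
  `ext_gen`.  `k = 0`: a formula `φ : L.Formula (Fin 0)` is relabelled to a sentence
  (`φ.relabel (fun i : Fin 0 => i.elim0) : L.Formula Empty`), `hc.realize_sentence_iff` in both models.
-/

namespace Pool.Agent.Work.MP_ed0a9a_lc.E

open FirstOrder FirstOrder.Language

variable {L : FirstOrder.Language.{0, 0}}

theorem ext_alg {N N' : Type} [L.Structure N] [L.Structure N'] {k : ℕ} {b : Fin k → N}
    {b' : Fin k → N'} (h : SameTp L b b') {y : N} (hy : Acl L b y) :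
    ∃ y' : N', Acl L b' y' ∧
      SameTp L (Fin.snoc b y : Fin (k + 1) → N) (Fin.snoc b' y' : Fin (k + 1) → N') := by
  classical
  obtain ⟨φ₀, hφ₀, hf₀⟩ := hy
  obtain ⟨φ, ⟨hφy, hfin⟩, hmin⟩ := WellFounded.has_min
    (measure (fun φ : L.Formula (Fin (k + 1)) =>
      {z | φ.Realize (Fin.snoc b z : Fin (k + 1) → N)}.ncard)).wf
    {φ : L.Formula (Fin (k + 1)) | φ.Realize (Fin.snoc b y : Fin (k + 1) → N) ∧
      {z | φ.Realize (Fin.snoc b z : Fin (k + 1) → N)}.Finite} ⟨φ₀, hφ₀, hf₀⟩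
  have hmin' : ∀ χ : L.Formula (Fin (k + 1)), χ.Realize (Fin.snoc b y : Fin (k + 1) → N) →
      {z | χ.Realize (Fin.snoc b z : Fin (k + 1) → N)}.Finite →
      {z | φ.Realize (Fin.snoc b z : Fin (k + 1) → N)}.ncard ≤
        {z | χ.Realize (Fin.snoc b z : Fin (k + 1) → N)}.ncard := by
    intro χ h1 h2
    by_contra h3
    rw [not_le] at h3
    exact hmin χ ⟨h1, h2⟩ h3
  obtain ⟨ψ₁, hψ₁⟩ := exists_atMost φ {z | φ.Realize (Fin.snoc b z : Fin (k + 1) → N)}.ncard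
  have hfin' : {z | φ.Realize (Fin.snoc b' z : Fin (k + 1) → N')}.Finite :=
    ((hψ₁ N' b').1 ((h ψ₁).1 ((hψ₁ N b).2 ⟨hfin, le_rfl⟩))).1
  obtain ⟨ψ₂, hψ₂⟩ := exists_ex φ
  obtain ⟨y', hy'⟩ := (hψ₂ N' b').1 ((h ψ₂).1 ((hψ₂ N b).2 ⟨y, hφy⟩))
  have key : ∀ ψ : L.Formula (Fin (k + 1)), ψ.Realize (Fin.snoc b y : Fin (k + 1) → N) →
      ψ.Realize (Fin.snoc b' y' : Fin (k + 1) → N') := by
    intro ψ hψ
    have hsub : {z | (φ ⊓ ψ).Realize (Fin.snoc b z : Fin (k + 1) → N)} ⊆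
        {z | φ.Realize (Fin.snoc b z : Fin (k + 1) → N)} := by
      intro z hz
      exact (Formula.realize_inf.1 hz).1
    have heq := Set.eq_of_subset_of_ncard_le hsub
      (hmin' (φ ⊓ ψ) (Formula.realize_inf.2 ⟨hφy, hψ⟩) (hfin.subset hsub)) hfin
    obtain ⟨χ, hχ⟩ := exists_ex (φ ⊓ ∼ψ)
    have h1 : ¬ χ.Realize b := by
      rw [hχ]
      rintro ⟨x, hx⟩
      obtain ⟨h2, h3⟩ := Formula.realize_inf.1 hx
      have h4 : x ∈ {z | (φ ⊓ ψ).Realize (Fin.snoc b z : Fin (k + 1) → N)} := by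
        rw [heq]
        exact h2
      exact (Formula.realize_not.1 h3) (Formula.realize_inf.1 h4).2
    have h5 : ¬ χ.Realize b' := fun h6 => h1 ((h χ).2 h6)
    rw [hχ] at h5
    by_contra h7
    exact h5 ⟨y', Formula.realize_inf.2 ⟨hy', Formula.realize_not.2 h7⟩⟩
  refine ⟨y', ⟨φ, hy', hfin'⟩, fun ψ => ⟨key ψ, fun h1 => ?_⟩⟩
  by_contra h2
  exact (Formula.realize_not.1 (key (∼ψ) (Formula.realize_not.2 h2))) h1

private theorem ext_gen_aux {T : L.Theory} (hT : StronglyMinimal T) {N N' : Type} [Nonempty N]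
    [L.Structure N] [L.Structure N'] (hN : N ⊨ T) {k : ℕ}
    {b : Fin k → N} {b' : Fin k → N'} (h : SameTp L b b') {y : N} {y' : N'}
    (hy : ¬ Acl L b y) (hy' : ¬ Acl L b' y') (ψ : L.Formula (Fin (k + 1)))
    (hψ : ψ.Realize (Fin.snoc b y : Fin (k + 1) → N)) :
    ψ.Realize (Fin.snoc b' y' : Fin (k + 1) → N') := by
  classical
  rcases (hT N hN).2 k ψ b with h1 | h1
  · exact absurd ⟨ψ, hψ, h1⟩ hy
  · have h2 : {z | Formula.Realize (∼ψ) (Fin.snoc b z : Fin (k + 1) → N)}.Finite := by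
      refine h1.subset fun z hz => ?_
      exact Formula.realize_not.1 hz
    obtain ⟨χ, hχ⟩ := exists_atMost (∼ψ)
      {z | Formula.Realize (∼ψ) (Fin.snoc b z : Fin (k + 1) → N)}.ncard
    have h3 := ((hχ N' b').1 ((h χ).1 ((hχ N b).2 ⟨h2, le_rfl⟩))).1
    by_contra h4
    exact hy' ⟨∼ψ, Formula.realize_not.2 h4, h3⟩

theorem ext_gen {T : L.Theory} (hT : StronglyMinimal T) {N N' : Type} [Nonempty N]
    [Nonempty N'] [L.Structure N] [L.Structure N'] (hN : N ⊨ T) (hN' : N' ⊨ T) {k : ℕ}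
    {b : Fin k → N} {b' : Fin k → N'} (h : SameTp L b b') {y : N} {y' : N'}
    (hy : ¬ Acl L b y) (hy' : ¬ Acl L b' y') :
    SameTp L (Fin.snoc b y : Fin (k + 1) → N) (Fin.snoc b' y' : Fin (k + 1) → N') := by
  intro ψ
  exact ⟨ext_gen_aux hT hN h hy hy' ψ, ext_gen_aux hT hN' (SameTp.symm' h) hy' hy ψ⟩

end Pool.Agent.Work.MP_ed0a9a_lc.E
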