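import Pool.Agent.Work.MP_ed0a9a_lc.E.Em
import Pool.Agent.Work.MP_ed0a9a_lc.E.ElB

/-!
# Module `Few` (size M-L): a model of cardinality `ℵ₁` realising few types over countable sets

PROOF.  `exists_em N₀ I` for `I = (Cardinal.aleph 1).ord.ToType` (a well-ordered type with `#I = ℵ₁`), giving `N`, `t`, `v`.  Let
`W = S` for `J = univ`.  `#W = ℵ₁`: `v` is injective with values in `W`, and `W` is the image of the set of the `(n, k, q)`, of
cardinality `ℵ₁`.  `W ⊨ T`: elementary substructure of `N`.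
Let `A ⊆ W` be countable; for `x ∈ A` choose `x = t n_x k_x (v ∘ q_x)`, `q_x` strictly monotone; let `I₀ ⊆ I` be the countable set of all
values of the `q_x`.  For `y ∈ W`, `y = t n k (v ∘ q)`, let the pattern of `y` be `(n, k, r)`, `r i = (the least element of I₀ which is
≥ q i, or none; whether it is equal to q i)`.  The set of patterns is countable; `D` contains one `y'` for each pattern
which occurs (with the representation chosen).  Let `y`, `y'` have the same pattern and let `b` be a tuple in `A`, `χ` a formula.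
Apply the last property of `exists_em` to `χ : (sig a).Formula (Fin (k + 1))` (`m = k + 1`), the families `q_{b 0}, …, q_{b (k-1)}, q` and
`q_{b 0}, …, q_{b (k-1)}, q'`: for `j ∈ I₀`: `q i ≤ j` iff the least element `r` of `I₀` above `q i` exists and `r ≤ j`; `j ≤ q i` iff
not (`r` exists and (`r < j` fails and …)): precisely `q i < j` iff `r` exists and (`r < j`, or `r = j` and `q i ≠ r`); both depend
only on the pattern; `q i ≤ q i'` iff `i ≤ i'` iff `q' i ≤ q' i'` (strictly monotone).  Types in `W` and `N` agree (`sameTp_coe`).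
-/

namespace Pool.Agent.Work.MP_ed0a9a_lc.E

open FirstOrder FirstOrder.Language Cardinal

private theorem few_t {N I : Type} (t : ∀ n : ℕ, ℕ → (Fin n → N) → N) (v : I → N)
    {n k : ℕ} (q : Fin n → I) {n' k' : ℕ} (q' : Fin n' → I) (h1 : n = n') (h2 : k = k') :
    t n k (v ∘ (q' ∘ Fin.cast h1)) = t n' k' (v ∘ q') := by
  subst h1 h2
  rfl

private theorem few_ind {L : FirstOrder.Language.{0, 0}} {N I : Type} [LinearOrder I]
    [L.Structure N] (t : ∀ n : ℕ, ℕ → (Fin n → N) → N) (v : I → N)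
    (hind : ∀ (m : ℕ) (φ : L.Formula (Fin m)) (n k : Fin m → ℕ) (q q' : ∀ j, Fin (n j) → I),
        (∀ j j' i i', q j i ≤ q j' i' ↔ q' j i ≤ q' j' i') →
        (φ.Realize (fun j => t (n j) (k j) (v ∘ q j)) ↔
          φ.Realize (fun j => t (n j) (k j) (v ∘ q' j))))
    (m : ℕ) (φ : L.Formula (Fin m)) (F F' : Fin m → Σ n : ℕ, ℕ × (Fin n → I))
    (h1 : ∀ j, (F j).1 = (F' j).1) (h2 : ∀ j, (F j).2.1 = (F' j).2.1)
    (h3 : ∀ j j' (i : Fin (F j).1) (i' : Fin (F j').1),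
      (F j).2.2 i ≤ (F j').2.2 i' ↔
        (F' j).2.2 (Fin.cast (h1 j) i) ≤ (F' j').2.2 (Fin.cast (h1 j') i')) :
    φ.Realize (fun j => t (F j).1 (F j).2.1 (v ∘ (F j).2.2)) ↔
      φ.Realize (fun j => t (F' j).1 (F' j).2.1 (v ∘ (F' j).2.2)) := by
  rw [hind m φ (fun j => (F j).1) (fun j => (F j).2.1) (fun j => (F j).2.2)
    (fun j => (F' j).2.2 ∘ Fin.cast (h1 j)) h3]
  have h4 : (fun j => t (F j).1 (F j).2.1 (v ∘ ((F' j).2.2 ∘ Fin.cast (h1 j)))) =
      fun j => t (F' j).1 (F' j).2.1 (v ∘ (F' j).2.2) := by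
    funext j
    exact few_t t v (F j).2.2 (F' j).2.2 (h1 j) (h2 j)
  exact iff_of_eq (congrArg φ.Realize h4)

private theorem few_cut {I : Type} [LinearOrder I] [WellFoundedLT I] (I₀ : Set I) :
    ∃ c : I → Option I₀ × Bool, ∀ e e', c e = c e' → ∀ x ∈ I₀,
      ((e ≤ x ↔ e' ≤ x) ∧ (x ≤ e ↔ x ≤ e')) := by
  classical
  have hc : ∀ e : I, ∃ c : Option I₀ × Bool, (c.2 = true ↔ e ∈ I₀) ∧
      (∀ r : I₀, c.1 = some r → e ≤ r ∧ ∀ x ∈ I₀, e ≤ x → (r : I) ≤ x) ∧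
      (∀ x ∈ I₀, e ≤ x → ∃ r, c.1 = some r) := by
    intro e
    by_cases h : ∃ j, j ∈ I₀ ∧ e ≤ j
    · obtain ⟨r, hr, hmin⟩ := wellFounded_lt.has_min {j : I | j ∈ I₀ ∧ e ≤ j} h
      refine ⟨(some ⟨r, hr.1⟩, decide (e ∈ I₀)), by simp, ?_, ?_⟩
      · intro r' hr'
        have : r' = ⟨r, hr.1⟩ := (Option.some.inj hr').symm
        subst this
        exact ⟨hr.2, fun x hx hex => not_lt.1 (hmin x ⟨hx, hex⟩)⟩
      · intro x _ _
        exact ⟨_, rfl⟩
    · refine ⟨(none, decide (e ∈ I₀)), by simp, ?_, ?_⟩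
      · intro r hr
        exact absurd hr (by simp)
      · intro x hx hex
        exact absurd ⟨x, hx, hex⟩ h
  choose c hc1 hc2 hc3 using hc
  have hle : ∀ e e', c e = c e' → ∀ x ∈ I₀, e ≤ x → e' ≤ x := by
    intro e e' he x hx hex
    obtain ⟨r, hr⟩ := hc3 e x hx hex
    have h1 := (hc2 e r hr).2 x hx hex
    rw [he] at hr
    exact le_trans (hc2 e' r hr).1 h1
  have hge : ∀ e e', c e = c e' → ∀ x ∈ I₀, x ≤ e → x ≤ e' := by
    intro e e' he x hx hxe
    by_contra hlt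
    rw [not_le] at hlt
    have h1 : e ≤ x := hle e' e he.symm x hx hlt.le
    have h2 : e = x := le_antisymm h1 hxe
    subst h2
    have h3 : e' ∈ I₀ := by
      rw [← hc1, ← he, hc1]
      exact hx
    obtain ⟨r, hr⟩ := hc3 e e hx le_rfl
    have h4 : (r : I) ≤ e := (hc2 e r hr).2 e hx le_rfl
    have h5 : e ≤ r := (hc2 e r hr).1
    rw [he] at hr
    have h6 : (r : I) ≤ e' := (hc2 e' r hr).2 e' h3 le_rfl
    exact absurd (le_trans h5 h6) (not_le.2 hlt)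
  exact ⟨c, fun e e' he x hx => ⟨⟨hle e e' he x hx, hle e' e he.symm x hx⟩,
    ⟨hge e e' he x hx, hge e' e he.symm x hx⟩⟩⟩

private theorem few_card {N I : Type} (t : ∀ n : ℕ, ℕ → (Fin n → N) → N) (v : I → N)
    (hI : #I = aleph 1) (hv : Function.Injective v) (S : Set N) (hS : ∀ i, v i ∈ S)
    (h : ∀ x, x ∈ S → ∃ (n k : ℕ) (q : Fin n → I), x = t n k (v ∘ q)) : #S = aleph 1 := by
  have hinf : Infinite I := by
    rw [Cardinal.infinite_iff, hI]
    exact Cardinal.aleph0_le_aleph 1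
  apply le_antisymm
  · have h1 : S ⊆ Set.range (fun p : ℕ × (Σ n : ℕ, Fin n → I) => t p.2.1 p.1 (v ∘ p.2.2)) := by
      intro x hx
      obtain ⟨n, k, q, rfl⟩ := h x hx
      exact ⟨(k, ⟨n, q⟩), rfl⟩
    refine (Cardinal.mk_le_mk_of_subset h1).trans (Cardinal.mk_range_le.trans ?_)
    have h2 : #(Σ n : ℕ, Fin n → I) = #I := by
      rw [← Cardinal.mk_congr (List.equivSigmaTuple : List I ≃ _), Cardinal.mk_list_eq_mk]
    rw [Cardinal.mk_prod, Cardinal.lift_id, Cardinal.lift_id, h2, hI]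
    exact (Cardinal.mul_le_max _ _).trans (by simp [Cardinal.aleph0_le_aleph])
  · rw [← hI]
    exact Cardinal.mk_le_of_injective (f := fun i => (⟨v i, hS i⟩ : S))
      (fun i j hij => hv (congrArg Subtype.val hij))

theorem exists_few {a : ℕ → ℕ} (N₀ : Type) [Nonempty N₀] [Infinite N₀]
    [(sig a).Structure N₀] :
    ∃ (W : Type) (_ : Nonempty W) (_ : (sig a).Structure W),
      W ⊨ (sig a).completeTheory N₀ ∧ #W = aleph 1 ∧
      ∀ A : Set W, A.Countable → ∃ D : Set W, D.Countable ∧ ∀ y : W, ∃ y' ∈ D,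
        ∀ (k : ℕ) (b : Fin k → W), (∀ i, b i ∈ A) →
          SameTp (sig a) (Fin.snoc b y : Fin (k + 1) → W) (Fin.snoc b y' : Fin (k + 1) → W) := by
  classical
  obtain ⟨I, hI1, hI2, hI⟩ : ∃ (I : Type) (_ : LinearOrder I) (_ : WellFoundedLT I),
      #I = aleph 1 :=
    ⟨(aleph 1).ord.ToType, inferInstance, inferInstance, Cardinal.mk_ord_toType _⟩
  obtain ⟨N, hne, SN, t, v, hN, hv, hJ, hind⟩ := exists_em (a := a) N₀ I
  obtain ⟨S, hS1, hS2⟩ := hJ Set.univ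
  have hrep : ∀ y : S, ∃ (n k : ℕ) (q : Fin n → I), StrictMono q ∧ (y : N) = t n k (v ∘ q) := by
    intro y
    obtain ⟨n, k, q, h1, -, h2⟩ := (hS2 y).1 y.2
    exact ⟨n, k, q, h1, h2⟩
  choose n k q hq hy using hrep
  refine ⟨S, inferInstance, inferInstance, ?_, ?_, ?_⟩
  · exact (S.theory_model_iff _).2 hN
  · refine few_card t v hI hv (S : Set N) (fun i => hS1 i trivial) ?_
    intro x hx
    exact ⟨n ⟨x, hx⟩, k ⟨x, hx⟩, q ⟨x, hx⟩, hy ⟨x, hx⟩⟩
  · intro A hA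
    obtain ⟨I₀, hI₀⟩ : ∃ I₀ : Set I, I₀ = ⋃ x ∈ A, Set.range (q x) := ⟨_, rfl⟩
    have hcI : I₀.Countable := by
      rw [hI₀]
      exact hA.biUnion fun x _ => Set.countable_range _
    have hmI : ∀ x ∈ A, ∀ i, q x i ∈ I₀ := by
      intro x hx i
      rw [hI₀]
      exact Set.mem_biUnion hx ⟨i, rfl⟩
    have := hcI.to_subtype
    obtain ⟨c, hc⟩ := few_cut I₀
    obtain ⟨pat, hpat⟩ : ∃ pat : S → (Σ n : ℕ, ℕ × (Fin n → Option I₀ × Bool)),
        ∀ y, pat y = ⟨n y, (k y, c ∘ q y)⟩ := ⟨_, fun y => rfl⟩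
    refine ⟨Set.range (Function.invFun pat), Set.countable_range _, ?_⟩
    intro y
    refine ⟨_, ⟨pat y, rfl⟩, ?_⟩
    obtain ⟨y', hy'⟩ : ∃ y', y' = Function.invFun pat (pat y) := ⟨_, rfl⟩
    rw [← hy']
    have hpy : pat y' = pat y := by
      rw [hy']
      exact Function.invFun_eq ⟨y, rfl⟩
    rw [hpat, hpat] at hpy
    have e1 : n y' = n y := congrArg Sigma.fst hpy
    have e2 : k y' = k y := by
      have := congrArg (fun p : (Σ n : ℕ, ℕ × (Fin n → Option I₀ × Bool)) => p.2.1) hpy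
      exact this
    have e3 : ∀ i : Fin (n y), c (q y i) = c (q y' (Fin.cast e1.symm i)) := by
      have hgen : ∀ (n₁ n₂ k₁ k₂ : ℕ) (q₁ : Fin n₁ → I) (q₂ : Fin n₂ → I) (h12 : n₁ = n₂),
          (⟨n₂, (k₂, c ∘ q₂)⟩ : (Σ n : ℕ, ℕ × (Fin n → Option I₀ × Bool))) =
            ⟨n₁, (k₁, c ∘ q₁)⟩ → ∀ i, c (q₁ i) = c (q₂ (Fin.cast h12 i)) := by
        intro n₁ n₂ k₁ k₂ q₁ q₂ h12 h i
        subst h12
        simp only [Sigma.mk.injEq, heq_eq_eq, true_and, Prod.mk.injEq] at h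
        exact (congrFun h.2 i).symm
      exact hgen _ _ _ _ _ _ e1.symm hpy
    intro m b hb χ
    obtain ⟨G, hG⟩ : ∃ G : S → (Σ n : ℕ, ℕ × (Fin n → I)), ∀ z, G z = ⟨n z, (k z, q z)⟩ :=
      ⟨_, fun z => rfl⟩
    have hGz : ∀ z : S, (z : N) = t (G z).1 (G z).2.1 (v ∘ (G z).2.2) := by
      intro z
      rw [hG]
      exact hy z
    have key : ∀ z : S, χ.Realize (Fin.snoc b z : Fin (m + 1) → S) ↔
        χ.Realize (fun j => t ((Fin.snoc (G ∘ b) (G z) : Fin (m + 1) → _) j).1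
          ((Fin.snoc (G ∘ b) (G z) : Fin (m + 1) → _) j).2.1
          (v ∘ ((Fin.snoc (G ∘ b) (G z) : Fin (m + 1) → _) j).2.2)) := by
      intro z
      rw [sameTp_coe S (Fin.snoc b z : Fin (m + 1) → S) χ]
      refine iff_of_eq (congrArg χ.Realize ?_)
      funext j
      have h6 : ∀ j, G ((Fin.snoc b z : Fin (m + 1) → S) j) =
          (Fin.snoc (G ∘ b) (G z) : Fin (m + 1) → Σ n : ℕ, ℕ × (Fin n → I)) j := by
        intro j
        refine Fin.lastCases ?_ (fun i => ?_) j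
        · simp only [Fin.snoc_last]
        · simp only [Fin.snoc_castSucc, Function.comp_apply]
      rw [hGz, h6]
    rw [key y, key y']
    have g1 : (G y).1 = (G y').1 := by
      rw [hG, hG]
      exact e1.symm
    have hlt : ∀ (i : Fin (G y).1), c ((G y).2.2 i) = c ((G y').2.2 (Fin.cast g1 i)) := by
      have hgen : ∀ (p p' : Σ n : ℕ, ℕ × (Fin n → I)) (hp : p = ⟨n y, (k y, q y)⟩)
          (hp' : p' = ⟨n y', (k y', q y')⟩) (h1 : p.1 = p'.1) (i : Fin p.1),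
          c (p.2.2 i) = c (p'.2.2 (Fin.cast h1 i)) := by
        intro p p' hp hp' h1 i
        subst hp hp'
        exact e3 i
      exact hgen _ _ (hG y) (hG y') g1
    have hmono : ∀ z : S, StrictMono (G z).2.2 := by
      intro z
      rw [hG]
      exact hq z
    have hGI : ∀ j (i : Fin (G (b j)).1), (G (b j)).2.2 i ∈ I₀ := by
      intro j
      have h5 : ∀ (p : Σ n : ℕ, ℕ × (Fin n → I)) (_ : p = ⟨n (b j), (k (b j), q (b j))⟩)
          (i : Fin p.1), p.2.2 i ∈ I₀ := by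
        intro p hp i
        subst hp
        exact hmI _ (hb j) i
      exact h5 _ (hG _)
    have hsn : ∀ j : Fin (m + 1),
        (∃ j₁, (Fin.snoc (G ∘ b) (G y) : Fin (m + 1) → Σ n : ℕ, ℕ × (Fin n → I)) j = G (b j₁) ∧
          (Fin.snoc (G ∘ b) (G y') : Fin (m + 1) → Σ n : ℕ, ℕ × (Fin n → I)) j = G (b j₁)) ∨
        ((Fin.snoc (G ∘ b) (G y) : Fin (m + 1) → Σ n : ℕ, ℕ × (Fin n → I)) j = G y ∧
          (Fin.snoc (G ∘ b) (G y') : Fin (m + 1) → Σ n : ℕ, ℕ × (Fin n → I)) j = G y') := by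
      intro j
      refine Fin.lastCases ?_ (fun i => ?_) j
      · right
        exact ⟨Fin.snoc_last _ _, Fin.snoc_last _ _⟩
      · left
        exact ⟨i, Fin.snoc_castSucc _ _ _, Fin.snoc_castSucc _ _ _⟩
    have hgg : ∀ (u u' : Σ n : ℕ, ℕ × (Fin n → I)),
        ((∃ j, u = G (b j) ∧ u' = G (b j)) ∨ (u = G y ∧ u' = G y')) →
        u.1 = u'.1 ∧ u.2.1 = u'.2.1 := by
      rintro u u' (⟨j, rfl, rfl⟩ | ⟨rfl, rfl⟩)
      · exact ⟨rfl, rfl⟩
      · refine ⟨g1, ?_⟩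
        rw [hG, hG]
        exact e2.symm
    have h1 := fun j => (hgg _ _ (hsn j)).1
    have h2 := fun j => (hgg _ _ (hsn j)).2
    refine few_ind t v hind (m + 1) χ _ _ h1 h2 ?_
    have hfin : ∀ (u u' w w' : Σ n : ℕ, ℕ × (Fin n → I)) (hu : u.1 = u'.1) (hw : w.1 = w'.1),
        ((∃ j, u = G (b j) ∧ u' = G (b j)) ∨ (u = G y ∧ u' = G y')) →
        ((∃ j, w = G (b j) ∧ w' = G (b j)) ∨ (w = G y ∧ w' = G y')) →
        ∀ (i : Fin u.1) (i' : Fin w.1), u.2.2 i ≤ w.2.2 i' ↔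
          u'.2.2 (Fin.cast hu i) ≤ w'.2.2 (Fin.cast hw i') := by
      rintro u u' w w' hu hw (⟨j, rfl, rfl⟩ | ⟨rfl, rfl⟩) (⟨j', rfl, rfl⟩ | ⟨rfl, rfl⟩) i i'
      · rfl
      · exact (hc _ _ (hlt i') _ (hGI j i)).2
      · exact (hc _ _ (hlt i) _ (hGI j' i')).1
      · rw [(hmono y).le_iff_le, (hmono y').le_iff_le]
        rfl
    intro j j'
    exact hfin _ _ _ _ (h1 j) (h1 j') (hsn j) (hsn j')

end Pool.Agent.Work.MP_ed0a9a_lc.E
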