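import Pool.Agent.Work.MP_ed0a9a_lc.E.Defs

/-!
# Module `Fml` (size S-M): formulas with quantifiers

PROOFS.  Use `Formula.relabel` (`Formula.realize_relabel`: `(φ.relabel g).Realize v ↔
φ.Realize (v ∘ g)`) and `Formula.iExs` (`Formula.realize_iExs`: for `φ : L.Formula (α ⊕ β)`, `β`
finite: `(φ.iExs β).Realize v ↔ ∃ i : β → N, φ.Realize (Sum.elim v i)`).
* `exists_exs`: `(φ.relabel (finSumFinEquiv.symm)).iExs (Fin m)`; `Fin.append v w` is
  `Sum.elim v w ∘ finSumFinEquiv.symm`.
* `exists_ex`: the case `m = 1` (`Fin.append v w = Fin.snoc v (w 0)`), or directly with `Unit`.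
* `exists_atMost`: the negation of: there are `x : Fin (n + 1) → N` injective with
  `φ.Realize (Fin.snoc v (x j))` for all `j`.  This is `iExs (Fin (n + 1))` of the conjunction of the
  `n + 1` relabelled copies of `φ` (variables `Fin k ⊕ Fin (n + 1)`, the last variable of the `j`-th
  copy is `Sum.inr j`) and of the formulas `∼ (x_i = x_j)`, `i ≠ j`; finite conjunctions:
  `BoundedFormula.iInf` (`realize_iInf`) or `List.foldr (· ⊓ ·) ⊤`.  A set is finite with `ncard ≤ n`
  iff it has no subset of `n + 1` elements (`Set.infinite_of...`, `Set.exists_subset_card_eq`,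
  `Set.encard_le_coe_iff`; an injective map `Fin (n + 1) → N` into the set).
* `exists_eq_fml`: `Term.equal (var i) (var j)`.
-/

namespace Pool.Agent.Work.MP_ed0a9a_lc.E

open FirstOrder FirstOrder.Language

variable {L : FirstOrder.Language.{0, 0}}

theorem exists_exs {k m : ℕ} (φ : L.Formula (Fin (k + m))) : ∃ ψ : L.Formula (Fin k),
    ∀ (N : Type) [L.Structure N] (v : Fin k → N),
      ψ.Realize v ↔ ∃ w : Fin m → N, φ.Realize (Fin.append v w) := by
  refine ⟨(φ.relabel (finSumFinEquiv.symm : Fin (k + m) → Fin k ⊕ Fin m)).iExs (Fin m), ?_⟩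
  intro N _ v
  rw [Formula.realize_iExs]
  apply exists_congr
  intro w
  rw [Formula.realize_relabel]
  have h : (Sum.elim v w ∘ (finSumFinEquiv.symm : Fin (k + m) → Fin k ⊕ Fin m)) =
      Fin.append v w := by
    funext i
    refine Fin.addCases (fun i => ?_) (fun i => ?_) i
    · simp
    · simp
  rw [h]

theorem exists_ex {k : ℕ} (φ : L.Formula (Fin (k + 1))) : ∃ ψ : L.Formula (Fin k),
    ∀ (N : Type) [L.Structure N] (v : Fin k → N),
      ψ.Realize v ↔ ∃ x, φ.Realize (Fin.snoc v x : Fin (k + 1) → N) := by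
  obtain ⟨ψ, hψ⟩ := exists_exs (k := k) (m := 1) φ
  refine ⟨ψ, ?_⟩
  intro N _ v
  rw [hψ]
  constructor
  · rintro ⟨w, hw⟩
    rw [Fin.append_right_eq_snoc] at hw
    exact ⟨w 0, hw⟩
  · rintro ⟨x, hx⟩
    refine ⟨fun _ => x, ?_⟩
    rw [Fin.append_right_eq_snoc]
    exact hx

private theorem fml_all {k : ℕ} {ι : Type} [Finite ι] (φ : ι → L.Formula (Fin k)) :
    ∃ ψ : L.Formula (Fin k), ∀ (N : Type) [L.Structure N] (v : Fin k → N),
      ψ.Realize v ↔ ∀ i, (φ i).Realize v := by
  refine ⟨Formula.iInf φ, ?_⟩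
  intro N _ v
  rw [Formula.realize_iInf]

private theorem fml_eq {k : ℕ} (i j : Fin k) : ∃ ψ : L.Formula (Fin k),
    ∀ (N : Type) [L.Structure N] (v : Fin k → N), ψ.Realize v ↔ v i = v j := by
  refine ⟨(Term.var i).equal (Term.var j), ?_⟩
  intro N _ v
  rw [Formula.realize_equal]
  exact Iff.rfl

private theorem fml_card {N : Type} (S : Set N) (n : ℕ) :
    (¬ ∃ w : Fin (n + 1) → N, Function.Injective w ∧ ∀ j, w j ∈ S) ↔ S.Finite ∧ S.ncard ≤ n := by
  rw [← Set.encard_le_coe_iff_finite_ncard_le]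
  constructor
  · intro h
    by_contra h1
    rw [not_le] at h1
    have h2 : ((n + 1 : ℕ) : ℕ∞) ≤ S.encard := by
      have := Order.add_one_le_of_lt h1
      push_cast
      exact this
    obtain ⟨t, ht, hte⟩ := Set.exists_subset_encard_eq h2
    have htf : t.Finite := Set.finite_of_encard_eq_coe hte
    have := htf.fintype
    have hc : Fintype.card t = n + 1 := by
      have h3 := Set.encard_eq_coe_toFinset_card t
      rw [hte] at h3
      rw [← Set.toFinset_card]
      exact_mod_cast h3.symm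
    have e : Fin (n + 1) ≃ t := (Fintype.equivFinOfCardEq hc).symm
    exact h ⟨fun j => (e j : N), fun i j hij => e.injective (Subtype.ext hij),
      fun j => ht (e j).2⟩
  · rintro h ⟨w, hw, hS⟩
    have h1 : (Set.range w).encard ≤ S.encard := by
      apply Set.encard_le_encard
      rintro _ ⟨j, rfl⟩
      exact hS j
    have h2 : (Set.range w).encard = ((n + 1 : ℕ) : ℕ∞) := by
      rw [← Set.image_univ, hw.encard_image, Set.encard_univ]
      simp
    rw [h2] at h1
    have h3 := h1.trans h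
    have h4 : n + 1 ≤ n := by exact_mod_cast h3
    omega

theorem exists_atMost {k : ℕ} (φ : L.Formula (Fin (k + 1))) (n : ℕ) :
    ∃ ψ : L.Formula (Fin k), ∀ (N : Type) [L.Structure N] (v : Fin k → N),
      ψ.Realize v ↔ {x | φ.Realize (Fin.snoc v x : Fin (k + 1) → N)}.Finite ∧
        {x | φ.Realize (Fin.snoc v x : Fin (k + 1) → N)}.ncard ≤ n := by
  choose eq heq using fun (p : Fin (k + (n + 1)) × Fin (k + (n + 1))) =>
    fml_eq (L := L) p.1 p.2
  obtain ⟨θ1, hθ1⟩ := fml_all (L := L) (fun j : Fin (n + 1) =>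
    φ.relabel (Fin.snoc (Fin.castAdd (n + 1)) (Fin.natAdd k j) : Fin (k + 1) → Fin (k + (n + 1))))
  obtain ⟨θ2, hθ2⟩ := fml_all (L := L)
    (fun p : {p : Fin (n + 1) × Fin (n + 1) // p.1 ≠ p.2} =>
      ∼(eq (Fin.natAdd k p.1.1, Fin.natAdd k p.1.2)))
  obtain ⟨ψ, hψ⟩ := exists_exs (k := k) (m := n + 1) (θ1 ⊓ θ2)
  refine ⟨∼ψ, ?_⟩
  intro N _ v
  rw [Formula.realize_not, ← fml_card, hψ]
  apply not_congr
  apply exists_congr
  intro w
  rw [Formula.realize_inf, hθ1, hθ2, and_comm]
  apply and_congr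
  · constructor
    · intro h i j hij
      by_contra hne
      have h1 := h ⟨(i, j), hne⟩
      rw [Formula.realize_not, heq] at h1
      apply h1
      simpa using hij
    · intro h p
      rw [Formula.realize_not, heq]
      intro h1
      apply p.2
      apply h
      simpa using h1
  · apply forall_congr'
    intro j
    rw [Formula.realize_relabel]
    have h : (Fin.append v w ∘ (Fin.snoc (Fin.castAdd (n + 1)) (Fin.natAdd k j) :
        Fin (k + 1) → Fin (k + (n + 1)))) = (Fin.snoc v (w j) : Fin (k + 1) → N) := by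
      funext i
      refine Fin.lastCases ?_ (fun i => ?_) i
      · simp
      · simp
    rw [h]
    exact Iff.rfl

theorem exists_eq_fml {k : ℕ} (i j : Fin k) : ∃ ψ : L.Formula (Fin k),
    ∀ (N : Type) [L.Structure N] (v : Fin k → N), ψ.Realize v ↔ v i = v j :=
  fml_eq i j

/-- finite conjunctions -/
theorem exists_all {k : ℕ} {ι : Type} [Finite ι] (φ : ι → L.Formula (Fin k)) :
    ∃ ψ : L.Formula (Fin k), ∀ (N : Type) [L.Structure N] (v : Fin k → N),
      ψ.Realize v ↔ ∀ i, (φ i).Realize v :=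
  fml_all φ

end Pool.Agent.Work.MP_ed0a9a_lc.E
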