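import Pool.Agent.Work.MP_ed0a9a_lc.E.SameT

/-!
# Module `Frth` (size M): the `forth` argument

PROOF.  Let `e : ℕ → N` be surjective (`exists_surjective_nat`).  Let `v : ℕ → N`, `v i = b i` for `i < k`,
`v (k + n) = e n`.  Construct recursively `v' : ℕ → N'` with `v' i = b' i` for `i < k` and
`E n (fun i : Fin n => v i) (fun i : Fin n => v' i)` for all `n ≥ k`: at step `n ≥ k` apply `hs` to `v n`; the
tuple `fun i : Fin (n + 1) => v i` is `Fin.snoc (fun i : Fin n => v i) (v n)`.  (E.g. build by recursion on `n` an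
element of `{w : List N' // w.length = k + n ∧ E ..}` or of `Σ' w : Fin (k + n) → N', E (k + n) .. w`, each extending the
previous one.)  For `y : N` let `f y = v' (k + i)` for some chosen `i` with `e i = y`.  For a tuple `x : Fin m → N`
there are `n` and `g : Fin m → Fin n` with `x = (fun i : Fin n => v i) ∘ g` and `f ∘ x = (fun i : Fin n => v' i) ∘ g`,
`n ≥ k`; so `SameTp L x (f ∘ x)` by `hE` and `sameTp_comp`, and `f` is an elementary embedding.  `f (b i) = b' i`
since `v (k + j) = v i` implies `v' (k + j) = v' i` (`exists_eq_fml`, `hE`).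
-/

namespace Pool.Agent.Work.MP_ed0a9a_lc.E

open FirstOrder FirstOrder.Language

/-- the enumeration -/
private theorem frth_seq {N N' : Type} (e : ℕ → N)
    (E : ∀ k : ℕ, (Fin k → N) → (Fin k → N') → Prop)
    (hs : ∀ k b b', E k b b' → ∀ y : N, ∃ y' : N',
      E (k + 1) (Fin.snoc b y : Fin (k + 1) → N) (Fin.snoc b' y' : Fin (k + 1) → N'))
    {k : ℕ} {b : Fin k → N} {b' : Fin k → N'} (h : E k b b') :
    ∃ (v : ℕ → N) (v' : ℕ → N'), (∀ i : Fin k, v i = b i) ∧ (∀ i : Fin k, v' i = b' i) ∧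
      (∀ n, v (k + n) = e n) ∧
      ∀ n, E (k + n) (fun i : Fin (k + n) => v i) (fun i : Fin (k + n) => v' i) := by
  choose y' hy' using hs
  let P : ℕ → Type := fun n => {q : (Fin (k + n) → N) × (Fin (k + n) → N') // E (k + n) q.1 q.2}
  let p : (n : ℕ) → P n := fun n => Nat.rec (motive := P) ⟨(b, b'), h⟩
    (fun n q => ⟨((Fin.snoc q.1.1 (e n) : Fin (k + n + 1) → N),
      (Fin.snoc q.1.2 (y' (k + n) q.1.1 q.1.2 q.2 (e n)) : Fin (k + n + 1) → N')),
      hy' (k + n) q.1.1 q.1.2 q.2 (e n)⟩) n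
  have hp0 : (p 0).1 = (b, b') := rfl
  have hp1 : ∀ n, (p (n + 1)).1.1 = (Fin.snoc (p n).1.1 (e n) : Fin (k + n + 1) → N) :=
    fun n => rfl
  have hp2 : ∀ n, (p (n + 1)).1.2 = (Fin.snoc (p n).1.2
      (y' (k + n) (p n).1.1 (p n).1.2 (p n).2 (e n)) : Fin (k + n + 1) → N') := fun n => rfl
  have q1 : ∀ d n t (h : t < k + n) (h' : t < k + (n + d)),
      (p (n + d)).1.1 ⟨t, h'⟩ = (p n).1.1 ⟨t, h⟩ := by
    intro d
    induction d with
    | zero => exact fun n t h h' => rfl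
    | succ d ih =>
      intro n t h h'
      have h3 : t < k + (n + d) := by omega
      rw [← ih n t h h3]
      have h4 := congrFun (hp1 (n + d)) (Fin.castSucc ⟨t, h3⟩)
      rw [Fin.snoc_castSucc] at h4
      exact h4
  have q2 : ∀ d n t (h : t < k + n) (h' : t < k + (n + d)),
      (p (n + d)).1.2 ⟨t, h'⟩ = (p n).1.2 ⟨t, h⟩ := by
    intro d
    induction d with
    | zero => exact fun n t h h' => rfl
    | succ d ih =>
      intro n t h h'
      have h3 : t < k + (n + d) := by omega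
      rw [← ih n t h h3]
      have h4 := congrFun (hp2 (n + d)) (Fin.castSucc ⟨t, h3⟩)
      rw [Fin.snoc_castSucc] at h4
      exact h4
  have r1 : ∀ n m t (h : t < k + n) (h' : t < k + m), (p m).1.1 ⟨t, h'⟩ = (p n).1.1 ⟨t, h⟩ := by
    intro n m t h h'
    rcases le_total n m with hnm | hnm
    · obtain ⟨d, rfl⟩ := Nat.exists_eq_add_of_le hnm
      exact q1 d n t h h'
    · obtain ⟨d, rfl⟩ := Nat.exists_eq_add_of_le hnm
      exact (q1 d m t h' h).symm
  have r2 : ∀ n m t (h : t < k + n) (h' : t < k + m), (p m).1.2 ⟨t, h'⟩ = (p n).1.2 ⟨t, h⟩ := by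
    intro n m t h h'
    rcases le_total n m with hnm | hnm
    · obtain ⟨d, rfl⟩ := Nat.exists_eq_add_of_le hnm
      exact q2 d n t h h'
    · obtain ⟨d, rfl⟩ := Nat.exists_eq_add_of_le hnm
      exact (q2 d m t h' h).symm
  have s1 : ∀ n, (p n).1.1 = fun i : Fin (k + n) =>
      (p (i + 1)).1.1 ⟨i, by omega⟩ := fun n => funext fun i => r1 _ _ _ _ _
  have s2 : ∀ n, (p n).1.2 = fun i : Fin (k + n) =>
      (p (i + 1)).1.2 ⟨i, by omega⟩ := fun n => funext fun i => r2 _ _ _ _ _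
  refine ⟨fun t => (p (t + 1)).1.1 ⟨t, by omega⟩, fun t => (p (t + 1)).1.2 ⟨t, by omega⟩,
    ?_, ?_, ?_, ?_⟩
  · intro i
    exact r1 0 (i + 1) i i.2 _
  · intro i
    exact r2 0 (i + 1) i i.2 _
  · intro n
    refine (r1 (n + 1) (k + n + 1) (k + n) (by omega) _).trans ?_
    have h4 := congrFun (hp1 n) (Fin.last (k + n))
    rw [Fin.snoc_last] at h4
    exact h4
  · intro n
    have h5 := (p n).2
    rw [s1 n, s2 n] at h5
    exact h5

theorem forth {L : FirstOrder.Language.{0, 0}} {N N' : Type} [Nonempty N] [Countable N]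
    [L.Structure N] [L.Structure N']
    (E : ∀ k : ℕ, (Fin k → N) → (Fin k → N') → Prop)
    (hE : ∀ k b b', E k b b' → SameTp L b b')
    (hs : ∀ k b b', E k b b' → ∀ y : N, ∃ y' : N',
      E (k + 1) (Fin.snoc b y : Fin (k + 1) → N) (Fin.snoc b' y' : Fin (k + 1) → N'))
    {k : ℕ} {b : Fin k → N} {b' : Fin k → N'} (h : E k b b') :
    ∃ f : N ↪ₑ[L] N', ∀ i, f (b i) = b' i := by
  obtain ⟨e, he⟩ := exists_surjective_nat N
  obtain ⟨v, v', h1, h2, h3, h4⟩ := frth_seq e E hs h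
  choose idx hidx using he
  have h5 : ∀ y, v (k + idx y) = y := fun y => by rw [h3, hidx]
  have key : ∀ (m : ℕ) (x : Fin m → N), SameTp L x (fun j => v' (k + idx (x j))) := by
    intro m x
    obtain ⟨n, hn⟩ : ∃ n, ∀ j, idx (x j) < n :=
      ⟨(Finset.univ.sup fun j => idx (x j)) + 1, fun j =>
        Nat.lt_succ_of_le (Finset.le_sup (f := fun j => idx (x j)) (Finset.mem_univ j))⟩
    have h6 := sameTp_comp (hE _ _ _ (h4 n))
      (fun j : Fin m => (⟨k + idx (x j), Nat.add_lt_add_left (hn j) k⟩ : Fin (k + n)))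
    have h7 : (fun i : Fin (k + n) => v i) ∘
        (fun j : Fin m => (⟨k + idx (x j), Nat.add_lt_add_left (hn j) k⟩ : Fin (k + n))) = x :=
      funext fun j => h5 (x j)
    rw [h7] at h6
    exact h6
  refine ⟨⟨fun y => v' (k + idx y), fun m φ x => (key m x φ).symm⟩, fun i => ?_⟩
  change v' (k + idx (b i)) = b' i
  rw [← h2 i]
  have h8 := hE _ _ _ (h4 (idx (b i) + 1))
  obtain ⟨ψ, hψ⟩ := exists_eq_fml (L := L)
    (⟨k + idx (b i), by omega⟩ : Fin (k + (idx (b i) + 1))) ⟨i, by omega⟩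
  have h9 := h8 ψ
  rw [hψ, hψ] at h9
  exact h9.1 (by
    change v (k + idx (b i)) = v i
    rw [h5, h1])

end Pool.Agent.Work.MP_ed0a9a_lc.E
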