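import Pool.Agent.Work.MP_ed0a9a_lc.E.BDefs

/-!
# The geometry of a strongly minimal set: definitions (block `E`, second part)

`θ` isolates a type of `p`-tuples `c`, and `Dset L φ c` is strongly minimal (structure `Base`).
-/

namespace Pool.Agent.Work.MP_ed0a9a_lc.E

open FirstOrder FirstOrder.Language

section

variable (L : FirstOrder.Language.{0, 0}) {N : Type} [L.Structure N]

/-- The tuple `b` is independent over the tuple `c`. -/
def IndR {p : ℕ} (c : Fin p → N) {k : ℕ} (b : Fin k → N) : Prop :=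
  ∀ j : Fin k, b j ∉ cl L (Set.range c ∪ b '' {i | i < j})

/-- The set defined by `φ` and `c` has a basis of length `d` over `c`. -/
def HasDimR {p : ℕ} (φ : L.Formula (Fin (p + 1))) (c : Fin p → N) (d : ℕ) : Prop :=
  ∃ b : Fin d → N, (∀ i, b i ∈ Dset L φ c) ∧ IndR L c b ∧
    Dset L φ c ⊆ cl L (Set.range c ∪ Set.range b)

end

/-- `χ` is true at the tuples `(c, b)`, with `b` a `k`-tuple in the set `Dset L φ c` which is
independent over `c`. -/
def GenR {L : FirstOrder.Language.{0, 0}} (T : L.Theory) {p : ℕ} (θ : L.Formula (Fin p))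
    (φ : L.Formula (Fin (p + 1))) {k : ℕ} (χ : L.Formula (Fin (p + k))) : Prop :=
  ∀ (N : Type) [Nonempty N] [L.Structure N], N ⊨ T → ∀ c : Fin p → N, θ.Realize c →
    ∀ b : Fin k → N, (∀ i, b i ∈ Dset L φ c) → IndR L c b → χ.Realize (Fin.append c b)

/-- `y` is in the set defined by the disjunction of the primitive formulas of the list `Φ`, with
the parameters `c`. -/
def InD {N : Type} (H : ℕ → List N → Prop) (Φ : List (List Lit)) (c : List N) (y : N) : Prop :=
  ∃ φ ∈ Φ, PTrue H φ (c ++ [y])

/-- For every `m` there is a sequence of `m` distinct elements of the set defined by `Φ`, `c` all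
whose increasing `k`-tuples satisfy `χ` over `c`. -/
def SeqR {N : Type} (H : ℕ → List N → Prop) (Φ : List (List Lit)) (c : List N) (k : ℕ)
    (χ : List Lit) : Prop :=
  ∀ m : ℕ, ∃ w : Fin m → N, Function.Injective w ∧ (∀ i, InD H Φ c (w i)) ∧
    ∀ g : Fin k → Fin m, StrictMono g → PTrue H χ (c ++ List.ofFn (w ∘ g))

/-- The condition on the tuples `c`, `b` in the structure with the relations `H'` which says that
it is a model of the theory of the model with the relations `H` (with the parameters `c₀`), and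
that `b` is a basis of the strongly minimal set over `c`. -/
def BasicR {N N' : Type} (H : ℕ → List N → Prop) (Θ₀ Φ : List (List Lit)) (c₀ : List N)
    (H' : ℕ → List N' → Prop) (c b : List N') : Prop :=
  Le2 H H' ∧ (∃ θ ∈ Θ₀, PTrue H' θ c) ∧ (∀ x ∈ b, InD H' Φ c x) ∧
    (∀ χ, PTrue H' χ (c ++ b) → SeqR H Φ c₀ b.length χ) ∧
    ∀ y : N', InD H' Φ c y → ∃ χ, PTrue H' χ (c ++ (b ++ [y])) ∧
      ¬ SeqR H Φ c₀ (b.length + 1) χ

end Pool.Agent.Work.MP_ed0a9a_lc.E
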