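import Pool.Agent.Work.MP_ed0a9a_lc.E.SameT
import Pool.Agent.Work.MP_ed0a9a_lc.E.GDefs

/-!
# Module `IndQ` (size M): relatively independent tuples

Compare the modules `IndB`, `SameT` (the case `p = 0`), whose proofs can be adapted.

PROOFS.
* `indR_snoc_iff`: for `j = castSucc i` the set `Fin.snoc b y '' {i' | i' < j}` is `b '' {i' | i' < i}`; for `j = last` it is
  `Set.range b`.
* `indR_comp`: `(b ∘ g) '' {i | i < j} ⊆ b '' {i | i < g j}`, `cl_mono`.  `indR_inj`: `b i = b j`, `i < j`: `b j ∈ b '' {..}`, `subset_cl`.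
* `indR_map`: `map_mem_cl`, `Set.image_union`, `Set.range_comp`, `Set.image_image`.
* `indR_sameTp`: if `b' j ∈ cl (Set.range c' ∪ b' '' {i | i < j})` then `b' j` is algebraic over the tuple `Fin.append c' (b' ∘ castLE)` of
  length `p + j` (`mem_cl_range`; the range of this tuple is that union), hence `b j` over the corresponding tuple (`sameTp_comp`
  for the map `Fin (p + j + 1) → Fin (p + k)`, `acl_of_sameTp`).
* `mem_cl_append`: `Set.range (Fin.append c b) = Set.range c ∪ Set.range b`, `mem_cl_range`.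
* `exists_dimR`: take an independent tuple `b` in `Dset L φ c` of maximal length `d ≤ k` (the empty one is independent, by
  `indR_comp` there is none of length `> k`); if `y ∈ Dset L φ c`, `y ∉ cl (..)` then `Fin.snoc b y` is longer.
* `hasDimR_map`: for an isomorphism `e`: the tuple `e ∘ b`; `e '' Dset L φ c = Dset L φ (e ∘ c)`.
-/

namespace Pool.Agent.Work.MP_ed0a9a_lc.E

open FirstOrder FirstOrder.Language

variable {L : FirstOrder.Language.{0, 0}} {N N' : Type} [L.Structure N] [L.Structure N'] {p : ℕ}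

theorem indR_zero (c : Fin p → N) (b : Fin 0 → N) : IndR L c b := fun j => j.elim0

private theorem snoc_imgR {k : ℕ} (b : Fin k → N) (y : N) (j : Fin k) :
    (Fin.snoc b y : Fin (k + 1) → N) '' {i | i < j.castSucc} = b '' {i | i < j} := by
  ext z
  constructor
  · rintro ⟨i, hi, rfl⟩
    have hne : i ≠ Fin.last k := (lt_of_lt_of_le hi (Fin.le_last _)).ne
    obtain ⟨i', rfl⟩ := Fin.exists_castSucc_eq.mpr hne
    refine ⟨i', ?_, ?_⟩
    · exact Fin.castSucc_lt_castSucc_iff.mp hi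
    · exact (Fin.snoc_castSucc (α := fun _ => N) y b i').symm
  · rintro ⟨i, hi, rfl⟩
    exact ⟨i.castSucc, Fin.castSucc_lt_castSucc_iff.mpr hi,
      Fin.snoc_castSucc (α := fun _ => N) y b i⟩

private theorem snoc_imgR_last {k : ℕ} (b : Fin k → N) (y : N) :
    (Fin.snoc b y : Fin (k + 1) → N) '' {i | i < Fin.last k} = Set.range b := by
  ext z
  constructor
  · rintro ⟨i, hi, rfl⟩
    obtain ⟨i', rfl⟩ := Fin.exists_castSucc_eq.mpr (ne_of_lt hi)
    exact ⟨i', (Fin.snoc_castSucc (α := fun _ => N) y b i').symm⟩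
  · rintro ⟨i, rfl⟩
    exact ⟨i.castSucc, Fin.castSucc_lt_last i, Fin.snoc_castSucc (α := fun _ => N) y b i⟩

private theorem range_appendR (c : Fin p → N) {k : ℕ} (b : Fin k → N) :
    Set.range (Fin.append c b) = Set.range c ∪ Set.range b := by
  ext z
  constructor
  · rintro ⟨i, rfl⟩
    refine Fin.addCases (fun j => ?_) (fun j => ?_) i
    · rw [Fin.append_left]
      exact Or.inl ⟨j, rfl⟩
    · rw [Fin.append_right]
      exact Or.inr ⟨j, rfl⟩
  · rintro (⟨j, rfl⟩ | ⟨j, rfl⟩)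
    · exact ⟨Fin.castAdd k j, Fin.append_left c b j⟩
    · exact ⟨Fin.natAdd p j, Fin.append_right c b j⟩

theorem indR_snoc_iff {c : Fin p → N} {k : ℕ} {b : Fin k → N} {y : N} :
    IndR L c (Fin.snoc b y : Fin (k + 1) → N) ↔
      IndR L c b ∧ y ∉ cl L (Set.range c ∪ Set.range b) := by
  unfold IndR
  rw [Fin.forall_fin_succ']
  refine and_congr (forall_congr' fun j => ?_) ?_
  · rw [snoc_imgR, Fin.snoc_castSucc]
  · rw [snoc_imgR_last, Fin.snoc_last]

theorem indR_comp {c : Fin p → N} {k m : ℕ} {b : Fin k → N} (hb : IndR L c b)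
    {g : Fin m → Fin k} (hg : StrictMono g) : IndR L c (b ∘ g) := by
  intro j hj
  refine hb (g j) (cl_mono (Set.union_subset_union_right _ ?_) hj)
  rintro _ ⟨i, hi, rfl⟩
  exact ⟨g i, hg hi, rfl⟩

theorem indR_inj {c : Fin p → N} {k : ℕ} {b : Fin k → N} (hb : IndR L c b) :
    Function.Injective b := by
  have key : ∀ i j : Fin k, i < j → b i ≠ b j := by
    intro i j hij he
    exact hb j (subset_cl _ (Or.inr ⟨i, hij, he⟩))
  intro i j he
  by_contra hne
  rcases lt_or_gt_of_ne hne with h | h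
  · exact key i j h he
  · exact key j i h he.symm

theorem indR_map (f : N ↪ₑ[L] N') {c : Fin p → N} {k : ℕ} {b : Fin k → N} :
    IndR L (f ∘ c) (f ∘ b) ↔ IndR L c b := by
  unfold IndR
  refine forall_congr' fun j => not_congr ?_
  have h1 : Set.range (f ∘ c) ∪ (f ∘ b) '' {i | i < j} =
      f '' (Set.range c ∪ b '' {i | i < j}) := by
    rw [Set.image_union, Set.range_comp, Set.image_comp]
  rw [h1]
  exact map_mem_cl f

theorem mem_cl_append {c : Fin p → N} {k : ℕ} {b : Fin k → N} {y : N} :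
    y ∈ cl L (Set.range c ∪ Set.range b) ↔ Acl L (Fin.append c b) y := by
  rw [← range_appendR, mem_cl_range]

theorem indR_sameTp {c : Fin p → N} {k : ℕ} {b : Fin k → N} {c' : Fin p → N'}
    {b' : Fin k → N'} (h : SameTp L (Fin.append c b) (Fin.append c' b')) (hb : IndR L c b) :
    IndR L c' b' := by
  rintro j ⟨m, d, hd, hA⟩
  have key : ∀ i, ∃ s : Fin (p + k), Fin.append c' b' s = d i ∧
      Fin.append c b s ∈ Set.range c ∪ b '' {i | i < j} := by
    intro i
    rcases hd i with ⟨s, hs⟩ | ⟨s, hs, hs'⟩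
    · refine ⟨Fin.castAdd k s, ?_, ?_⟩
      · rw [Fin.append_left]
        exact hs
      · rw [Fin.append_left]
        exact Or.inl ⟨s, rfl⟩
    · refine ⟨Fin.natAdd p s, ?_, ?_⟩
      · rw [Fin.append_right]
        exact hs'
      · rw [Fin.append_right]
        exact Or.inr ⟨s, hs, rfl⟩
  choose g hg hg' using key
  have hdg : d = Fin.append c' b' ∘ g := by
    funext i
    exact (hg i).symm
  subst hdg
  refine hb j ⟨m, Fin.append c b ∘ g, hg', acl_of_sameTp ?_ hA⟩
  have h1 := (sameTp_comp h (Fin.snoc g (Fin.natAdd p j) : Fin (m + 1) → Fin (p + k))).symm'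
  rwa [Fin.comp_snoc, Fin.comp_snoc, Fin.append_right, Fin.append_right] at h1

theorem exists_dimR_of_not {c : Fin p → N} {φ : L.Formula (Fin (p + 1))} {k : ℕ}
    (h : ∀ b : Fin (k + 1) → N, (∀ i, b i ∈ Dset L φ c) → ¬ IndR L c b) :
    ∃ d ≤ k, HasDimR L φ c d := by
  classical
  have hex : ∃ n, ∀ b : Fin (n + 1) → N, (∀ i, b i ∈ Dset L φ c) → ¬ IndR L c b := ⟨k, h⟩
  obtain ⟨d, hd⟩ : ∃ d, d = Nat.find hex := ⟨_, rfl⟩
  have hspec : ∀ b : Fin (d + 1) → N, (∀ i, b i ∈ Dset L φ c) → ¬ IndR L c b := by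
    rw [hd]
    exact Nat.find_spec hex
  have hdk : d ≤ k := by
    rw [hd]
    exact Nat.find_min' hex h
  have hb : ∃ b : Fin d → N, (∀ i, b i ∈ Dset L φ c) ∧ IndR L c b := by
    rcases Nat.eq_zero_or_pos d with h0 | hpos
    · subst h0
      exact ⟨fun i => i.elim0, fun i => i.elim0, indR_zero _ _⟩
    · obtain ⟨d', rfl⟩ : ∃ d', d = d' + 1 := ⟨d - 1, by omega⟩
      have h1 : ¬ ∀ b : Fin (d' + 1) → N, (∀ i, b i ∈ Dset L φ c) → ¬ IndR L c b :=
        Nat.find_min hex (by omega)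
      push Not at h1
      exact h1
  obtain ⟨b, hbD, hb⟩ := hb
  refine ⟨d, hdk, b, hbD, hb, fun y hyD => ?_⟩
  by_contra hy
  refine hspec (Fin.snoc b y) (fun i => ?_) (indR_snoc_iff.mpr ⟨hb, hy⟩)
  refine Fin.lastCases ?_ (fun i => ?_) i
  · rw [Fin.snoc_last]
    exact hyD
  · rw [Fin.snoc_castSucc]
    exact hbD i

theorem hasDimR_map (e : N ≃[L] N') {c : Fin p → N} {φ : L.Formula (Fin (p + 1))} {d : ℕ}
    (h : HasDimR L φ c d) : HasDimR L φ (e ∘ c) d := by
  have hD : ∀ x : N, e.toElementaryEmbedding x ∈ Dset L φ (e.toElementaryEmbedding ∘ c) ↔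
      x ∈ Dset L φ c := by
    intro x
    have h1 := sameTp_map e.toElementaryEmbedding (Fin.snoc c x : Fin (p + 1) → N) φ
    rw [Fin.comp_snoc] at h1
    exact h1.symm
  change HasDimR L φ (e.toElementaryEmbedding ∘ c) d
  obtain ⟨b, hbD, hb, hc⟩ := h
  refine ⟨e.toElementaryEmbedding ∘ b, fun i => (hD (b i)).2 (hbD i),
    (indR_map e.toElementaryEmbedding).2 hb, fun y hy => ?_⟩
  have h1 : e.toElementaryEmbedding (e.symm y) = y := e.apply_symm_apply y
  rw [← h1] at hy ⊢
  rw [hD] at hy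
  rw [Set.range_comp, Set.range_comp, ← Set.image_union, map_mem_cl]
  exact hc hy

end Pool.Agent.Work.MP_ed0a9a_lc.E
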