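import Pool.Agent.Work.MP_ed0a9a_lc.E.Ult
import Pool.Agent.Work.MP_ed0a9a_lc.E.SatA
import Pool.Agent.Work.MP_ed0a9a_lc.E.IndQ

/-!
# Module `GBg` (size S-M): large models

PROOFS.  `exists_bigR`: `exists_ult` for `N` and `⊤` gives `U`, `j : N ↪ₑ U`, `Sat1 U`; `U ⊨ T`.  `Dset φ c` is infinite (`hB.inf`), so
uncountable (`uncountable_of_sat1`), and `cl B` is countable (`countable_cl`).
`exists_gen_tuple`: in `U` take `c` with `θ(c)` (`hB.ex`) and construct the tuple by induction on `k` (`indR_snoc_iff`,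
`B = Set.range c ∪ Set.range b`).
-/

namespace Pool.Agent.Work.MP_ed0a9a_lc.E

open FirstOrder FirstOrder.Language

variable {a : ℕ → ℕ} {T : (sig a).Theory} {p : ℕ} {θ : (sig a).Formula (Fin p)}
  {φ : (sig a).Formula (Fin (p + 1))}

theorem exists_bigR (hB : Base T θ φ) {N : Type} [Nonempty N] [(sig a).Structure N]
    (hN : N ⊨ T) : ∃ (U : Type) (_ : Nonempty U) (_ : (sig a).Structure U)
      (_ : N ↪ₑ[sig a] U), U ⊨ T ∧ ∀ c : Fin p → U, θ.Realize c → ∀ B : Set U, B.Countable →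
        ∃ y ∈ Dset (sig a) φ c, y ∉ cl (sig a) B := by
  obtain ⟨U, hU, hUs, j, -, h1, -, -, -⟩ :=
    exists_ult (a := a) (N := N) ⊤
  have hUT : U ⊨ T := (j.theory_model_iff T).1 hN
  refine ⟨U, hU, hUs, j, hUT, fun c hc B hBc => ?_⟩
  have h2 := uncountable_of_sat1 h1 φ c (hB.inf U hUT c hc)
  by_contra h3
  push Not at h3
  exact h2 ((countable_cl hBc).mono h3)

theorem exists_gen_tuple (hB : Base T θ φ) {N : Type} [Nonempty N] [(sig a).Structure N]
    (hN : N ⊨ T) (k : ℕ) : ∃ (U : Type) (_ : Nonempty U) (_ : (sig a).Structure U), U ⊨ T ∧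
      ∃ c : Fin p → U, θ.Realize c ∧ ∃ b : Fin k → U, (∀ i, b i ∈ Dset (sig a) φ c) ∧
        IndR (sig a) c b := by
  obtain ⟨U, hU, hUs, -, hUT, h⟩ := exists_bigR hB hN
  obtain ⟨c, hc⟩ := hB.ex U hUT
  refine ⟨U, hU, hUs, hUT, c, hc, ?_⟩
  induction k with
  | zero => exact ⟨fun i => i.elim0, fun i => i.elim0, indR_zero _ _⟩
  | succ k ih =>
    obtain ⟨b, hb, hi⟩ := ih
    obtain ⟨y, hy, hyc⟩ := h c hc (Set.range c ∪ Set.range b)
      ((Set.countable_range c).union (Set.countable_range b))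
    refine ⟨Fin.snoc b y, fun i => ?_, indR_snoc_iff.2 ⟨hi, hyc⟩⟩
    refine Fin.lastCases ?_ (fun i => ?_) i
    · rw [Fin.snoc_last]
      exact hy
    · rw [Fin.snoc_castSucc]
      exact hb i

end Pool.Agent.Work.MP_ed0a9a_lc.E
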