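import Pool.Agent.Work.MP_ed0a9a_lc.E.CPT
import Pool.Agent.Work.MP_ed0a9a_lc.E.GDefs

/-!
# Module `GC1` (size M): `SeqR` is `Π⁰₂`

PROOF.  Copy of the module `CSeq` (with its private lemmas; do not import it).  `Φ` and `c₀` are fixed lists.  With `P`, `q` as there
(`P e θ b ↔ ∃ n, q (e, θ, b) n`): `SeqR (HE a e₀) Φ c₀ k χ` iff for all `m` there are `w : List ℕ`, `B` with `w.length = m`, `w.Nodup`, for all
`y ∈ w` there are `φ ∈ Φ`, `n < B` with `q (e₀, φ, c₀ ++ [y]) n`, and for all lists `I ∈ cl m k` with `I.Pairwise (· < ·)` there is `n < B` with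
`q (e₀, χ, c₀ ++ I.map fun j => w.getD j 0) n`: a primitive recursive condition on `(B, w, m, k, χ)`.
-/

namespace Pool.Agent.Work.MP_ed0a9a_lc.E

section

variable {α β : Type} [Primcodable α] [Primcodable β]

private theorem cs_all {l : α → List β} {p : α → β → Bool} (hl : Primrec l)
    (hp : Primrec₂ p) : Primrec fun a => (l a).all (p a) := by
  have h : Primrec₂ (fun (a : α) (s : β × Bool) => p a s.1 && s.2) :=
    Primrec.and.comp (hp.comp Primrec.fst (Primrec.fst.comp Primrec.snd))
      (Primrec.snd.comp Primrec.snd)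
  refine (Primrec.list_foldr hl (Primrec.const true) h).of_eq fun a => ?_
  induction l a with
  | nil => rfl
  | cons x r ih => rw [List.foldr_cons, List.all_cons, ih]

private theorem cs_any {l : α → List β} {p : α → β → Bool} (hl : Primrec l)
    (hp : Primrec₂ p) : Primrec fun a => (l a).any (p a) := by
  have h : Primrec₂ (fun (a : α) (s : β × Bool) => p a s.1 || s.2) :=
    Primrec.or.comp (hp.comp Primrec.fst (Primrec.fst.comp Primrec.snd))
      (Primrec.snd.comp Primrec.snd)
  refine (Primrec.list_foldr hl (Primrec.const false) h).of_eq fun a => ?_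
  induction l a with
  | nil => rfl
  | cons x r ih => rw [List.foldr_cons, List.any_cons, ih]

end

/-- all lists of length `L` with entries `< b` -/
private def cs (b : ℕ) : ℕ → List (List ℕ)
  | 0 => [[]]
  | L + 1 => (List.range b).flatMap fun x => (cs b L).map fun c => x :: c

private theorem mem_cs {b : ℕ} : ∀ {L : ℕ} {I : List ℕ},
    I ∈ cs b L ↔ I.length = L ∧ ∀ x ∈ I, x < b := by
  intro L
  induction L with
  | zero =>
    intro I
    rw [cs, List.mem_singleton, List.length_eq_zero_iff]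
    constructor
    · rintro rfl
      exact ⟨rfl, fun x hx => absurd hx List.not_mem_nil⟩
    · exact fun h => h.1
  | succ L ih =>
    intro I
    rw [cs]
    simp only [List.mem_flatMap, List.mem_range, List.mem_map]
    constructor
    · rintro ⟨x, hx, c, hc, rfl⟩
      obtain ⟨h1, h2⟩ := ih.1 hc
      refine ⟨by rw [List.length_cons, h1], fun y hy => ?_⟩
      rcases List.mem_cons.1 hy with rfl | hy
      · exact hx
      · exact h2 y hy
    · rintro ⟨h1, h2⟩
      cases I with
      | nil => simp at h1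
      | cons x c =>
        refine ⟨x, h2 x List.mem_cons_self, c, ih.2 ⟨?_, fun y hy => h2 y
          (List.mem_cons_of_mem _ hy)⟩, rfl⟩
        rw [List.length_cons] at h1
        omega

private theorem primrec_cs : Primrec₂ cs := by
  have h1 : Primrec₂ (fun (r : ℕ × ℕ × List (List ℕ)) (x : ℕ) =>
      r.2.2.map fun c => x :: c) := by
    refine Primrec.list_map (Primrec.snd.comp (Primrec.snd.comp Primrec.fst)) ?_
    exact Primrec.list_cons.comp (Primrec.snd.comp Primrec.fst) Primrec.snd
  have h : Primrec₂ (fun (b : ℕ) (s : ℕ × List (List ℕ)) =>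
      (List.range b).flatMap fun x => s.2.map fun c => x :: c) :=
    Primrec.list_flatMap (Primrec.list_range.comp Primrec.fst) h1
  refine (Primrec.nat_rec (Primrec.const [[]]) h).of_eq fun b L => ?_
  induction L with
  | zero => rfl
  | succ L ih =>
    rw [cs, ← ih]

/-- increasing lists -/
private def inc (k : ℕ) (I : List ℕ) : Bool :=
  (List.range k).all fun i => (List.range i).all fun j => decide (I.getD j 0 < I.getD i 0)

private def inj (m : ℕ) (c : List ℕ) : Bool :=
  (List.range m).all fun i => (List.range i).all fun j => !decide (c.getD j 0 = c.getD i 0)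

private theorem primrec_inc : Primrec₂ inc := by
  unfold inc
  refine cs_all (Primrec.list_range.comp Primrec.fst) ?_
  refine cs_all (Primrec.list_range.comp Primrec.snd) ?_
  exact (Primrec.nat_lt.comp
    ((Primrec.list_getD 0).comp (Primrec.snd.comp (Primrec.fst.comp Primrec.fst)) Primrec.snd)
    ((Primrec.list_getD 0).comp (Primrec.snd.comp (Primrec.fst.comp Primrec.fst))
      (Primrec.snd.comp Primrec.fst))).decide

private theorem primrec_inj : Primrec₂ inj := by
  unfold inj
  refine cs_all (Primrec.list_range.comp Primrec.fst) ?_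
  refine cs_all (Primrec.list_range.comp Primrec.snd) ?_
  exact Primrec.not.comp ((Primrec.eq (α := ℕ)).comp
    ((Primrec.list_getD 0).comp (Primrec.snd.comp (Primrec.fst.comp Primrec.fst)) Primrec.snd)
    ((Primrec.list_getD 0).comp (Primrec.snd.comp (Primrec.fst.comp Primrec.fst))
      (Primrec.snd.comp Primrec.fst))).decide

private theorem inc_iff {k : ℕ} {I : List ℕ} :
    inc k I = true ↔ ∀ i < k, ∀ j < i, I.getD j 0 < I.getD i 0 := by
  unfold inc
  simp only [List.all_eq_true, List.mem_range, decide_eq_true_eq]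

private theorem inj_iff {m : ℕ} {c : List ℕ} :
    inj m c = true ↔ ∀ i < m, ∀ j < i, c.getD j 0 ≠ c.getD i 0 := by
  unfold inj
  simp only [List.all_eq_true, List.mem_range, Bool.not_eq_true', decide_eq_false_iff_not, ne_eq]

private theorem cs_bound {γ : Type} (l : List γ) (r : γ → ℕ → Prop)
    (h : ∀ x ∈ l, ∃ n, r x n) : ∃ B : ℕ, ∀ x ∈ l, ∃ n < B, r x n := by
  induction l with
  | nil => exact ⟨0, fun x hx => absurd hx List.not_mem_nil⟩
  | cons y l ih =>
    obtain ⟨B, hB⟩ := ih fun x hx => h x (List.mem_cons_of_mem _ hx)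
    obtain ⟨n, hn⟩ := h y List.mem_cons_self
    refine ⟨max B (n + 1), fun x hx => ?_⟩
    rcases List.mem_cons.1 hx with rfl | hx
    · exact ⟨n, lt_of_lt_of_le (Nat.lt_succ_self n) (le_max_right _ _), hn⟩
    · obtain ⟨n', h1, h2⟩ := hB x hx
      exact ⟨n', lt_of_lt_of_le h1 (le_max_left _ _), h2⟩

private theorem pg_zero_bool {β : Type} [Primcodable β] {p : β → Prop} (h : CB.Pg 0 p) :
    ∃ f : β → Bool, Primrec f ∧ ∀ x, p x ↔ f x = true := by
  obtain ⟨s, ⟨f, hf, hs⟩, hp⟩ := h
  exact ⟨fun x => f (Encodable.encode x), hf.comp Primrec.encode, fun x => (hp x).trans (hs _)⟩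

/-- the list form of `SeqR` -/
private theorem seqR_iff {H : ℕ → List ℕ → Prop} {r : List Lit → List ℕ → ℕ → Prop}
    (hr : ∀ θ b, PTrue H θ b ↔ ∃ n, r θ b n) (Φ : List (List Lit)) (c₀ : List ℕ)
    (θ : List Lit) (k : ℕ) : SeqR H Φ c₀ k θ ↔ ∀ m, ∃ x : List ℕ × ℕ,
      x.1.length = m ∧ inj m x.1 = true ∧
        (∀ y ∈ x.1, ∃ φ ∈ Φ, ∃ n < x.2, r φ (c₀ ++ [y]) n) ∧
        ∀ I ∈ cs m k, inc k I = true →
          ∃ n < x.2, r θ (c₀ ++ I.map fun j => x.1.getD j 0) n := by
  unfold SeqR
  refine forall_congr' fun m => ?_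
  constructor
  · rintro ⟨c, hc, hD, hg⟩
    have hget : ∀ (i : ℕ) (hi : i < m), (List.ofFn c).getD i 0 = c ⟨i, hi⟩ := by
      intro i hi
      rw [List.getD_eq_getElem _ _ (by rwa [List.length_ofFn]), List.getElem_ofFn]
    have hinj : inj m (List.ofFn c) = true := by
      rw [inj_iff]
      intro i hi j hj
      rw [hget i hi, hget j (hj.trans hi)]
      intro h
      have := congrArg Fin.val (hc h)
      simp only at this
      omega
    obtain ⟨B1, hB1⟩ := cs_bound (List.ofFn c) (fun y n => ∃ φ ∈ Φ, r φ (c₀ ++ [y]) n) (by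
      intro y hy
      obtain ⟨i, rfl⟩ := List.mem_ofFn.1 hy
      obtain ⟨φ, hφ, hP⟩ := hD i
      obtain ⟨n, hn⟩ := (hr _ _).1 hP
      exact ⟨n, φ, hφ, hn⟩)
    obtain ⟨B, hB⟩ := cs_bound (cs m k) (fun I n => inc k I = true →
      r θ (c₀ ++ I.map fun j => (List.ofFn c).getD j 0) n) (by
        intro I hI
        by_cases hinc : inc k I = true
        · obtain ⟨h1, h2⟩ := mem_cs.1 hI
          have hlt : ∀ i : Fin k, I.getD i 0 < m := by
            intro i
            have hi : (i : ℕ) < I.length := by rw [h1]; exact i.2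
            rw [List.getD_eq_getElem _ _ hi]
            exact h2 _ (List.getElem_mem hi)
          let g : Fin k → Fin m := fun i => ⟨I.getD i 0, hlt i⟩
          have hgm : StrictMono g := by
            intro i j hij
            exact inc_iff.1 hinc j j.2 i hij
          have h3 : (I.map fun j => (List.ofFn c).getD j 0) = List.ofFn (c ∘ g) := by
            refine List.ext_getElem (by rw [List.length_map, List.length_ofFn, h1]) ?_
            intro i hi hi'
            have hiI : i < I.length := by rwa [List.length_map] at hi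
            rw [List.getElem_map, List.getElem_ofFn, hget _ (h2 _ (List.getElem_mem hiI))]
            show c _ = c (g ⟨i, _⟩)
            congr 1
            apply Fin.ext
            show I[i] = I.getD i 0
            rw [List.getD_eq_getElem _ _ hiI]
          obtain ⟨n, hn⟩ := (hr _ _).1 (hg g hgm)
          exact ⟨n, fun _ => by rw [h3]; exact hn⟩
        · exact ⟨0, fun h => absurd h hinc⟩)
    refine ⟨(List.ofFn c, max B1 B), List.length_ofFn, hinj, fun y hy => ?_,
      fun I hI hinc => ?_⟩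
    · obtain ⟨n, h1, φ, hφ, h2⟩ := hB1 y hy
      exact ⟨φ, hφ, n, lt_of_lt_of_le h1 (le_max_left _ _), h2⟩
    · obtain ⟨n, h1, h2⟩ := hB I hI
      exact ⟨n, lt_of_lt_of_le h1 (le_max_right _ _), h2 hinc⟩
  · rintro ⟨⟨c, B⟩, h1, h2, hD, h3⟩
    simp only at h1 h2 h3 hD
    refine ⟨fun i => c.getD i 0, ?_, fun i => ?_, fun g hg => ?_⟩
    · intro i j hij
      rw [inj_iff] at h2
      by_contra hne
      rcases lt_or_gt_of_ne hne with h4 | h4
      · exact h2 j j.2 i h4 hij
      · exact h2 i i.2 j h4 hij.symm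
    · have hi : (i : ℕ) < c.length := by rw [h1]; exact i.2
      have h4 : c.getD i 0 ∈ c := by
        rw [List.getD_eq_getElem _ _ hi]
        exact List.getElem_mem hi
      obtain ⟨φ, hφ, n, -, h5⟩ := hD _ h4
      exact ⟨φ, hφ, (hr _ _).2 ⟨n, h5⟩⟩
    · rw [hr]
      have h4 : (List.ofFn fun i => ((g i : Fin m) : ℕ)) ∈ cs m k := by
        rw [mem_cs]
        refine ⟨List.length_ofFn, fun x hx => ?_⟩
        obtain ⟨i, rfl⟩ := List.mem_ofFn.1 hx
        exact (g i).2
      have hget : ∀ (i : ℕ) (hi : i < k),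
          (List.ofFn fun i => ((g i : Fin m) : ℕ)).getD i 0 = g ⟨i, hi⟩ := by
        intro i hi
        rw [List.getD_eq_getElem _ _ (by rwa [List.length_ofFn]), List.getElem_ofFn]
      obtain ⟨n, -, h5⟩ := h3 _ h4 (by
        rw [inc_iff]
        intro i hi j hj
        rw [hget i hi, hget j (hj.trans hi)]
        exact hg (show (⟨j, hj.trans hi⟩ : Fin k) < ⟨i, hi⟩ from hj))
      refine ⟨n, ?_⟩
      rw [List.map_ofFn] at h5
      exact h5

theorem pg_seqR {a : ℕ → ℕ} (ha : Computable a) {e₀ : ℕ} (h₀ : Tot e₀)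
    (Φ : List (List Lit)) (c₀ : List ℕ) :
    CB.Pg 2 (fun x : ℕ × List Lit => SeqR (HE a e₀) Φ c₀ x.1 x.2) := by
  obtain ⟨P, hP, hPT⟩ := exists_sg_pTrue ha
  obtain ⟨q, hq, hPq⟩ := CB.sg_succ_iff.1 hP
  obtain ⟨f, hf, hqf⟩ := pg_zero_bool hq
  have hr : ∀ (θ : List Lit) (b : List ℕ),
      PTrue (HE a e₀) θ b ↔ ∃ n, f ((e₀, θ, b), n) = true := by
    intro θ b
    rw [← hPT e₀ h₀ θ b]
    refine (hPq (e₀, θ, b)).trans (exists_congr fun n => ?_)
    exact hqf ((e₀, θ, b), n)
  have h1 : CB.Sg 1 (fun y : ((ℕ × List Lit) × ℕ) × (List ℕ × ℕ) =>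
      y.2.1.length = y.1.2 ∧ inj y.1.2 y.2.1 = true ∧
        (∀ z ∈ y.2.1, ∃ φ ∈ Φ, ∃ n < y.2.2, f ((e₀, φ, c₀ ++ [z]), n) = true) ∧
        ∀ I ∈ cs y.1.2 y.1.1.1, inc y.1.1.1 I = true →
          ∃ n < y.2.2,
            f ((e₀, y.1.1.2, c₀ ++ I.map fun j => y.2.1.getD j 0), n) = true) := by
    have hb : Primrec (fun y : ((ℕ × List Lit) × ℕ) × (List ℕ × ℕ) =>
        decide (y.2.1.length = y.1.2) && (inj y.1.2 y.2.1 && ((y.2.1.all fun z =>
          Φ.any fun φ => (List.range y.2.2).any fun n => f ((e₀, φ, c₀ ++ [z]), n)) &&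
          (cs y.1.2 y.1.1.1).all fun I => !inc y.1.1.1 I ||
            (List.range y.2.2).any fun n =>
              f ((e₀, y.1.1.2, c₀ ++ I.map fun j => y.2.1.getD j 0), n)))) := by
      refine Primrec.and.comp ((Primrec.eq (α := ℕ)).comp
        (Primrec.list_length.comp (Primrec.fst.comp Primrec.snd))
        (Primrec.snd.comp Primrec.fst)).decide (Primrec.and.comp
          (primrec_inj.comp (Primrec.snd.comp Primrec.fst) (Primrec.fst.comp Primrec.snd))
          (Primrec.and.comp ?_ ?_))
      · refine cs_all (Primrec.fst.comp Primrec.snd) ?_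
        refine cs_any (Primrec.const Φ) ?_
        refine cs_any (Primrec.list_range.comp
          (Primrec.snd.comp (Primrec.snd.comp (Primrec.fst.comp Primrec.fst)))) ?_
        refine hf.comp (Primrec.pair (Primrec.pair (Primrec.const e₀) (Primrec.pair
          (Primrec.snd.comp Primrec.fst) ?_)) Primrec.snd)
        exact Primrec.list_append.comp (Primrec.const c₀) (Primrec.list_cons.comp
          (Primrec.snd.comp (Primrec.fst.comp Primrec.fst)) (Primrec.const []))
      refine cs_all (primrec_cs.comp (Primrec.snd.comp Primrec.fst)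
        (Primrec.fst.comp (Primrec.fst.comp Primrec.fst))) ?_
      refine Primrec.or.comp (Primrec.not.comp (primrec_inc.comp
        (Primrec.fst.comp (Primrec.fst.comp (Primrec.fst.comp Primrec.fst))) Primrec.snd)) ?_
      refine cs_any (Primrec.list_range.comp
        (Primrec.snd.comp (Primrec.snd.comp Primrec.fst))) ?_
      refine hf.comp (Primrec.pair (Primrec.pair (Primrec.const e₀) (Primrec.pair
        (Primrec.snd.comp (Primrec.fst.comp (Primrec.fst.comp (Primrec.fst.comp Primrec.fst))))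
        ?_)) Primrec.snd)
      refine Primrec.list_append.comp (Primrec.const c₀) ?_
      exact Primrec.list_map (Primrec.snd.comp Primrec.fst) ((Primrec.list_getD 0).comp
        (Primrec.fst.comp (Primrec.snd.comp (Primrec.fst.comp (Primrec.fst.comp Primrec.fst))))
        Primrec.snd)
    refine CB.Sg.of_primrec hb (fun y => ?_) 1
    simp only [Bool.and_eq_true, decide_eq_true_eq, List.all_eq_true, Bool.or_eq_true,
      Bool.not_eq_true', List.any_eq_true, List.mem_range]
    refine and_congr_right fun _ => and_congr_right fun _ => and_congr_right fun _ =>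
      forall_congr' fun I => forall_congr' fun _ => ?_
    cases inc y.1.1.1 I <;> simp
  have h2 := CB.Sg.all (p := fun (x : ℕ × List Lit) (m : ℕ) => ∃ z : List ℕ × ℕ,
    z.1.length = m ∧ inj m z.1 = true ∧
        (∀ y ∈ z.1, ∃ φ ∈ Φ, ∃ n < z.2, f ((e₀, φ, c₀ ++ [y]), n) = true) ∧
        ∀ I ∈ cs m x.1, inc x.1 I = true →
          ∃ n < z.2, f ((e₀, x.2, c₀ ++ I.map fun j => z.1.getD j 0), n) = true)
    (CB.Sg.ex (p := fun (y : (ℕ × List Lit) × ℕ) (z : List ℕ × ℕ) =>
      z.1.length = y.2 ∧ inj y.2 z.1 = true ∧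
        (∀ y ∈ z.1, ∃ φ ∈ Φ, ∃ n < z.2, f ((e₀, φ, c₀ ++ [y]), n) = true) ∧
        ∀ I ∈ cs y.2 y.1.1, inc y.1.1 I = true →
          ∃ n < z.2, f ((e₀, y.1.2, c₀ ++ I.map fun j => z.1.getD j 0), n) = true) h1)
  exact h2.congr fun x => (seqR_iff (r := fun θ b n => f ((e₀, θ, b), n) = true)
    hr Φ c₀ x.2 x.1).symm

end Pool.Agent.Work.MP_ed0a9a_lc.E
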