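import Pool.Agent.Work.MP_ed0a9a_lc.E.GC2
import Pool.Agent.Work.MP_ed0a9a_lc.E.CMain

/-!
# Module `GC3` (size S-M): the final set is `Σ⁰₄`

PROOF.  As in the module `CMain`: `i ∈ S` iff `∃ e, ∃ c b : List ℕ, c.length = p ∧ b.length = d₀ + i ∧ P e c b`, with `P` from
`exists_pg_basicR`; `sigma4_of_sg`.
-/

namespace Pool.Agent.Work.MP_ed0a9a_lc.E

theorem sigma4_finalR {a : ℕ → ℕ} (ha : Computable a) {e₀ : ℕ} (h₀ : Tot e₀)
    (Θ₀ Φ : List (List Lit)) (c₀ : List ℕ) (p d₀ : ℕ) :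
    Sigma4 {i : ℕ | ∃ e, Tot e ∧ ∃ (c : Fin p → ℕ) (b : Fin (d₀ + i) → ℕ),
      BasicR (HE a e₀) Θ₀ Φ c₀ (HE a e) (List.ofFn c) (List.ofFn b)} := by
  apply sigma4_of_sg
  obtain ⟨P, hP, hPe⟩ := exists_pg_basicR ha h₀ Θ₀ Φ c₀
  have hlen : CB.Pg 3 (fun x : ((ℕ × ℕ) × List ℕ) × List ℕ => x.2.length = d₀ + x.1.1.1) := by
    refine CB.Pg.of_primrec
      (f := fun x : ((ℕ × ℕ) × List ℕ) × List ℕ => decide (x.2.length = d₀ + x.1.1.1))
      ?_ (fun x => by rw [decide_eq_true_iff]) 3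
    exact (Primrec.eq.comp (Primrec.list_length.comp Primrec.snd)
      (Primrec.nat_add.comp (Primrec.const d₀)
        (Primrec.fst.comp (Primrec.fst.comp Primrec.fst)))).decide
  have hlen' : CB.Pg 3 (fun x : ((ℕ × ℕ) × List ℕ) × List ℕ => x.1.2.length = p) := by
    refine CB.Pg.of_primrec
      (f := fun x : ((ℕ × ℕ) × List ℕ) × List ℕ => decide (x.1.2.length = p))
      ?_ (fun x => by rw [decide_eq_true_iff]) 3
    exact (Primrec.eq.comp (Primrec.list_length.comp (Primrec.snd.comp Primrec.fst))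
      (Primrec.const p)).decide
  have hP' : CB.Pg 3 (fun x : ((ℕ × ℕ) × List ℕ) × List ℕ => P x.1.1.2 x.1.2 x.2) :=
    hP.comp (f := fun x : ((ℕ × ℕ) × List ℕ) × List ℕ => (x.1.1.2, x.1.2, x.2))
      ((Primrec.snd.comp (Primrec.fst.comp Primrec.fst)).pair
        ((Primrec.snd.comp Primrec.fst).pair Primrec.snd))
  have h1 : CB.Sg 4 (fun x : (ℕ × ℕ) × List ℕ => ∃ b : List ℕ, b.length = d₀ + x.1.1 ∧
      (x.2.length = p ∧ P x.1.2 x.2 b)) :=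
    CB.Pg.ex (p := fun (x : (ℕ × ℕ) × List ℕ) (b : List ℕ) => b.length = d₀ + x.1.1 ∧
      (x.2.length = p ∧ P x.1.2 x.2 b)) (hlen.and (hlen'.and hP'))
  have h2 : CB.Sg 4 (fun x : ℕ × ℕ => ∃ c b : List ℕ, b.length = d₀ + x.1 ∧
      (c.length = p ∧ P x.2 c b)) :=
    CB.Sg.ex (p := fun (x : ℕ × ℕ) (c : List ℕ) => ∃ b : List ℕ, b.length = d₀ + x.1 ∧
      (c.length = p ∧ P x.2 c b)) h1
  have h3 : CB.Sg 4 (fun i : ℕ => ∃ e, ∃ c b : List ℕ, b.length = d₀ + i ∧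
      (c.length = p ∧ P e c b)) :=
    CB.Sg.ex (p := fun (i e : ℕ) => ∃ c b : List ℕ, b.length = d₀ + i ∧
      (c.length = p ∧ P e c b)) h2
  refine h3.congr fun i => ?_
  rw [Set.mem_ofPred_eq]
  refine exists_congr fun e => ?_
  constructor
  · rintro ⟨c, b, hb, hc, hPb⟩
    obtain ⟨h4, h5⟩ := (hPe e c b).1 hPb
    refine ⟨h4, ?_⟩
    rw [← hb, ← hc]
    refine ⟨c.get, b.get, ?_⟩
    rw [List.ofFn_get, List.ofFn_get]
    exact h5
  · rintro ⟨h4, c, b, h5⟩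
    exact ⟨List.ofFn c, List.ofFn b, List.length_ofFn, List.length_ofFn,
      (hPe e _ _).2 ⟨h4, h5⟩⟩

end Pool.Agent.Work.MP_ed0a9a_lc.E
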