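import Pool.Agent.Work.MP_ed0a9a_lc.E.KEc
import Pool.Agent.Work.MP_ed0a9a_lc.E.EmbC
import Pool.Agent.Work.MP_ed0a9a_lc.E.Cpl

/-!
# Module `GMd` (size M): models of a model complete theory and `∀∃` sentences

PROOFS.
* `model_of_le2`: (1) there are `N ⊨ T` and `f : M' ↪ N`: `exists_emb_compact T` with `k = 0`, `Γ = ∅`: we need: if `θ` is true in `M'` at
  the empty tuple then it is so in some `N ⊨ T`; we show this for `N = M`.  Otherwise for all `c : ℕ → M` one of the literals `l` of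
  `θ` is false, that is, the literal `l' = (l.1, l.2.1, !l.2.2)` is true.  Let `k` be larger than all the variables in `θ`
  (`l.2.1` for `l ∈ θ`) and `Θ = θ.map (fun l => [l'])`; then `∀ v : Fin k → M, ∃ θ' ∈ Θ, PTrue (hd a SM) θ' (List.ofFn v)` (take `c i = v i` for
  `i < k`), so by `Le2` the same in `M'`; but for the `c` with `θ` true in `M'` and `v i = c i` all `l'` are false (their truth
  depends only on the variables `< k`): contradiction.  (For `M'` a tuple `Fin k → M'` and `c : ℕ → M'` are given.)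
  (2) `Set.range f` is the carrier of an elementary substructure of `N` (`exists_elSub`): let `φ(f ∘ x, y)` be true in `N`; by
  `robinson` there is `θ` with `PTrue (hd N) θ (List.ofFn (Fin.snoc (f ∘ x) y))` which implies `φ`; so
  `PTrue (hd N) θ (List.ofFn (f ∘ x))` (the same `c : ℕ → N`), by `ec_of_le2` `PTrue (hd M') θ (List.ofFn x)`, with `c' : ℕ → M'`; let
  `y' = c' n`; then `PTrue (hd M') θ (List.ofFn (Fin.snoc x y'))`, by `pTrue_map` it is true in `N` at `f ∘ _`, so `φ(f ∘ x, f y')`.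
  (3) `M'` is isomorphic to this substructure (`f` is an embedding; `sig a` is relational), so `M' ⊨ T`.
* `le2_of_model`: see the module `KConv` (first part): the sentence `∀ x, ⋁_{θ ∈ Θ} fml a k θ`.
-/

namespace Pool.Agent.Work.MP_ed0a9a_lc.E

open FirstOrder FirstOrder.Language

private theorem gmd_at {N : Type} {H : ℕ → List N → Prop} {c c' : ℕ → N} {l : Lit}
    (h : ∀ x ∈ l.2.1, c x = c' x) : AtTrue H c l ↔ AtTrue H c' l := by
  unfold AtTrue
  have h1 : l.2.1.map c = l.2.1.map c' := List.map_congr_left h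
  rw [h1]
  refine or_congr (and_congr_right fun _ => exists_congr fun x => exists_congr fun y =>
    and_congr_right fun hxy => ?_) Iff.rfl
  rw [hxy] at h
  rw [h x (by simp), h y (by simp)]

private theorem gmd_lit {N : Type} {H : ℕ → List N → Prop} {c c' : ℕ → N} {l : Lit}
    (h : ∀ x ∈ l.2.1, c x = c' x) : LTrue H c l ↔ LTrue H c' l := by
  unfold LTrue
  rw [gmd_at h]

private theorem gmd_neg {N : Type} {H : ℕ → List N → Prop} {c : ℕ → N} {l : Lit} :
    LTrue H c (l.1, l.2.1, !l.2.2) ↔ ¬ LTrue H c l := by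
  have h : AtTrue H c (l.1, l.2.1, !l.2.2) ↔ AtTrue H c l := Iff.rfl
  unfold LTrue
  rw [h]
  by_cases h1 : AtTrue H c l <;> cases h2 : l.2.2 <;> simp [h1]

private theorem gmd_bound (θ : List Lit) : ∃ k : ℕ, ∀ l ∈ θ, ∀ x ∈ l.2.1, x < k := by
  induction θ with
  | nil => exact ⟨0, fun l hl => by simp at hl⟩
  | cons l θ ih =>
    obtain ⟨k, hk⟩ := ih
    have h1 : ∃ m : ℕ, ∀ x ∈ l.2.1, x < m := by
      generalize l.2.1 = L
      induction L with
      | nil => exact ⟨0, fun x hx => by simp at hx⟩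
      | cons y L ih =>
        obtain ⟨m, hm⟩ := ih
        refine ⟨max m (y + 1), fun x hx => ?_⟩
        rcases List.mem_cons.1 hx with rfl | hx
        · exact lt_max_of_lt_right (Nat.lt_succ_self x)
        · exact lt_max_of_lt_left (hm x hx)
    obtain ⟨m, hm⟩ := h1
    refine ⟨max k m, fun l' hl' x hx => ?_⟩
    rcases List.mem_cons.1 hl' with rfl | hl'
    · exact lt_max_of_lt_right (hm x hx)
    · exact lt_max_of_lt_left (hk l' hl' x hx)

private theorem gmd_nil {M M' : Type} [Nonempty M] {H : ℕ → List M → Prop}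
    {H' : ℕ → List M' → Prop} (h : Le2 H H') {θ : List Lit} (hθ : PTrue H' θ []) :
    PTrue H θ [] := by
  by_contra hcon
  obtain ⟨k, hk⟩ := gmd_bound θ
  obtain ⟨c', -, hc'⟩ := hθ
  have h1 := h k (θ.map fun l => [(l.1, l.2.1, !l.2.2)]) (fun v => by
    set c : ℕ → M := fun i => if hi : i < k then v ⟨i, hi⟩ else Classical.arbitrary M with hcdef
    have h2 : ∃ l ∈ θ, ¬ LTrue H c l := by
      by_contra h3
      push Not at h3
      exact hcon ⟨c, fun i hi => absurd hi (by simp), h3⟩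
    obtain ⟨l, hl, hl2⟩ := h2
    refine ⟨[(l.1, l.2.1, !l.2.2)], List.mem_map.2 ⟨l, hl, rfl⟩, c, fun i hi => ?_, ?_⟩
    · rw [List.length_ofFn] at hi
      rw [hcdef]
      simp [hi]
    · intro l' hl'
      rw [List.mem_singleton] at hl'
      rw [hl', gmd_neg]
      exact hl2) (fun i : Fin k => c' i)
  obtain ⟨θ', hθ', c'', hc1, hc2⟩ := h1
  obtain ⟨l, hl, rfl⟩ := List.mem_map.1 hθ'
  have h3 := hc2 _ (List.mem_singleton.2 rfl)
  rw [gmd_neg] at h3
  apply h3
  rw [gmd_lit (c' := c')]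
  · exact hc' l hl
  · intro x hx
    have hxk := hk l hl x hx
    have h4 := hc1 x (by rw [List.length_ofFn]; exact hxk)
    rw [h4]
    simp

private theorem gmd_snoc {N : Type} {d : ℕ} (b : Fin d → N) (z : N) :
    List.ofFn (Fin.snoc b z : Fin (d + 1) → N) = List.ofFn b ++ [z] := by
  rw [List.ofFn_succ', List.concat_eq_append]
  congr 1
  · congr 1
    funext i
    exact Fin.snoc_castSucc (α := fun _ => N) z b i
  · rw [Fin.snoc_last]

private theorem gmd_el {a : ℕ → ℕ} {T : (sig a).Theory} (hmc : ModelComplete T)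
    {M M' N : Type} [Nonempty M] [Nonempty N] [SM : (sig a).Structure M]
    [SM' : (sig a).Structure M'] [SN : (sig a).Structure N] (hM : M ⊨ T) (hN : N ⊨ T)
    (hle : Le2 (hd a SM) (hd a SM')) (f : M' ↪[sig a] N) :
    ∃ S' : (sig a).ElementarySubstructure N, (S' : Set N) = Set.range f := by
  refine exists_elSub (Set.range f) fun n φ x hx hy => ?_
  choose x' hx' using hx
  obtain rfl : f ∘ x' = x := funext hx'
  obtain ⟨y, hy⟩ := hy
  obtain ⟨Θ, hΘ⟩ := robinson hmc φ
  obtain ⟨θ, hθ, c, hc1, hc2⟩ := (hΘ N hN _).1 hy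
  rw [gmd_snoc] at hc1
  have h1 : PTrue (hd a SN) θ (List.ofFn (f ∘ x')) := by
    refine ⟨c, fun i hi => ?_, hc2⟩
    rw [hc1 i (by rw [List.length_append]; omega), List.getElem_append_left hi]
  obtain ⟨c', hc1', hc2'⟩ := ec_of_le2 hmc hM hN hle f x' θ h1
  have h2 : PTrue (hd a SM') θ (List.ofFn x' ++ [c' n]) := by
    refine ⟨c', fun i hi => ?_, hc2'⟩
    rw [List.length_append, List.length_ofFn, List.length_singleton] at hi
    rcases lt_or_eq_of_le (Nat.lt_succ_iff.1 hi) with h3 | h3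
    · rw [List.getElem_append_left (by rw [List.length_ofFn]; exact h3)]
      exact hc1' i (by rw [List.length_ofFn]; exact h3)
    · subst h3
      rw [List.getElem_append_right (by rw [List.length_ofFn])]
      simp
  have h3 := pTrue_map f h2
  rw [List.map_append, List.map_ofFn] at h3
  refine ⟨f (c' n), ⟨_, rfl⟩, (hΘ N hN _).2 ⟨θ, hθ, ?_⟩⟩
  rw [gmd_snoc]
  exact h3

private theorem gmd_c {a : ℕ → ℕ} {M' N : Type}
    [SM' : (sig a).Structure M'] [SN : (sig a).Structure N]
    (f : M' ↪[sig a] N) (S : (sig a).ElementarySubstructure N)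
    (hS : (S : Set N) = Set.range f) : ∃ g : M' ↪ₑ[sig a] N, ∀ y, g y = f y := by
  have hr : S.toSubstructure = f.toHom.range := by
    apply SetLike.coe_injective
    rw [Hom.range_coe]
    exact hS
  have hE : f.toHom.range.IsElementary := hr ▸ S.isElementary
  exact ⟨(ElementarySubstructure.subtype ⟨f.toHom.range, hE⟩).comp
    f.equivRange.toElementaryEmbedding, fun y => rfl⟩

theorem model_of_le2 {a : ℕ → ℕ} {T : (sig a).Theory} (hmc : ModelComplete T) {M M' : Type}
    [Nonempty M] [Nonempty M'] [SM : (sig a).Structure M] [SM' : (sig a).Structure M']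
    (hM : M ⊨ T) (h : Le2 (hd a SM) (hd a SM')) : M' ⊨ T := by
  obtain ⟨N, _, SN, hN, f, -⟩ := exists_emb_compact T (Fin.elim0 : Fin 0 → M') ∅
    (fun θ hθ Δ hΔ => ⟨M, inferInstance, SM, hM, Fin.elim0, gmd_nil h hθ, fun φ hφ => by
      have := hΔ hφ
      simp at this⟩)
  obtain ⟨S', hS'⟩ := gmd_el hmc hM hN h f
  obtain ⟨g, -⟩ := gmd_c f S' hS'
  exact (g.theory_model_iff T).2 hN

private theorem gmd_or (a : ℕ → ℕ) (k : ℕ) (Θ : List (List Lit)) :
    ∃ ψ : (sig a).Formula (Fin k), ∀ (N : Type) [Nonempty N] [S : (sig a).Structure N]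
      (v : Fin k → N), ψ.Realize v ↔ ∃ θ ∈ Θ, PTrue (hd a S) θ (List.ofFn v) := by
  induction Θ with
  | nil =>
    refine ⟨⊥, fun N _ S v => ?_⟩
    rw [Formula.realize_bot]
    simp
  | cons θ Θ ih =>
    obtain ⟨ψ, hψ⟩ := ih
    refine ⟨fml a k θ ⊔ ψ, fun N _ S v => ?_⟩
    rw [Formula.realize_sup, realize_fml, hψ, List.exists_mem_cons_iff]

theorem le2_of_model {a : ℕ → ℕ} {T : (sig a).Theory} (hc : T.IsComplete) {M M' : Type}
    [Nonempty M] [Nonempty M'] [SM : (sig a).Structure M] [SM' : (sig a).Structure M']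
    (hM : M ⊨ T) (hM' : M' ⊨ T) : Le2 (hd a SM) (hd a SM') := by
  intro k Θ h v
  by_contra hcon
  obtain ⟨ψ, hψ⟩ := gmd_or a k Θ
  obtain ⟨χ, hχ⟩ := exists_exs (k := 0) (m := k)
    (Formula.relabel (Fin.natAdd 0 : Fin k → Fin (0 + k)) (∼ψ))
  have key : ∀ (N : Type) [Nonempty N] [S : (sig a).Structure N],
      χ.Realize (Fin.elim0 : Fin 0 → N) ↔ ∃ w : Fin k → N,
        ¬ ∃ θ ∈ Θ, PTrue (hd a S) θ (List.ofFn w) := by
    intro N _ S
    rw [hχ N]
    refine exists_congr fun w => ?_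
    rw [Formula.realize_relabel, Formula.realize_not]
    have e : Fin.append (Fin.elim0 : Fin 0 → N) w ∘ (Fin.natAdd 0 : Fin k → Fin (0 + k)) = w := by
      funext i
      simp
    rw [e, hψ N w]
  have h1 := (key M').2 ⟨v, hcon⟩
  have h2 := (sameTp_zero hc hM hM' (Fin.elim0 : Fin 0 → M)
    (Fin.elim0 : Fin 0 → M') χ).2 h1
  obtain ⟨w, hw⟩ := (key M).1 h2
  exact hw (h w)

end Pool.Agent.Work.MP_ed0a9a_lc.E
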