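import Pool.Agent.Work.MP_ed0a9a_lc.E.EmbC
import Pool.Agent.Work.MP_ed0a9a_lc.E.SameT

/-!
# Module `PTy` (size S-M): primitive formulas determine types in model complete theories

PROOF.  `exists_emb_compact T` for `M = N`, `b` and `Γ = {φ | φ.Realize b'}` (the type of `b'` in `N'`): for `θ` true at
`b` the model `N'` and `b'` do it, by the hypothesis.  So there are `N'' ⊨ T` and `f : N ↪ N''` with `φ` true at `f ∘ b`
for all `φ` true at `b'`.  By model completeness `φ` is true at `f ∘ b` iff it is true at `b`.  Apply this to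
`φ` and `∼φ`.
-/

namespace Pool.Agent.Work.MP_ed0a9a_lc.E

open FirstOrder FirstOrder.Language

theorem sameTp_of_prim {a : ℕ → ℕ} {T : (sig a).Theory} (hmc : ModelComplete T)
    {N N' : Type} [Nonempty N] [Nonempty N'] [S : (sig a).Structure N]
    [S' : (sig a).Structure N'] (hN : N ⊨ T) (hN' : N' ⊨ T) {k : ℕ} {b : Fin k → N}
    {b' : Fin k → N'}
    (h : ∀ θ, PTrue (hd a S) θ (List.ofFn b) → PTrue (hd a S') θ (List.ofFn b')) :
    SameTp (sig a) b b' := by
  obtain ⟨N'', i1, S'', hN'', f, hf⟩ := exists_emb_compact T (M := N) b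
    {φ : (sig a).Formula (Fin k) | φ.Realize b'}
    (fun θ hθ Δ hΔ => ⟨N', inferInstance, S', hN', b', h θ hθ, fun φ hφ => hΔ hφ⟩)
  have key : ∀ φ : (sig a).Formula (Fin k), φ.Realize b' → φ.Realize b := fun φ hφ =>
    (hmc N N'' hN hN'' f k φ b).1 (hf φ hφ)
  intro φ
  constructor
  · intro h1
    by_contra h2
    have h3 : (Formula.not φ).Realize b' := by
      rw [Formula.realize_not]
      exact h2
    have h4 := key _ h3
    rw [Formula.realize_not] at h4
    exact h4 h1
  · exact key φ

end Pool.Agent.Work.MP_ed0a9a_lc.E
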