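import Pool.Agent.Work.MP_ed0a9a_lc.E.GSq
import Pool.Agent.Work.MP_ed0a9a_lc.E.GMd
import Pool.Agent.Work.MP_ed0a9a_lc.E.PTy

/-!
# Module `GCo` (size M): the conditions `BasicR`

PROOFS.
* `hasDimR_of_basicR`: `M' ⊨ T` by `model_of_le2`; `θ(c)` by `hΘ`; `b i ∈ Dset φ c` by `inD_iff`.  Independence: let `U ⊨ T`, `c'`, `b'`
  independent of length `d` (`exists_gen_tuple`).  Each primitive formula `χ` true at `Fin.append c b` in `M'` satisfies
  `SeqR (..) d χ` (`List.ofFn_fin_append`, `List.length_ofFn`), so `GenR (fml a (p + d) χ)` (`genR_iff_seqR`), so it is true at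
  `Fin.append c' b'`.  So `SameTp (Fin.append c b) (Fin.append c' b')` (`sameTp_of_prim`), and `b` is independent over `c`
  (`indR_sameTp`, `SameTp.symm'`).  Span: let `y ∈ Dset φ c` and `χ` from the last part of `BasicR`, true at `Fin.append c (Fin.snoc b y)`
  (`List.ofFn`); if `y ∉ cl (..)` then `Fin.snoc b y` is independent (`indR_snoc_iff`), so `GenR (fml a (p + (d + 1)) χ)` (`genR_of_indR`),
  so `SeqR (..) (d + 1) χ` (`genR_iff_seqR`): contradiction.
* `basicR_of_hasDimR`: `Le2` by `le2_of_model`; second and third part by `hΘ`, `inD_iff` (`List.mem_ofFn`).  If `χ` is true at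
  `Fin.append c b` then it is `GenR` (`genR_of_indR`, `realize_fml`), so `SeqR` (`genR_iff_seqR`).  Last part: let `y ∈ Dset φ c`; `y` is
  algebraic over `e = Fin.append c b` (`mem_cl_append`), so (`acl_iff`) there are `ψ`, `n` with `ψ(e, y)` and `ψ(e, ·)` with at most `n`
  solutions; let `ψ'` be the formula `ψ(x, y)` and `ψ(x, ·)` has at most `n` solutions (`exists_atMost`).  By `robinson` there is `χ` true
  at `Fin.snoc e y` which implies `ψ'` in all models of `T`.  If `SeqR (..) (d + 1) χ` then `GenR (fml a (p + (d + 1)) χ)`; take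
  `U`, `c'`, `b' : Fin (d + 1) → U` (`exists_gen_tuple`); `χ` is true at `Fin.append c' b'`, so `ψ'` is, so the last entry of `b'` is algebraic
  over `Fin.append c' (Fin.init b')`, a contradiction (`indR_snoc_iff`, `mem_cl_append`).  See the module `KConv`.
-/

namespace Pool.Agent.Work.MP_ed0a9a_lc.E

open FirstOrder FirstOrder.Language

variable {a : ℕ → ℕ} {T : (sig a).Theory} {p : ℕ} {θ : (sig a).Formula (Fin p)}
  {φ : (sig a).Formula (Fin (p + 1))}

private theorem gco_snoc {N : Type} {d : ℕ} (b : Fin d → N) (z : N) :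
    List.ofFn (Fin.snoc b z : Fin (d + 1) → N) = List.ofFn b ++ [z] := by
  rw [List.ofFn_succ', List.concat_eq_append]
  congr 1
  · congr 1
    funext i
    exact Fin.snoc_castSucc (α := fun _ => N) z b i
  · rw [Fin.snoc_last]

private theorem gco_snoc2 {N : Type} {p d : ℕ} (c : Fin p → N) (b : Fin d → N) (z : N) :
    List.ofFn (Fin.snoc (Fin.append c b) z : Fin (p + d + 1) → N) =
      List.ofFn c ++ (List.ofFn b ++ [z]) := by
  rw [gco_snoc, List.ofFn_fin_append, List.append_assoc]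

private theorem gco_snoc3 {N : Type} {p d : ℕ} (c : Fin p → N) (b : Fin d → N) (z : N) :
    List.ofFn (Fin.append c (Fin.snoc b z : Fin (d + 1) → N)) =
      List.ofFn c ++ (List.ofFn b ++ [z]) := by
  rw [List.ofFn_fin_append, gco_snoc]

theorem hasDimR_of_basicR (hmc : ModelComplete T) (hB : Base T θ φ)
    {Θ₀ Φ : List (List Lit)}
    (hΘ : ∀ (N : Type) [Nonempty N] [S : (sig a).Structure N], N ⊨ T →
      ∀ v : Fin p → N, θ.Realize v ↔ ∃ χ ∈ Θ₀, PTrue (hd a S) χ (List.ofFn v))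
    (hΦ : ∀ (N : Type) [Nonempty N] [S : (sig a).Structure N], N ⊨ T →
      ∀ v : Fin (p + 1) → N, φ.Realize v ↔ ∃ χ ∈ Φ, PTrue (hd a S) χ (List.ofFn v))
    {M : Type} [Nonempty M] [SM : (sig a).Structure M] (hM : M ⊨ T) {c₀ : Fin p → M}
    (hc₀ : θ.Realize c₀) {M' : Type} [Nonempty M'] [SM' : (sig a).Structure M']
    {c : Fin p → M'} {d : ℕ} {b : Fin d → M'}
    (h : BasicR (hd a SM) Θ₀ Φ (List.ofFn c₀) (hd a SM') (List.ofFn c) (List.ofFn b)) :
    M' ⊨ T ∧ θ.Realize c ∧ HasDimR (sig a) φ c d := by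
  obtain ⟨hle, hθ', hbD, hseq, hspan⟩ := h
  have hM' : M' ⊨ T := model_of_le2 hmc hM hle
  have hc : θ.Realize c := (hΘ M' hM' c).2 hθ'
  have hb : ∀ i, b i ∈ Dset (sig a) φ c := fun i =>
    (inD_iff hΦ hM' c (b i)).1 (hbD (b i) (List.mem_ofFn.2 ⟨i, rfl⟩))
  rw [List.length_ofFn] at hseq hspan
  obtain ⟨U, iU, SU, hU, c', hc', b', hb', hi'⟩ := exists_gen_tuple hB hM d
  have hs : SameTp (sig a) (Fin.append c b) (Fin.append c' b') := by
    refine sameTp_of_prim hmc hM' hU fun χ hχ => ?_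
    rw [List.ofFn_fin_append] at hχ
    have h1 := (genR_iff_seqR hB hΦ hM hc₀ d χ).2 (hseq χ hχ)
    exact (realize_fml _).1 (h1 U hU c' hc' b' hb' hi')
  have hi : IndR (sig a) c b := indR_sameTp hs.symm' hi'
  refine ⟨hM', hc, b, hb, hi, ?_⟩
  intro y hy
  by_contra hny
  obtain ⟨χ, hχ, hns⟩ := hspan y ((inD_iff hΦ hM' c y).2 hy)
  have hi2 : IndR (sig a) c (Fin.snoc b y : Fin (d + 1) → M') := indR_snoc_iff.2 ⟨hi, hny⟩
  have hb2 : ∀ i, (Fin.snoc b y : Fin (d + 1) → M') i ∈ Dset (sig a) φ c := by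
    intro i
    refine Fin.lastCases ?_ (fun i => ?_) i
    · rw [Fin.snoc_last]
      exact hy
    · rw [Fin.snoc_castSucc (α := fun _ => M')]
      exact hb i
  refine hns ((genR_iff_seqR hB hΦ hM hc₀ (d + 1) χ).1 ?_)
  refine genR_of_indR hB hM' hc hb2 hi2 ((realize_fml _).2 ?_)
  rw [gco_snoc3]
  exact hχ

theorem basicR_of_hasDimR (hc : T.IsComplete) (hmc : ModelComplete T) (hB : Base T θ φ)
    {Θ₀ Φ : List (List Lit)}
    (hΘ : ∀ (N : Type) [Nonempty N] [S : (sig a).Structure N], N ⊨ T →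
      ∀ v : Fin p → N, θ.Realize v ↔ ∃ χ ∈ Θ₀, PTrue (hd a S) χ (List.ofFn v))
    (hΦ : ∀ (N : Type) [Nonempty N] [S : (sig a).Structure N], N ⊨ T →
      ∀ v : Fin (p + 1) → N, φ.Realize v ↔ ∃ χ ∈ Φ, PTrue (hd a S) χ (List.ofFn v))
    {M : Type} [Nonempty M] [SM : (sig a).Structure M] (hM : M ⊨ T) {c₀ : Fin p → M}
    (hc₀ : θ.Realize c₀) {M' : Type} [Nonempty M'] [SM' : (sig a).Structure M']
    (hM' : M' ⊨ T) {c : Fin p → M'} (hcr : θ.Realize c) {d : ℕ}
    (h : HasDimR (sig a) φ c d) :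
    ∃ b : Fin d → M',
      BasicR (hd a SM) Θ₀ Φ (List.ofFn c₀) (hd a SM') (List.ofFn c) (List.ofFn b) := by
  obtain ⟨b, hb, hi, hsp⟩ := h
  refine ⟨b, le2_of_model hc hM hM', (hΘ M' hM' c).1 hcr, ?_, ?_, ?_⟩
  · intro x hx
    obtain ⟨i, rfl⟩ := List.mem_ofFn.1 hx
    exact (inD_iff hΦ hM' c (b i)).2 (hb i)
  · intro χ hχ
    rw [List.length_ofFn]
    refine (genR_iff_seqR hB hΦ hM hc₀ d χ).1 ?_
    refine genR_of_indR hB hM' hcr hb hi ((realize_fml _).2 ?_)
    rw [List.ofFn_fin_append]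
    exact hχ
  · intro y hy
    have hy' : y ∈ Dset (sig a) φ c := (inD_iff hΦ hM' c y).1 hy
    have h1 := hsp hy'
    rw [mem_cl_append, acl_iff] at h1
    obtain ⟨ψ, n, g1, g2, g3⟩ := h1
    obtain ⟨ρ, hρ⟩ := exists_atMost ψ n
    obtain ⟨Ξ, hΞ⟩ := robinson hmc (ψ ⊓ ρ.relabel (Fin.castSucc : Fin (p + d) → Fin (p + d + 1)))
    have e : ∀ (N : Type) [(sig a).Structure N] (v : Fin (p + d) → N) (z : N),
        (ψ ⊓ ρ.relabel (Fin.castSucc : Fin (p + d) → Fin (p + d + 1))).Realize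
          (Fin.snoc v z : Fin (p + d + 1) → N) ↔
          ψ.Realize (Fin.snoc v z : Fin (p + d + 1) → N) ∧
          {x | ψ.Realize (Fin.snoc v x : Fin (p + d + 1) → N)}.Finite ∧
            {x | ψ.Realize (Fin.snoc v x : Fin (p + d + 1) → N)}.ncard ≤ n := by
      intro N _ v z
      rw [Formula.realize_inf, Formula.realize_relabel]
      have e1 : (Fin.snoc v z : Fin (p + d + 1) → N) ∘
          (Fin.castSucc : Fin (p + d) → Fin (p + d + 1)) = v := by
        funext i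
        exact Fin.snoc_castSucc (α := fun _ => N) z v i
      rw [e1, hρ]
    obtain ⟨χ, hχ, h4⟩ := (hΞ M' hM' _).1 ((e M' (Fin.append c b) y).2 ⟨g1, g2, g3⟩)
    rw [gco_snoc2] at h4
    refine ⟨χ, h4, fun hseq => ?_⟩
    rw [List.length_ofFn] at hseq
    have hg : GenR T θ φ (fml a (p + (d + 1)) χ) := (genR_iff_seqR hB hΦ hM hc₀ (d + 1) χ).2 hseq
    obtain ⟨U, iU, SU, hU, c', hc', b', hb', hi'⟩ := exists_gen_tuple hB hM (d + 1)
    have h5 := (realize_fml _).1 (hg U hU c' hc' b' hb' hi')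
    have e2 : b' = (Fin.snoc (Fin.init b') (b' (Fin.last d)) : Fin (d + 1) → U) :=
      (Fin.snoc_init_self b').symm
    rw [e2, gco_snoc3, ← gco_snoc2] at h5
    have h6 := (hΞ U hU _).2 ⟨χ, hχ, h5⟩
    rw [e U] at h6
    rw [e2, indR_snoc_iff, mem_cl_append] at hi'
    exact hi'.2 ⟨ψ, h6.1, h6.2.1⟩

end Pool.Agent.Work.MP_ed0a9a_lc.E
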