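import Pool.Agent.Work.MP_ed0a9a_lc.E.GGn
import Pool.Agent.Work.MP_ed0a9a_lc.E.Cstr
import Pool.Agent.Work.MP_ed0a9a_lc.E.CExt
import Pool.Agent.Work.MP_ed0a9a_lc.E.NoTr

/-!
# Module `GEm` (size M): embeddings and isomorphisms

PROOFS.
* `emb_of_spanR`: `exists_constr` for `N`, `B` gives `S`, `i : S ↪ₑ N`, `B ⊆ Set.range i`, `Constr (i ⁻¹' B)`.  `Set.range i` is the carrier of
  an elementary substructure (`exists_range`) which contains `c`, and `Dset φ c ⊆ cl B ⊆ Set.range i` (`cl_subset`), so by `hB.nvp`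
  `Set.range i = univ`.  The map `g ∘ i` is `PEl` on `i ⁻¹' B` (`pel_emb`, `pel_comp`), so by `constr_ext` there is `f' : S ↪ₑ N'` with
  `f' x = g (i x)` for `x ∈ i ⁻¹' B`.  `f y = f' (i⁻¹ y)`: elementary as `i` is elementary and bijective.
* `emb_of_dimR`: `b'' = b'`; `SameTp (Fin.append c b) (Fin.append c' b')` by `sameTp_gen`, so there is `g` with `g ∘ c = c'`, `g ∘ b = b'`, `PEl` on
  `Set.range (Fin.append c b) = Set.range c ∪ Set.range b` (`pel_of_sameTp`).  `emb_of_spanR` for this set.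
* `iso_of_dimR`: the embedding `f` of `emb_of_dimR` for the bases; `Set.range f` (`exists_range`) contains `c'`, `b'`, hence
  `Dset φ c' ⊆ cl (Set.range c' ∪ Set.range b') ⊆ Set.range f` (`cl_subset`), so `Set.range f = univ` by `hB.nvp`; an elementary
  embedding which is onto is an isomorphism.
-/

namespace Pool.Agent.Work.MP_ed0a9a_lc.E

open FirstOrder FirstOrder.Language

variable {a : ℕ → ℕ} {T : (sig a).Theory} {p : ℕ} {θ : (sig a).Formula (Fin p)}
  {φ : (sig a).Formula (Fin (p + 1))} {N N' : Type} [Nonempty N] [Nonempty N'] [Countable N]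
  [(sig a).Structure N] [(sig a).Structure N']

omit [Countable N] in
private theorem univ_of_emb (hB : Base T θ φ) (hN : N ⊨ T) {c : Fin p → N}
    (hc : θ.Realize c) {S : Type} [(sig a).Structure S] (i : S ↪ₑ[sig a] N) {B : Set N}
    (hcB : Set.range c ⊆ B) (hBi : B ⊆ Set.range i) (hD : Dset (sig a) φ c ⊆ cl (sig a) B) :
    Function.Surjective i := by
  obtain ⟨R, hR, -⟩ := exists_range i
  have h1 : B ⊆ (R : Set N) := by
    rw [hR]
    exact hBi
  have h2 := hB.nvp N hN c hc R (fun j => h1 (hcB ⟨j, rfl⟩)) (hD.trans (cl_subset R h1))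
  intro y
  have h3 : y ∈ (R : Set N) := by
    rw [h2]
    exact Set.mem_univ y
  rw [hR] at h3
  exact h3

theorem emb_of_spanR (hB : Base T θ φ)
    (hcat : (Cardinal.aleph 1 : Cardinal.{0}).Categorical T) (hN : N ⊨ T) {c : Fin p → N}
    (hc : θ.Realize c) {B : Set N} (hcB : Set.range c ⊆ B)
    (hD : Dset (sig a) φ c ⊆ cl (sig a) B) {g : N → N'} (hg : PEl (sig a) B g) :
    ∃ f : N ↪ₑ[sig a] N', ∀ x ∈ B, f x = g x := by
  obtain ⟨S, hS1, hS2, hS3, i, hBi, hCo⟩ := exists_constr (no_dtree hcat hN) B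
  have hsur : Function.Surjective i := univ_of_emb hB hN hc i hcB hBi hD
  have h1 : PEl (sig a) (i ⁻¹' B) (g ∘ i) := pel_comp (pel_emb i _) hg (fun x hx => hx)
  obtain ⟨f', hf'⟩ := constr_ext hCo h1
  choose r hr using hsur
  refine ⟨{ toFun := fun y => f' (r y)
            map_formula' := ?_ }, ?_⟩
  · intro n χ x
    have h2 := f'.map_formula χ (r ∘ x)
    have h3 := i.map_formula χ (r ∘ x)
    have h4 : i ∘ (r ∘ x) = x := funext fun j => hr (x j)
    rw [h4] at h3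
    exact h2.trans h3.symm
  · intro x hx
    have h2 : r x ∈ i ⁻¹' B := by
      show i (r x) ∈ B
      rw [hr]
      exact hx
    have h3 := hf' (r x) h2
    have h4 : (g ∘ i) (r x) = g x := by
      show g (i (r x)) = g x
      rw [hr]
    exact h3.trans h4

theorem emb_of_dimR (hB : Base T θ φ)
    (hcat : (Cardinal.aleph 1 : Cardinal.{0}).Categorical T) (hN : N ⊨ T) (hN' : N' ⊨ T)
    {c : Fin p → N} {c' : Fin p → N'} (hc : θ.Realize c) (hc' : θ.Realize c') {d : ℕ}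
    {b : Fin d → N} (hb : ∀ i, b i ∈ Dset (sig a) φ c) (hi : IndR (sig a) c b)
    (hs : Dset (sig a) φ c ⊆ cl (sig a) (Set.range c ∪ Set.range b))
    {b' : Fin d → N'} (hb' : ∀ i, b' i ∈ Dset (sig a) φ c') (hi' : IndR (sig a) c' b') :
    ∃ f : N ↪ₑ[sig a] N', (∀ i, f (c i) = c' i) ∧ ∀ i, f (b i) = b' i := by
  obtain ⟨g, hg1, hg2⟩ := pel_of_sameTp (sameTp_gen hB hN hN' hc hc' hb hb' hi hi')
  have hr : Set.range (Fin.append c b) = Set.range c ∪ Set.range b := by
    ext y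
    constructor
    · rintro ⟨j, rfl⟩
      refine Fin.addCases (fun j => ?_) (fun j => ?_) j
      · rw [Fin.append_left]
        exact Or.inl ⟨j, rfl⟩
      · rw [Fin.append_right]
        exact Or.inr ⟨j, rfl⟩
    · rintro (⟨j, rfl⟩ | ⟨j, rfl⟩)
      · exact ⟨Fin.castAdd d j, Fin.append_left c b j⟩
      · exact ⟨Fin.natAdd p j, Fin.append_right c b j⟩
  rw [hr] at hg2
  obtain ⟨f, hf⟩ := emb_of_spanR hB hcat hN hc Set.subset_union_left hs hg2
  refine ⟨f, fun j => ?_, fun j => ?_⟩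
  · rw [hf _ (Or.inl ⟨j, rfl⟩)]
    have h1 := hg1 (Fin.castAdd d j)
    rw [Fin.append_left, Fin.append_left] at h1
    exact h1
  · rw [hf _ (Or.inr ⟨j, rfl⟩)]
    have h1 := hg1 (Fin.natAdd p j)
    rw [Fin.append_right, Fin.append_right] at h1
    exact h1

theorem iso_of_dimR (hB : Base T θ φ)
    (hcat : (Cardinal.aleph 1 : Cardinal.{0}).Categorical T) (hN : N ⊨ T) (hN' : N' ⊨ T)
    {c : Fin p → N} {c' : Fin p → N'} (hc : θ.Realize c) (hc' : θ.Realize c') {d : ℕ}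
    (h : HasDimR (sig a) φ c d) (h' : HasDimR (sig a) φ c' d) :
    ∃ e : N ≃[sig a] N', ∀ i, e (c i) = c' i := by
  obtain ⟨b, hb, hi, hs⟩ := h
  obtain ⟨b', hb', hi', hs'⟩ := h'
  obtain ⟨f, hf1, hf2⟩ := emb_of_dimR hB hcat hN hN' hc hc' hb hi hs hb' hi'
  have hsur : Function.Surjective f := by
    refine univ_of_emb hB hN' hc' f Set.subset_union_left ?_ hs'
    rintro y (⟨j, rfl⟩ | ⟨j, rfl⟩)
    · exact ⟨c j, hf1 j⟩
    · exact ⟨b j, hf2 j⟩
  exact ⟨{ Equiv.ofBijective f ⟨f.injective, hsur⟩ with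
    map_fun' := fun g x => f.map_fun g x
    map_rel' := fun r x => f.map_rel r x }, hf1⟩

end Pool.Agent.Work.MP_ed0a9a_lc.E
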