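import Pool.Agent.Work.MP_ed0a9a_lc.E.GSt
import Pool.Agent.Work.MP_ed0a9a_lc.E.GEm
import Pool.Agent.Work.MP_ed0a9a_lc.E.IsT

/-!
# Module `GIf` (size M): models of infinite dimension are universal

PROOF.  Let `D = Dset φ c`, nonempty and countable: `x : ℕ → N` with `Set.range x = D`.  Let `C n = Set.range c ∪ x '' {m | m < n}`, so
`C (n + 1) = insert (x n) (C n)`.  Construct `G n : N → N'` with `PEl (C n) (G n)`, `G n (c i) = c' i` and `G (n + 1) = G n` on `C n`:
`n = 0`: `SameTp c c'` (`hB.iso`), `pel_of_sameTp`.  Step: if `x n ∈ cl (C n)` use `isol_of_cl`, `pel_isol`.  If `x n ∉ cl (C n)`: there is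
`x' ∈ Dset φ c'`, `x' ∉ cl (G n '' C n)`: otherwise, as `G n '' C n = Set.range c' ∪ Set.range b''` with `b'' m = G n (x m)` (`m < n`), elements
of `Dset φ c'` (`PEl`), `indR_le` shows that independent tuples in `Dset φ c'` have length `≤ n`, which contradicts `h (n + 1)`.
`pel_gen` gives `G (n + 1) = Function.update (G n) (x n) x'` (it agrees with `G n` on `C n` as `x n ∉ C n`, `subset_cl`).
`pel_limit` gives `f`, `PEl` on `⋃ C n = Set.range c ∪ D`; by `emb_of_spanR` (`D ⊆ cl (Set.range c ∪ D)`, `subset_cl`) it extends to an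
elementary embedding of `N`.
-/

namespace Pool.Agent.Work.MP_ed0a9a_lc.E

open FirstOrder FirstOrder.Language

theorem emb_of_infR {a : ℕ → ℕ} {T : (sig a).Theory} {p : ℕ} {θ : (sig a).Formula (Fin p)}
    {φ : (sig a).Formula (Fin (p + 1))} (hB : Base T θ φ)
    (hcat : (Cardinal.aleph 1 : Cardinal.{0}).Categorical T) {N N' : Type} [Nonempty N]
    [Nonempty N'] [Countable N] [(sig a).Structure N] [(sig a).Structure N'] (hN : N ⊨ T)
    (hN' : N' ⊨ T) {c : Fin p → N} {c' : Fin p → N'} (hc : θ.Realize c) (hc' : θ.Realize c')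
    (h : ∀ k, ∃ b : Fin k → N', (∀ i, b i ∈ Dset (sig a) φ c') ∧ IndR (sig a) c' b) :
    Nonempty (N ↪ₑ[sig a] N') := by
  classical
  obtain ⟨x, hx⟩ := (Set.to_countable (Dset (sig a) φ c)).exists_eq_range
    (hB.inf N hN c hc).nonempty
  have hxD : ∀ m, x m ∈ Dset (sig a) φ c := fun m => by
    rw [hx]
    exact ⟨m, rfl⟩
  have hstep : ∀ n, Set.range c ∪ x '' {m | m < n + 1} =
      insert (x n) (Set.range c ∪ x '' {m | m < n}) := by
    intro n
    ext y
    constructor
    · rintro (hy | ⟨m, hm, rfl⟩)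
      · exact Or.inr (Or.inl hy)
      · rcases Nat.lt_succ_iff_lt_or_eq.1 hm with h1 | h1
        · exact Or.inr (Or.inr ⟨m, h1, rfl⟩)
        · rw [h1]
          exact Or.inl rfl
    · rintro (rfl | hy | ⟨m, hm, rfl⟩)
      · exact Or.inr ⟨n, Nat.lt_succ_self n, rfl⟩
      · exact Or.inl hy
      · exact Or.inr ⟨m, Nat.lt_succ_of_lt hm, rfl⟩
  have h0 : Set.range c ∪ x '' {m | m < 0} = Set.range c := by
    ext y
    constructor
    · rintro (hy | ⟨m, hm, rfl⟩)
      · exact hy
      · exact absurd hm (Nat.not_lt_zero m)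
    · exact Or.inl
  obtain ⟨g, hg1, hg2⟩ := pel_of_sameTp (hB.iso N N' hN hN' c c' hc hc')
  have hnext : ∀ (n : ℕ) (G : {G : N → N' // PEl (sig a) (Set.range c ∪ x '' {m | m < n}) G ∧
      ∀ i, G (c i) = c' i}),
      ∃ G' : {G : N → N' // PEl (sig a) (Set.range c ∪ x '' {m | m < n + 1}) G ∧
        ∀ i, G (c i) = c' i},
        ∀ y ∈ Set.range c ∪ x '' {m | m < n}, G'.1 y = G.1 y := by
    intro n G
    have hci : ∀ i, c i ∈ Set.range c ∪ x '' {m | m < n} := fun i => Or.inl ⟨i, rfl⟩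
    by_cases hcl : x n ∈ cl (sig a) (Set.range c ∪ x '' {m | m < n})
    · obtain ⟨y', h1, h2⟩ := pel_isol G.2.1 (isol_of_cl hcl)
      refine ⟨⟨Function.update G.1 (x n) y', by rw [hstep]; exact h1, fun i => ?_⟩, h2⟩
      rw [h2 _ (hci i), G.2.2 i]
    · have hGc : G.1 ∘ c = c' := funext fun i => G.2.2 i
      have hex : ∃ y' ∈ Dset (sig a) φ c',
          y' ∉ cl (sig a) (G.1 '' (Set.range c ∪ x '' {m | m < n})) := by
        by_contra hcon
        push Not at hcon
        obtain ⟨b, hb1, hb2⟩ := h (n + 1)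
        have him : G.1 '' (Set.range c ∪ x '' {m | m < n}) =
            Set.range c' ∪ Set.range (fun m : Fin n => G.1 (x m)) := by
          rw [Set.image_union, ← Set.range_comp, hGc]
          congr 1
          ext y
          constructor
          · rintro ⟨z, ⟨m, hm, rfl⟩, rfl⟩
            exact ⟨⟨m, hm⟩, rfl⟩
          · rintro ⟨m, rfl⟩
            exact ⟨x m, ⟨m, m.2, rfl⟩, rfl⟩
        have h1 := indR_le hB hN' hc' (fun m : Fin n => G.1 (x m)) b (fun m => by
          have h2 := G.2.1 (p + 1) (Fin.snoc c (x m) : Fin (p + 1) → N) (fun i => by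
            refine Fin.lastCases ?_ (fun i => ?_) i
            · rw [Fin.snoc_last]
              exact Or.inr ⟨m, m.2, rfl⟩
            · rw [Fin.snoc_castSucc]
              exact hci i) φ
          rw [Fin.comp_snoc, hGc] at h2
          exact h2.1 (hxD m)) hb1 hb2 (fun j => by
            rw [← him]
            exact hcon _ (hb1 j))
        omega
      obtain ⟨y', hy1, hy2⟩ := hex
      have h3 := pel_gen hB hN hN' hc (B := Set.range c ∪ x '' {m | m < n})
        Set.subset_union_left G.2.1 (hxD n) hcl (y' := y') (by rw [hGc]; exact hy1) hy2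
      have hne : ∀ y ∈ Set.range c ∪ x '' {m | m < n}, y ≠ x n := by
        rintro y hy rfl
        exact hcl (subset_cl _ hy)
      refine ⟨⟨Function.update G.1 (x n) y', ?_, fun i => ?_⟩, fun y hy => ?_⟩
      · rw [hstep]
        convert h3
      · rw [Function.update_of_ne (hne _ (hci i)), G.2.2 i]
      · exact Function.update_of_ne (hne _ hy) _ _
  choose nx hnx using hnext
  let GG : ∀ n, {G : N → N' // PEl (sig a) (Set.range c ∪ x '' {m | m < n}) G ∧
      ∀ i, G (c i) = c' i} := fun n =>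
    Nat.rec ⟨g, by rw [h0]; exact hg2, hg1⟩ (fun n G => nx n G) n
  obtain ⟨f, hf1, -⟩ := pel_limit (fun n => Set.range c ∪ x '' {m | m < n}) (by
    intro n n' hnn
    exact Set.union_subset_union_right _ (Set.image_mono fun m hm => lt_of_lt_of_le hm hnn))
    (fun n => (GG n).1) (fun n => (GG n).2.1) (fun n y hy => hnx n (GG n) y hy)
  obtain ⟨F, -⟩ := emb_of_spanR hB hcat hN hc
    (B := ⋃ n, (Set.range c ∪ x '' {m | m < n}))
    (fun y hy => Set.mem_iUnion.2 ⟨0, Or.inl hy⟩) (fun y hy => by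
      rw [hx] at hy
      obtain ⟨m, rfl⟩ := hy
      exact subset_cl _ (Set.mem_iUnion.2 ⟨m + 1, Or.inr ⟨m, Nat.lt_succ_self m, rfl⟩⟩)) hf1
  exact ⟨F⟩

end Pool.Agent.Work.MP_ed0a9a_lc.E
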