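import Pool.Agent.Work.MP_ed0a9a_lc.E.GIs
import Pool.Agent.Work.MP_ed0a9a_lc.E.GBg
import Pool.Agent.Work.MP_ed0a9a_lc.E.GEm

/-!
# Module `GNx` (size M): the next dimension

PROOF.  Let `b` be a basis (`h`).  `exists_bigR` for `N` gives `U`, `j : N ↪ₑ U`.  Let `c' = j ∘ c`, `b' = j ∘ b`, and `y ∈ Dset φ c'`,
`y ∉ cl (Set.range c' ∪ Set.range b')`; `b'' = Fin.snoc b' y` is independent over `c'` (`indR_snoc_iff`, `indR_map`).  The set
`B' = Set.range c' ∪ (cl (Set.range c' ∪ Set.range b'') ∩ Dset φ c')` is countable (`countable_cl`).  By `exists_ctb` there is a countable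
elementary substructure `U₁` of `U` containing `B'`, `Set.range j`, `y`; consider `c'`, `b''`, `B'` in `U₁` (all the notions agree by
`sameTp_coe`, `map_mem_cl`; e.g. `B'` computed in `U₁` has the same definition).  `exists_constr` for `U₁` (`no_dtree`) and `B'` gives
`S`, `i : S ↪ₑ U₁`.  Let `c_S`, `b_S` be the tuples with `i ∘ c_S = c'`, `i ∘ b_S = b''` (the entries of `b''` are in `B'`: `subset_cl`,
`b'' l ∈ Dset φ c'`).  Then `i ⁻¹' B' = Set.range c_S ∪ (cl (Set.range c_S ∪ Set.range b_S) ∩ Dset φ c_S)` (`map_mem_cl`, `i` injective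
and elementary).  The set `cl (Set.range c_S ∪ Set.range b_S) ∩ Dset φ c_S` is infinite: for `x ∈ Dset φ c` (infinitely many, `hB.inf`) `x` is
in `cl (Set.range c ∪ Set.range b)`, so `j x ∈ B'` (`map_mem_cl`, `cl_mono`), `j x = i x'`, `x'` in this set.  So by `span_of_constr`
`HasDimR φ c_S (d + 1)` holds with the basis `b_S` (`indR_map`).
The embedding `f : N ↪ₑ S`: by `emb_of_dimR` for `N`, `c`, `b` and `S`, `c_S`, `b_S ∘ Fin.castSucc` (`indR_comp`), `f ∘ c = c_S`.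
-/

namespace Pool.Agent.Work.MP_ed0a9a_lc.E

open FirstOrder FirstOrder.Language

private theorem gnx_dset {L : FirstOrder.Language.{0, 0}} {N N' : Type} [L.Structure N]
    [L.Structure N'] (f : N ↪ₑ[L] N') {p : ℕ} (φ : L.Formula (Fin (p + 1))) (c : Fin p → N)
    (x : N) : f x ∈ Dset L φ (f ∘ c) ↔ x ∈ Dset L φ c := by
  have h := f.map_formula φ (Fin.snoc c x : Fin (p + 1) → N)
  rw [Fin.comp_snoc] at h
  exact h

private theorem gnx_cl {L : FirstOrder.Language.{0, 0}} {N N' : Type} [L.Structure N]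
    [L.Structure N'] (f : N ↪ₑ[L] N') {p d : ℕ} (c : Fin p → N) (b : Fin d → N)
    (x : N) : f x ∈ cl L (Set.range (f ∘ c) ∪ Set.range (f ∘ b)) ↔
      x ∈ cl L (Set.range c ∪ Set.range b) := by
  rw [← map_mem_cl f, Set.image_union, Set.range_comp, Set.range_comp]

theorem exists_next {a : ℕ → ℕ} {T : (sig a).Theory} {p : ℕ} {θ : (sig a).Formula (Fin p)}
    {φ : (sig a).Formula (Fin (p + 1))} (hB : Base T θ φ)
    (hcat : (Cardinal.aleph 1 : Cardinal.{0}).Categorical T) {N : Type} [Nonempty N]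
    [Countable N] [(sig a).Structure N] (hN : N ⊨ T) {c : Fin p → N} (hc : θ.Realize c)
    {d : ℕ} (h : HasDimR (sig a) φ c d) :
    ∃ (N' : Type) (_ : Nonempty N') (_ : Countable N') (_ : (sig a).Structure N')
      (f : N ↪ₑ[sig a] N'), N' ⊨ T ∧ HasDimR (sig a) φ (f ∘ c) (d + 1) := by
  obtain ⟨b, hb, hi, hs⟩ := h
  obtain ⟨U, _, _, j, hU, big⟩ := exists_bigR hB hN
  have hc' : θ.Realize (j ∘ c) := (j.map_formula θ c).2 hc
  obtain ⟨y, hy, hyc⟩ := big (j ∘ c) hc' (Set.range (j ∘ c) ∪ Set.range (j ∘ b))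
    ((Set.countable_range _).union (Set.countable_range _))
  have hb'' : ∀ i, (Fin.snoc (j ∘ b) y : Fin (d + 1) → U) i ∈ Dset (sig a) φ (j ∘ c) := by
    intro i
    refine Fin.lastCases ?_ (fun i => ?_) i
    · rw [Fin.snoc_last]
      exact hy
    · rw [Fin.snoc_castSucc]
      exact (gnx_dset j φ c (b i)).2 (hb i)
  have hi'' : IndR (sig a) (j ∘ c) (Fin.snoc (j ∘ b) y : Fin (d + 1) → U) :=
    indR_snoc_iff.2 ⟨(indR_map j).2 hi, hyc⟩
  obtain ⟨U₁, hU₁, hU₁c⟩ := exists_ctb (a := a) (N := U)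
    (Set.range j ∪ (Set.range (j ∘ c) ∪ (Set.range (Fin.snoc (j ∘ b) y : Fin (d + 1) → U))))
    ((Set.countable_range _).union ((Set.countable_range _).union (Set.countable_range _)))
  have hj : ∀ x, j x ∈ U₁ := fun x => hU₁ (Or.inl ⟨x, rfl⟩)
  have hbm : ∀ i, (Fin.snoc (j ∘ b) y : Fin (d + 1) → U) i ∈ U₁ :=
    fun i => hU₁ (Or.inr (Or.inr ⟨i, rfl⟩))
  let ι : U₁ ↪ₑ[sig a] U := U₁.subtype
  have hι : ∀ x : U₁, ι x = (x : U) := fun x => rfl
  let c₁ : Fin p → U₁ := fun i => ⟨j (c i), hj (c i)⟩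
  let b₁ : Fin (d + 1) → U₁ := fun i => ⟨(Fin.snoc (j ∘ b) y : Fin (d + 1) → U) i, hbm i⟩
  have ec : ι ∘ c₁ = j ∘ c := rfl
  have eb : ι ∘ b₁ = (Fin.snoc (j ∘ b) y : Fin (d + 1) → U) := rfl
  have hU₁T : U₁ ⊨ T := (U₁.theory_model_iff T).2 hU
  have hb₁ : ∀ i, b₁ i ∈ Dset (sig a) φ c₁ := by
    intro i
    rw [← gnx_dset ι φ c₁ (b₁ i), ec]
    exact hb'' i
  have hi₁ : IndR (sig a) c₁ b₁ := by
    rw [← indR_map ι, ec, eb]
    exact hi''
  obtain ⟨S, _, _, _, i, hBi, hcn⟩ := exists_constr (no_dtree hcat hU₁T)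
    (Set.range c₁ ∪ (cl (sig a) (Set.range c₁ ∪ Set.range b₁) ∩ Dset (sig a) φ c₁))
  have hST : S ⊨ T := (i.theory_model_iff T).2 hU₁T
  have hcS : ∀ l, ∃ x, i x = c₁ l := fun l => hBi (Or.inl ⟨l, rfl⟩)
  have hbS : ∀ l, ∃ x, i x = b₁ l := fun l =>
    hBi (Or.inr ⟨subset_cl _ (Or.inr ⟨l, rfl⟩), hb₁ l⟩)
  choose cS hcS' using hcS
  choose bS hbS' using hbS
  have ecS : i ∘ cS = c₁ := funext hcS'
  have ebS : i ∘ bS = b₁ := funext hbS'
  have hθS : θ.Realize cS := by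
    have h1 := i.map_formula θ cS
    rw [ecS] at h1
    rw [← h1]
    have h2 := ι.map_formula θ c₁
    rw [ec] at h2
    rw [← h2]
    exact hc'
  have hset : i ⁻¹' (Set.range c₁ ∪ (cl (sig a) (Set.range c₁ ∪ Set.range b₁) ∩
      Dset (sig a) φ c₁)) = Set.range cS ∪ (cl (sig a) (Set.range cS ∪ Set.range bS) ∩
      Dset (sig a) φ cS) := by
    ext x
    have h1 := gnx_cl i cS bS x
    have h2 := gnx_dset i φ cS x
    rw [ecS, ebS] at h1
    rw [ecS] at h2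
    have h3 : i x ∈ Set.range c₁ ↔ x ∈ Set.range cS := by
      constructor
      · rintro ⟨l, hl⟩
        refine ⟨l, i.injective ?_⟩
        rw [hcS', hl]
      · rintro ⟨l, rfl⟩
        exact ⟨l, (hcS' l).symm⟩
    rw [Set.mem_preimage, Set.mem_union, Set.mem_union, Set.mem_inter_iff, Set.mem_inter_iff,
      h1, h2, h3]
  rw [hset] at hcn
  have hinf : (cl (sig a) (Set.range cS ∪ Set.range bS) ∩ Dset (sig a) φ cS).Infinite := by
    have h1 : (j '' Dset (sig a) φ c).Infinite :=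
      (hB.inf N hN c hc).image j.injective.injOn
    refine Set.Infinite.of_image (fun x => ι (i x)) (h1.mono ?_)
    rintro _ ⟨x, hx, rfl⟩
    have h2 : j x ∈ cl (sig a) (Set.range (j ∘ c) ∪
        Set.range (Fin.snoc (j ∘ b) y : Fin (d + 1) → U)) := by
      have h3 := (gnx_cl j c b x).2 (hs hx)
      refine cl_mono (Set.union_subset_union_right _ ?_) h3
      rintro _ ⟨l, rfl⟩
      exact ⟨l.castSucc, Fin.snoc_castSucc _ _ _⟩
    have h4 : (⟨j x, hj x⟩ : U₁) ∈ cl (sig a) (Set.range c₁ ∪ Set.range b₁) := by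
      rw [← gnx_cl ι c₁ b₁, ec, eb]
      exact h2
    have h5 : (⟨j x, hj x⟩ : U₁) ∈ Dset (sig a) φ c₁ := by
      rw [← gnx_dset ι φ c₁, ec]
      exact (gnx_dset j φ c x).2 hx
    obtain ⟨x', hx'⟩ := hBi (Or.inr ⟨h4, h5⟩)
    refine ⟨x', ⟨?_, ?_⟩, ?_⟩
    · rw [← gnx_cl i cS bS, ecS, ebS, hx']
      exact h4
    · rw [← gnx_dset i φ cS, ecS, hx']
      exact h5
    · change ι (i x') = j x
      rw [hx']
      rfl
  have hspan := span_of_constr hB hST hθS hcn hinf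
  have hbS2 : ∀ l, bS l ∈ Dset (sig a) φ cS := by
    intro l
    rw [← gnx_dset i φ cS, ecS, hbS']
    exact hb₁ l
  have hiS : IndR (sig a) cS bS := by
    rw [← indR_map i, ecS, ebS]
    exact hi₁
  obtain ⟨f, hf, -⟩ := emb_of_dimR hB hcat hN hST hc hθS hb hi hs
    (b' := bS ∘ Fin.castSucc) (fun l => hbS2 _) (indR_comp hiS (Fin.strictMono_castSucc))
  refine ⟨S, inferInstance, inferInstance, inferInstance, f, hST, ?_⟩
  have hfc : f ∘ c = cS := funext hf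
  rw [hfc]
  exact ⟨bS, hbS2, hiS, hspan⟩

end Pool.Agent.Work.MP_ed0a9a_lc.E
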