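import Pool.Agent.Work.MP_ed0a9a_lc.E.KpA
import Pool.Agent.Work.MP_ed0a9a_lc.E.GNx
import Pool.Agent.Work.MP_ed0a9a_lc.E.GIf

/-!
# Module `GDim` (size M): the dimension of the model `A i` is `d₀ + i`

PROOF.  `kappa` for `K e i := ∃ c : Fin p → A i, θ.Realize c ∧ HasDimR φ c e`.
* `k1`: let `i : ℕ`, `c` in `A i` with `θ(c)` (`hB.ex`).  If for some `k` there is no independent tuple of length `k + 1` in
  `Dset φ c`, then `exists_dimR_of_not`.  Otherwise (a tuple of length `k` exists for every `k`: `k = 0`: the empty tuple) by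
  `emb_of_infR` `A (i + 1) ↪ₑ A i`, so `i + 1 ≤ i` by `h3`: contradiction.
* `k2`: let `b`, `b'` be the bases; `emb_of_dimR` for `b` and `b' ∘ Fin.castLE` (`indR_comp`): `A i ↪ₑ A i'`, so `i ≤ i'` by `h3`.
* `k3`: `exists_next` gives `N'`, isomorphic to some `A i'` (`h2`); `hasDimR_map` (and `θ` is preserved by elementary embeddings and
  isomorphisms: `sameTp_map`).
* `k4`: `N = A i` has `c₂` with dimension `e` and `c₁` with dimension `e + 1`, with basis `b₁`.  `exists_next` for `c₂`: `N'`,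
  `f : N ↪ₑ N'`, `HasDimR φ (f ∘ c₂) (e + 1)`.  By `iso_of_dimR` (`N'`, `f ∘ c₂` and `A i`, `c₁`) `N' ≃ A i`.  `f` is not onto: otherwise it
  is an isomorphism and `HasDimR φ (f ∘ c₂) e` (`hasDimR_map`), contradicting `dimR_unique`.  By `hB.nvp` for the elementary
  substructure `Set.range f` (`exists_range`) and `f ∘ c₁` there is `y ∈ Dset φ (f ∘ c₁)`, `y ∉ Set.range f`; `Set.range f` contains
  `cl (Set.range (f ∘ c₁) ∪ Set.range (f ∘ b₁))` (`cl_subset`), so `Fin.snoc (f ∘ b₁) y` is independent over `f ∘ c₁` (`indR_snoc_iff`,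
  `indR_map`), of length `e + 2`.  If `Dset φ (f ∘ c₁)` contains independent tuples of every length then `A (i + 1) ↪ₑ N' ≃ A i`
  (`emb_of_infR`), contradiction to `h3`.  Otherwise by `exists_dimR_of_not` `HasDimR φ (f ∘ c₁) e'` for some `e'`, `e' ≥ e + 2` by
  `indR_le`, and `K e' i` by the isomorphism `N' ≃ A i`.
-/

namespace Pool.Agent.Work.MP_ed0a9a_lc.E

open FirstOrder FirstOrder.Language

private theorem gdm_dset {L : FirstOrder.Language.{0, 0}} {N N' : Type} [L.Structure N]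
    [L.Structure N'] (f : N ↪ₑ[L] N') {p : ℕ} (φ : L.Formula (Fin (p + 1))) (c : Fin p → N)
    (x : N) : f x ∈ Dset L φ (f ∘ c) ↔ x ∈ Dset L φ c := by
  have h := f.map_formula φ (Fin.snoc c x : Fin (p + 1) → N)
  rw [Fin.comp_snoc] at h
  exact h

private theorem gdm_cl {L : FirstOrder.Language.{0, 0}} {N N' : Type} [L.Structure N]
    [L.Structure N'] (f : N ↪ₑ[L] N') {p d : ℕ} (c : Fin p → N) (b : Fin d → N)
    (x : N) : f x ∈ cl L (Set.range (f ∘ c) ∪ Set.range (f ∘ b)) ↔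
      x ∈ cl L (Set.range c ∪ Set.range b) := by
  rw [← map_mem_cl f, Set.image_union, Set.range_comp, Set.range_comp]

private theorem gdm_not {L : FirstOrder.Language.{0, 0}} {N : Type} [L.Structure N] {p : ℕ}
    {φ : L.Formula (Fin (p + 1))} {c : Fin p → N}
    (h : ¬ ∀ k, ∃ b : Fin k → N, (∀ i, b i ∈ Dset L φ c) ∧ IndR L c b) :
    ∃ d, HasDimR L φ c d := by
  obtain ⟨k, hk⟩ := not_forall.1 h
  rcases Nat.eq_zero_or_pos k with h0 | hpos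
  · subst h0
    exact absurd ⟨Fin.elim0, fun i => i.elim0, indR_zero c _⟩ hk
  · obtain ⟨k', rfl⟩ : ∃ k', k = k' + 1 := ⟨k - 1, by omega⟩
    obtain ⟨d, -, hd⟩ := exists_dimR_of_not (c := c) (φ := φ) (k := k')
      (fun b hb hi => hk ⟨b, hb, hi⟩)
    exact ⟨d, hd⟩

theorem exists_dimR {a : ℕ → ℕ} {T : (sig a).Theory} {p : ℕ} {θ : (sig a).Formula (Fin p)}
    {φ : (sig a).Formula (Fin (p + 1))} (hB : Base T θ φ)
    (hcat : (Cardinal.aleph 1 : Cardinal.{0}).Categorical T) (A : ℕ∞ → Type)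
    [∀ i, Nonempty (A i)] (S : ∀ i, (sig a).Structure (A i))
    (h1 : ∀ i, Countable (A i) ∧ A i ⊨ T)
    (h2 : ∀ (N : Type) [Nonempty N] [Countable N] [(sig a).Structure N], N ⊨ T →
      ∃ i, Nonempty (A i ≃[sig a] N))
    (h3 : ∀ i j, Nonempty (A i ↪ₑ[sig a] A j) ↔ i ≤ j) :
    ∃ d₀ : ℕ, ∀ i e : ℕ, (∃ c : Fin p → A i, θ.Realize c ∧ HasDimR (sig a) φ c e) ↔
      e = d₀ + i := by
  have hctb : ∀ i, Countable (A i) := fun i => (h1 i).1
  have hmod : ∀ i, A i ⊨ T := fun i => (h1 i).2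
  have hlt : ∀ i : ℕ, ¬ Nonempty (A ((i + 1 : ℕ) : ℕ∞) ↪ₑ[sig a] A (i : ℕ∞)) := by
    intro i h
    have h4 := (h3 _ _).1 h
    have h5 : i + 1 ≤ i := by exact_mod_cast h4
    omega
  refine kappa (fun e i => ∃ c : Fin p → A i, θ.Realize c ∧ HasDimR (sig a) φ c e)
    ?_ ?_ ?_ ?_
  · intro i
    obtain ⟨c, hc⟩ := hB.ex (A i) (hmod i)
    obtain ⟨c', hc'⟩ := hB.ex (A ((i + 1 : ℕ) : ℕ∞)) (hmod _)
    have h4 : ¬ ∀ k, ∃ b : Fin k → A i, (∀ l, b l ∈ Dset (sig a) φ c) ∧ IndR (sig a) c b :=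
      fun h5 => hlt i (emb_of_infR hB hcat (hmod _) (hmod i) hc' hc h5)
    obtain ⟨d, hd⟩ := gdm_not h4
    exact ⟨d, c, hc, hd⟩
  · rintro e e' i i' ⟨c, hc, b, hb, hi, hs⟩ ⟨c', hc', b', hb', hi', hs'⟩ hee
    have m1 : StrictMono (Fin.castLE hee) := fun i j hij => hij
    obtain ⟨f, -, -⟩ := emb_of_dimR hB hcat (hmod i) (hmod i') hc hc' hb hi hs
      (b' := b' ∘ Fin.castLE hee) (fun l => hb' _) (indR_comp hi' m1)
    exact (h3 i i').1 ⟨f⟩
  · rintro e i ⟨c, hc, hd⟩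
    obtain ⟨N', _, _, _, f, hN', hd'⟩ := exists_next hB hcat (hmod i) hc hd
    obtain ⟨i', ⟨g⟩⟩ := h2 N' hN'
    refine ⟨i', g.symm ∘ (f ∘ c), ?_, hasDimR_map g.symm hd'⟩
    have h4 : θ.Realize (f ∘ c) := (f.map_formula θ c).2 hc
    exact (g.symm.toElementaryEmbedding.map_formula θ (f ∘ c)).2 h4
  · rintro e i ⟨c₂, hc₂, hd₂⟩ ⟨c₁, hc₁, hd₁⟩
    obtain ⟨N', _, _, _, f, hN', hd'⟩ := exists_next hB hcat (hmod i) hc₂ hd₂
    have hfc₂ : θ.Realize (f ∘ c₂) := (f.map_formula θ c₂).2 hc₂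
    have hfc₁ : θ.Realize (f ∘ c₁) := (f.map_formula θ c₁).2 hc₁
    obtain ⟨g, -⟩ := iso_of_dimR hB hcat hN' (hmod i) hfc₂ hc₁ hd' hd₁
    have hns : ¬ Function.Surjective f := by
      intro hsur
      obtain ⟨b₂, hb₂, hi₂, hs₂⟩ := hd₂
      have h4 : HasDimR (sig a) φ (f ∘ c₂) e := by
        refine ⟨f ∘ b₂, fun l => (gdm_dset f φ c₂ (b₂ l)).2 (hb₂ l), (indR_map f).2 hi₂, ?_⟩
        intro z hz
        obtain ⟨x, rfl⟩ := hsur z
        exact (gdm_cl f c₂ b₂ x).2 (hs₂ ((gdm_dset f φ c₂ x).1 hz))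
      have h5 := dimR_unique hB hN' hfc₂ h4 hd'
      omega
    obtain ⟨b₁, hb₁, hi₁, hs₁⟩ := hd₁
    obtain ⟨S₀, hS₀, -⟩ := exists_range f
    have hm : ∀ x, f x ∈ S₀ := by
      intro x
      have h4 : f x ∈ (S₀ : Set N') := by
        rw [hS₀]
        exact ⟨x, rfl⟩
      exact h4
    obtain ⟨y, hy, hyS⟩ : ∃ y ∈ Dset (sig a) φ (f ∘ c₁), y ∉ S₀ := by
      by_contra hcon
      apply hns
      have h4 := hB.nvp N' hN' (f ∘ c₁) hfc₁ S₀ (fun l => hm _) (fun z hz => by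
        by_contra h5
        exact hcon ⟨z, hz, h5⟩)
      rw [hS₀] at h4
      exact Set.range_eq_univ.1 h4
    have hyc : y ∉ cl (sig a) (Set.range (f ∘ c₁) ∪ Set.range (f ∘ b₁)) := by
      intro h4
      apply hyS
      refine cl_subset S₀ ?_ h4
      rintro _ (⟨l, rfl⟩ | ⟨l, rfl⟩)
      · exact hm _
      · exact hm _
    have hi₃ : IndR (sig a) (f ∘ c₁) (Fin.snoc (f ∘ b₁) y : Fin (e + 1 + 1) → N') :=
      indR_snoc_iff.2 ⟨(indR_map f).2 hi₁, hyc⟩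
    have hb₃ : ∀ l, (Fin.snoc (f ∘ b₁) y : Fin (e + 1 + 1) → N') l ∈
        Dset (sig a) φ (f ∘ c₁) := by
      intro l
      refine Fin.lastCases ?_ (fun l => ?_) l
      · rw [Fin.snoc_last]
        exact hy
      · rw [Fin.snoc_castSucc]
        exact (gdm_dset f φ c₁ (b₁ l)).2 (hb₁ l)
    obtain ⟨c', hc'⟩ := hB.ex (A ((i + 1 : ℕ) : ℕ∞)) (hmod _)
    have h4 : ¬ ∀ k, ∃ b : Fin k → N', (∀ l, b l ∈ Dset (sig a) φ (f ∘ c₁)) ∧
        IndR (sig a) (f ∘ c₁) b := by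
      intro h5
      obtain ⟨u⟩ := emb_of_infR hB hcat (hmod ((i + 1 : ℕ) : ℕ∞)) hN' hc' hfc₁ h5
      exact hlt i ⟨g.toElementaryEmbedding.comp u⟩
    obtain ⟨e', he'⟩ := gdm_not h4
    refine ⟨e', ?_, g ∘ (f ∘ c₁), ?_, hasDimR_map g he'⟩
    · obtain ⟨b₄, hb₄, hi₄, hs₄⟩ := he'
      exact indR_le hB hN' hfc₁ b₄ _ hb₄ hb₃ hi₃ (fun l => hs₄ (hb₃ l))
    · exact (g.toElementaryEmbedding.map_formula θ (f ∘ c₁)).2 hfc₁

end Pool.Agent.Work.MP_ed0a9a_lc.E
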