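import Pool.Agent.Work.MP_ed0a9a_lc.E.ClT
import Pool.Agent.Work.MP_ed0a9a_lc.E.Fml
import Pool.Agent.Work.MP_ed0a9a_lc.E.BDefs

/-!
# Module `GEx` (size M): exchange in a strongly minimal set

Compare the module `Exch` (the case of a strongly minimal theory), its proof can be adapted.

PROOF.  Let `D = Dset L φ c`.  By `mem_cl_insert` and `acl_iff` there are `b` in `B`, `ψ`, `n` with `ψ(b, y, x)` and `ψ(b, y, ·)` has at most
`n` solutions; replacing `ψ(b, y', x')` by `ψ(b, y', x') ∧ (ψ(b, y', ·) has at most n solutions)` (`exists_atMost`) we may assume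
that `ψ(b, y', ·)` has at most `n` solutions for all `y'`.  Suppose `y ∉ cl (insert x B)`.  The set `Y = {y' ∈ D | ψ(b, y', x)}` is
defined by a formula with parameters `c, b, x` in `insert x B`, and contains `y`, so it is infinite; by `hB.sm` the set
`{y' ∈ D | ¬ψ(b, y', x)}` is finite, with `m` elements.  Let `X = {x' ∈ D | {y' ∈ D | ¬ψ(b, y', x')} is finite with at most m elements}`,
defined by a formula with parameters `c, b` in `B` (`exists_atMost`).  `x ∈ X` and `x ∉ cl B`, so `X` is infinite: let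
`x₀, …, x_n ∈ X` be distinct (`Set.Infinite.natEmbedding`).  `D` is infinite (`hB.inf`), so there is `y' ∈ D` with `ψ(b, y', x_i)` for all
`i ≤ n`: `n + 1` solutions of `ψ(b, y', ·)`, a contradiction.
-/

namespace Pool.Agent.Work.MP_ed0a9a_lc.E

open FirstOrder FirstOrder.Language

private theorem gex_fml {L : FirstOrder.Language.{0, 0}} {k : ℕ}
    (φ : L.Formula (Fin (k + 1 + 1))) (n : ℕ) : ∃ χ : L.Formula (Fin (k + 1 + 1)),
    ∀ (N : Type) [L.Structure N] (b : Fin k → N) (x y : N),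
      χ.Realize (Fin.snoc (Fin.snoc b x : Fin (k + 1) → N) y : Fin (k + 1 + 1) → N) ↔
        φ.Realize (Fin.snoc (Fin.snoc b y : Fin (k + 1) → N) x : Fin (k + 1 + 1) → N) ∧
        {z | φ.Realize (Fin.snoc (Fin.snoc b y : Fin (k + 1) → N) z :
          Fin (k + 1 + 1) → N)}.Finite ∧
        {z | φ.Realize (Fin.snoc (Fin.snoc b y : Fin (k + 1) → N) z :
          Fin (k + 1 + 1) → N)}.ncard ≤ n := by
  obtain ⟨ψ, hψ⟩ := exists_atMost φ n
  refine ⟨φ.relabel (Fin.snoc (Fin.snoc (fun i : Fin k => i.castSucc.castSucc)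
      (Fin.last (k + 1)) : Fin (k + 1) → Fin (k + 1 + 1)) (Fin.last k).castSucc :
        Fin (k + 1 + 1) → Fin (k + 1 + 1)) ⊓
    ψ.relabel (Fin.snoc (fun i : Fin k => i.castSucc.castSucc)
      (Fin.last (k + 1)) : Fin (k + 1) → Fin (k + 1 + 1)), ?_⟩
  intro N _ b x y
  rw [Formula.realize_inf, Formula.realize_relabel, Formula.realize_relabel]
  have e1 : (Fin.snoc (Fin.snoc b x : Fin (k + 1) → N) y : Fin (k + 1 + 1) → N) ∘
      (Fin.snoc (fun i : Fin k => i.castSucc.castSucc)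
      (Fin.last (k + 1)) : Fin (k + 1) → Fin (k + 1 + 1)) = (Fin.snoc b y : Fin (k + 1) → N) := by
    rw [Fin.comp_snoc]
    simp [Function.comp_def]
  have e2 : (Fin.snoc (Fin.snoc b x : Fin (k + 1) → N) y : Fin (k + 1 + 1) → N) ∘
      (Fin.snoc (Fin.snoc (fun i : Fin k => i.castSucc.castSucc)
      (Fin.last (k + 1)) : Fin (k + 1) → Fin (k + 1 + 1)) (Fin.last k).castSucc :
        Fin (k + 1 + 1) → Fin (k + 1 + 1)) =
      (Fin.snoc (Fin.snoc b y : Fin (k + 1) → N) x : Fin (k + 1 + 1) → N) := by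
    rw [Fin.comp_snoc, e1]
    simp
  rw [e1, e2, hψ]

private theorem gex_and {L : FirstOrder.Language.{0, 0}} {p k : ℕ}
    (φ : L.Formula (Fin (p + 1))) (χ : L.Formula (Fin (k + 1 + 1))) :
    ∃ σ : L.Formula (Fin (p + k + 1 + 1)),
    ∀ (N : Type) [L.Structure N] (c : Fin p → N) (b : Fin k → N) (x y : N),
      σ.Realize (Fin.snoc (Fin.snoc (Fin.append c b) x : Fin (p + k + 1) → N) y :
        Fin (p + k + 1 + 1) → N) ↔
        φ.Realize (Fin.snoc c y : Fin (p + 1) → N) ∧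
        χ.Realize (Fin.snoc (Fin.snoc b x : Fin (k + 1) → N) y : Fin (k + 1 + 1) → N) := by
  let f1 : Fin p → Fin (p + k + 1 + 1) := fun i => (Fin.castAdd k i).castSucc.castSucc
  let f2 : Fin k → Fin (p + k + 1 + 1) := fun i => (Fin.natAdd p i).castSucc.castSucc
  let g1 : Fin (p + 1) → Fin (p + k + 1 + 1) :=
    Fin.snoc (α := fun _ => Fin (p + k + 1 + 1)) f1 (Fin.last _)
  let g2 : Fin (k + 1) → Fin (p + k + 1 + 1) :=
    Fin.snoc (α := fun _ => Fin (p + k + 1 + 1)) f2 (Fin.last _).castSucc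
  let g3 : Fin (k + 1 + 1) → Fin (p + k + 1 + 1) :=
    Fin.snoc (α := fun _ => Fin (p + k + 1 + 1)) g2 (Fin.last _)
  refine ⟨φ.relabel g1 ⊓ χ.relabel g3, ?_⟩
  intro N _ c b x y
  rw [Formula.realize_inf, Formula.realize_relabel, Formula.realize_relabel]
  have e0 : (Fin.snoc (Fin.snoc (Fin.append c b) x : Fin (p + k + 1) → N) y :
        Fin (p + k + 1 + 1) → N) ∘ f1 = c := by
    funext i
    change (Fin.snoc (Fin.snoc (Fin.append c b) x : Fin (p + k + 1) → N) y :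
        Fin (p + k + 1 + 1) → N) (Fin.castAdd k i).castSucc.castSucc = c i
    rw [Fin.snoc_castSucc, Fin.snoc_castSucc, Fin.append_left]
  have e0' : (Fin.snoc (Fin.snoc (Fin.append c b) x : Fin (p + k + 1) → N) y :
        Fin (p + k + 1 + 1) → N) ∘ f2 = b := by
    funext i
    change (Fin.snoc (Fin.snoc (Fin.append c b) x : Fin (p + k + 1) → N) y :
        Fin (p + k + 1 + 1) → N) (Fin.natAdd p i).castSucc.castSucc = b i
    rw [Fin.snoc_castSucc, Fin.snoc_castSucc, Fin.append_right]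
  have e1 : (Fin.snoc (Fin.snoc (Fin.append c b) x : Fin (p + k + 1) → N) y :
        Fin (p + k + 1 + 1) → N) ∘ g1 = (Fin.snoc c y : Fin (p + 1) → N) := by
    simp only [g1]
    rw [Fin.comp_snoc, e0, Fin.snoc_last]
  have e2 : (Fin.snoc (Fin.snoc (Fin.append c b) x : Fin (p + k + 1) → N) y :
        Fin (p + k + 1 + 1) → N) ∘ g2 = (Fin.snoc b x : Fin (k + 1) → N) := by
    simp only [g2]
    rw [Fin.comp_snoc, e0', Fin.snoc_castSucc, Fin.snoc_last]
  have e3 : (Fin.snoc (Fin.snoc (Fin.append c b) x : Fin (p + k + 1) → N) y :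
        Fin (p + k + 1 + 1) → N) ∘ g3 =
      (Fin.snoc (Fin.snoc b x : Fin (k + 1) → N) y : Fin (k + 1 + 1) → N) := by
    simp only [g3]
    rw [Fin.comp_snoc, e2, Fin.snoc_last]
  rw [e1, e3]

theorem exchangeR {L : FirstOrder.Language.{0, 0}} {T : L.Theory} {p : ℕ}
    {θ : L.Formula (Fin p)} {φ : L.Formula (Fin (p + 1))} (hB : Base T θ φ) {N : Type}
    [Nonempty N] [L.Structure N] (hN : N ⊨ T) {c : Fin p → N} (hc : θ.Realize c) {B : Set N}
    (hcB : Set.range c ⊆ B) {x y : N} (hx : x ∈ Dset L φ c) (hy : y ∈ Dset L φ c)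
    (hxB : x ∉ cl L B) (h : x ∈ cl L (insert y B)) : y ∈ cl L (insert x B) := by
  by_contra hyn
  obtain ⟨k, b, hb, hA⟩ := mem_cl_insert.1 h
  obtain ⟨φ', n, h1, h2, h3⟩ := acl_iff.1 hA
  obtain ⟨χ, hχ⟩ := gex_fml φ' n
  obtain ⟨σ, hσ⟩ := gex_and φ χ
  obtain ⟨σ', hσ'⟩ := gex_and φ χ.not
  have hχ1 := (hχ N b x y).2 ⟨h1, h2, h3⟩
  have hcb : ∀ i, Fin.append c b i ∈ B := by
    intro i
    refine Fin.addCases (fun j => ?_) (fun j => ?_) i
    · rw [Fin.append_left]
      exact hcB ⟨j, rfl⟩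
    · rw [Fin.append_right]
      exact hb j
  have hfin : {y' | σ'.Realize (Fin.snoc (Fin.snoc (Fin.append c b) x : Fin (p + k + 1) → N) y' :
      Fin (p + k + 1 + 1) → N)}.Finite := by
    rcases hB.sm N hN c hc (k + 1) χ (Fin.snoc b x) with h4 | h4
    · refine absurd (mem_cl_insert.2 ⟨p + k, Fin.append c b, hcb, σ, ?_, ?_⟩) hyn
      · exact (hσ N c b x y).2 ⟨hy, hχ1⟩
      · refine h4.subset fun y' hy' => ?_
        exact (hσ N c b x y').1 hy'
    · refine h4.subset fun y' hy' => ?_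
      exact (hσ' N c b x y').1 hy'
  obtain ⟨ρ, hρ⟩ := exists_atMost σ' ({y' | σ'.Realize (Fin.snoc
    (Fin.snoc (Fin.append c b) x : Fin (p + k + 1) → N) y' : Fin (p + k + 1 + 1) → N)}.ncard)
  have hρ1 : ρ.Realize (Fin.snoc (Fin.append c b) x : Fin (p + k + 1) → N) := by
    rw [hρ]
    exact ⟨hfin, le_rfl⟩
  have hinf2 : {x' | ρ.Realize (Fin.snoc (Fin.append c b) x' : Fin (p + k + 1) → N)}.Infinite := by
    intro h4
    exact hxB ⟨p + k, Fin.append c b, hcb, ρ, hρ1, h4⟩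
  obtain ⟨t, ht, htc⟩ := hinf2.exists_subset_card_eq (n + 1)
  have hU : (⋃ x' ∈ t, {y' | σ'.Realize (Fin.snoc (Fin.snoc (Fin.append c b) x' :
      Fin (p + k + 1) → N) y' : Fin (p + k + 1 + 1) → N)}).Finite := by
    refine t.finite_toSet.biUnion fun x' hx' => ?_
    have h5 := ht hx'
    rw [Set.mem_ofPred_eq, hρ] at h5
    exact h5.1
  obtain ⟨ys, hysD, hys⟩ := ((hB.inf N hN c hc).sdiff hU).nonempty
  have hall : ∀ x' ∈ t, χ.Realize (Fin.snoc (Fin.snoc b x' : Fin (k + 1) → N) ys :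
      Fin (k + 1 + 1) → N) := by
    intro x' hx'
    by_contra h6
    exact hys (Set.mem_biUnion hx' ((hσ' N c b x' ys).2 ⟨hysD, h6⟩))
  have hne : t.Nonempty := by
    rw [← Finset.card_pos, htc]
    omega
  obtain ⟨x0, hx0⟩ := hne
  obtain ⟨-, h7, h8⟩ := (hχ N b x0 ys).1 (hall x0 hx0)
  have h9 : (t : Set N) ⊆ {z | φ'.Realize (Fin.snoc (Fin.snoc b ys : Fin (k + 1) → N) z :
          Fin (k + 1 + 1) → N)} := fun x' hx' => ((hχ N b x' ys).1 (hall x' hx')).1
  have h10 := Set.ncard_le_ncard h9 h7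
  rw [Set.ncard_coe_finset, htc] at h10
  omega

end Pool.Agent.Work.MP_ed0a9a_lc.E
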