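import Pool.Agent.Work.MP_ed0a9a_lc.E.SameT
import Pool.Agent.Work.MP_ed0a9a_lc.E.BDefs

/-!
# Module `PElL` (size S-M): partial elementary maps

PROOFS.
* `pel_limit`: `f x = G n x` for the least `n` with `x ∈ C n` (anything if there is none); by `hs` and induction
  `G m x = G n x` for `m ≥ n`, `x ∈ C n`.  A finite tuple in the union is in one `C n` (`hC`).
* `emb_of_pel`: `map_formula'` for formulas over `Fin n`; check the definition of `ElementaryEmbedding`.
* `pel_of_sameTp`: `e i = e j → e' i = e' j` (the formula `x_i = x_j`), so there is `g` with `g (e i) = e' i` (e.g.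
  `g x = if h : ∃ i, e i = x then e' h.choose else default`); a tuple `b` in `Set.range e` is `e ∘ h` for some `h : Fin k → Fin m`, and
  `g ∘ b = e' ∘ h`: `sameTp_comp`.
* `pel_mono`, `pel_comp`: clear.  `pel_cl`: `cl` is preserved: if `y ∈ cl B`, `PEl (insert y B) g` then `g y ∈ cl (g '' B)`: `acl_of_sameTp`.
-/

namespace Pool.Agent.Work.MP_ed0a9a_lc.E

open FirstOrder FirstOrder.Language

variable {L : FirstOrder.Language.{0, 0}} {N N' : Type} [L.Structure N] [L.Structure N']

theorem pel_limit [Nonempty N'] (C : ℕ → Set N) (hC : Monotone C) (G : ℕ → N → N')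
    (hp : ∀ n, PEl L (C n) (G n)) (hs : ∀ n, ∀ x ∈ C n, G (n + 1) x = G n x) :
    ∃ f : N → N', PEl L (⋃ n, C n) f ∧ ∀ n, ∀ x ∈ C n, f x = G n x := by
  classical
  have hG : ∀ n, ∀ x ∈ C n, ∀ d, G (n + d) x = G n x := by
    intro n x hx d
    induction d with
    | zero => rfl
    | succ d ih =>
      rw [← add_assoc, hs (n + d) x (hC (Nat.le_add_right n d) hx), ih]
  let f : N → N' := fun x => if h : ∃ n, x ∈ C n then G (Nat.find h) x else Classical.arbitrary N'
  have hf : ∀ n, ∀ x ∈ C n, f x = G n x := by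
    intro n x hx
    have h : ∃ n, x ∈ C n := ⟨n, hx⟩
    have h1 : Nat.find h ≤ n := Nat.find_min' h hx
    obtain ⟨d, hd⟩ := Nat.exists_eq_add_of_le h1
    show (if h : ∃ n, x ∈ C n then G (Nat.find h) x else Classical.arbitrary N') = G n x
    rw [dif_pos h]
    have h2 := hG (Nat.find h) x (Nat.find_spec h) d
    rw [← hd] at h2
    exact h2.symm
  refine ⟨f, ?_, hf⟩
  intro k b hb
  choose n hn using fun i => Set.mem_iUnion.1 (hb i)
  let M : ℕ := Finset.univ.sup n
  have hM : ∀ i, b i ∈ C M := fun i => hC (Finset.le_sup (Finset.mem_univ i)) (hn i)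
  have e : f ∘ b = G M ∘ b := funext fun i => hf M _ (hM i)
  rw [e]
  exact hp M k b hM

theorem emb_of_pel (f : N → N') (h : PEl L Set.univ f) :
    ∃ F : N ↪ₑ[L] N', ∀ x, F x = f x :=
  ⟨{ toFun := f
     map_formula' := fun n φ x => (h n x (fun _ => Set.mem_univ _) φ).symm }, fun _ => rfl⟩

theorem pel_of_sameTp [Nonempty N'] {m : ℕ} {e : Fin m → N} {e' : Fin m → N'}
    (h : SameTp L e e') : ∃ g : N → N', (∀ i, g (e i) = e' i) ∧ PEl L (Set.range e) g := by
  classical
  have heq : ∀ i j, e i = e j → e' i = e' j := by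
    intro i j hij
    obtain ⟨ψ, hψ⟩ := exists_eq_fml (L := L) i j
    exact (hψ N' e').1 ((h ψ).1 ((hψ N e).2 hij))
  let g : N → N' := fun x =>
    if h : ∃ i, e i = x then e' h.choose else Classical.arbitrary N'
  have hg : ∀ i, g (e i) = e' i := by
    intro i
    have h1 : ∃ j, e j = e i := ⟨i, rfl⟩
    show (if h : ∃ j, e j = e i then e' h.choose else Classical.arbitrary N') = e' i
    rw [dif_pos h1]
    exact heq _ _ h1.choose_spec
  refine ⟨g, hg, ?_⟩
  intro k b hb
  choose r hr using hb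
  have e1 : b = e ∘ r := funext fun i => (hr i).symm
  have e2 : g ∘ b = e' ∘ r := by
    rw [e1]
    exact funext fun i => hg _
  rw [e2, e1]
  exact sameTp_comp h r

theorem pel_mono {B B' : Set N} {g : N → N'} (h : PEl L B' g) (hB : B ⊆ B') : PEl L B g :=
  fun k b hb => h k b fun i => hB (hb i)

theorem pel_congr {B : Set N} {g g' : N → N'} (h : PEl L B g) (hg : ∀ x ∈ B, g' x = g x) :
    PEl L B g' := by
  intro k b hb
  have e : g' ∘ b = g ∘ b := funext fun i => hg _ (hb i)
  rw [e]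
  exact h k b hb

theorem pel_emb (f : N ↪ₑ[L] N') (B : Set N) : PEl L B f :=
  fun _ b _ => sameTp_map f b

theorem pel_comp {N'' : Type} [L.Structure N''] {B : Set N} {g : N → N'} {g' : N' → N''}
    (h : PEl L B g) {B' : Set N'} (h' : PEl L B' g') (hB : ∀ x ∈ B, g x ∈ B') :
    PEl L B (g' ∘ g) :=
  fun k b hb φ => (h k b hb φ).trans (h' k (g ∘ b) (fun i => hB _ (hb i)) φ)

theorem pel_cl {B : Set N} {g : N → N'} {y : N} (h : PEl L (insert y B) g)
    (hy : y ∈ cl L B) : g y ∈ cl L (g '' B) := by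
  obtain ⟨k, b, hb, hA⟩ := hy
  have h1 := h (k + 1) (Fin.snoc b y) (fun i => by
    refine Fin.lastCases ?_ (fun i => ?_) i
    · rw [Fin.snoc_last]
      exact Set.mem_insert _ _
    · rw [Fin.snoc_castSucc]
      exact Set.mem_insert_of_mem _ (hb i))
  rw [Fin.comp_snoc] at h1
  exact ⟨k, g ∘ b, fun i => ⟨b i, hb i, rfl⟩, acl_of_sameTp h1 hA⟩

end Pool.Agent.Work.MP_ed0a9a_lc.E
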