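import Pool.Agent.Work.MP_ed0a9a_lc.E.IndQ
import Pool.Agent.Work.MP_ed0a9a_lc.E.DsB
import Pool.Agent.Work.MP_ed0a9a_lc.E.PElL

/-!
# Module `GGn` (size M): generic types in a strongly minimal set

PROOFS.
* `ext_genD`: it suffices to show that `χ(e, y)` implies `χ(e', y')` (apply it to `∼χ`).  The set
  `Dset φ (e ∘ g) ∩ Dset χ e` is `e`-definable and contains `y`, which is not algebraic over `e`, so it is infinite; by `hB.sm`
  `F = Dset φ (e ∘ g) \ Dset χ e` is finite.  It is the set defined by a formula `ρ` over `e` (`dset_relabel`, `dset_diff`), so by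
  `SameTp e e'` (`exists_atMost`) the set `F' = Dset φ (e' ∘ g) \ Dset χ e'` defined by `ρ` over `e'` is finite, and
  `y'`, not algebraic over `e'`, is not in `F'`.
* `sameTp_gen`: induction on `k` (`b = Fin.snoc (Fin.init b) (b (Fin.last k))`, `Fin.append c (Fin.snoc b y) = Fin.snoc (Fin.append c b) y`
  up to the casts which are definitional for `p + (k + 1)`): `k = 0`: `hB.iso` (`Fin.append c b = c` for `b : Fin 0 → N`); step:
  `ext_genD` with `e = Fin.append c b`, `g = Fin.castAdd k`, `mem_cl_append`, `indR_snoc_iff`.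
* `pel_gen`: a tuple in `insert y B` is built from a tuple `b` in `B` and `y`; let `e` be the tuple `Fin.append c b` in `B`; `y` is not
  algebraic over `e`, `y'` is not algebraic over `g ∘ e` (it would be in `cl (g '' B)`); `SameTp e (g ∘ e)` by `PEl`; `ext_genD`.
-/

namespace Pool.Agent.Work.MP_ed0a9a_lc.E

open FirstOrder FirstOrder.Language

variable {L : FirstOrder.Language.{0, 0}} {T : L.Theory} {p : ℕ} {θ : L.Formula (Fin p)}
  {φ : L.Formula (Fin (p + 1))} {N N' : Type} [Nonempty N] [Nonempty N'] [L.Structure N]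
  [L.Structure N']

private theorem gg_one (hB : Base T θ φ) (hN : N ⊨ T) {m : ℕ} {e : Fin m → N}
    {e' : Fin m → N'} (h : SameTp L e e') (g : Fin p → Fin m) (hθ : θ.Realize (e ∘ g)) {y : N}
    {y' : N'} (hy : y ∈ Dset L φ (e ∘ g)) (hy' : y' ∈ Dset L φ (e' ∘ g)) (hn : ¬ Acl L e y)
    (hn' : ¬ Acl L e' y') (χ : L.Formula (Fin (m + 1)))
    (hχ : χ.Realize (Fin.snoc e y : Fin (m + 1) → N)) :
    χ.Realize (Fin.snoc e' y' : Fin (m + 1) → N') := by
  by_contra hcon
  obtain ⟨ρ₁, hρ₁⟩ := dset_relabel φ g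
  have r1 : ∀ x, ρ₁.Realize (Fin.snoc e x : Fin (m + 1) → N) ↔ x ∈ Dset L φ (e ∘ g) := by
    intro x
    have h1 : x ∈ Dset L ρ₁ e ↔ x ∈ Dset L φ (e ∘ g) := by rw [hρ₁ N e]
    exact h1
  have r2 : ∀ x, ρ₁.Realize (Fin.snoc e' x : Fin (m + 1) → N') ↔ x ∈ Dset L φ (e' ∘ g) := by
    intro x
    have h1 : x ∈ Dset L ρ₁ e' ↔ x ∈ Dset L φ (e' ∘ g) := by rw [hρ₁ N' e']
    exact h1
  have h1 : ¬ (Dset L φ (e ∘ g) ∩ Dset L χ e).Finite := by
    intro hfin
    apply hn
    refine ⟨ρ₁ ⊓ χ, ?_, ?_⟩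
    · rw [Formula.realize_inf]
      exact ⟨(r1 y).2 hy, hχ⟩
    · refine hfin.subset fun x hx => ?_
      have h2 : (ρ₁ ⊓ χ).Realize (Fin.snoc e x : Fin (m + 1) → N) := hx
      rw [Formula.realize_inf] at h2
      exact ⟨(r1 x).1 h2.1, h2.2⟩
  have h2 := (hB.sm N hN (e ∘ g) hθ m χ e).resolve_left h1
  obtain ⟨ψ, hψ⟩ := exists_atMost (ρ₁ ⊓ ∼χ) (Dset L φ (e ∘ g) \ Dset L χ e).ncard
  have h3 : {x | Formula.Realize (ρ₁ ⊓ ∼χ) (Fin.snoc e x : Fin (m + 1) → N)} =
      Dset L φ (e ∘ g) \ Dset L χ e := by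
    ext x
    change Formula.Realize (ρ₁ ⊓ ∼χ) (Fin.snoc e x : Fin (m + 1) → N) ↔ _
    rw [Formula.realize_inf, Formula.realize_not, r1]
    rfl
  have h4 : ψ.Realize e := by
    rw [hψ, h3]
    exact ⟨h2, le_rfl⟩
  have h5 : ψ.Realize e' := (h ψ).1 h4
  rw [hψ] at h5
  apply hn'
  refine ⟨ρ₁ ⊓ ∼χ, ?_, h5.1⟩
  rw [Formula.realize_inf, Formula.realize_not, r2]
  exact ⟨hy', hcon⟩

theorem ext_genD (hB : Base T θ φ) (hN : N ⊨ T) (hN' : N' ⊨ T) {m : ℕ} {e : Fin m → N}
    {e' : Fin m → N'} (h : SameTp L e e') (g : Fin p → Fin m) (hθ : θ.Realize (e ∘ g)) {y : N}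
    {y' : N'} (hy : y ∈ Dset L φ (e ∘ g)) (hy' : y' ∈ Dset L φ (e' ∘ g)) (hn : ¬ Acl L e y)
    (hn' : ¬ Acl L e' y') :
    SameTp L (Fin.snoc e y : Fin (m + 1) → N) (Fin.snoc e' y' : Fin (m + 1) → N') := by
  intro χ
  constructor
  · exact gg_one hB hN h g hθ hy hy' hn hn' χ
  · intro hχ
    by_contra hcon
    have h1 : Formula.Realize (∼χ) (Fin.snoc e y : Fin (m + 1) → N) := by
      rw [Formula.realize_not]
      exact hcon
    have h2 := gg_one hB hN h g hθ hy hy' hn hn' (∼χ) h1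
    rw [Formula.realize_not] at h2
    exact h2 hχ

theorem sameTp_gen (hB : Base T θ φ) (hN : N ⊨ T) (hN' : N' ⊨ T) {c : Fin p → N}
    {c' : Fin p → N'} (hc : θ.Realize c) (hc' : θ.Realize c') {k : ℕ} {b : Fin k → N}
    {b' : Fin k → N'} (hb : ∀ i, b i ∈ Dset L φ c) (hb' : ∀ i, b' i ∈ Dset L φ c')
    (hi : IndR L c b) (hi' : IndR L c' b') :
    SameTp L (Fin.append c b) (Fin.append c' b') := by
  induction k with
  | zero =>
    have h1 : Fin.append c b = c := by
      funext i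
      exact Fin.append_left c b i
    have h2 : Fin.append c' b' = c' := by
      funext i
      exact Fin.append_left c' b' i
    rw [h1, h2]
    exact hB.iso N N' hN hN' c c' hc hc'
  | succ k ih =>
    rw [← Fin.snoc_init_self b] at hi ⊢
    rw [← Fin.snoc_init_self b'] at hi' ⊢
    obtain ⟨i1, i2⟩ := indR_snoc_iff.1 hi
    obtain ⟨i1', i2'⟩ := indR_snoc_iff.1 hi'
    have h1 := ih (b := Fin.init b) (b' := Fin.init b') (fun i => hb i.castSucc)
      (fun i => hb' i.castSucc) i1 i1'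
    have e1 : Fin.append c (Fin.init b) ∘ Fin.castAdd k = c := by
      funext i
      exact Fin.append_left c _ i
    have e1' : Fin.append c' (Fin.init b') ∘ Fin.castAdd k = c' := by
      funext i
      exact Fin.append_left c' _ i
    rw [Fin.append_snoc, Fin.append_snoc]
    refine ext_genD hB hN hN' h1 (Fin.castAdd k) ?_ ?_ ?_ ?_ ?_
    · rw [e1]
      exact hc
    · rw [e1]
      exact hb _
    · rw [e1']
      exact hb' _
    · rw [← mem_cl_append]
      exact i2
    · rw [← mem_cl_append]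
      exact i2'

open Classical in
theorem pel_gen (hB : Base T θ φ) (hN : N ⊨ T) (hN' : N' ⊨ T) {c : Fin p → N}
    (hc : θ.Realize c) {B : Set N} (hcB : Set.range c ⊆ B) {g : N → N'} (hg : PEl L B g)
    {y : N} (hy : y ∈ Dset L φ c) (hyB : y ∉ cl L B) {y' : N'}
    (hy' : y' ∈ Dset L φ (g ∘ c)) (hyB' : y' ∉ cl L (g '' B)) :
    PEl L (insert y B) (Function.update g y y') := by
  intro k t ht
  let ε : {i // t i ≠ y} ≃ Fin (Fintype.card {i // t i ≠ y}) := Fintype.equivFin _
  let b : Fin (Fintype.card {i // t i ≠ y}) → N := fun j => t (ε.symm j)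
  have hb : ∀ j, b j ∈ B := by
    intro j
    rcases ht (ε.symm j) with h1 | h1
    · exact absurd h1 (ε.symm j).2
    · exact h1
  have he : ∀ i, Fin.append c b i ∈ B := by
    intro i
    refine Fin.addCases (fun j => ?_) (fun j => ?_) i
    · rw [Fin.append_left]
      exact hcB ⟨j, rfl⟩
    · rw [Fin.append_right]
      exact hb j
  have e1 : Fin.append c b ∘ Fin.castAdd _ = c := by
    funext i
    exact Fin.append_left c _ i
  have e1' : (g ∘ Fin.append c b) ∘ Fin.castAdd _ = g ∘ c := by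
    rw [Function.comp_assoc, e1]
  have h1 : SameTp L (Fin.snoc (Fin.append c b) y : Fin (p + _ + 1) → N)
      (Fin.snoc (g ∘ Fin.append c b) y' : Fin (p + _ + 1) → N') := by
    refine ext_genD hB hN hN' (hg _ _ he) (Fin.castAdd _) ?_ ?_ ?_ ?_ ?_
    · rw [e1]
      exact hc
    · rw [e1]
      exact hy
    · rw [e1']
      exact hy'
    · intro h2
      exact hyB ⟨_, _, he, h2⟩
    · intro h2
      exact hyB' ⟨_, _, fun i => ⟨_, he i, rfl⟩, h2⟩
  let r : Fin k → Fin (p + Fintype.card {i // t i ≠ y} + 1) := fun i =>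
    if h : t i = y then Fin.last _ else (Fin.natAdd p (ε ⟨i, h⟩)).castSucc
  have h2 := sameTp_comp h1 r
  have e2 : (Fin.snoc (Fin.append c b) y : Fin (p + _ + 1) → N) ∘ r = t := by
    funext i
    by_cases h : t i = y
    · have h3 : r i = Fin.last _ := dif_pos h
      rw [Function.comp_apply, h3, Fin.snoc_last, h]
    · have h3 : r i = (Fin.natAdd p (ε ⟨i, h⟩)).castSucc := dif_neg h
      rw [Function.comp_apply, h3, Fin.snoc_castSucc, Fin.append_right]
      change t (ε.symm (ε ⟨i, h⟩)) = t i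
      rw [Equiv.symm_apply_apply]
  have e3 : (Fin.snoc (g ∘ Fin.append c b) y' : Fin (p + _ + 1) → N') ∘ r =
      Function.update g y y' ∘ t := by
    funext i
    by_cases h : t i = y
    · have h3 : r i = Fin.last _ := dif_pos h
      rw [Function.comp_apply, h3, Fin.snoc_last, Function.comp_apply, h,
        Function.update_self]
    · have h3 : r i = (Fin.natAdd p (ε ⟨i, h⟩)).castSucc := dif_neg h
      rw [Function.comp_apply, h3, Fin.snoc_castSucc, Function.comp_apply, Fin.append_right,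
        Function.comp_apply, Function.update_of_ne h]
      change g (t (ε.symm (ε ⟨i, h⟩))) = g (t i)
      rw [Equiv.symm_apply_apply]
  rw [e2, e3] at h2
  exact h2

end Pool.Agent.Work.MP_ed0a9a_lc.E
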