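import Pool.Agent.Work.MP_ed0a9a_lc.E.IsT
import Pool.Agent.Work.MP_ed0a9a_lc.E.ClT
import Pool.Agent.Work.MP_ed0a9a_lc.E.GDefs

/-!
# Module `GIs` (size M): models constructible over a closed subset of the strongly minimal set

PROOF.  Let `D = Dset L φ c`, `C = cl L (Set.range c ∪ Set.range b)`, `B' = Set.range c ∪ (C ∩ D)`; `B' ⊆ C` (`subset_cl`).  Let
`y ∈ D`, and suppose `y ∉ C`.  By `isol_of_constr` there are `e` in `B'` and `ψ` isolating the type of `y` over `B'`.  The set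
`D ∩ Dset ψ e` is definable over `c`, `e` in `B'` (`dset_inter`) and contains `y`; as `y ∉ C ⊇ cl B'` (`cl_cl`, `cl_mono`), it is
infinite; so by `hB.sm` the set `D \ Dset ψ e` is finite.  `C ∩ D` is infinite, so there is `z ∈ C ∩ D` with `z ∈ Dset ψ e`, and
`z ∈ B'`.  The formula `x ≠ z` has the parameter `z ∈ B'` and is true at `y` (`y ∉ C`), so it is true at every element of
`Dset ψ e`, in particular at `z`: contradiction.
-/

namespace Pool.Agent.Work.MP_ed0a9a_lc.E

open FirstOrder FirstOrder.Language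

theorem span_of_constr {L : FirstOrder.Language.{0, 0}} {T : L.Theory} {p : ℕ}
    {θ : L.Formula (Fin p)} {φ : L.Formula (Fin (p + 1))} (hB : Base T θ φ) {N : Type}
    [Nonempty N] [L.Structure N] (hN : N ⊨ T) {c : Fin p → N} (hc : θ.Realize c) {d : ℕ}
    {b : Fin d → N}
    (hcn : Constr L (Set.range c ∪ (cl L (Set.range c ∪ Set.range b) ∩ Dset L φ c)))
    (hinf : (cl L (Set.range c ∪ Set.range b) ∩ Dset L φ c).Infinite) :
    Dset L φ c ⊆ cl L (Set.range c ∪ Set.range b) := by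
  intro y hy
  by_contra hyC
  obtain ⟨k, e, ψ, he, hψ, hall⟩ := isol_of_constr hcn y
  have hBC : Set.range c ∪ (cl L (Set.range c ∪ Set.range b) ∩ Dset L φ c) ⊆
      cl L (Set.range c ∪ Set.range b) := by
    rintro x (hx | hx)
    · exact subset_cl _ (Or.inl hx)
    · exact hx.1
  have h1 : ¬ (Dset L φ c ∩ Dset L ψ e).Finite := by
    intro hfin
    obtain ⟨ρ, hρ⟩ := dset_inter φ ψ
    have h2 := hρ N c e
    apply hyC
    refine cl_cl _ (cl_mono hBC ?_)
    refine ⟨p + k, Fin.append c e, ?_, ρ, ?_, ?_⟩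
    · intro i
      refine Fin.addCases (fun j => ?_) (fun j => ?_) i
      · rw [Fin.append_left]
        exact Or.inl ⟨j, rfl⟩
      · rw [Fin.append_right]
        exact he j
    · change y ∈ Dset L ρ (Fin.append c e)
      rw [h2]
      exact ⟨hy, hψ⟩
    · change (Dset L ρ (Fin.append c e)).Finite
      rw [h2]
      exact hfin
  have h2 : (Dset L φ c \ Dset L ψ e).Finite := (hB.sm N hN c hc k ψ e).resolve_left h1
  obtain ⟨z, hz, hz'⟩ : ∃ z ∈ cl L (Set.range c ∪ Set.range b) ∩ Dset L φ c,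
      z ∈ Dset L ψ e := by
    by_contra hcon
    apply hinf
    refine h2.subset fun z hz => ⟨hz.2, fun h3 => hcon ⟨z, hz, h3⟩⟩
  obtain ⟨ρ, hρ⟩ := dset_single (L := L)
  have h3 : ∀ x, ρ.Realize (Fin.snoc (fun _ : Fin 1 => z) x : Fin (1 + 1) → N) ↔ x = z := by
    intro x
    have h4 := hρ N (fun _ : Fin 1 => z)
    have h5 : x ∈ Dset L ρ (fun _ : Fin 1 => z) ↔ x ∈ ({z} : Set N) := by
      rw [h4]
    exact h5
  have h4 : Formula.Realize (∼ρ : L.Formula (Fin (1 + 1)))
      (Fin.snoc (fun _ : Fin 1 => z) y : Fin (1 + 1) → N) := by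
    rw [Formula.realize_not, h3]
    rintro rfl
    exact hyC hz.1
  have h5 := hall 1 (fun _ => z) (∼ρ) (fun _ => Or.inr hz) h4 z hz'
  rw [Formula.realize_not, h3] at h5
  exact h5 rfl

end Pool.Agent.Work.MP_ed0a9a_lc.E
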