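import Pool.Agent.Work.MP_ed0a9a_lc.E.GGn
import Pool.Agent.Work.MP_ed0a9a_lc.E.Cmp
import Pool.Agent.Work.MP_ed0a9a_lc.E.CntF

/-!
# Module `GSq2` (size M-L): a formula true along long sequences is generic

Compare the module `Seq2`, whose proof can be adapted.

PROOF.  `compact T` with the variables `Fin p ⊕ ℝ` and `Γ` the set of the formulas `θ(x_{inl})`, `x_r ≠ x_s` (`r ≠ s` in `ℝ`),
`φ(x_{inl}, x_r)` (`r : ℝ`) and `χ(x_{inl}, x_{r 0}, …, x_{r (k-1)})` for `r : Fin k → ℝ` strictly monotone.  A finite `Δ ⊆ Γ` mentions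
finitely many reals, contained in a finite set `F` with `m` elements; take `w : Fin m → M` from the hypothesis and
`v (inl i) = c i`, `v (inr x) = w (index of x in F)` for `x ∈ F` (`Finset.orderIsoOfFin`).  So there are `N ⊨ T`, `c'` in `N` with `θ(c')` and an
injective `v : ℝ → N` with values in `Dset φ c'` and `χ(c', v ∘ r)` for all strictly monotone `r : Fin k → ℝ`.  By induction on `j`
there is a strictly monotone `r : Fin j → ℝ` with `v ∘ r` independent over `c'`: `cl (Set.range c' ∪ Set.range (v ∘ r))` is countable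
(`countable_cl`), the set of the reals larger than all `r i` is uncountable; `indR_snoc_iff`.  For `j = k` `χ` is true at one
independent tuple, by `sameTp_gen` at all of them in all models.
-/

namespace Pool.Agent.Work.MP_ed0a9a_lc.E

open FirstOrder FirstOrder.Language

private theorem gsq_ioi (b : ℝ) : ¬ (Set.Ioi b).Countable := by
  intro h
  have h1 := Cardinal.mk_Ioi_real b
  have h2 := (Cardinal.le_aleph0_iff_set_countable).2 h
  rw [h1] at h2
  exact absurd Cardinal.aleph0_lt_continuum (not_lt.2 h2)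

private theorem gsq_mono {j : ℕ} {r : Fin j → ℝ} (hr : StrictMono r) {x : ℝ}
    (hx : ∀ i, r i < x) : StrictMono (Fin.snoc r x : Fin (j + 1) → ℝ) := by
  intro i i' hii
  have hne : i ≠ Fin.last j := (lt_of_lt_of_le hii (Fin.le_last _)).ne
  obtain ⟨i0, rfl⟩ := Fin.exists_castSucc_eq.mpr hne
  rw [Fin.snoc_castSucc (α := fun _ => ℝ)]
  by_cases h : i' = Fin.last j
  · subst h
    rw [Fin.snoc_last (α := fun _ => ℝ)]
    exact hx i0
  · obtain ⟨i1, rfl⟩ := Fin.exists_castSucc_eq.mpr h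
    rw [Fin.snoc_castSucc (α := fun _ => ℝ)]
    exact hr (Fin.castSucc_lt_castSucc_iff.mp hii)

private theorem gsq_app {X Y : Type} {m n : ℕ} (v : X → Y) (f : Fin m → X) (g : Fin n → X) :
    v ∘ Fin.append f g = Fin.append (v ∘ f) (v ∘ g) := by
  funext i
  refine Fin.addCases (fun i => ?_) (fun i => ?_) i
  · simp
  · simp

theorem gen_of_seqR {a : ℕ → ℕ} {T : (sig a).Theory} {p : ℕ} {θ : (sig a).Formula (Fin p)}
    {φ : (sig a).Formula (Fin (p + 1))} (hB : Base T θ φ) {k : ℕ}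
    {χ : (sig a).Formula (Fin (p + k))} {M : Type} [Nonempty M] [(sig a).Structure M]
    (hM : M ⊨ T) {c : Fin p → M} (hc : θ.Realize c)
    (h : ∀ m : ℕ, ∃ w : Fin m → M, Function.Injective w ∧
      (∀ i, w i ∈ Dset (sig a) φ c) ∧
      ∀ g : Fin k → Fin m, StrictMono g → χ.Realize (Fin.append c (w ∘ g))) :
    GenR T θ φ χ := by
  classical
  have hcθ := hc
  set Γ : Set ((sig a).Formula (Fin p ⊕ ℝ)) := {ψ | ψ = θ.relabel Sum.inl ∨
      (∃ r s : ℝ, r ≠ s ∧ ψ = ∼((Term.var (Sum.inr r) : (sig a).Term (Fin p ⊕ ℝ)).equal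
        (Term.var (Sum.inr s)))) ∨
      (∃ r : ℝ, ψ = φ.relabel (Fin.snoc (fun i => Sum.inl i) (Sum.inr r) :
        Fin (p + 1) → Fin p ⊕ ℝ)) ∨
      ∃ r : Fin k → ℝ, StrictMono r ∧ ψ = χ.relabel (Fin.append (fun i => Sum.inl i)
        (fun i => Sum.inr (r i)) : Fin (p + k) → Fin p ⊕ ℝ)} with hΓ
  have hfin : ∀ ψ ∈ Γ, ∃ F : Finset ℝ, ψ = θ.relabel Sum.inl ∨
      (∃ r s : ℝ, r ≠ s ∧ r ∈ F ∧ s ∈ F ∧
        ψ = ∼((Term.var (Sum.inr r) : (sig a).Term (Fin p ⊕ ℝ)).equal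
        (Term.var (Sum.inr s)))) ∨
      (∃ r : ℝ, r ∈ F ∧ ψ = φ.relabel (Fin.snoc (fun i => Sum.inl i) (Sum.inr r) :
        Fin (p + 1) → Fin p ⊕ ℝ)) ∨
      ∃ r : Fin k → ℝ, StrictMono r ∧ (∀ i, r i ∈ F) ∧
        ψ = χ.relabel (Fin.append (fun i => Sum.inl i)
        (fun i => Sum.inr (r i)) : Fin (p + k) → Fin p ⊕ ℝ) := by
    rintro ψ (hψ | ⟨r, s, hrs, hψ⟩ | ⟨r, hψ⟩ | ⟨r, hr, hψ⟩)
    · exact ⟨∅, Or.inl hψ⟩
    · exact ⟨{r, s}, Or.inr (Or.inl ⟨r, s, hrs, by simp, by simp, hψ⟩)⟩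
    · exact ⟨{r}, Or.inr (Or.inr (Or.inl ⟨r, by simp, hψ⟩))⟩
    · exact ⟨Finset.univ.image r, Or.inr (Or.inr (Or.inr ⟨r, hr, fun i => by simp, hψ⟩))⟩
  choose! f hf using hfin
  obtain ⟨N, hN1, sN, hN, v, hv⟩ := compact T Γ (by
    intro Δ hΔ
    set F : Finset ℝ := Δ.biUnion f with hF
    have hsub : ∀ ψ ∈ Δ, f ψ ⊆ F := fun ψ hψ => Finset.subset_biUnion_of_mem f hψ
    obtain ⟨w, hwi, hwD, hwg⟩ := h F.card
    set e : Fin F.card ≃o F := F.orderIsoOfFin rfl with he
    obtain ⟨u, hu⟩ : ∃ u : ℝ → M, u = fun x => if hx : x ∈ F then w (e.symm ⟨x, hx⟩)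
      else Classical.arbitrary M := ⟨_, rfl⟩
    have hvF : ∀ (x : ℝ) (hx : x ∈ F), u x = w (e.symm ⟨x, hx⟩) := by
      intro x hx
      rw [hu]
      simp only
      rw [dif_pos hx]
    refine ⟨M, inferInstance, inferInstance, hM, Sum.elim c u, ?_⟩
    intro ψ hψ
    rcases hf ψ (hΔ hψ) with h1 | ⟨r, s, hrs, hr, hs, h1⟩ | ⟨r, hr, h1⟩ | ⟨r, hr, hrF, h1⟩
    · rw [h1, Formula.realize_relabel]
      have h2 : Sum.elim c u ∘ Sum.inl = c := by
        funext i
        rfl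
      rw [h2]
      exact hcθ
    · rw [h1, Formula.realize_not, Formula.realize_equal]
      intro h2
      have h3 : u r = u s := h2
      rw [hvF r (hsub ψ hψ hr), hvF s (hsub ψ hψ hs)] at h3
      have h4 := e.symm.injective (hwi h3)
      exact hrs (congrArg Subtype.val h4)
    · rw [h1, Formula.realize_relabel, Fin.comp_snoc]
      have h2 : Sum.elim c u ∘ (fun i => Sum.inl i) = c := by
        funext i
        rfl
      rw [h2]
      change φ.Realize (Fin.snoc c (u r) : Fin (p + 1) → M)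
      rw [hvF r (hsub ψ hψ hr)]
      exact hwD _
    · rw [h1, Formula.realize_relabel, gsq_app]
      have h2 : Sum.elim c u ∘ (fun i => Sum.inl i) = c := by
        funext i
        rfl
      have h3 : Sum.elim c u ∘ (fun i => Sum.inr (r i)) =
          w ∘ fun i => e.symm ⟨r i, hsub ψ hψ (hrF i)⟩ := by
        funext i
        exact hvF (r i) (hsub ψ hψ (hrF i))
      rw [h2, h3]
      apply hwg
      intro i j hij
      exact e.symm.lt_iff_lt.2 (Subtype.mk_lt_mk.2 (hr hij)))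
  obtain ⟨c', hc'⟩ : ∃ c' : Fin p → N, c' = fun i => v (Sum.inl i) := ⟨_, rfl⟩
  obtain ⟨u, hu⟩ : ∃ u : ℝ → N, u = fun x => v (Sum.inr x) := ⟨_, rfl⟩
  have hθ' : θ.Realize c' := by
    have h1 := hv _ (Or.inl rfl)
    rw [Formula.realize_relabel] at h1
    rw [hc']
    exact h1
  have hui : Function.Injective u := by
    intro r s hrs
    by_contra hne
    have h1 := hv _ (Or.inr (Or.inl ⟨r, s, hne, rfl⟩))
    rw [Formula.realize_not, Formula.realize_equal] at h1
    rw [hu] at hrs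
    exact h1 hrs
  have huD : ∀ r, u r ∈ Dset (sig a) φ c' := by
    intro r
    have h1 := hv _ (Or.inr (Or.inr (Or.inl ⟨r, rfl⟩)))
    rw [Formula.realize_relabel, Fin.comp_snoc] at h1
    rw [hc', hu]
    exact h1
  have hex : ∀ j : ℕ, ∃ r : Fin j → ℝ, StrictMono r ∧ IndR (sig a) c' (u ∘ r) := by
    intro j
    induction j with
    | zero => exact ⟨fun i => i.elim0, fun i => i.elim0, indR_zero _ _⟩
    | succ j ih =>
      obtain ⟨r, hr, hi⟩ := ih
      obtain ⟨b, hb⟩ := Finite.exists_le r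
      have hcnt : (cl (sig a) (Set.range c' ∪ Set.range (u ∘ r))).Countable :=
        countable_cl ((Set.countable_range _).union (Set.countable_range _))
      obtain ⟨x, hx1, hx2⟩ : ∃ x ∈ Set.Ioi b,
          u x ∉ cl (sig a) (Set.range c' ∪ Set.range (u ∘ r)) := by
        by_contra hno
        push Not at hno
        exact gsq_ioi b ((hcnt.preimage hui).mono hno)
      refine ⟨Fin.snoc r x, gsq_mono hr fun i => lt_of_le_of_lt (hb i) hx1, ?_⟩
      rw [Fin.comp_snoc]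
      exact indR_snoc_iff.2 ⟨hi, hx2⟩
  obtain ⟨r, hr, hi⟩ := hex k
  have h1 := hv _ (Or.inr (Or.inr (Or.inr ⟨r, hr, rfl⟩)))
  rw [Formula.realize_relabel, gsq_app] at h1
  have h2 : χ.Realize (Fin.append c' (u ∘ r)) := by
    rw [hc', hu]
    exact h1
  intro N' _ _ hN' c'' hc'' b hb hbi
  exact (sameTp_gen hB hN hN' hθ' hc'' (fun i => huD (r i)) hb hi hbi χ).1 h2

end Pool.Agent.Work.MP_ed0a9a_lc.E
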