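import Pool.Agent.Work.MP_ed0a9a_lc.E.Fml

/-!
# Module `PFm` (size M): literals and primitive formulas as formulas

PROOFS.
* `exists_lit`: by cases.  `l = (0, [x, y], s)`: the formula `x = y` or its negation, variables `c x`, `c y`.
  `l = (0, other, s)`: the atomic part is false; so `⊥` if `s = true`, `⊤` otherwise.  `l = (i + 1, vs, s)`: if
  `vs.length = a i` the formula `R i (c vs_0, …)` (`Relations.formula` for the symbol `⟨i, rfl⟩` of arity `a i`) or its
  negation; `hd a S i (vs.map (v ∘ c))` unfolds to this; if `vs.length ≠ a i`, `hd` is false.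
* `exists_fml`: let `m` be larger than all variables of `θ`.  For `l ∈ θ` use `exists_lit` with `C = Fin (k + m)` and
  `c : ℕ → Fin (k + m)`, `c i = i` for `i < k + m` (arbitrary otherwise; if `k + m = 0` take `m + 1` for `m`);
  conjunction over `l ∈ θ` (`exists_all` or `List.foldr`), then `exists_exs`.  `PTrue` needs an assignment `c : ℕ → N`: extend the
  tuple `Fin.append v w` by an arbitrary element (`Nonempty N`); only the variables `< k + m` matter.
-/

namespace Pool.Agent.Work.MP_ed0a9a_lc.E

open FirstOrder FirstOrder.Language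

private theorem at_congr {N : Type} {H : ℕ → List N → Prop} {c c' : ℕ → N} {l : Lit}
    (h : ∀ x ∈ l.2.1, c x = c' x) : AtTrue H c l ↔ AtTrue H c' l := by
  have h1 : l.2.1.map c = l.2.1.map c' := List.map_congr_left h
  unfold AtTrue
  rw [h1]
  refine or_congr (and_congr_right fun _ => ?_) Iff.rfl
  constructor
  · rintro ⟨x, y, e, h2⟩
    refine ⟨x, y, e, ?_⟩
    rw [← h x (by rw [e]; simp), ← h y (by rw [e]; simp)]
    exact h2
  · rintro ⟨x, y, e, h2⟩
    refine ⟨x, y, e, ?_⟩
    rw [h x (by rw [e]; simp), h y (by rw [e]; simp)]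
    exact h2

private theorem l_congr {N : Type} {H : ℕ → List N → Prop} {c c' : ℕ → N} {l : Lit}
    (h : ∀ x ∈ l.2.1, c x = c' x) : LTrue H c l ↔ LTrue H c' l := by
  unfold LTrue
  rw [at_congr h]

private theorem exists_at (a : ℕ → ℕ) {C : Type} (c : ℕ → C) (l : Lit) :
    ∃ ψ : (sig a).Formula C, ∀ (N : Type) [S : (sig a).Structure N] (v : C → N),
      ψ.Realize v ↔ AtTrue (hd a S) (v ∘ c) l := by
  obtain ⟨i, vs, s⟩ := l
  cases i with
  | zero =>
    by_cases h : ∃ x y, vs = [x, y]
    · obtain ⟨x, y, rfl⟩ := h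
      refine ⟨(Term.var (c x)).equal (Term.var (c y)), fun N S v => ?_⟩
      rw [Formula.realize_equal]
      constructor
      · intro h1
        exact Or.inl ⟨rfl, x, y, rfl, h1⟩
      · rintro (⟨-, x', y', e, h1⟩ | ⟨h1, -⟩)
        · obtain ⟨rfl, rfl⟩ : x = x' ∧ y = y' := by simpa using e
          exact h1
        · exact absurd rfl h1
    · refine ⟨⊥, fun N S v => ?_⟩
      constructor
      · intro h1
        exact h1.elim
      · rintro (⟨-, x', y', e, h1⟩ | ⟨h1, -⟩)
        · exact absurd ⟨x', y', e⟩ h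
        · exact absurd rfl h1
  | succ i =>
    by_cases h : vs.length = a i
    · refine ⟨Relations.formula (⟨i, rfl⟩ : (sig a).Relations (a i))
        (fun t => Term.var (c (vs.get (t.cast h.symm)))), fun N S v => ?_⟩
      rw [Formula.realize_rel]
      have key : (fun t : Fin (a i) => (Term.var (c (vs.get (t.cast h.symm))) :
          (sig a).Term C).realize v) = fun t : Fin (a i) => v (c (vs.get (t.cast h.symm))) := by
        funext t
        rfl
      rw [key]
      constructor
      · intro h1
        refine Or.inr ⟨Nat.succ_ne_zero i, ?_⟩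
        refine ⟨by rw [List.length_map]; exact h, ?_⟩
        have e : (fun t : Fin (a i) => (vs.map (v ∘ c)).get
            (t.cast (by rw [List.length_map]; exact h.symm))) =
            fun t : Fin (a i) => v (c (vs.get (t.cast h.symm))) := by
          funext t
          simp
        have h2 : S.RelMap (n := a i) ⟨i, rfl⟩ (fun t : Fin (a i) => (vs.map (v ∘ c)).get
            (t.cast (by rw [List.length_map]; exact h.symm))) := by
          rw [e]
          exact h1
        exact h2
      · rintro (⟨h1, -⟩ | ⟨-, h1, h2⟩)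
        · exact absurd h1 (Nat.succ_ne_zero i)
        · have e : (fun t : Fin (a i) => (vs.map (v ∘ c)).get
              (t.cast (by rw [List.length_map]; exact h.symm))) =
              fun t : Fin (a i) => v (c (vs.get (t.cast h.symm))) := by
            funext t
            simp
          have h3 : S.RelMap (n := a i) ⟨i, rfl⟩ (fun t : Fin (a i) => (vs.map (v ∘ c)).get
              (t.cast (by rw [List.length_map]; exact h.symm))) := h2
          rw [e] at h3
          exact h3
    · refine ⟨⊥, fun N S v => ?_⟩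
      constructor
      · intro h1
        exact h1.elim
      · rintro (⟨h1, -⟩ | ⟨-, h1, h2⟩)
        · exact absurd h1 (Nat.succ_ne_zero i)
        · rw [List.length_map] at h1
          exact absurd h1 h

theorem exists_lit (a : ℕ → ℕ) {C : Type} (c : ℕ → C) (l : Lit) :
    ∃ ψ : (sig a).Formula C, ∀ (N : Type) [S : (sig a).Structure N] (v : C → N),
      ψ.Realize v ↔ LTrue (hd a S) (v ∘ c) l := by
  obtain ⟨ψ, hψ⟩ := exists_at a c l
  unfold LTrue
  by_cases hs : l.2.2 = true
  · refine ⟨ψ, fun N S v => ?_⟩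
    rw [hψ N v]
    exact ⟨fun h => ⟨fun _ => hs, fun _ => h⟩, fun h => h.2 hs⟩
  · refine ⟨∼ψ, fun N S v => ?_⟩
    rw [Formula.realize_not, hψ N v]
    exact ⟨fun h => ⟨fun h1 => absurd h1 h, fun h1 => absurd h1 hs⟩, fun h h1 => hs (h.1 h1)⟩

theorem exists_fml (a : ℕ → ℕ) (k : ℕ) (θ : List Lit) :
    ∃ ψ : (sig a).Formula (Fin k), ∀ (N : Type) [Nonempty N] [S : (sig a).Structure N]
      (v : Fin k → N), ψ.Realize v ↔ PTrue (hd a S) θ (List.ofFn v) := by
  obtain ⟨M, hM⟩ : ∃ M : ℕ, ∀ l ∈ θ, ∀ x ∈ l.2.1, x < M := by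
    induction θ with
    | nil => exact ⟨0, fun l hl => absurd hl List.not_mem_nil⟩
    | cons l0 θ ih =>
      obtain ⟨M, hM⟩ := ih
      refine ⟨M + (l0.2.1.sum + 1), fun l hl x hx => ?_⟩
      rcases List.mem_cons.1 hl with rfl | hl
      · have := List.single_le_sum (fun y _ => Nat.zero_le y) x hx
        omega
      · have := hM l hl x hx
        omega
  have hpos : 0 < k + (M + 1) := by omega
  let c0 : ℕ → Fin (k + (M + 1)) := fun i => if h : i < k + (M + 1) then ⟨i, h⟩ else ⟨0, hpos⟩
  have hc0 : ∀ i (h : i < k + (M + 1)), c0 i = ⟨i, h⟩ := fun i h => dif_pos h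
  choose φ hφ using fun l : Lit => exists_lit a c0 l
  obtain ⟨χ, hχ⟩ := exists_all (L := sig a) (fun i : Fin θ.length => φ (θ.get i))
  obtain ⟨ψ, hψ⟩ := exists_exs (k := k) (m := M + 1) χ
  refine ⟨ψ, fun N _ S v => ?_⟩
  rw [hψ N v]
  constructor
  · rintro ⟨w, hw⟩
    rw [hχ] at hw
    refine ⟨Fin.append v w ∘ c0, ?_, ?_⟩
    · intro i hi
      have hi' : i < k := by
        rw [List.length_ofFn] at hi
        exact hi
      show Fin.append v w (c0 i) = _
      rw [hc0 i (by omega)]
      have e : (⟨i, by omega⟩ : Fin (k + (M + 1))) = Fin.castAdd (M + 1) ⟨i, hi'⟩ := rfl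
      rw [e, Fin.append_left]
      simp
    · intro l hl
      obtain ⟨i, hi⟩ := List.get_of_mem hl
      have h1 := hw i
      rw [hφ, hi] at h1
      exact h1
  · rintro ⟨c, hc1, hc2⟩
    refine ⟨fun j => c (k + j), ?_⟩
    rw [hχ]
    intro i
    rw [hφ]
    have hmem : θ.get i ∈ θ := List.get_mem θ i
    refine (l_congr ?_).1 (hc2 _ hmem)
    intro x hx
    have hxM := hM _ hmem x hx
    show c x = Fin.append v (fun j : Fin (M + 1) => c (k + j)) (c0 x)
    rw [hc0 x (by omega)]
    by_cases hxk : x < k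
    · have e : (⟨x, by omega⟩ : Fin (k + (M + 1))) = Fin.castAdd (M + 1) ⟨x, hxk⟩ := rfl
      rw [e, Fin.append_left, hc1 x (by rw [List.length_ofFn]; exact hxk)]
      simp
    · have e : (⟨x, by omega⟩ : Fin (k + (M + 1))) = Fin.natAdd k ⟨x - k, by omega⟩ := by
        apply Fin.ext
        show x = k + (x - k)
        omega
      rw [e, Fin.append_right]
      show c x = c (k + (x - k))
      congr 1
      omega

/-- The primitive formula with code `θ` in the variables `x₀, …, x_{k-1}`. -/
noncomputable def fml (a : ℕ → ℕ) (k : ℕ) (θ : List Lit) : (sig a).Formula (Fin k) :=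
  (exists_fml a k θ).choose

theorem realize_fml {a : ℕ → ℕ} {k : ℕ} {θ : List Lit} {N : Type} [Nonempty N]
    [S : (sig a).Structure N] (v : Fin k → N) :
    (fml a k θ).Realize v ↔ PTrue (hd a S) θ (List.ofFn v) :=
  (exists_fml a k θ).choose_spec N v

end Pool.Agent.Work.MP_ed0a9a_lc.E
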