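import Pool.Agent.Work.MP_ed0a9a_lc.E.GSq1
import Pool.Agent.Work.MP_ed0a9a_lc.E.GSq2
import Pool.Agent.Work.MP_ed0a9a_lc.E.PFm

/-!
# Module `GSq` (size S-M): generic primitive formulas

PROOFS.  `inD_iff`: `List.ofFn (Fin.snoc c y) = List.ofFn c ++ [y]` (see `KConv`, `kconv_snoc`) and `hΦ`.
`genR_iff_seqR`: `realize_fml`, `List.ofFn_fin_append`, `inD_iff`, `seqR_of_gen`, `gen_of_seqR`.
`genR_of_indR`: `χ` true at one independent tuple is true at all of them (`sameTp_gen`).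
-/

namespace Pool.Agent.Work.MP_ed0a9a_lc.E

open FirstOrder FirstOrder.Language

variable {a : ℕ → ℕ} {T : (sig a).Theory} {p : ℕ} {θ : (sig a).Formula (Fin p)}
  {φ : (sig a).Formula (Fin (p + 1))}

private theorem gsq_snoc {N : Type} {d : ℕ} (b : Fin d → N) (z : N) :
    List.ofFn (Fin.snoc b z : Fin (d + 1) → N) = List.ofFn b ++ [z] := by
  rw [List.ofFn_succ', List.concat_eq_append]
  congr 1
  · congr 1
    funext i
    exact Fin.snoc_castSucc (α := fun _ => N) z b i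
  · rw [Fin.snoc_last]

theorem inD_iff {Φ : List (List Lit)}
    (hΦ : ∀ (N : Type) [Nonempty N] [S : (sig a).Structure N], N ⊨ T →
      ∀ v : Fin (p + 1) → N, φ.Realize v ↔ ∃ χ ∈ Φ, PTrue (hd a S) χ (List.ofFn v))
    {N : Type} [Nonempty N] [S : (sig a).Structure N] (hN : N ⊨ T) (c : Fin p → N) (y : N) :
    InD (hd a S) Φ (List.ofFn c) y ↔ y ∈ Dset (sig a) φ c := by
  have h1 := hΦ N hN (Fin.snoc c y : Fin (p + 1) → N)
  rw [gsq_snoc] at h1
  exact h1.symm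

theorem genR_iff_seqR (hB : Base T θ φ) {Φ : List (List Lit)}
    (hΦ : ∀ (N : Type) [Nonempty N] [S : (sig a).Structure N], N ⊨ T →
      ∀ v : Fin (p + 1) → N, φ.Realize v ↔ ∃ χ ∈ Φ, PTrue (hd a S) χ (List.ofFn v))
    {M : Type} [Nonempty M] [SM : (sig a).Structure M] (hM : M ⊨ T) {c : Fin p → M}
    (hc : θ.Realize c) (k : ℕ) (χ : List Lit) :
    GenR T θ φ (fml a (p + k) χ) ↔ SeqR (hd a SM) Φ (List.ofFn c) k χ := by
  constructor
  · intro h m
    obtain ⟨w, hw, hD, hg⟩ := seqR_of_gen hB h hM hc m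
    refine ⟨w, hw, fun i => (inD_iff hΦ hM c (w i)).2 (hD i), fun g hgm => ?_⟩
    have h1 := (realize_fml _).1 (hg g hgm)
    rwa [List.ofFn_fin_append] at h1
  · intro h
    refine gen_of_seqR hB hM hc fun m => ?_
    obtain ⟨w, hw, hD, hg⟩ := h m
    refine ⟨w, hw, fun i => (inD_iff hΦ hM c (w i)).1 (hD i), fun g hgm =>
      (realize_fml _).2 ?_⟩
    rw [List.ofFn_fin_append]
    exact hg g hgm

theorem genR_of_indR (hB : Base T θ φ) {N : Type} [Nonempty N] [(sig a).Structure N]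
    (hN : N ⊨ T) {c : Fin p → N} (hc : θ.Realize c) {k : ℕ} {b : Fin k → N}
    (hb : ∀ i, b i ∈ Dset (sig a) φ c) (hi : IndR (sig a) c b)
    {χ : (sig a).Formula (Fin (p + k))} (h : χ.Realize (Fin.append c b)) :
    GenR T θ φ χ := by
  intro N' _ _ hN' c' hc' b' hb' hi'
  exact (sameTp_gen hB hN hN' hc hc' hb hb' hi hi' χ).1 h

end Pool.Agent.Work.MP_ed0a9a_lc.E
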