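import Pool.Agent.Work.MP_ed0a9a_lc.E.GBg
import Pool.Agent.Work.MP_ed0a9a_lc.E.Fml

/-!
# Module `GSq1` (size M): generic formulas hold along long sequences

Compare the module `Seq1`.

PROOF.  `exists_gen_tuple` with `k = m` gives `U ⊨ T`, `c'`, `b : Fin m → U` independent over `c'`.  `b` is injective (`indR_inj`), and for
strictly monotone `g` the tuple `b ∘ g` is independent (`indR_comp`), so `χ(c', b ∘ g)`.  The statement
`∃ w : Fin m → _, (w injective) ∧ (∀ i, φ(c, w i)) ∧ ∀ g : Fin k → Fin m, StrictMono g → χ(c, w ∘ g)` is expressed by a formula about `c`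
(a finite conjunction: `exists_all`, `exists_eq_fml` and negation, relabelling, `exists_exs`), true at `c'` in `U`; `SameTp c' c` by
`hB.iso`, so it is true at `c` in `M`.
-/

namespace Pool.Agent.Work.MP_ed0a9a_lc.E

open FirstOrder FirstOrder.Language

private theorem sq_fml {L : FirstOrder.Language.{0, 0}} {p k : ℕ} (φ : L.Formula (Fin (p + 1)))
    (χ : L.Formula (Fin (p + k))) (m : ℕ) : ∃ ψ : L.Formula (Fin p),
    ∀ (N : Type) [L.Structure N] (v : Fin p → N), ψ.Realize v ↔
      ∃ w : Fin m → N, Function.Injective w ∧ (∀ i, w i ∈ Dset L φ v) ∧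
        ∀ g : Fin k → Fin m, StrictMono g → χ.Realize (Fin.append v (w ∘ g)) := by
  obtain ⟨θ1, hθ1⟩ := exists_all (L := L) (k := p + m)
    (fun g : {g : Fin k → Fin m // StrictMono g} =>
      χ.relabel (Fin.append (Fin.castAdd m) (Fin.natAdd p ∘ g.1) : Fin (p + k) → Fin (p + m)))
  obtain ⟨θ2, hθ2⟩ := exists_all (L := L) (k := p + m)
    (fun i : Fin m =>
      φ.relabel (Fin.snoc (Fin.castAdd m) (Fin.natAdd p i) : Fin (p + 1) → Fin (p + m)))
  choose eq heq using fun (q : Fin m × Fin m) =>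
    exists_eq_fml (L := L) (k := p + m) (Fin.natAdd p q.1) (Fin.natAdd p q.2)
  obtain ⟨θ3, hθ3⟩ := exists_all (L := L) (k := p + m)
    (fun q : {q : Fin m × Fin m // q.1 ≠ q.2} => ∼(eq q.1))
  obtain ⟨ψ, hψ⟩ := exists_exs (k := p) (m := m) (θ3 ⊓ (θ2 ⊓ θ1))
  refine ⟨ψ, ?_⟩
  intro N _ v
  rw [hψ]
  apply exists_congr
  intro w
  rw [Formula.realize_inf, Formula.realize_inf, hθ1, hθ2, hθ3]
  refine and_congr ?_ (and_congr ?_ ?_)
  · constructor
    · intro h i j hij
      by_contra hne
      have h1 := h ⟨(i, j), hne⟩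
      rw [Formula.realize_not, heq] at h1
      apply h1
      simpa using hij
    · intro h q
      rw [Formula.realize_not, heq]
      intro h1
      apply q.2
      apply h
      simpa using h1
  · refine forall_congr' fun i => ?_
    rw [Formula.realize_relabel]
    have e : (Fin.append v w ∘ (Fin.snoc (Fin.castAdd m) (Fin.natAdd p i) :
        Fin (p + 1) → Fin (p + m))) = (Fin.snoc v (w i) : Fin (p + 1) → N) := by
      funext l
      refine Fin.lastCases ?_ (fun l => ?_) l
      · simp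
      · simp
    rw [e]
    exact Iff.rfl
  · have e : ∀ g : Fin k → Fin m, (Fin.append v w ∘
        (Fin.append (Fin.castAdd m) (Fin.natAdd p ∘ g) : Fin (p + k) → Fin (p + m))) =
        (Fin.append v (w ∘ g) : Fin (p + k) → N) := by
      intro g
      funext l
      refine Fin.addCases (fun l => ?_) (fun l => ?_) l
      · simp
      · simp
    constructor
    · intro h g hg
      have h1 := h ⟨g, hg⟩
      rw [Formula.realize_relabel, e] at h1
      exact h1
    · intro h g
      rw [Formula.realize_relabel, e]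
      exact h g.1 g.2

theorem seqR_of_gen {a : ℕ → ℕ} {T : (sig a).Theory} {p : ℕ} {θ : (sig a).Formula (Fin p)}
    {φ : (sig a).Formula (Fin (p + 1))} (hB : Base T θ φ) {k : ℕ}
    {χ : (sig a).Formula (Fin (p + k))} (h : GenR T θ φ χ) {M : Type} [Nonempty M]
    [(sig a).Structure M] (hM : M ⊨ T) {c : Fin p → M} (hc : θ.Realize c) (m : ℕ) :
    ∃ w : Fin m → M, Function.Injective w ∧ (∀ i, w i ∈ Dset (sig a) φ c) ∧
      ∀ g : Fin k → Fin m, StrictMono g → χ.Realize (Fin.append c (w ∘ g)) := by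
  obtain ⟨U, hU1, sU, hU, c', hc', b, hbD, hb⟩ := exists_gen_tuple hB hM m
  obtain ⟨ψ, hψ⟩ := sq_fml φ χ m
  have h1 : ψ.Realize c' := (hψ U c').2 ⟨b, indR_inj hb, hbD, fun g hg =>
    h U hU c' hc' (b ∘ g) (fun i => hbD (g i)) (indR_comp hb hg)⟩
  exact (hψ M c).1 ((hB.iso U M hU hM c' c hc' hc ψ).1 h1)

end Pool.Agent.Work.MP_ed0a9a_lc.E
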