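import Pool.Agent.Work.MP_ed0a9a_lc.E.GEx
import Pool.Agent.Work.MP_ed0a9a_lc.E.IndQ
import Pool.Agent.Work.MP_ed0a9a_lc.E.Stein

/-!
# Module `GSt` (size S-M): dimension in a strongly minimal set

PROOFS.  Let `D = Dset L φ c`.  `indR_le`: `steinitz` for `α = D` (the subtype) and the operator
`C A = {x : D | (x : N) ∈ cl L (Set.range c ∪ (Subtype.val '' A))}`: monotone (`cl_mono`), `A ⊆ C A` (`subset_cl`), idempotent
(`Set.range c ∪ val '' C A ⊆ cl (Set.range c ∪ val '' A)`, `cl_mono`, `cl_cl`), exchange: `exchangeR` for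
`B = Set.range c ∪ val '' A` (`val '' insert y A = insert y (val '' A)`).  The tuples `b`, `d` as tuples in the subtype.
`dimR_unique`: twice `indR_le`.
-/

namespace Pool.Agent.Work.MP_ed0a9a_lc.E

open FirstOrder FirstOrder.Language

variable {L : FirstOrder.Language.{0, 0}} {T : L.Theory} {p : ℕ} {θ : L.Formula (Fin p)}
  {φ : L.Formula (Fin (p + 1))}

theorem indR_le (hB : Base T θ φ) {N : Type} [Nonempty N] [L.Structure N] (hN : N ⊨ T)
    {c : Fin p → N} (hc : θ.Realize c) {k l : ℕ} (b : Fin k → N) (d : Fin l → N)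
    (hb : ∀ i, b i ∈ Dset L φ c) (hd : ∀ i, d i ∈ Dset L φ c) (hi : IndR L c d)
    (hs : ∀ j, d j ∈ cl L (Set.range c ∪ Set.range b)) : l ≤ k := by
  let C : Set (Dset L φ c) → Set (Dset L φ c) := fun A =>
    {x | (x : N) ∈ cl L (Set.range c ∪ Subtype.val '' A)}
  have himg : ∀ (m : ℕ) (e : Fin m → N) (he : ∀ i, e i ∈ Dset L φ c) (S : Set (Fin m)),
      Subtype.val '' ((fun i => (⟨e i, he i⟩ : Dset L φ c)) '' S) = e '' S := by
    intro m e he S
    rw [Set.image_image]
  refine steinitz C ?_ ?_ ?_ ?_ (fun i => ⟨b i, hb i⟩) (fun i => ⟨d i, hd i⟩) ?_ ?_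
  · intro A B hAB x hx
    exact cl_mono (Set.union_subset_union_right _ (Set.image_mono hAB)) hx
  · intro A x hx
    exact subset_cl _ (Or.inr ⟨x, hx, rfl⟩)
  · intro A x hx
    refine cl_cl _ (cl_mono ?_ hx)
    rintro z (hz | ⟨w, hw, rfl⟩)
    · exact subset_cl _ (Or.inl hz)
    · exact hw
  · intro A x y hx hxy
    have hins : ∀ z : Dset L φ c, Set.range c ∪ Subtype.val '' insert z A =
        insert (z : N) (Set.range c ∪ Subtype.val '' A) := by
      intro z
      rw [Set.image_insert_eq, Set.union_insert]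
    have h1 : (x : N) ∈ cl L (insert (y : N) (Set.range c ∪ Subtype.val '' A)) := by
      rw [← hins y]
      exact hxy
    have h2 := exchangeR hB hN hc Set.subset_union_left x.2 y.2 hx h1
    rw [← hins x] at h2
    exact h2
  · intro j hj
    refine hi j ?_
    rw [← himg l d hd]
    exact hj
  · intro j
    have h1 := hs j
    have h2 : Set.range b = Subtype.val '' Set.range (fun i => (⟨b i, hb i⟩ : Dset L φ c)) := by
      rw [← Set.range_comp]
      rfl
    rw [h2] at h1
    exact h1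

theorem dimR_unique (hB : Base T θ φ) {N : Type} [Nonempty N] [L.Structure N] (hN : N ⊨ T)
    {c : Fin p → N} (hc : θ.Realize c) {d d' : ℕ} (h : HasDimR L φ c d)
    (h' : HasDimR L φ c d') : d = d' := by
  obtain ⟨b, hbD, hb, hbc⟩ := h
  obtain ⟨b', hbD', hb', hbc'⟩ := h'
  exact le_antisymm
    (indR_le hB hN hc b' b hbD' hbD hb (fun j => hbc' (hbD j)))
    (indR_le hB hN hc b b' hbD hbD' hb' (fun j => hbc (hbD' j)))

end Pool.Agent.Work.MP_ed0a9a_lc.E
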