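import Pool.Agent.Work.MP_ed0a9a_lc.E.ElB

/-!
# Module `Sml` (size S): a theory with a universal countable model is small

PROOF.  `C = A ⊤`.  Let `N ⊨ T`, `b : Fin k → N`.  By `exists_ctb` there is a countable elementary substructure `S` of `N` which
contains `b`; `S ⊨ T` and `S` is nonempty (an elementary substructure of a nonempty structure), so `A i ≃ S` for some `i`
(`h2`), and `A i ↪ₑ A ⊤` by `h3` (`le_top`).  The image of `b` has the same type (`sameTp_map`, `sameTp_coe`).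
-/

namespace Pool.Agent.Work.MP_ed0a9a_lc.E

open FirstOrder FirstOrder.Language

theorem small_of_chain {a : ℕ → ℕ} {T : (sig a).Theory} (A : ℕ∞ → Type)
    (S : ∀ i, (sig a).Structure (A i))
    (h1 : ∀ i, Countable (A i) ∧ A i ⊨ T)
    (h2 : ∀ (N : Type) [Nonempty N] [Countable N] [(sig a).Structure N], N ⊨ T →
      ∃ i, Nonempty (A i ≃[sig a] N))
    (h3 : ∀ i j, Nonempty (A i ↪ₑ[sig a] A j) ↔ i ≤ j) : Small T := by
  refine ⟨A ⊤, (h1 ⊤).1, S ⊤, fun N _ _ hN k b => ?_⟩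
  obtain ⟨W, hW, hWc⟩ := exists_ctb (a := a) (Set.range b) (Set.countable_range b)
  have hWT : W ⊨ T := (W.theory_model_iff T).2 hN
  obtain ⟨i, ⟨e⟩⟩ := h2 W hWT
  obtain ⟨f⟩ := (h3 i ⊤).2 le_top
  have hb : ∀ j, b j ∈ W := fun j => hW ⟨j, rfl⟩
  refine ⟨fun j => f (e.symm ⟨b j, hb j⟩), fun φ => ?_⟩
  have h7 := sameTp_coe W (fun j => (⟨b j, hb j⟩ : W)) φ
  have h8 := sameTp_map e.symm.toElementaryEmbedding (fun j => (⟨b j, hb j⟩ : W)) φ
  have h9 := sameTp_map f (fun j => e.symm (⟨b j, hb j⟩ : W)) φ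
  exact h7.symm.trans (h8.trans h9)

end Pool.Agent.Work.MP_ed0a9a_lc.E
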