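import Pool.Agent.Work.MP_ed0a9a_lc.E.ExB
import Pool.Agent.Work.MP_ed0a9a_lc.E.GDim
import Pool.Agent.Work.MP_ed0a9a_lc.E.GCo
import Pool.Agent.Work.MP_ed0a9a_lc.E.GC3
import Pool.Agent.Work.MP_ed0a9a_lc.E.CIso
import Pool.Agent.Work.MP_ed0a9a_lc.E.Sml

/-!
# Module `GUp` (size M): the upper bound for all uncountably categorical model complete theories

PROOF.  See the module `Up`.  `infinite_chain`: all `A i` are nonempty, models are infinite.  `small_of_chain`, `exists_base`: `p`, `θ`, `φ`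
with `Base T θ φ`.  If no `A i`, `i : ℕ`, has a computable copy the set is empty (`R = false`).  Otherwise `A i₀ ≃ (ℕ, SE a e₀)`, `e₀`
total (`hasCompCopy_iff`), `M = (ℕ, SE a e₀) ⊨ T`; let `c₀` in `M` with `θ(c₀)` (`hB.ex`), `Θ₀`, `Φ` from `robinson` for `θ`, `φ`, and `d₀` from
`exists_dimR`.  The set is the set of `sigma4_finalR` for `List.ofFn c₀`: if `A i ≃ (ℕ, SE a e)` by `F` then `M' = (ℕ, SE a e) ⊨ T`; by
`exists_dimR` there is `c` in `A i` with `θ(c)`, `HasDimR φ c (d₀ + i)`; so `HasDimR φ (F ∘ c) (d₀ + i)` (`hasDimR_map`) and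
`basicR_of_hasDimR` gives `b` (`hd_SE`).  Conversely by `hasDimR_of_basicR` `M' ⊨ T`, `θ(c)`, `HasDimR φ c (d₀ + i)`, and `A i` has
`c'` with `HasDimR φ c' (d₀ + i)`, so `A i ≃ M'` by `iso_of_dimR`, `hasCompCopy_iff`.
-/

namespace Pool.Agent.Work.MP_ed0a9a_lc.E

open FirstOrder FirstOrder.Language

theorem sigma4_of_categorical {a : ℕ → ℕ} (ha : Computable a) {T : (sig a).Theory}
    (hc : T.IsComplete) (hcat : (Cardinal.aleph 1 : Cardinal.{0}).Categorical T)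
    (hmc : ModelComplete T) (A : ℕ∞ → Type) (S : ∀ i, (sig a).Structure (A i))
    (h1 : ∀ i, Countable (A i) ∧ A i ⊨ T)
    (h2 : ∀ (N : Type) [Nonempty N] [Countable N] [(sig a).Structure N], N ⊨ T →
      ∃ i, Nonempty (A i ≃[sig a] N))
    (h3 : ∀ i j, Nonempty (A i ↪ₑ[sig a] A j) ↔ i ≤ j) :
    Sigma4 {i : ℕ | HasCompCopy a (A i)} := by
  obtain ⟨hne, hinf⟩ := infinite_chain hc A S h1 h3
  have hsm : Small T := small_of_chain A S h1 h2 h3
  obtain ⟨p, θ, φ, hB⟩ := exists_base hc hcat hsm hinf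
  haveI := hne
  obtain ⟨d₀, hd₀⟩ := exists_dimR hB hcat A S h1 h2 h3
  obtain ⟨Θ₀, hΘ⟩ := robinson hmc θ
  obtain ⟨Φ, hΦ⟩ := robinson hmc φ
  by_cases hex : ∃ i : ℕ, HasCompCopy a (A i)
  · obtain ⟨i₀, hi₀⟩ := hex
    obtain ⟨e₀, he₀, ⟨F₀⟩⟩ := (hasCompCopy_iff (A i₀)).1 hi₀
    have hM : letI := SE a e₀; ℕ ⊨ T := by
      letI := SE a e₀
      exact (F₀.toElementaryEmbedding.theory_model_iff T).1 (h1 i₀).2
    obtain ⟨c₀, hc₀⟩ : ∃ c₀ : Fin p → ℕ, @Formula.Realize (sig a) ℕ (SE a e₀) _ θ c₀ := by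
      letI := SE a e₀
      exact hB.ex ℕ hM
    have hset : {i : ℕ | HasCompCopy a (A i)} =
        {i : ℕ | ∃ e, Tot e ∧ ∃ (c : Fin p → ℕ) (b : Fin (d₀ + i) → ℕ),
          BasicR (HE a e₀) Θ₀ Φ (List.ofFn c₀) (HE a e) (List.ofFn c) (List.ofFn b)} := by
      ext i
      constructor
      · intro hi
        obtain ⟨e, he, ⟨F⟩⟩ := (hasCompCopy_iff (A i)).1 hi
        refine ⟨e, he, ?_⟩
        letI s1 := SE a e
        have hM' : ℕ ⊨ T := (F.toElementaryEmbedding.theory_model_iff T).1 (h1 i).2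
        obtain ⟨c, hcr, hdim⟩ := (hd₀ i (d₀ + i)).2 rfl
        have hcr' : θ.Realize (F ∘ c) :=
          (sameTp_map F.toElementaryEmbedding c θ).1 hcr
        have h5 := basicR_of_hasDimR (SM := SE a e₀) (SM' := SE a e) hc hmc hB
          (fun N _ _ hN v => hΘ N hN v) (fun N _ _ hN v => hΦ N hN v) hM hc₀ hM' hcr'
          (hasDimR_map F hdim)
        obtain ⟨b, hb⟩ := h5
        rw [hd_SE, hd_SE] at hb
        exact ⟨F ∘ c, b, hb⟩
      · rintro ⟨e, he, c, b, hb⟩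
        rw [← hd_SE a e₀, ← hd_SE a e] at hb
        letI s1 := SE a e
        obtain ⟨hM', hcr, hdim⟩ := hasDimR_of_basicR (SM := SE a e₀) (SM' := SE a e) hmc hB
          (fun N _ _ hN v => hΘ N hN v) (fun N _ _ hN v => hΦ N hN v) hM hc₀ hb
        have hcn : Countable (A i) := (h1 i).1
        obtain ⟨c', hcr', hdim'⟩ := (hd₀ i (d₀ + i)).2 rfl
        obtain ⟨F, -⟩ := iso_of_dimR hB hcat (h1 i).2 hM' hcr' hcr hdim' hdim
        exact (hasCompCopy_iff (A i)).2 ⟨e, he, ⟨F⟩⟩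
    rw [hset]
    exact sigma4_finalR ha he₀ Θ₀ Φ (List.ofFn c₀) p d₀
  · refine ⟨fun _ _ _ _ _ => false, Computable.const false, fun i => ?_⟩
    constructor
    · intro hi
      exact absurd ⟨i, hi⟩ hex
    · rintro ⟨e, he⟩
      obtain ⟨y, hy⟩ := he 0
      exact absurd (hy 0) (by simp)

end Pool.Agent.Work.MP_ed0a9a_lc.E
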