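import Pool.Agent.Work.MP_ed0a9a_lc.E.Unc
import Pool.Agent.Work.MP_ed0a9a_lc.E.Uniq

/-!
# Module `Seq2` (size M): a formula true along long sequences is generic

PROOF.  `compact T` with `C = ℝ` and `Γ` the set of the formulas `x_r ≠ x_s` (`r ≠ s`) and
`φ.relabel r` for `r : Fin k → ℝ` strictly monotone.  A finite `Δ ⊆ Γ` mentions finitely many reals, contained in a finite
set `F` with `m` elements; take `c : Fin m → M` from the hypothesis, and `v : ℝ → M` with
`v x = c (index of x in F)` for `x ∈ F` (`Finset.orderIsoOfFin`, an increasing enumeration); a strictly monotone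
`r : Fin k → ℝ` with values in `F` is the enumeration composed with a strictly monotone `g : Fin k → Fin m`.  So
there are `N ⊨ T` and `v : ℝ → N` injective with `φ` true at `v ∘ r` for all strictly monotone `r : Fin k → ℝ`.
Construct by induction on `j` a strictly monotone `r : Fin j → ℝ` with `v ∘ r` independent: given `r` the set
`cl (Set.range (v ∘ r))` is countable (`countable_cl`), the set of the reals `x` larger than all `r i` is
uncountable and `v` is injective, so there is such an `x` with `v x ∉ cl ..`; `ind_snoc_iff`.  For `j = k`: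
`φ` is true at the independent tuple `v ∘ r`, so by `sameTp_of_ind` at all independent `k`-tuples.
-/

namespace Pool.Agent.Work.MP_ed0a9a_lc.E

open FirstOrder FirstOrder.Language

private theorem sq_ioi (b : ℝ) : ¬ (Set.Ioi b).Countable := by
  intro h
  have h1 := Cardinal.mk_Ioi_real b
  have h2 := (Cardinal.le_aleph0_iff_set_countable).2 h
  rw [h1] at h2
  exact absurd Cardinal.aleph0_lt_continuum (not_lt.2 h2)

private theorem sq_mono {j : ℕ} {r : Fin j → ℝ} (hr : StrictMono r) {x : ℝ} (hx : ∀ i, r i < x) :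
    StrictMono (Fin.snoc r x : Fin (j + 1) → ℝ) := by
  intro i i' hii
  have hne : i ≠ Fin.last j := (lt_of_lt_of_le hii (Fin.le_last _)).ne
  obtain ⟨i0, rfl⟩ := Fin.exists_castSucc_eq.mpr hne
  rw [Fin.snoc_castSucc (α := fun _ => ℝ)]
  by_cases h : i' = Fin.last j
  · subst h
    rw [Fin.snoc_last (α := fun _ => ℝ)]
    exact hx i0
  · obtain ⟨i1, rfl⟩ := Fin.exists_castSucc_eq.mpr h
    rw [Fin.snoc_castSucc (α := fun _ => ℝ)]
    exact hr (Fin.castSucc_lt_castSucc_iff.mp hii)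

theorem gen_of_seq {a : ℕ → ℕ} {T : (sig a).Theory} (hc : T.IsComplete)
    (hT : StronglyMinimal T) {k : ℕ} {φ : (sig a).Formula (Fin k)} {M : Type}
    [Nonempty M] [(sig a).Structure M] (hM : M ⊨ T)
    (h : ∀ m : ℕ, ∃ c : Fin m → M, Function.Injective c ∧
      ∀ g : Fin k → Fin m, StrictMono g → φ.Realize (c ∘ g)) : Gen T φ := by
  classical
  set Γ : Set ((sig a).Formula ℝ) := {ψ | (∃ r s : ℝ, r ≠ s ∧
      ψ = ∼((Term.var r : (sig a).Term ℝ).equal (Term.var s))) ∨
      ∃ r : Fin k → ℝ, StrictMono r ∧ ψ = φ.relabel r} with hΓ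
  have hfin : ∀ ψ ∈ Γ, ∃ F : Finset ℝ, (∃ r s : ℝ, r ≠ s ∧ r ∈ F ∧ s ∈ F ∧
      ψ = ∼((Term.var r : (sig a).Term ℝ).equal (Term.var s))) ∨
      ∃ r : Fin k → ℝ, StrictMono r ∧ (∀ i, r i ∈ F) ∧ ψ = φ.relabel r := by
    rintro ψ (⟨r, s, hrs, hψ⟩ | ⟨r, hr, hψ⟩)
    · exact ⟨{r, s}, Or.inl ⟨r, s, hrs, by simp, by simp, hψ⟩⟩
    · exact ⟨Finset.univ.image r, Or.inr ⟨r, hr, fun i => by simp, hψ⟩⟩
  choose! f hf using hfin
  obtain ⟨N, hN1, sN, hN, v, hv⟩ := compact T Γ (by
    intro Δ hΔ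
    set F : Finset ℝ := Δ.biUnion f with hF
    have hsub : ∀ ψ ∈ Δ, f ψ ⊆ F := fun ψ hψ => Finset.subset_biUnion_of_mem f hψ
    obtain ⟨c, hci, hcg⟩ := h F.card
    set e : Fin F.card ≃o F := F.orderIsoOfFin rfl with he
    set v : ℝ → M := fun x => if hx : x ∈ F then c (e.symm ⟨x, hx⟩) else Classical.arbitrary M
      with hv
    have hvF : ∀ (x : ℝ) (hx : x ∈ F), v x = c (e.symm ⟨x, hx⟩) := by
      intro x hx
      rw [hv]
      simp only
      rw [dif_pos hx]
    refine ⟨M, inferInstance, inferInstance, hM, v, ?_⟩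
    intro ψ hψ
    rcases hf ψ (hΔ hψ) with ⟨r, s, hrs, hr, hs, h1⟩ | ⟨r, hr, hrF, h1⟩
    · rw [h1, Formula.realize_not, Formula.realize_equal]
      intro h2
      have h3 : v r = v s := h2
      rw [hvF r (hsub ψ hψ hr), hvF s (hsub ψ hψ hs)] at h3
      have h4 := e.symm.injective (hci h3)
      exact hrs (congrArg Subtype.val h4)
    · rw [h1, Formula.realize_relabel]
      have h2 : v ∘ r = c ∘ fun i => e.symm ⟨r i, hsub ψ hψ (hrF i)⟩ := by
        funext i
        exact hvF (r i) (hsub ψ hψ (hrF i))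
      rw [h2]
      apply hcg
      intro i j hij
      exact e.symm.lt_iff_lt.2 (Subtype.mk_lt_mk.2 (hr hij)))
  have hvi : Function.Injective v := by
    intro r s hrs
    by_contra hne
    have h1 := hv _ (Or.inl ⟨r, s, hne, rfl⟩)
    rw [Formula.realize_not, Formula.realize_equal] at h1
    exact h1 hrs
  have hex : ∀ j : ℕ, ∃ r : Fin j → ℝ, StrictMono r ∧ Ind (sig a) (v ∘ r) := by
    intro j
    induction j with
    | zero => exact ⟨fun i => i.elim0, fun i => i.elim0, ind_zero _⟩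
    | succ j ih =>
      obtain ⟨r, hr, hi⟩ := ih
      obtain ⟨b, hb⟩ := Finite.exists_le r
      have hcnt : (cl (sig a) (Set.range (v ∘ r))).Countable := countable_cl (Set.countable_range _)
      obtain ⟨x, hx1, hx2⟩ : ∃ x ∈ Set.Ioi b, v x ∉ cl (sig a) (Set.range (v ∘ r)) := by
        by_contra hno
        push Not at hno
        exact sq_ioi b ((hcnt.preimage hvi).mono hno)
      refine ⟨Fin.snoc r x, sq_mono hr fun i => lt_of_le_of_lt (hb i) hx1, ?_⟩
      rw [Fin.comp_snoc]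
      exact ind_snoc_iff.2 ⟨hi, hx2⟩
  obtain ⟨r, hr, hi⟩ := hex k
  have h1 := hv _ (Or.inr ⟨r, hr, rfl⟩)
  rw [Formula.realize_relabel] at h1
  intro N' _ _ hN' b hb
  exact (sameTp_of_ind hc hT hN hN' hi hb φ).1 h1

end Pool.Agent.Work.MP_ed0a9a_lc.E
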