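import Pool.Agent.Work.MP_ed0a9a_lc.E.Seq1
import Pool.Agent.Work.MP_ed0a9a_lc.E.Seq2
import Pool.Agent.Work.MP_ed0a9a_lc.E.PFm

/-!
# Module `GenP` (size S): generic primitive formulas

PROOF: `seq_of_gen`, `gen_of_seq` for `φ = fml a k θ`, and `realize_fml`.  `gen_of_ind`: a formula true at one
independent tuple is generic (`sameTp_of_ind`).  `not_gen`: with `exists_ind_tuple`.
-/

namespace Pool.Agent.Work.MP_ed0a9a_lc.E

open FirstOrder FirstOrder.Language

variable {a : ℕ → ℕ} {T : (sig a).Theory}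

theorem gen_iff_seqT (hc : T.IsComplete) (hT : StronglyMinimal T) {M : Type} [Nonempty M]
    [SM : (sig a).Structure M] (hM : M ⊨ T) (k : ℕ) (θ : List Lit) :
    Gen T (fml a k θ) ↔ SeqT (hd a SM) k θ := by
  constructor
  · intro h m
    obtain ⟨c, hi, h1⟩ := seq_of_gen hc hT h hM m
    exact ⟨c, hi, fun g hg => (realize_fml (S := SM) (c ∘ g)).1 (h1 g hg)⟩
  · intro h
    refine gen_of_seq hc hT hM fun m => ?_
    obtain ⟨c, hi, h1⟩ := h m
    exact ⟨c, hi, fun g hg => (realize_fml (S := SM) (c ∘ g)).2 (h1 g hg)⟩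

theorem gen_of_ind (hc : T.IsComplete) (hT : StronglyMinimal T) {N : Type} [Nonempty N]
    [(sig a).Structure N] (hN : N ⊨ T) {k : ℕ} {b : Fin k → N} (hb : Ind (sig a) b)
    {φ : (sig a).Formula (Fin k)} (h : φ.Realize b) : Gen T φ := by
  intro N' _ _ hN' b' hb'
  exact (sameTp_of_ind hc hT hN hN' hb hb' φ).1 h

end Pool.Agent.Work.MP_ed0a9a_lc.E
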