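import Pool.Agent.Work.MP_ed0a9a_lc.E.Defs
import Pool.Agent.Work.MP_ed0a9a_lc.H.MtCls

/-!
# Module `HSm` (size M): the landed theories are strongly minimal

PROOF.  Let `N ⊨ T`, `φ : (sig a).Formula (Fin (n + 1))`, `v : Fin n → N`.  By `HM.classify` there is an isomorphism
`e : (J →₀ K) ≃[sig a] N`, `J` nonempty, for the structure `D.str (J →₀ K)`; `J →₀ K` is infinite (`HM.infinite_fs`).  So
it is enough to treat `V = J →₀ K` (truth of formulas is preserved by `e`: `StrongHomClass.realize_formula` /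
`Equiv.realize_formula`).  By `HM.ef D φ` there is `N₀` such that in `V` the truth of `φ` at a tuple depends only on its linear relations
over the finite field `F = D.F N₀` (`HM.Same F`).  The set `Sp` of the `F`-linear combinations of `v` is finite.  If
`x, x' ∉ Sp`, then `Fin.snoc v x` and `Fin.snoc v x'` have the same `F`-relations: `∑ c i v i + c x = 0` implies `c = 0` (otherwise
`x ∈ Sp`; this computation is in the proof of `HM.Same.extend`).  So either all `x ∉ Sp` satisfy `φ(v, ·)` or none does.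
-/

namespace Pool.Agent.Work.MP_ed0a9a_lc.E

open FirstOrder FirstOrder.Language

private theorem hsm_key {K V : Type} [Field K] [AddCommGroup V] [Module K V] (F : Subfield K)
    {n : ℕ} (w : Fin n → V) {x : V}
    (hx : ¬ ∃ b : Fin n → K, (∀ i, b i ∈ F) ∧ x = ∑ i, b i • w i)
    (c : Fin (n + 1) ⊕ Fin 0 → K) (hc : ∀ q, c q ∈ F) :
    (∑ q, c q • Sum.elim (Fin.snoc w x : Fin (n + 1) → V) (default : Fin 0 → V) q = 0) ↔
      c (Sum.inl (Fin.last n)) = 0 ∧ ∑ i : Fin n, c (Sum.inl i.castSucc) • w i = 0 := by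
  have h1 : ∑ q, c q • Sum.elim (Fin.snoc w x : Fin (n + 1) → V) (default : Fin 0 → V) q =
      ∑ i : Fin n, c (Sum.inl i.castSucc) • w i + c (Sum.inl (Fin.last n)) • x := by
    rw [Fintype.sum_sum_type, Fin.sum_univ_castSucc]
    simp
  rw [h1]
  constructor
  · intro h0
    by_cases hn : c (Sum.inl (Fin.last n)) = 0
    · rw [hn, zero_smul, add_zero] at h0
      exact ⟨hn, h0⟩
    · exfalso
      apply hx
      refine ⟨fun i => -(c (Sum.inl (Fin.last n)))⁻¹ * c (Sum.inl i.castSucc), fun i =>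
        F.mul_mem (F.neg_mem (F.inv_mem (hc _))) (hc _), ?_⟩
      have h2 : c (Sum.inl (Fin.last n)) • x = -∑ i : Fin n, c (Sum.inl i.castSucc) • w i :=
        eq_neg_of_add_eq_zero_right h0
      have h3 : x = (c (Sum.inl (Fin.last n)))⁻¹ • (c (Sum.inl (Fin.last n)) • x) := by
        rw [smul_smul, inv_mul_cancel₀ hn, one_smul]
      rw [h3, h2, smul_neg, ← neg_smul, Finset.smul_sum]
      refine Finset.sum_congr rfl fun i _ => ?_
      rw [smul_smul]
  · rintro ⟨h2, h3⟩
    rw [h2, zero_smul, add_zero, h3]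

private theorem hsm_dich {K : Type} [Field K] {a : ℕ → ℕ} (D : HM.MT K a) (V : Type)
    [AddCommGroup V] [Module K V] (hV : Infinite V) {n : ℕ}
    (φ : (sig a).Formula (Fin (n + 1))) (w : Fin n → V) :
    letI := D.str V
    {x | φ.Realize (Fin.snoc w x : Fin (n + 1) → V)}.Finite ∨
      {x | ¬ φ.Realize (Fin.snoc w x : Fin (n + 1) → V)}.Finite := by
  classical
  letI := D.str V
  obtain ⟨N₀, h₀⟩ := HM.ef D φ
  have hF := D.fin N₀
  have hfin : {x : V | ∃ b : Fin n → K, (∀ i, b i ∈ D.F N₀) ∧ x = ∑ i, b i • w i}.Finite := by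
    refine (Set.finite_range fun b : Fin n → D.F N₀ => ∑ i, (b i : K) • w i).subset ?_
    rintro x ⟨b, hb, rfl⟩
    exact ⟨fun i => ⟨b i, hb i⟩, rfl⟩
  have key : ∀ x x' : V, (¬ ∃ b : Fin n → K, (∀ i, b i ∈ D.F N₀) ∧ x = ∑ i, b i • w i) →
      (¬ ∃ b : Fin n → K, (∀ i, b i ∈ D.F N₀) ∧ x' = ∑ i, b i • w i) →
      (φ.Realize (Fin.snoc w x : Fin (n + 1) → V) ↔
        φ.Realize (Fin.snoc w x' : Fin (n + 1) → V)) := by
    intro x x' hx hx'
    refine h₀ N₀ le_rfl V V hV hV (Fin.snoc w x : Fin (n + 1) → V) (default : Fin 0 → V)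
      (Fin.snoc w x' : Fin (n + 1) → V) (default : Fin 0 → V) ?_
    intro c hc
    rw [hsm_key (D.F N₀) w hx c hc, hsm_key (D.F N₀) w hx' c hc]
  by_cases h : ∃ x : V, (¬ ∃ b : Fin n → K, (∀ i, b i ∈ D.F N₀) ∧ x = ∑ i, b i • w i) ∧
      φ.Realize (Fin.snoc w x : Fin (n + 1) → V)
  · obtain ⟨x₀, hx₀, hφ⟩ := h
    right
    refine hfin.subset fun x hx => ?_
    by_contra hne
    exact hx ((key x₀ x hx₀ hne).1 hφ)
  · left
    refine hfin.subset fun x hx => ?_
    by_contra hne
    exact h ⟨x, hne, hx⟩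

theorem stronglyMinimal_of_axioms {K : Type} [Field K] {a : ℕ → ℕ} (D : HM.MT K a)
    (T : (sig a).Theory)
    (hT : ∀ (N : Type) [Nonempty N] [S : (sig a).Structure N], N ⊨ T ↔ D.Axioms (hd a S)) :
    StronglyMinimal T := by
  intro M _ _ hM
  obtain ⟨J, hJ, ⟨e⟩⟩ := HM.classify D M ((hT M).1 hM)
  letI := D.str (J →₀ K)
  have hinf : Infinite (J →₀ K) := HM.infinite_fs D J
  refine ⟨Infinite.of_injective e e.injective, fun n φ v => ?_⟩
  have hreal : ∀ x : M, φ.Realize (Fin.snoc v x : Fin (n + 1) → M) ↔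
      φ.Realize (Fin.snoc (e.symm ∘ v) (e.symm x) : Fin (n + 1) → (J →₀ K)) := by
    intro x
    have h1 := StrongHomClass.realize_formula (e.symm) φ
      (v := (Fin.snoc v x : Fin (n + 1) → M))
    rw [← h1]
    have h2 : (e.symm ∘ (Fin.snoc v x : Fin (n + 1) → M)) =
        (Fin.snoc (e.symm ∘ v) (e.symm x) : Fin (n + 1) → (J →₀ K)) := by
      funext i
      refine Fin.lastCases ?_ (fun j => ?_) i
      · simp
      · simp
    rw [h2]
  have hinj : Function.Injective e.symm := e.symm.injective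
  rcases hsm_dich D (J →₀ K) hinf φ (e.symm ∘ v) with h | h
  · left
    refine (h.preimage (f := e.symm) hinj.injOn).subset fun x hx => ?_
    exact (hreal x).1 hx
  · right
    refine (h.preimage (f := e.symm) hinj.injOn).subset fun x hx => ?_
    exact fun h1 => hx ((hreal x).2 h1)

end Pool.Agent.Work.MP_ed0a9a_lc.E
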