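import Pool.Agent.Work.MP_bd2dcc_nt.RG.Ram

/-!
# Module `Ramf` (size S-M): the finite Ramsey theorem for finitely many properties

PROOF.  `ramsey` (file `MP_bd2dcc_nt/RG/Ram.lean`) for `κ = Prop` (or `Bool`) is: for all `s`, `M` there is `R` such that for all
`χ : (Fin s → ℕ) → κ` and all `T : Finset ℕ` with `R ≤ #T` there is `S ⊆ T` with `#S = M` and `χ` constant on the increasing tuples of `S`.
For a finite set `J` of indices (`Finset` induction) and all `M` there is `R` such that for all `χ j : (Fin (n j) → ℕ) → Prop`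
(`j ∈ J`) each `T` with `R ≤ #T` contains `S` with `#S = M` homogeneous for all `χ j`, `j ∈ J`: for `insert i J`, apply `ramsey` for
`χ i` with `M` replaced by the number `R` of `J`, `M`, then the induction hypothesis inside the set obtained.
Apply it with `J = univ`, `χ j a = χ j (e ∘ a)`, `e : ℕ ↪ N` (`Infinite.natEmbedding`), `T = Finset.range R`, and let `c = e ∘ o`,
`o : Fin M → ℕ` the increasing enumeration of `S` (`Finset.orderEmbOfFin`).
-/

namespace Pool.Agent.Work.MP_ed0a9a_lc.E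

private theorem homog_nat {ι : Type} [DecidableEq ι] (n : ι → ℕ) (J : Finset ι) :
    ∀ M : ℕ, ∃ R : ℕ, ∀ (χ : ∀ i, (Fin (n i) → ℕ) → Prop) (T : Finset ℕ), R ≤ T.card →
      ∃ S ⊆ T, S.card = M ∧ ∀ i ∈ J, ∀ a b : Fin (n i) → ℕ, StrictMono a → StrictMono b →
        (∀ j, a j ∈ S) → (∀ j, b j ∈ S) → (χ i a ↔ χ i b) := by
  classical
  induction J using Finset.induction_on with
  | empty =>
    intro M
    refine ⟨M, fun χ T hT => ?_⟩
    obtain ⟨S, hS, hSc⟩ := Finset.exists_subset_card_eq hT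
    exact ⟨S, hS, hSc, fun i hi => absurd hi (Finset.notMem_empty i)⟩
  | insert i J hi IH =>
    intro M
    obtain ⟨R1, hR1⟩ := IH M
    obtain ⟨R, hR⟩ := Pool.Agent.Work.MP_bd2dcc_nt.RG.ramsey Prop (n i) R1
    refine ⟨R, fun χ T hT => ?_⟩
    obtain ⟨S1, hS1, hc1, v, hv⟩ := hR (χ i) T hT
    obtain ⟨S, hS, hc, h2⟩ := hR1 χ S1 hc1.ge
    refine ⟨S, hS.trans hS1, hc, ?_⟩
    intro j hj a b ha hb haS hbS
    rcases Finset.mem_insert.1 hj with rfl | hj
    · rw [hv a ha (fun k => hS (haS k)), hv b hb (fun k => hS (hbS k))]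
    · exact h2 j hj a b ha hb haS hbS

theorem exists_homog {N : Type} [Infinite N] {ι : Type} [Finite ι] (n : ι → ℕ)
    (χ : ∀ i, (Fin (n i) → N) → Prop) (M : ℕ) :
    ∃ c : Fin M → N, Function.Injective c ∧ ∀ i, ∀ g g' : Fin (n i) → Fin M,
      StrictMono g → StrictMono g' → (χ i (c ∘ g) ↔ χ i (c ∘ g')) := by
  classical
  cases nonempty_fintype ι
  obtain ⟨R, hR⟩ := homog_nat n (Finset.univ : Finset ι) M
  obtain ⟨S, -, hS, h⟩ := hR (fun i a => χ i (fun k => Infinite.natEmbedding N (a k)))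
    (Finset.range R) (by rw [Finset.card_range])
  refine ⟨fun k => Infinite.natEmbedding N (S.orderEmbOfFin hS k), ?_, ?_⟩
  · exact (Infinite.natEmbedding N).injective.comp (S.orderEmbOfFin hS).injective
  · intro i g g' hg hg'
    exact h i (Finset.mem_univ i) (fun k => S.orderEmbOfFin hS (g k))
      (fun k => S.orderEmbOfFin hS (g' k))
      (fun x y hxy => (S.orderEmbOfFin hS).strictMono (hg hxy))
      (fun x y hxy => (S.orderEmbOfFin hS).strictMono (hg' hxy))
      (fun j => Finset.orderEmbOfFin_mem S hS _) (fun j => Finset.orderEmbOfFin_mem S hS _)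

end Pool.Agent.Work.MP_ed0a9a_lc.E
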