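import Pool.Agent.Work.MP_ed0a9a_lc.E.Cmp
import Pool.Agent.Work.MP_ed0a9a_lc.E.Ramf

/-!
# Module `Indis` (size M-L): indiscernible sequences

PROOFS.
* `exists_indisc`: `compact (L.completeTheory N₀)` with `C = I` and `Γ` the set of the formulas `x_i ≠ x_j` (`i ≠ j`) and
  `(φ.relabel g).iff (φ.relabel g')` for `φ : L.Formula (Fin n)`, `g g' : Fin n → I` strictly monotone.  Let `Δ ⊆ Γ` be finite: it
  consists of formulas from finitely many data `(i, j)`, `(n, φ, g, g')`; let `F` be the finite set of all the indices `i`, `j`, `g x`,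
  `g' x` in these data, `m = #F`; apply `exists_homog` to `N₀`, the finitely many formulas `φ` and `m`, giving `c : Fin m → N₀`, and let
  `v x = c (index of x in F)` for `x ∈ F` (`Finset.orderIsoOfFin`; arbitrary for `x ∉ F`).  Then `φ(v ∘ g) ↔ φ(v ∘ g')` as `g`, `g'`
  are compositions of the enumeration of `F` with strictly monotone maps.  The model is `N₀`, which satisfies its complete
  theory.  (To organise the finiteness: for each `δ ∈ Δ` choose its datum.)
* `indisc_general`: `F = Finset.univ.image q`, `m = #F`, `g : Fin m → I` the increasing enumeration of `F`, `σ : Fin n → Fin m` with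
  `g ∘ σ = q`; `σ` is surjective; `q i = q j` implies `q' i = q' j` (`h` twice), so there is `g' : Fin m → I` with `g' ∘ σ = q'`, and
  it is strictly monotone by `h`.  Apply `hv` to `φ.relabel σ` (`Formula.realize_relabel`).
-/

namespace Pool.Agent.Work.MP_ed0a9a_lc.E

open FirstOrder FirstOrder.Language

private theorem datum {L : FirstOrder.Language.{0, 0}} {N₀ : Type} [L.Structure N₀] {I : Type}
    [LinearOrder I] (δ : L.Formula I)
    (h : (∃ i j : I, i ≠ j ∧ δ = ((Term.var i).equal (Term.var j)).not) ∨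
      ∃ (n : ℕ) (φ : L.Formula (Fin n)) (g g' : Fin n → I), StrictMono g ∧ StrictMono g' ∧
        δ = (φ.relabel g).iff (φ.relabel g')) :
    ∃ (n : ℕ) (φ : L.Formula (Fin n)) (F : Finset I), ∀ v : I → N₀, Set.InjOn v F →
      (∀ g g' : Fin n → I, StrictMono g → StrictMono g' → (∀ x, g x ∈ F) → (∀ x, g' x ∈ F) →
        (φ.Realize (v ∘ g) ↔ φ.Realize (v ∘ g'))) → δ.Realize v := by
  classical
  rcases h with ⟨i, j, hij, rfl⟩ | ⟨n, φ, g, g', hg, hg', rfl⟩
  · refine ⟨0, ⊥, {i, j}, fun v hv _ => ?_⟩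
    rw [Formula.realize_not, Formula.realize_equal]
    intro h1
    exact hij (hv (by simp) (by simp) h1)
  · refine ⟨n, φ, Finset.univ.image g ∪ Finset.univ.image g', fun v _ h2 => ?_⟩
    rw [Formula.realize_iff, Formula.realize_relabel, Formula.realize_relabel]
    exact h2 g g' hg hg'
      (fun x => Finset.mem_union_left _ (Finset.mem_image_of_mem g (Finset.mem_univ x)))
      (fun x => Finset.mem_union_right _ (Finset.mem_image_of_mem g' (Finset.mem_univ x)))

theorem exists_indisc {L : FirstOrder.Language.{0, 0}} (N₀ : Type) [Nonempty N₀] [Infinite N₀]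
    [L.Structure N₀] (I : Type) [LinearOrder I] :
    ∃ (N : Type) (_ : Nonempty N) (_ : L.Structure N), N ⊨ L.completeTheory N₀ ∧
      ∃ v : I → N, Function.Injective v ∧ ∀ (n : ℕ) (φ : L.Formula (Fin n))
        (g g' : Fin n → I), StrictMono g → StrictMono g' →
          (φ.Realize (v ∘ g) ↔ φ.Realize (v ∘ g')) := by
  classical
  set Γ : Set (L.Formula I) := {δ | (∃ i j : I, i ≠ j ∧
      δ = ((Term.var i).equal (Term.var j)).not) ∨
      ∃ (n : ℕ) (φ : L.Formula (Fin n)) (g g' : Fin n → I), StrictMono g ∧ StrictMono g' ∧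
        δ = (φ.relabel g).iff (φ.relabel g')} with hΓ
  obtain ⟨N, hN, sN, hT, v, hv⟩ := compact (L.completeTheory N₀) Γ (by
    intro Δ hΔ
    refine ⟨N₀, inferInstance, inferInstance, inferInstance, ?_⟩
    have h1 : ∀ δ : {δ // δ ∈ Δ}, ∃ (n : ℕ) (φ : L.Formula (Fin n)) (F : Finset I),
        ∀ v : I → N₀, Set.InjOn v F →
          (∀ g g' : Fin n → I, StrictMono g → StrictMono g' → (∀ x, g x ∈ F) →
            (∀ x, g' x ∈ F) → (φ.Realize (v ∘ g) ↔ φ.Realize (v ∘ g'))) →
          (δ : L.Formula I).Realize v := fun δ => datum _ (hΔ (Finset.mem_coe.2 δ.2))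
    choose n φ F h1 using h1
    set F0 : Finset I := Finset.univ.biUnion F with hF0
    have hsub : ∀ δ, ∀ x ∈ F δ, x ∈ F0 := fun δ x hx =>
      Finset.mem_biUnion.2 ⟨δ, Finset.mem_univ δ, hx⟩
    obtain ⟨c, hc, h2⟩ := exists_homog (N := N₀) n (fun δ a => (φ δ).Realize a) F0.card
    set e := (F0.orderIsoOfFin rfl).symm with he
    refine ⟨fun x => if h : x ∈ F0 then c (e ⟨x, h⟩) else Classical.arbitrary N₀, ?_⟩
    intro δ hδ
    refine h1 ⟨δ, hδ⟩ _ ?_ ?_
    · intro x hx y hy hxy
      have hx' := hsub _ x (Finset.mem_coe.1 hx)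
      have hy' := hsub _ y (Finset.mem_coe.1 hy)
      simp only [dif_pos hx', dif_pos hy'] at hxy
      have h3 := e.injective (hc hxy)
      exact congrArg Subtype.val h3
    · intro g g' hg hg' hgF hgF'
      have h3 : ∀ f : Fin (n ⟨δ, hδ⟩) → I, ∀ hf : ∀ x, f x ∈ F ⟨δ, hδ⟩,
          (fun x => if h : x ∈ F0 then c (e ⟨x, h⟩) else Classical.arbitrary N₀) ∘ f =
            c ∘ fun k => e ⟨f k, hsub _ _ (hf k)⟩ := by
        intro f hf
        funext k
        exact dif_pos (hsub _ _ (hf k))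
      rw [h3 g hgF, h3 g' hgF']
      exact h2 ⟨δ, hδ⟩ _ _ (fun x y hxy => e.strictMono (hg hxy))
        (fun x y hxy => e.strictMono (hg' hxy)))
  refine ⟨N, hN, sN, hT, v, ?_, ?_⟩
  · intro i j hij
    by_contra hne
    have h1 := hv (((Term.var i).equal (Term.var j)).not : L.Formula I) (Or.inl ⟨i, j, hne, rfl⟩)
    rw [Formula.realize_not, Formula.realize_equal] at h1
    exact h1 hij
  · intro n φ g g' hg hg'
    have h1 := hv ((φ.relabel g).iff (φ.relabel g')) (Or.inr ⟨n, φ, g, g', hg, hg', rfl⟩)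
    rw [Formula.realize_iff, Formula.realize_relabel, Formula.realize_relabel] at h1
    exact h1

theorem indisc_general {L : FirstOrder.Language.{0, 0}} {N I : Type} [L.Structure N]
    [LinearOrder I] (v : I → N)
    (hv : ∀ (n : ℕ) (φ : L.Formula (Fin n)) (g g' : Fin n → I), StrictMono g →
      StrictMono g' → (φ.Realize (v ∘ g) ↔ φ.Realize (v ∘ g'))) {n : ℕ}
    (φ : L.Formula (Fin n)) (q q' : Fin n → I) (h : ∀ i j, q i ≤ q j ↔ q' i ≤ q' j) :
    φ.Realize (v ∘ q) ↔ φ.Realize (v ∘ q') := by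
  classical
  set F : Finset I := Finset.univ.image q with hF
  have hq : ∀ i, q i ∈ F := fun i => Finset.mem_image_of_mem q (Finset.mem_univ i)
  have hg0 : ∀ k : Fin F.card, ∃ i, q i = F.orderEmbOfFin rfl k := by
    intro k
    obtain ⟨i, -, hi⟩ := Finset.mem_image.1 (Finset.orderEmbOfFin_mem F rfl k)
    exact ⟨i, hi⟩
  choose t ht using hg0
  set σ : Fin n → Fin F.card := fun i => (F.orderIsoOfFin rfl).symm ⟨q i, hq i⟩ with hσ
  have h1 : ∀ i, F.orderEmbOfFin rfl (σ i) = q i := by
    intro i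
    have h2 := (F.orderIsoOfFin rfl).apply_symm_apply ⟨q i, hq i⟩
    have h3 := congrArg Subtype.val h2
    exact h3
  have hqq : ∀ i j, q i = q j → q' i = q' j := fun i j hij =>
    le_antisymm ((h i j).1 hij.le) ((h j i).1 hij.ge)
  have hm' : StrictMono fun k => q' (t k) := by
    intro k l hkl
    have h2 : q (t k) < q (t l) := by
      rw [ht, ht]
      exact (F.orderEmbOfFin rfl).strictMono hkl
    exact lt_of_not_ge fun h3 => absurd ((h _ _).2 h3) (not_le_of_gt h2)
  have h4 := hv F.card (φ.relabel σ) (F.orderEmbOfFin rfl) (fun k => q' (t k))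
    (F.orderEmbOfFin rfl).strictMono hm'
  rw [Formula.realize_relabel, Formula.realize_relabel] at h4
  have e1 : (v ∘ (F.orderEmbOfFin rfl)) ∘ σ = v ∘ q := by
    funext i
    exact congrArg v (h1 i)
  have e2 : (v ∘ fun k => q' (t k)) ∘ σ = v ∘ q' := by
    funext i
    refine congrArg v (hqq _ _ ?_)
    rw [ht, h1]
  rw [e1, e2] at h4
  exact h4

end Pool.Agent.Work.MP_ed0a9a_lc.E
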