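import Pool.Agent.Work.MP_ed0a9a_lc.E.Rob

/-!
# Module `KEc` (size S-M): structures satisfying the `∀∃` sentences are existentially closed

PROOF.  By `robinson` for the formula `∼ fml a k θ` there is `Θ` such that in all models of `T`: `¬ PTrue θ v` iff
`∃ θ' ∈ Θ, PTrue θ' v` (`realize_fml`).  So in `M`: for all `v : Fin k → M` there is `θ' ∈ θ :: Θ` with
`PTrue (hd a SM) θ' (List.ofFn v)`; by `Le2` the same holds in `M'`, in particular at `c`: there is `θ' ∈ θ :: Θ` true at `c`.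
If `θ' ∈ Θ` then by `pTrue_map` `θ'` is true at `f ∘ c` in `N` (`List.ofFn (f ∘ c) = (List.ofFn c).map f`), so `θ` is
false at `f ∘ c`: contradiction.  So `θ' = θ`.
-/

namespace Pool.Agent.Work.MP_ed0a9a_lc.E

open FirstOrder FirstOrder.Language

theorem ec_of_le2 {a : ℕ → ℕ} {T : (sig a).Theory} (hmc : ModelComplete T) {M M' N : Type}
    [Nonempty M] [Nonempty N] [SM : (sig a).Structure M] [SM' : (sig a).Structure M']
    [SN : (sig a).Structure N] (hM : M ⊨ T) (hN : N ⊨ T) (h : Le2 (hd a SM) (hd a SM'))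
    (f : M' ↪[sig a] N) {k : ℕ} (c : Fin k → M') (θ : List Lit)
    (hθ : PTrue (hd a SN) θ (List.ofFn (f ∘ c))) : PTrue (hd a SM') θ (List.ofFn c) := by
  obtain ⟨Θ, hΘ⟩ := robinson hmc (∼(fml a k θ))
  have h1 : ∀ v : Fin k → M, ∃ θ' ∈ θ :: Θ, PTrue (hd a SM) θ' (List.ofFn v) := by
    intro v
    by_cases hv : PTrue (hd a SM) θ (List.ofFn v)
    · exact ⟨θ, List.mem_cons_self, hv⟩
    · have h2 : Formula.Realize (∼(fml a k θ)) v := by
        rw [Formula.realize_not, realize_fml]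
        exact hv
      obtain ⟨θ', h3, h4⟩ := (hΘ M hM v).1 h2
      exact ⟨θ', List.mem_cons_of_mem _ h3, h4⟩
  obtain ⟨θ', h3, h4⟩ := h k (θ :: Θ) h1 c
  rcases List.mem_cons.1 h3 with rfl | h3
  · exact h4
  · exfalso
    have h5 := pTrue_map f h4
    rw [List.map_ofFn] at h5
    have h6 := (hΘ N hN (f ∘ c)).2 ⟨θ', h3, h5⟩
    rw [Formula.realize_not, realize_fml] at h6
    exact h6 hθ

end Pool.Agent.Work.MP_ed0a9a_lc.E
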