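import Pool.Agent.Work.MP_ed0a9a_lc.E.KEmb
import Pool.Agent.Work.MP_ed0a9a_lc.E.KEc
import Pool.Agent.Work.MP_ed0a9a_lc.E.Sub

/-!
# Module `KCl` (size M-L): a structure with a tuple satisfying `Basic` is a model

PROOF.  By `exists_emb_ind` (second part of `Basic`) there are `N ⊨ T`, `f : M' ↪ N` with `b' = f ∘ b` independent.
(a) `Set.range f ⊆ cl (Set.range b')`: let `y : M'` and `θ` from the third part of `Basic`; `θ` is true at
`b' ++ [f y]` (`pTrue_map`).  If `f y ∉ cl (Set.range b')` then `Fin.snoc b' (f y)` is independent (`ind_snoc_iff`), so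
`Gen T (fml a (d + 1) θ)` (`gen_of_ind`, `realize_fml`; `List.ofFn (Fin.snoc b' z) = List.ofFn b' ++ [z]`), so
`SeqT (hd a SM) (d + 1) θ` (`gen_iff_seqT`): contradiction.
(b) `cl (Set.range b') ⊆ Set.range f`: let `z ∈ cl (Set.range b')`, `z ∉ Set.range f`.  There is `φ` with `φ(b', z)` and
`φ(b', ·)` with at most `n` solutions (`mem_cl_range`, `acl_iff`).  By `robinson` for `φ` there is `θ` true at `b' ++ [z]` which
implies `φ` in `N`; so `Z = {z' | PTrue (hd a SN) θ (List.ofFn b' ++ [z'])}` is finite and contains `z`.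
Let `y₁, …, y_m` be a list of all `y : M'` with `f y ∈ Z` (finitely many, `f` injective) and `θ'` from
`exists_new d m θ`.  `θ'` is true in `N` at `b' ++ [f y₁, …, f y_m]` because of `z` (`z ≠ f y_j`), so by `ec_of_le2` it is true
in `M'` at `b ++ [y₁, …, y_m]`: there is `z₀ : M'`, `z₀ ∉ [y₁, …, y_m]`, with `θ` true at `b ++ [z₀]` in `M'`; by `pTrue_map`
`f z₀ ∈ Z`: contradiction.
(c) `M'` is infinite, so `cl (Set.range b') = Set.range f` is infinite and by `exists_sub` it is an elementary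
substructure of `N`; so `f` is an elementary embedding (for a formula `φ` and a tuple `v` in `M'`: `φ` is true at `v` in `M'` iff
it is true at `f ∘ v` in the substructure, which is isomorphic to `M'` by `f`, iff it is true at `f ∘ v` in `N`).
Hence `M' ⊨ T`, `Ind b` (`sameTp_map`, `sameTp_ind`), and `cl (Set.range b) = univ` (`map_mem_cl`; `f '' Set.range b =
Set.range b'`).
-/

namespace Pool.Agent.Work.MP_ed0a9a_lc.E

open FirstOrder FirstOrder.Language

private theorem ofFn_snoc_kcl {N : Type} {d : ℕ} (b : Fin d → N) (z : N) :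
    List.ofFn (Fin.snoc b z : Fin (d + 1) → N) = List.ofFn b ++ [z] := by
  rw [List.ofFn_succ', List.concat_eq_append]
  congr 1
  · congr 1
    funext i
    exact Fin.snoc_castSucc (α := fun _ => N) z b i
  · rw [Fin.snoc_last]

private theorem kcl_a {a : ℕ → ℕ} {T : (sig a).Theory} (hc : T.IsComplete)
    (hT : StronglyMinimal T) {M : Type} [Nonempty M]
    [SM : (sig a).Structure M] (hM : M ⊨ T) {M' N : Type} [Nonempty N]
    [SM' : (sig a).Structure M'] [SN : (sig a).Structure N] (hN : N ⊨ T)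
    (f : M' ↪[sig a] N) {d : ℕ} (b : Fin d → M') (hb : Ind (sig a) (f ∘ b)) (y : M')
    (h : ∃ θ, PTrue (hd a SM') θ (List.ofFn b ++ [y]) ∧ ¬ SeqT (hd a SM) (d + 1) θ) :
    f y ∈ cl (sig a) (Set.range (f ∘ b)) := by
  by_contra hy
  obtain ⟨θ, h1, h2⟩ := h
  apply h2
  have hi : Ind (sig a) (Fin.snoc (f ∘ b) (f y) : Fin (d + 1) → N) := ind_snoc_iff.2 ⟨hb, hy⟩
  rw [← gen_iff_seqT hc hT hM]
  apply gen_of_ind hc hT hN hi
  rw [realize_fml, ofFn_snoc_kcl]
  have h4 := pTrue_map f h1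
  rwa [List.map_append, List.map_ofFn] at h4

private theorem kcl_b {a : ℕ → ℕ} {T : (sig a).Theory} (hmc : ModelComplete T)
    {M : Type} [Nonempty M]
    [SM : (sig a).Structure M] (hM : M ⊨ T) {M' N : Type} [Nonempty N]
    [SM' : (sig a).Structure M'] [SN : (sig a).Structure N] (hN : N ⊨ T)
    (hle : Le2 (hd a SM) (hd a SM'))
    (f : M' ↪[sig a] N) {d : ℕ} (b : Fin d → M') (z : N)
    (hz : z ∈ cl (sig a) (Set.range (f ∘ b))) : z ∈ Set.range f := by
  by_contra hzf
  rw [mem_cl_range] at hz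
  obtain ⟨φ, h1, h2⟩ := hz
  obtain ⟨Θ, hΘ⟩ := robinson hmc φ
  obtain ⟨θ, hθ, h3⟩ := (hΘ N hN _).1 h1
  rw [ofFn_snoc_kcl] at h3
  have hZ : {z' | PTrue (hd a SN) θ (List.ofFn (f ∘ b) ++ [z'])}.Finite := by
    refine h2.subset (fun z' hz' => (hΘ N hN _).2 ⟨θ, hθ, ?_⟩)
    rw [ofFn_snoc_kcl]
    exact hz'
  have hY : (f ⁻¹' {z' | PTrue (hd a SN) θ (List.ofFn (f ∘ b) ++ [z'])}).Finite :=
    hZ.preimage f.injective.injOn
  obtain ⟨u, hu⟩ : ∃ u : List M', ∀ y, y ∈ u ↔
      PTrue (hd a SN) θ (List.ofFn (f ∘ b) ++ [f y]) := by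
    refine ⟨hY.toFinset.toList, fun y => ?_⟩
    rw [Finset.mem_toList, Set.Finite.mem_toFinset]
    exact Iff.rfl
  obtain ⟨θ', hθ'⟩ := exists_new d u.length θ
  have hcl : List.ofFn (Fin.append b u.get) = List.ofFn b ++ u := by
    rw [List.ofFn_fin_append, List.ofFn_get]
  have hcl2 : List.ofFn (f ∘ Fin.append b u.get) = List.ofFn (f ∘ b) ++ u.map f := by
    rw [← List.map_ofFn, hcl, List.map_append, List.map_ofFn]
  have h5 : PTrue (hd a SN) θ' (List.ofFn (f ∘ Fin.append b u.get)) := by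
    rw [hcl2, hθ' N _ _ _ (by simp) (by simp)]
    refine ⟨z, ?_, h3⟩
    intro hzu
    obtain ⟨y, -, hy⟩ := List.mem_map.1 hzu
    exact hzf ⟨y, hy⟩
  have h6 := ec_of_le2 hmc hM hN hle f (Fin.append b u.get) θ' h5
  rw [hcl, hθ' M' _ _ _ (by simp) rfl] at h6
  obtain ⟨z₀, hz₀, h7⟩ := h6
  apply hz₀
  rw [hu]
  have h8 := pTrue_map f h7
  rwa [List.map_append, List.map_ofFn] at h8

private theorem kcl_c {a : ℕ → ℕ} {M' N : Type}
    [SM' : (sig a).Structure M'] [SN : (sig a).Structure N]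
    (f : M' ↪[sig a] N) (S : (sig a).ElementarySubstructure N)
    (hS : (S : Set N) = Set.range f) : ∃ g : M' ↪ₑ[sig a] N, ∀ y, g y = f y := by
  have hr : S.toSubstructure = f.toHom.range := by
    apply SetLike.coe_injective
    rw [Hom.range_coe]
    exact hS
  have hE : f.toHom.range.IsElementary := hr ▸ S.isElementary
  exact ⟨(ElementarySubstructure.subtype ⟨f.toHom.range, hE⟩).comp
    f.equivRange.toElementaryEmbedding, fun y => rfl⟩

theorem model_of_basic {a : ℕ → ℕ} {T : (sig a).Theory} (hc : T.IsComplete)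
    (hT : StronglyMinimal T) (hmc : ModelComplete T) {M : Type} [Nonempty M]
    [SM : (sig a).Structure M] (hM : M ⊨ T) {M' : Type} [Nonempty M'] [Infinite M']
    [SM' : (sig a).Structure M'] {d : ℕ} (b : Fin d → M')
    (h : Basic (hd a SM) (hd a SM') b) :
    M' ⊨ T ∧ Ind (sig a) b ∧ cl (sig a) (Set.range b) = Set.univ := by
  obtain ⟨N, _, SN, hN, f, hf⟩ := exists_emb_ind hc hT hM b h.2.1
  have ha : ∀ y, f y ∈ cl (sig a) (Set.range (f ∘ b)) :=
    fun y => kcl_a hc hT hM hN f b hf y (h.2.2 y)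
  have hb : ∀ z ∈ cl (sig a) (Set.range (f ∘ b)), z ∈ Set.range f :=
    fun z hz => kcl_b hmc hM hN h.1 f b z hz
  have hr : cl (sig a) (Set.range (f ∘ b)) = Set.range f := by
    apply Set.Subset.antisymm hb
    rintro _ ⟨y, rfl⟩
    exact ha y
  have hinf : (cl (sig a) (Set.range (f ∘ b))).Infinite := by
    rw [hr]
    exact Set.infinite_range_of_injective f.injective
  obtain ⟨S, hS⟩ := exists_sub hT hN (Set.range (f ∘ b)) hinf
  rw [hr] at hS
  obtain ⟨g, hg⟩ := kcl_c f S hS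
  have hgb : g ∘ b = f ∘ b := by
    funext i
    exact hg (b i)
  refine ⟨(g.theory_model_iff T).2 hN, ?_, ?_⟩
  · apply sameTp_ind (sameTp_map g b).symm'
    rw [hgb]
    exact hf
  · refine Set.eq_univ_of_forall fun y => ?_
    rw [← map_mem_cl g, ← Set.range_comp, hgb, hg]
    exact ha y

end Pool.Agent.Work.MP_ed0a9a_lc.E
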