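import Pool.Agent.Work.MP_ed0a9a_lc.E.Defs

/-!
# Module `PAnd` (size S-M): operations on codes of primitive formulas

PROOFS.  For `ρ : ℕ → ℕ` let `ren ρ l = (l.1, l.2.1.map ρ, l.2.2)`; then
`LTrue H c (ren ρ l) ↔ LTrue H (c ∘ ρ) l` (for the symbol `0`: `l.2.1.map ρ = [x, y]` iff
`l.2.1 = [x', y']` with `ρ x' = x`, `ρ y' = y`).
* `exists_and`: `θ'' = θ.map (ren ρ₁) ++ θ'.map (ren ρ₂)`, `ρ₁ i = ρ₂ i = i` for `i < k`,
  `ρ₁ i = k + 2 (i - k)`, `ρ₂ i = k + 2 (i - k) + 1` for `i ≥ k`.  From assignments `c`, `c'` for `θ`, `θ'` one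
  gets one for `θ''` and conversely.
* `exists_new`: `θ' = θ.map (ren ρ) ++ [(0, [k + m, k + j], false) | j < m]` with `ρ i = i` for `i < k`, `ρ k = k + m`,
  `ρ i = i + m` for `i > k`.
-/

namespace Pool.Agent.Work.MP_ed0a9a_lc.E

private def pa_ren (ρ : ℕ → ℕ) (l : Lit) : Lit := (l.1, l.2.1.map ρ, l.2.2)

private theorem pa_true {N : Type} (H : ℕ → List N → Prop) (c : ℕ → N) (ρ : ℕ → ℕ) (l : Lit) :
    LTrue H c (pa_ren ρ l) ↔ LTrue H (c ∘ ρ) l := by
  have h : AtTrue H c (pa_ren ρ l) ↔ AtTrue H (c ∘ ρ) l := by
    rcases l with ⟨i, L, s⟩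
    unfold AtTrue pa_ren
    simp only [List.map_map]
    refine or_congr (and_congr Iff.rfl ?_) Iff.rfl
    constructor
    · rintro ⟨x, y, h1, h2⟩
      obtain ⟨x', y', rfl⟩ := List.length_eq_two.1 (by simpa using congrArg List.length h1)
      simp only [List.map_cons, List.map_nil, List.cons.injEq, and_true] at h1
      refine ⟨x', y', rfl, ?_⟩
      rw [Function.comp_apply, Function.comp_apply, h1.1, h1.2]
      exact h2
    · rintro ⟨x, y, rfl, h2⟩
      exact ⟨ρ x, ρ y, rfl, h2⟩
  unfold LTrue
  rw [h]
  exact Iff.rfl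

theorem exists_and (k : ℕ) (θ θ' : List Lit) : ∃ θ'' : List Lit,
    ∀ (N : Type) (H : ℕ → List N → Prop) (b : List N), b.length = k →
      (PTrue H θ'' b ↔ PTrue H θ b ∧ PTrue H θ' b) := by
  set ρ₁ : ℕ → ℕ := fun i => if i < k then i else k + 2 * (i - k) with hρ₁
  set ρ₂ : ℕ → ℕ := fun i => if i < k then i else k + 2 * (i - k) + 1 with hρ₂
  refine ⟨θ.map (pa_ren ρ₁) ++ θ'.map (pa_ren ρ₂), ?_⟩
  intro N H b hb
  constructor
  · rintro ⟨c, hc1, hc2⟩
    constructor
    · refine ⟨c ∘ ρ₁, fun i hi => ?_, fun l hl => ?_⟩
      · rw [Function.comp_apply, hρ₁]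
        simp only
        rw [if_pos (by omega)]
        exact hc1 i hi
      · exact (pa_true H c ρ₁ l).1 (hc2 _ (List.mem_append_left _ (List.mem_map_of_mem hl)))
    · refine ⟨c ∘ ρ₂, fun i hi => ?_, fun l hl => ?_⟩
      · rw [Function.comp_apply, hρ₂]
        simp only
        rw [if_pos (by omega)]
        exact hc1 i hi
      · exact (pa_true H c ρ₂ l).1 (hc2 _ (List.mem_append_right _ (List.mem_map_of_mem hl)))
  · rintro ⟨⟨c1, h11, h12⟩, c2, h21, h22⟩
    set c : ℕ → N := fun i => if i < k then c1 i else
      if (i - k) % 2 = 0 then c1 (k + (i - k) / 2) else c2 (k + (i - k) / 2) with hc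
    have e1 : c ∘ ρ₁ = c1 := by
      funext i
      rw [Function.comp_apply, hc, hρ₁]
      simp only
      by_cases h : i < k
      · rw [if_pos h, if_pos h]
      · rw [if_neg h, if_neg (by omega), if_pos (by omega)]
        congr 1
        omega
    have e2 : c ∘ ρ₂ = c2 := by
      funext i
      rw [Function.comp_apply, hc, hρ₂]
      simp only
      by_cases h : i < k
      · rw [if_pos h, if_pos h, h11 i (by omega), h21 i (by omega)]
      · rw [if_neg h, if_neg (by omega), if_neg (by omega)]
        congr 1
        omega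
    refine ⟨c, fun i hi => ?_, fun l hl => ?_⟩
    · rw [hc]
      simp only
      rw [if_pos (by omega)]
      exact h11 i hi
    · rcases List.mem_append.1 hl with h | h
      · obtain ⟨l', hl', rfl⟩ := List.mem_map.1 h
        rw [pa_true, e1]
        exact h12 l' hl'
      · obtain ⟨l', hl', rfl⟩ := List.mem_map.1 h
        rw [pa_true, e2]
        exact h22 l' hl'

private theorem pa_ne {N : Type} (H : ℕ → List N → Prop) (c : ℕ → N) (x y : ℕ) :
    LTrue H c (0, [x, y], false) ↔ c x ≠ c y := by
  unfold LTrue AtTrue
  simp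

theorem exists_new (k m : ℕ) (θ : List Lit) : ∃ θ' : List Lit,
    ∀ (N : Type) (H : ℕ → List N → Prop) (b u : List N), b.length = k → u.length = m →
      (PTrue H θ' (b ++ u) ↔ ∃ z, z ∉ u ∧ PTrue H θ (b ++ [z])) := by
  set ρ : ℕ → ℕ := fun i => if i < k then i else i + m with hρ
  refine ⟨θ.map (pa_ren ρ) ++ (List.range m).map fun j => (0, [k + m, k + j], false), ?_⟩
  intro N H b u hb hu
  constructor
  · rintro ⟨c, hc1, hc2⟩
    refine ⟨c (k + m), ?_, c ∘ ρ, fun i hi => ?_, fun l hl => ?_⟩
    · intro hz
      obtain ⟨j, hj, hj2⟩ := List.mem_iff_getElem.1 hz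
      have h1 := hc2 (0, [k + m, k + j], false) (List.mem_append_right _
        (List.mem_map.2 ⟨j, List.mem_range.2 (by omega), rfl⟩))
      rw [pa_ne] at h1
      apply h1
      rw [hc1 (k + j) (by rw [List.length_append]; omega), ← hj2,
        List.getElem_append_right (by omega)]
      congr 1
      omega
    · rw [Function.comp_apply, hρ]
      simp only
      rw [List.length_append, List.length_singleton] at hi
      by_cases h : i < k
      · rw [if_pos h, hc1 i (by rw [List.length_append]; omega),
          List.getElem_append_left (by omega), List.getElem_append_left (by omega)]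
      · rw [if_neg h, List.getElem_append_right (by omega)]
        simp only [List.getElem_singleton]
        congr 1
        omega
    · exact (pa_true H c ρ l).1 (hc2 _ (List.mem_append_left _ (List.mem_map_of_mem hl)))
  · rintro ⟨z, hz, c', h1, h2⟩
    set c : ℕ → N := fun i => if i < k then c' i else
      if i < k + m then u.getD (i - k) z else c' (i - m) with hc
    have e1 : c ∘ ρ = c' := by
      funext i
      rw [Function.comp_apply, hc, hρ]
      simp only
      by_cases h : i < k
      · rw [if_pos h, if_pos h]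
      · rw [if_neg h, if_neg (by omega), if_neg (by omega)]
        congr 1
        omega
    have hk : c' k = z := by
      rw [h1 k (by rw [List.length_append, List.length_singleton]; omega),
        List.getElem_append_right (by omega)]
      simp
    refine ⟨c, fun i hi => ?_, fun l hl => ?_⟩
    · rw [List.length_append] at hi
      rw [hc]
      simp only
      by_cases h : i < k
      · rw [if_pos h, h1 i (by rw [List.length_append]; omega),
          List.getElem_append_left (by omega), List.getElem_append_left (by omega)]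
      · rw [if_neg h, if_pos (by omega), List.getElem_append_right (by omega),
          List.getD_eq_getElem _ _ (by omega)]
        congr 1
        omega
    · rcases List.mem_append.1 hl with h | h
      · obtain ⟨l', hl', rfl⟩ := List.mem_map.1 h
        rw [pa_true, e1]
        exact h2 l' hl'
      · obtain ⟨j, hj, rfl⟩ := List.mem_map.1 h
        rw [List.mem_range] at hj
        rw [pa_ne, hc]
        simp only
        rw [if_neg (by omega), if_neg (by omega), if_neg (by omega), if_pos (by omega)]
        intro h3
        apply hz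
        have e3 : k + m - m = k := by omega
        have e4 : k + j - k = j := by omega
        rw [e3, e4, hk, List.getD_eq_getElem _ _ (by omega)] at h3
        rw [h3]
        exact List.getElem_mem _

end Pool.Agent.Work.MP_ed0a9a_lc.E
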