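import Pool.Agent.Work.MP_ed0a9a_lc.E.PTy
import Pool.Agent.Work.MP_ed0a9a_lc.E.PAnd

/-!
# Module `Rob` (size M): in a model complete theory every formula is existential

PROOF.  Say that `θ` implies `φ` if in all models `N` of `T`, `PTrue (hd a S) θ (List.ofFn v)` implies
`φ.Realize v`.
(1) Let `N ⊨ T`, `φ.Realize b`.  Then some `θ` with `PTrue (hd a S) θ (List.ofFn b)` implies `φ`.
Otherwise use `compact T` with `C = Fin k` and `Γ = {fml a k θ | θ true at b} ∪ {∼φ}`: a finite part of `Γ`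
contains `fml a k θ_j` for finitely many `θ_j` true at `b`; by `exists_and` (iterated; start with `θ = []`) some `θ` true
at `b` is equivalent to their conjunction, and does not imply `φ`; this gives a model and a tuple.  So there are
`N' ⊨ T`, `b'` with all `θ` true at `b` true at `b'` (`realize_fml`) and `¬ φ.Realize b'`, which contradicts
`sameTp_of_prim`.
(2) `compact T` with `C = Fin k` and `Γ = {φ} ∪ {∼ fml a k θ | θ implies φ}`: by (1) no `N ⊨ T`, `v` satisfies `Γ`, so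
some finite part `Δ` is not satisfiable; let `Θ` be the finite list of the `θ` (choose them) with `∼ fml a k θ ∈ Δ`.
Then in every model: `φ.Realize v` implies `∃ θ ∈ Θ, PTrue ..`, and each `θ ∈ Θ` implies `φ`.
-/

namespace Pool.Agent.Work.MP_ed0a9a_lc.E

open FirstOrder FirstOrder.Language

/-- Finite conjunctions of codes of primitive formulas. -/
private theorem exists_andList (k : ℕ) (Θ : List (List Lit)) : ∃ θ'' : List Lit,
    ∀ (N : Type) [Nonempty N] (H : ℕ → List N → Prop) (b : List N), b.length = k →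
      (PTrue H θ'' b ↔ ∀ θ ∈ Θ, PTrue H θ b) := by
  induction Θ with
  | nil =>
    refine ⟨[], fun N hN H b _ => ⟨fun _ θ h => by simp at h, fun _ => ?_⟩⟩
    refine ⟨fun i => b.getD i (Classical.arbitrary N), fun i h => ?_, fun l hl => by simp at hl⟩
    exact List.getD_eq_getElem _ _ h
  | cons θ₀ Θ ih =>
    obtain ⟨θ₁, h₁⟩ := ih
    obtain ⟨θ₂, h₂⟩ := exists_and k θ₀ θ₁
    refine ⟨θ₂, fun N hN H b hb => ?_⟩
    rw [h₂ N H b hb, h₁ N H b hb, List.forall_mem_cons]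

/-- A formula true at a tuple follows from a primitive formula true at the tuple. -/
private theorem exists_imp {a : ℕ → ℕ} {T : (sig a).Theory} (hmc : ModelComplete T) {k : ℕ}
    (φ : (sig a).Formula (Fin k)) {N : Type} [Nonempty N] [S : (sig a).Structure N] (hN : N ⊨ T)
    {b : Fin k → N} (hb : φ.Realize b) :
    ∃ θ, PTrue (hd a S) θ (List.ofFn b) ∧
      ∀ (N' : Type) [Nonempty N'] [S' : (sig a).Structure N'], N' ⊨ T → ∀ v : Fin k → N',
        PTrue (hd a S') θ (List.ofFn v) → φ.Realize v := by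
  classical
  by_contra hcon
  have hcon' : ∀ θ, PTrue (hd a S) θ (List.ofFn b) →
      ∃ (N' : Type) (_ : Nonempty N') (S' : (sig a).Structure N'), N' ⊨ T ∧ ∃ v : Fin k → N',
        PTrue (hd a S') θ (List.ofFn v) ∧ ¬ φ.Realize v := by
    intro θ hθ
    by_contra h1
    refine hcon ⟨θ, hθ, ?_⟩
    intro N' hN' S' hT' v hv
    by_contra h2
    exact h1 ⟨N', hN', S', hT', v, hv, h2⟩
  set Γ : Set ((sig a).Formula (Fin k)) :=
    {ψ | ψ = ∼φ ∨ ∃ θ, PTrue (hd a S) θ (List.ofFn b) ∧ ψ = fml a k θ} with hΓ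
  have key : ∀ Δ : Finset ((sig a).Formula (Fin k)), (Δ : Set ((sig a).Formula (Fin k))) ⊆ Γ →
      ∃ (N : Type) (_ : Nonempty N) (_ : (sig a).Structure N), N ⊨ T ∧
        ∃ v : Fin k → N, ∀ φ ∈ Δ, φ.Realize v := by
    intro Δ hΔ
    have hc : ∀ ψ : (sig a).Formula (Fin k), ∃ θ : List Lit, (ψ ∈ Γ ∧ ψ ≠ ∼φ) →
        PTrue (hd a S) θ (List.ofFn b) ∧ ψ = fml a k θ := by
      intro ψ
      by_cases hψ : ψ ∈ Γ ∧ ψ ≠ ∼φ
      · rcases hψ.1 with h1 | ⟨θ, h1, h2⟩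
        · exact absurd h1 hψ.2
        · exact ⟨θ, fun _ => ⟨h1, h2⟩⟩
      · exact ⟨[], fun hh => absurd hh hψ⟩
    choose g hg using hc
    obtain ⟨θ, hθ⟩ := exists_andList k ((Δ.filter (fun ψ => ψ ≠ ∼φ)).toList.map g)
    have h1 : PTrue (hd a S) θ (List.ofFn b) := by
      rw [hθ N _ _ (by simp)]
      intro θ' hθ'
      obtain ⟨ψ, hψ, rfl⟩ := List.mem_map.1 hθ'
      have h2 := Finset.mem_filter.1 (Finset.mem_toList.1 hψ)
      exact (hg ψ ⟨hΔ (Finset.mem_coe.2 h2.1), h2.2⟩).1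
    obtain ⟨N', hN', S', hT', v, hv, hφ⟩ := hcon' θ h1
    refine ⟨N', hN', S', hT', v, ?_⟩
    intro ψ hψ
    by_cases hψ1 : ψ = ∼φ
    · rw [hψ1, Formula.realize_not]
      exact hφ
    · rw [(hg ψ ⟨hΔ (Finset.mem_coe.2 hψ), hψ1⟩).2, realize_fml]
      rw [hθ N' _ _ (by simp)] at hv
      refine hv _ (List.mem_map.2 ⟨ψ, ?_, rfl⟩)
      exact Finset.mem_toList.2 (Finset.mem_filter.2 ⟨hψ, hψ1⟩)
  obtain ⟨N', hN', S', hT', v, hv⟩ := compact T Γ key
  have h1 : SameTp (sig a) b v := by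
    refine sameTp_of_prim hmc hN hT' ?_
    intro θ hθ
    exact (realize_fml v).1 (hv _ (Or.inr ⟨θ, hθ, rfl⟩))
  have h2 : Formula.Realize (∼φ) v := hv _ (Or.inl rfl)
  rw [Formula.realize_not] at h2
  exact h2 ((h1 φ).1 hb)

theorem robinson {a : ℕ → ℕ} {T : (sig a).Theory} (hmc : ModelComplete T) {k : ℕ}
    (φ : (sig a).Formula (Fin k)) : ∃ Θ : List (List Lit),
      ∀ (N : Type) [Nonempty N] [S : (sig a).Structure N], N ⊨ T → ∀ v : Fin k → N,
        φ.Realize v ↔ ∃ θ ∈ Θ, PTrue (hd a S) θ (List.ofFn v) := by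
  classical
  set Imp : List Lit → Prop := fun θ =>
    ∀ (N : Type) [Nonempty N] [S : (sig a).Structure N], N ⊨ T → ∀ v : Fin k → N,
      PTrue (hd a S) θ (List.ofFn v) → φ.Realize v with hImp
  set Γ : Set ((sig a).Formula (Fin k)) := {ψ | ψ = φ ∨ ∃ θ, Imp θ ∧ ψ = ∼(fml a k θ)} with hΓ
  have hns : ¬ ∀ Δ : Finset ((sig a).Formula (Fin k)), (Δ : Set ((sig a).Formula (Fin k))) ⊆ Γ →
      ∃ (N : Type) (_ : Nonempty N) (_ : (sig a).Structure N), N ⊨ T ∧
        ∃ v : Fin k → N, ∀ φ ∈ Δ, φ.Realize v := by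
    intro hall
    obtain ⟨N, hN, S, hT, v, hv⟩ := compact T Γ hall
    obtain ⟨θ, h1, h2⟩ := exists_imp hmc φ hT (hv φ (Or.inl rfl))
    have h3 : Formula.Realize (∼(fml a k θ)) v := hv _ (Or.inr ⟨θ, h2, rfl⟩)
    rw [Formula.realize_not, realize_fml] at h3
    exact h3 h1
  push Not at hns
  obtain ⟨Δ, hΔ, hno⟩ := hns
  have hc : ∀ ψ : (sig a).Formula (Fin k), ∃ θ : List Lit, (ψ ∈ Γ ∧ ψ ≠ φ) →
      Imp θ ∧ ψ = ∼(fml a k θ) := by
    intro ψ
    by_cases hψ : ψ ∈ Γ ∧ ψ ≠ φ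
    · rcases hψ.1 with h1 | ⟨θ, h1, h2⟩
      · exact absurd h1 hψ.2
      · exact ⟨θ, fun _ => ⟨h1, h2⟩⟩
    · exact ⟨[], fun hh => absurd hh hψ⟩
  choose g hg using hc
  refine ⟨(Δ.filter (fun ψ => ψ ≠ φ)).toList.map g, ?_⟩
  intro N hN S hT v
  constructor
  · intro hφ
    by_contra h1
    push Not at h1
    obtain ⟨ψ, hψ, hψv⟩ := hno N hN S hT v
    refine hψv ?_
    by_cases hψ1 : ψ = φ
    · rw [hψ1]
      exact hφ
    · rw [(hg ψ ⟨hΔ (Finset.mem_coe.2 hψ), hψ1⟩).2, Formula.realize_not, realize_fml]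
      refine h1 _ (List.mem_map.2 ⟨ψ, ?_, rfl⟩)
      exact Finset.mem_toList.2 (Finset.mem_filter.2 ⟨hψ, hψ1⟩)
  · rintro ⟨θ, hθ, hv⟩
    obtain ⟨ψ, hψ, rfl⟩ := List.mem_map.1 hθ
    have h2 := Finset.mem_filter.1 (Finset.mem_toList.1 hψ)
    exact (hg ψ ⟨hΔ (Finset.mem_coe.2 h2.1), h2.2⟩).1 N hT v hv

end Pool.Agent.Work.MP_ed0a9a_lc.E
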