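import Pool.Agent.Work.MP_ed0a9a_lc.E.GenP
import Pool.Agent.Work.MP_ed0a9a_lc.E.Rob

/-!
# Module `KConv` (size M): bases of models satisfy `Basic`

PROOF.  `Le2`: for given `k`, `Θ` the sentence `∀ x, ⋁_{θ ∈ Θ} fml a k θ` is true in `M`, so in `M'` because `T` is complete
(its negation is an existential sentence: build the formula `∼ ⋁ fml a k θ` in `Fin k`, hence in `Fin (0 + k)`, apply
`exists_exs`, relabel to a sentence; `Theory.IsComplete.realize_sentence_iff`).
Second part: `θ` true at the independent tuple `b` is generic (`gen_of_ind`, `realize_fml`), so `SeqT` (`gen_iff_seqT`).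
Third part: let `y : M'`; `y` is in `cl (Set.range b)`, so (`mem_cl_range`, `acl_iff`) there are `φ`, `n` with `φ(b, y)` and
`φ(b, ·)` with at most `n` solutions.  Let `φ'` be the formula `φ(x, y)` and `φ(x, ·)` has at most `n` solutions
(`exists_atMost`, relabelled with `Fin.castSucc`).  By `robinson` there is `θ` true at `b ++ [y]` which implies `φ'` in all
models of `T`.  If `SeqT (hd a SM) (d + 1) θ` then `Gen T (fml a (d + 1) θ)` (`gen_iff_seqT`); take a model `N` with an
independent tuple `c : Fin (d + 1) → N` (`exists_ind_tuple`), `c = Fin.snoc (Fin.init c) (c (Fin.last d))`; `θ` is true at `c`, so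
`φ'` is, so `c (Fin.last d)` is algebraic over `Fin.init c`, which contradicts `ind_snoc_iff`, `mem_cl_range`.
-/

namespace Pool.Agent.Work.MP_ed0a9a_lc.E

open FirstOrder FirstOrder.Language

private theorem kconv_or (a : ℕ → ℕ) (k : ℕ) (Θ : List (List Lit)) :
    ∃ ψ : (sig a).Formula (Fin k), ∀ (N : Type) [Nonempty N] [S : (sig a).Structure N]
      (v : Fin k → N), ψ.Realize v ↔ ∃ θ ∈ Θ, PTrue (hd a S) θ (List.ofFn v) := by
  induction Θ with
  | nil =>
    refine ⟨⊥, fun N _ S v => ?_⟩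
    rw [Formula.realize_bot]
    simp
  | cons θ Θ ih =>
    obtain ⟨ψ, hψ⟩ := ih
    refine ⟨fml a k θ ⊔ ψ, fun N _ S v => ?_⟩
    rw [Formula.realize_sup, realize_fml, hψ, List.exists_mem_cons_iff]

private theorem kconv_snoc {N : Type} {d : ℕ} (b : Fin d → N) (z : N) :
    List.ofFn (Fin.snoc b z : Fin (d + 1) → N) = List.ofFn b ++ [z] := by
  rw [List.ofFn_succ', List.concat_eq_append]
  congr 1
  · congr 1
    funext i
    exact Fin.snoc_castSucc (α := fun _ => N) z b i
  · rw [Fin.snoc_last]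

private theorem kconv_le {a : ℕ → ℕ} {T : (sig a).Theory} (hc : T.IsComplete)
    (hT : StronglyMinimal T) {M : Type} [Nonempty M]
    [SM : (sig a).Structure M] (hM : M ⊨ T) {M' : Type} [Nonempty M']
    [SM' : (sig a).Structure M'] (hM' : M' ⊨ T) : Le2 (hd a SM) (hd a SM') := by
  intro k Θ h v
  by_contra hcon
  obtain ⟨ψ, hψ⟩ := kconv_or a k Θ
  obtain ⟨χ, hχ⟩ := exists_exs (k := 0) (m := k)
    (Formula.relabel (Fin.natAdd 0 : Fin k → Fin (0 + k)) (∼ψ))
  have key : ∀ (N : Type) [Nonempty N] [S : (sig a).Structure N],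
      χ.Realize (Fin.elim0 : Fin 0 → N) ↔ ∃ w : Fin k → N,
        ¬ ∃ θ ∈ Θ, PTrue (hd a S) θ (List.ofFn w) := by
    intro N _ S
    rw [hχ N]
    refine exists_congr fun w => ?_
    rw [Formula.realize_relabel, Formula.realize_not]
    have e : Fin.append (Fin.elim0 : Fin 0 → N) w ∘ (Fin.natAdd 0 : Fin k → Fin (0 + k)) = w := by
      funext i
      simp
    rw [e, hψ N w]
  have h1 := (key M').2 ⟨v, hcon⟩
  have h2 := (sameTp_of_ind hc hT hM hM' (ind_zero (Fin.elim0 : Fin 0 → M))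
    (ind_zero (Fin.elim0 : Fin 0 → M')) χ).2 h1
  obtain ⟨w, hw⟩ := (key M).1 h2
  exact hw (h w)

theorem basic_of_model {a : ℕ → ℕ} {T : (sig a).Theory} (hc : T.IsComplete)
    (hT : StronglyMinimal T) (hmc : ModelComplete T) {M : Type} [Nonempty M]
    [SM : (sig a).Structure M] (hM : M ⊨ T) {M' : Type} [Nonempty M']
    [SM' : (sig a).Structure M'] (hM' : M' ⊨ T) {d : ℕ} (b : Fin d → M')
    (hb : Ind (sig a) b) (hs : cl (sig a) (Set.range b) = Set.univ) :
    Basic (hd a SM) (hd a SM') b := by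
  refine ⟨kconv_le hc hT hM hM', ?_, ?_⟩
  · intro θ hθ
    rw [← gen_iff_seqT hc hT hM]
    exact gen_of_ind hc hT hM' hb ((realize_fml b).2 hθ)
  · intro y
    have hy : y ∈ cl (sig a) (Set.range b) := by
      rw [hs]
      exact Set.mem_univ y
    rw [mem_cl_range, acl_iff] at hy
    obtain ⟨φ, n, h1, h2, h3⟩ := hy
    obtain ⟨ρ, hρ⟩ := exists_atMost φ n
    obtain ⟨Θ, hΘ⟩ := robinson hmc (φ ⊓ ρ.relabel (Fin.castSucc : Fin d → Fin (d + 1)))
    have e : ∀ (N : Type) [(sig a).Structure N] (c : Fin d → N) (z : N),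
        (φ ⊓ ρ.relabel (Fin.castSucc : Fin d → Fin (d + 1))).Realize
          (Fin.snoc c z : Fin (d + 1) → N) ↔ φ.Realize (Fin.snoc c z : Fin (d + 1) → N) ∧
          {x | φ.Realize (Fin.snoc c x : Fin (d + 1) → N)}.Finite ∧
            {x | φ.Realize (Fin.snoc c x : Fin (d + 1) → N)}.ncard ≤ n := by
      intro N _ c z
      rw [Formula.realize_inf, Formula.realize_relabel]
      have e1 : (Fin.snoc c z : Fin (d + 1) → N) ∘ (Fin.castSucc : Fin d → Fin (d + 1)) = c := by
        funext i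
        exact Fin.snoc_castSucc (α := fun _ => N) z c i
      rw [e1, hρ]
    obtain ⟨θ, hθ, h4⟩ := (hΘ M' hM' _).1 ((e M' b y).2 ⟨h1, h2, h3⟩)
    rw [kconv_snoc] at h4
    refine ⟨θ, h4, fun hseq => ?_⟩
    have hg : Gen T (fml a (d + 1) θ) := (gen_iff_seqT hc hT hM (d + 1) θ).2 hseq
    obtain ⟨N, _, SN, hN, c, hcI⟩ := exists_ind_tuple hc hT (d + 1)
    have h5 := (realize_fml c).1 (hg N hN c hcI)
    have h6 := (hΘ N hN c).2 ⟨θ, hθ, h5⟩
    have e2 : c = (Fin.snoc (Fin.init c) (c (Fin.last d)) : Fin (d + 1) → N) :=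
      (Fin.snoc_init_self c).symm
    rw [e2, e N] at h6
    rw [e2, ind_snoc_iff, mem_cl_range] at hcI
    exact hcI.2 ⟨φ, h6.1, h6.2.1⟩

end Pool.Agent.Work.MP_ed0a9a_lc.E
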