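import Pool.Agent.Work.MP_ed0a9a_lc.E.GenP
import Pool.Agent.Work.MP_ed0a9a_lc.E.EmbC
import Pool.Agent.Work.MP_ed0a9a_lc.E.SameT

/-!
# Module `KEmb` (size S-M): embedding a structure so that a tuple becomes independent

PROOF.  `exists_emb_compact T` for `M'`, `b` and `Γ = {φ | Gen T φ}`: if `θ` is true at `b` then `SeqT (hd a SM) d θ`, so
`Gen T (fml a d θ)` (`gen_iff_seqT`), and a model with an independent tuple `b'` (`exists_ind_tuple`) satisfies `θ`
(`realize_fml`) and all `φ ∈ Γ`.  This gives `N`, `f`.  `f ∘ b` is independent: let `b₁` be an independent `d`-tuple of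
some model; if `φ` is true at `b₁` then `Gen T φ` (`gen_of_ind`), so `φ` is true at `f ∘ b`; the same for `∼φ`; so
`SameTp b₁ (f ∘ b)` and `sameTp_ind`.
-/

namespace Pool.Agent.Work.MP_ed0a9a_lc.E

open FirstOrder FirstOrder.Language

theorem exists_emb_ind {a : ℕ → ℕ} {T : (sig a).Theory} (hc : T.IsComplete)
    (hT : StronglyMinimal T) {M : Type} [Nonempty M] [SM : (sig a).Structure M] (hM : M ⊨ T)
    {M' : Type} [Nonempty M'] [SM' : (sig a).Structure M'] {d : ℕ} (b : Fin d → M')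
    (h : ∀ θ, PTrue (hd a SM') θ (List.ofFn b) → SeqT (hd a SM) d θ) :
    ∃ (N : Type) (_ : Nonempty N) (_ : (sig a).Structure N), N ⊨ T ∧
      ∃ f : M' ↪[sig a] N, Ind (sig a) (f ∘ b) := by
  obtain ⟨N, hN, SN, hNT, f, hf⟩ := exists_emb_compact T b
    {φ : (sig a).Formula (Fin d) | Gen T φ} (by
      intro θ hθ Δ hΔ
      have h1 : Gen T (fml a d θ) := (gen_iff_seqT hc hT hM d θ).2 (h θ hθ)
      obtain ⟨N, hN, SN, hNT, b', hb'⟩ := exists_ind_tuple hc hT d
      refine ⟨N, hN, SN, hNT, b', ?_, fun φ hφ => hΔ hφ N hNT b' hb'⟩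
      exact (realize_fml b').1 (h1 N hNT b' hb'))
  refine ⟨N, hN, SN, hNT, f, ?_⟩
  obtain ⟨N₁, hN₁, SN₁, hNT₁, b₁, hb₁⟩ := exists_ind_tuple hc hT d
  refine sameTp_ind (b := b₁) ?_ hb₁
  intro φ
  constructor
  · intro h1
    exact hf φ (gen_of_ind hc hT hNT₁ hb₁ h1)
  · intro h1
    by_contra h2
    have h3 : Formula.Realize φ.not b₁ := Formula.realize_not.2 h2
    have h4 := hf φ.not (gen_of_ind hc hT hNT₁ hb₁ h3)
    exact Formula.realize_not.1 h4 h1

end Pool.Agent.Work.MP_ed0a9a_lc.E
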