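import Mathlib

/-!
# Module `KpA` (size S-M): the dimensions are consecutive (pure combinatorics, import Mathlib only)

PROOF.  (U) for `i : ℕ`: `K e i`, `K e' i` imply `e = e'`.  Suppose `e < e'`.
(i) If `K m i`, `K m' i`, `m < m'` then `K (m + 1) i`: `k3` gives `i'` with `K (m + 1) i'`, `i ≤ i'` (`k2`, `m ≤ m + 1`) and `i' ≤ i`
(`k2`, `m + 1 ≤ m'`).  (ii) If `K m i` and `K (m + 1) i` then `K (m + 2) i`: by `k4` there is `e'' ≥ m + 2` with `K e'' i`; if
`e'' = m + 2` done, otherwise (i) for `m + 1 < e''`.  So by induction `K (e + n) i` for all `n`.  By `k1` there is `e''` with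
`K e'' (i + 1)`; `k2` for `e'' ≤ e + e''` gives `(i + 1 : ℕ∞) ≤ i`: contradiction.
(W) not `K e ⊤`: for `j : ℕ` let `K (E j) j` (`k1`).  `e ≤ E j` would imply `⊤ ≤ j` (`k2`), so `E j < e` for all `j`.  `E` is strictly
increasing: `E (j + 1) ≤ E j` would imply `j + 1 ≤ j` (`k2`).  So `E j ≥ j` for all `j` (`StrictMono.le_apply`), contradiction for
`j = e`.
(X) `E (j + 1) = E j + 1`: `k3` gives `i'` with `K (E j + 1) i'`, `i' = n` is finite (W), `n ≥ j` (`k2`), `n ≠ j` by (U), so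
`n ≥ j + 1`, `E n = E j + 1` (U), `E (j + 1) ≤ E n` (monotone).  So `E j = E 0 + j`; `d₀ = E 0`; conclude with (U).
-/

namespace Pool.Agent.Work.MP_ed0a9a_lc.E

theorem kappa (K : ℕ → ℕ∞ → Prop) (k1 : ∀ i : ℕ, ∃ e, K e i)
    (k2 : ∀ e e' i i', K e i → K e' i' → e ≤ e' → i ≤ i')
    (k3 : ∀ e i, K e i → ∃ i', K (e + 1) i')
    (k4 : ∀ e i : ℕ, K e i → K (e + 1) i → ∃ e', e + 2 ≤ e' ∧ K e' i) :
    ∃ d₀ : ℕ, ∀ i e : ℕ, K e i ↔ e = d₀ + i := by
  -- (i)
  have hi : ∀ m m' (i : ℕ), K m i → K m' i → m < m' → K (m + 1) i := by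
    intro m m' i h h' hm
    obtain ⟨i', hi'⟩ := k3 m i h
    have h1 := k2 m (m + 1) i i' h hi' (by omega)
    have h2 := k2 (m + 1) m' i' i hi' h' hm
    have h3 : i' = i := le_antisymm h2 h1
    rwa [h3] at hi'
  -- (ii)
  have hii : ∀ m (i : ℕ), K m i → K (m + 1) i → K (m + 2) i := by
    intro m i h h'
    obtain ⟨e', he', hk⟩ := k4 m i h h'
    rcases eq_or_lt_of_le he' with h1 | h1
    · rwa [h1]
    · exact hi (m + 1) e' i h' hk (by omega)
  have hU0 : ∀ (i : ℕ) e e', K e i → K e' i → ¬ e < e' := by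
    intro i e e' h h' hlt
    have hall : ∀ n, K (e + n) i ∧ K (e + n + 1) i := by
      intro n
      induction n with
      | zero => exact ⟨h, hi e e' i h h' hlt⟩
      | succ n ih => exact ⟨ih.2, hii (e + n) i ih.1 ih.2⟩
    obtain ⟨e'', he''⟩ := k1 (i + 1)
    have h1 := k2 e'' (e + e'') _ _ he'' (hall e'').1 (by omega)
    have h2 : i + 1 ≤ i := by exact_mod_cast h1
    omega
  have hU : ∀ (i : ℕ) e e', K e i → K e' i → e = e' := fun i e e' h h' =>
    le_antisymm (not_lt.1 (hU0 i e' e h' h)) (not_lt.1 (hU0 i e e' h h'))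
  choose E hE using k1
  have hmono : StrictMono E := by
    refine strictMono_nat_of_lt_succ fun j => ?_
    by_contra hj
    have h1 := k2 _ _ _ _ (hE (j + 1)) (hE j) (not_lt.1 hj)
    have h2 : j + 1 ≤ j := by exact_mod_cast h1
    omega
  have hW : ∀ e, ¬ K e ⊤ := by
    intro e he
    have h1 : E e < e := by
      by_contra h
      have h2 := k2 _ _ _ _ he (hE e) (not_lt.1 h)
      exact absurd (top_le_iff.1 h2) (ENat.natCast_ne_top e)
    exact absurd (hmono.le_apply (x := e)) (not_le.2 h1)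
  have hX : ∀ j, E (j + 1) = E j + 1 := by
    intro j
    obtain ⟨i', hi'⟩ := k3 _ _ (hE j)
    induction i' using ENat.recTopCoe with
    | top => exact absurd hi' (hW _)
    | coe n =>
      have h1 := k2 _ _ _ _ (hE j) hi' (by omega)
      have h2 : j ≤ n := by exact_mod_cast h1
      have h3 : j ≠ n := by
        rintro rfl
        have := hU j _ _ (hE j) hi'
        omega
      have h4 : E n = E j + 1 := hU n _ _ (hE n) hi'
      have h5 : E (j + 1) ≤ E n := hmono.monotone (by omega)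
      have h6 : E j < E (j + 1) := hmono (by omega)
      omega
  have hsum : ∀ j, E j = E 0 + j := by
    intro j
    induction j with
    | zero => rfl
    | succ j ih => rw [hX, ih]; omega
  refine ⟨E 0, fun i e => ⟨fun h => ?_, fun h => ?_⟩⟩
  · rw [hU i _ _ h (hE i), hsum i]
  · rw [h, ← hsum i]
    exact hE i

end Pool.Agent.Work.MP_ed0a9a_lc.E
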