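import Pool.Agent.Work.MP_ed0a9a_lc.E.Zrn
import Pool.Agent.Work.MP_ed0a9a_lc.E.Big
import Pool.Agent.Work.MP_ed0a9a_lc.E.CtP

/-!
# Module `NVP` (size M): no Vaughtian pairs

PROOF.  Suppose not: `φ(c, x) → x ∈ S` for all `x : N`.  `exists_ult` gives `U ⊨ T`, `j`, `S'` with `Sat1 U`, `Sat1 S'`, hence `Sat0`
(`sat0_of_sat1`; `S'` is nonempty: `j (c..)` or an elementary substructure of a nonempty structure), `j x ∈ S' ↔ x ∈ S`, and
`φ(j ∘ c, y) → y ∈ S'`.  Let `x₀ ∉ S`.  `exists_countable_pair` with `A = {j x₀} ∪ {j (c i)}` gives `N₁`, `S₁ = N₁ ∩ S'`.  View `S₁` as an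
elementary substructure of the structure `N₁` (`exists_lift`, `exists_range`).  It is proper (`j x₀`), contains `j ∘ c`, and
contains the solutions of `φ(j ∘ c, ·)` in `N₁`; both are countable and `ω`-saturated.  `exists_uncountable` gives `W`
uncountable, `g : S₁ ↪ₑ W`, with the set of the solutions of `φ(g ∘ j ∘ c, ·)` in `W` contained in the countable set `Set.range g`; this
set is infinite (`hi`, and all maps are elementary: `exists_atMost`).  By downward Loewenheim-Skolem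
(`exists_elementarySubstructure_card_eq`) there is an elementary substructure `W'` of `W` of cardinality `ℵ₁` containing the
parameters `c' = g ∘ j ∘ c`; the set of the solutions of `φ(c', ·)` in `W'` is countable and infinite.  `exists_big` (for `N₀ = N`,
infinite by `hi`) gives `W'' ⊨ T` of cardinality `ℵ₁` in which infinite definable sets are uncountable.  By categoricity
`W' ≃ W''`: contradiction.
-/

namespace Pool.Agent.Work.MP_ed0a9a_lc.E

open FirstOrder FirstOrder.Language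

private theorem nv_card (a : ℕ → ℕ) : (sig a).card ≤ Cardinal.aleph0 := by
  unfold FirstOrder.Language.card
  rw [Cardinal.mk_le_aleph0_iff]
  exact inferInstanceAs (Countable ((Σ _ : ℕ, Empty) ⊕ (Σ n : ℕ, {i : ℕ // a i = n})))

private theorem nv_fin {a : ℕ → ℕ} {M M' : Type} [(sig a).Structure M] [(sig a).Structure M']
    (f : M ↪ₑ[sig a] M') {k : ℕ} (φ : (sig a).Formula (Fin (k + 1))) (c : Fin k → M) :
    (Dset (sig a) φ (f ∘ c)).Finite ↔ (Dset (sig a) φ c).Finite := by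
  constructor
  · intro h
    obtain ⟨ψ, hψ⟩ := exists_atMost φ (Dset (sig a) φ (f ∘ c)).ncard
    have h1 : ψ.Realize (f ∘ c) := (hψ M' (f ∘ c)).2 ⟨h, le_rfl⟩
    exact ((hψ M c).1 ((f.map_formula ψ c).1 h1)).1
  · intro h
    obtain ⟨ψ, hψ⟩ := exists_atMost φ (Dset (sig a) φ c).ncard
    have h1 : ψ.Realize c := (hψ M c).2 ⟨h, le_rfl⟩
    exact ((hψ M' (f ∘ c)).1 ((f.map_formula ψ c).2 h1)).1

private theorem nv_inf {a : ℕ → ℕ} {M M' : Type} [(sig a).Structure M] [(sig a).Structure M']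
    (f : M ↪ₑ[sig a] M') {k : ℕ} (φ : (sig a).Formula (Fin (k + 1))) (c : Fin k → M) :
    (Dset (sig a) φ (f ∘ c)).Infinite ↔ (Dset (sig a) φ c).Infinite :=
  not_congr (nv_fin f φ c)

private theorem nv_sat0 {a : ℕ → ℕ} {A B : Type} [(sig a).Structure A] [(sig a).Structure B]
    (e : A ≃[sig a] B) (h : Sat0 (sig a) A) : Sat0 (sig a) B := by
  intro k b N' _ b' hb y'
  have h1 : SameTp (sig a) b (e.symm ∘ b) := sameTp_map e.symm.toElementaryEmbedding b
  obtain ⟨y, hy⟩ := h k (e.symm ∘ b) N' b' (fun φ => (h1 φ).symm.trans (hb φ)) y'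
  refine ⟨e y, fun φ => ?_⟩
  have h2 := sameTp_map e.toElementaryEmbedding (Fin.snoc (e.symm ∘ b) y : Fin (k + 1) → A) φ
  have h3 : (e.toElementaryEmbedding ∘ (Fin.snoc (e.symm ∘ b) y : Fin (k + 1) → A)) =
      (Fin.snoc b (e y) : Fin (k + 1) → B) := by
    rw [Fin.comp_snoc]
    congr 1
    funext i
    exact e.apply_symm_apply (b i)
  rw [h3] at h2
  exact h2.symm.trans (hy φ)

theorem no_vaught {a : ℕ → ℕ} {T : (sig a).Theory}
    (hcat : (Cardinal.aleph 1 : Cardinal.{0}).Categorical T) (hs : Small T) {N : Type}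
    [Nonempty N] [(sig a).Structure N] (hN : N ⊨ T) (S : (sig a).ElementarySubstructure N)
    (hne : ∃ x, x ∉ S) {k : ℕ} (c : Fin k → N) (hc : ∀ i, c i ∈ S)
    (φ : (sig a).Formula (Fin (k + 1))) (hi : (Dset (sig a) φ c).Infinite) :
    ∃ x ∈ Dset (sig a) φ c, x ∉ S := by
  classical
  by_contra hno
  push Not at hno
  obtain ⟨U, hU0, sU, j, S', hU1, hS1, hj, hφ⟩ := exists_ult S
  have hUT : U ⊨ T := (j.theory_model_iff T).1 hN
  obtain ⟨x0, hx0⟩ := hne
  obtain ⟨N1, S1, hA, hN1c, hN1s, hSeq, hS1s⟩ := exists_countable_pair hs hUT S'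
    (sat0_of_sat1 hU1) (sat0_of_sat1 hS1) ({j x0} ∪ Set.range (j ∘ c))
    ((Set.countable_singleton _).union (Set.countable_range _))
  have hsub : (S1 : Set U) ⊆ N1 := by
    rw [hSeq]
    exact Set.inter_subset_left
  have hmem : ∀ x : U, x ∈ S1 ↔ x ∈ N1 ∧ x ∈ S' := by
    intro x
    have h1 : x ∈ (S1 : Set U) ↔ x ∈ (N1 : Set U) ∩ S' := by rw [hSeq]
    exact h1
  obtain ⟨f, hf⟩ := exists_lift S1 N1 hsub
  obtain ⟨S2, hS2, e, he⟩ := exists_range f
  have hmem2 : ∀ x : N1, x ∈ S2 ↔ x ∈ Set.range f := by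
    intro x
    rw [← hS2]
    exact Iff.rfl
  have hcS1 : ∀ i, j (c i) ∈ S1 := fun i => (hmem _).2 ⟨hA (Or.inr ⟨i, rfl⟩), (hj _).2 (hc i)⟩
  set c1 : Fin k → S1 := fun i => ⟨j (c i), hcS1 i⟩ with hc1
  set c2 : Fin k → S2 := e ∘ c1 with hc2
  have hc2N : ∀ i, ((c2 i : N1) : U) = j (c i) := by
    intro i
    rw [hc2, Function.comp_apply, he, hf]
  obtain ⟨W, hW0, sW, g, hWu, hWg⟩ := exists_uncountable S2
    ⟨⟨j x0, hA (Or.inl rfl)⟩, by
      intro h1
      obtain ⟨s, hs'⟩ := (hmem2 _).1 h1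
      have h2 : (s : U) = j x0 := by
        rw [← hf, hs']
      have h3 := ((hmem _).1 s.2).2
      rw [h2] at h3
      exact hx0 ((hj x0).1 h3)⟩
    hN1s (nv_sat0 e hS1s) c2 φ (by
      intro x hx
      have h1 := sameTp_coe N1 (Fin.snoc (fun i => (c2 i : N1)) x : Fin (k + 1) → N1) φ
      have h2 : (fun i => (((Fin.snoc (fun i => (c2 i : N1)) x : Fin (k + 1) → N1) i : N1) : U)) =
          (Fin.snoc (j ∘ c) (x : U) : Fin (k + 1) → U) := by
        funext i
        refine Fin.lastCases ?_ (fun i => ?_) i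
        · simp only [Fin.snoc_last]
        · simp only [Fin.snoc_castSucc]
          exact hc2N i
      rw [h2] at h1
      have h3 := hφ k φ c (fun y hy => hno y hy) x (h1.1 hx)
      have h4 : (x : U) ∈ S1 := (hmem _).2 ⟨x.2, h3⟩
      refine (hmem2 x).2 ⟨⟨x, h4⟩, ?_⟩
      exact Subtype.ext (hf _))
  have hcnt2 : Countable S2 := inferInstance
  have hinfU : (Dset (sig a) φ (j ∘ c)).Infinite := (nv_inf j φ c).2 hi
  have hinf1 : (Dset (sig a) φ c1).Infinite := (nv_inf S1.subtype φ c1).1 hinfU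
  have hinf2 : (Dset (sig a) φ c2).Infinite := (nv_inf e.toElementaryEmbedding φ c1).2 hinf1
  have hinfW : (Dset (sig a) φ (g ∘ c2)).Infinite := (nv_inf g φ c2).2 hinf2
  have hcntW : (Dset (sig a) φ (g ∘ c2)).Countable := (Set.countable_range g).mono hWg
  have hS1T : S1 ⊨ T := (S1.theory_model_iff T).2 hUT
  have hS2T : S2 ⊨ T := (e.toElementaryEmbedding.theory_model_iff T).1 hS1T
  have hWT : W ⊨ T := (g.theory_model_iff T).1 hS2T
  obtain ⟨W', hW1, hW2⟩ := exists_elementarySubstructure_card_eq (sig a) (Set.range (g ∘ c2))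
    (Cardinal.aleph 1 : Cardinal.{0}) (Cardinal.aleph0_le_aleph 1) (by
      simp only [Cardinal.lift_id]
      exact (Cardinal.mk_le_aleph0_iff.2 (Set.countable_range (g ∘ c2)).to_subtype).trans
        (Cardinal.aleph0_le_aleph 1)) (by
      simp only [Cardinal.lift_id]
      exact (nv_card a).trans (Cardinal.aleph0_le_aleph 1)) (by
      simp only [Cardinal.lift_id]
      rw [← Cardinal.succ_aleph0]
      exact Order.succ_le_of_lt Cardinal.aleph0_lt_mk)
  simp only [Cardinal.lift_id] at hW2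
  have hW'T : W' ⊨ T := (W'.theory_model_iff T).2 hWT
  set c3 : Fin k → W' := fun i => ⟨g (c2 i), hW1 ⟨i, rfl⟩⟩ with hc3
  have hinf3 : (Dset (sig a) φ c3).Infinite := (nv_inf W'.subtype φ c3).1 hinfW
  have hcnt3 : (Dset (sig a) φ c3).Countable := by
    have h1 : Dset (sig a) φ c3 ⊆ (fun x : W' => (x : W)) ⁻¹' (Dset (sig a) φ (g ∘ c2)) := by
      intro x hx
      have h2 := sameTp_map W'.subtype (Fin.snoc c3 x : Fin (k + 1) → W') φ
      rw [Fin.comp_snoc] at h2
      exact h2.1 hx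
    exact (hcntW.preimage Subtype.val_injective).mono h1
  have hNi : Infinite N := by
    have := hi.to_subtype
    exact Infinite.of_injective (fun x : Dset (sig a) φ c => (x : N)) Subtype.val_injective
  obtain ⟨V, hV0, sV, hVT, hVc, hVb⟩ := exists_big hN
  obtain ⟨h⟩ := hcat (Theory.ModelType.of T W') (Theory.ModelType.of T V) hW2 hVc
  have h' : W' ≃[sig a] V := h
  refine hVb k φ (h' ∘ c3) ((nv_inf h'.toElementaryEmbedding φ c3).2 hinf3) ?_
  have h1 : Dset (sig a) φ (h' ∘ c3) ⊆ h' '' Dset (sig a) φ c3 := by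
    intro y hy
    refine ⟨h'.symm y, ?_, h'.apply_symm_apply y⟩
    have h2 := sameTp_map h'.toElementaryEmbedding
      (Fin.snoc c3 (h'.symm y) : Fin (k + 1) → W') φ
    rw [Fin.comp_snoc] at h2
    have h3 : h'.toElementaryEmbedding (h'.symm y) = y := h'.apply_symm_apply y
    rw [h3] at h2
    exact h2.2 hy
  exact (hcnt3.image h').mono h1

end Pool.Agent.Work.MP_ed0a9a_lc.E
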