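import Pool.Agent.Work.MP_ed0a9a_lc.E.Unc
import Pool.Agent.Work.MP_ed0a9a_lc.E.Uniq

/-!
# Module `Seq1` (size M): generic formulas are true along long sequences

PROOF.  Take a model `N` of `T` with an independent tuple `c : Fin m → N` (`exists_ind_tuple`).  For `g`
strictly monotone `c ∘ g` is independent (`ind_comp`), so `φ` is true at `c ∘ g`; `c` is injective
(`ind_injective`).  There is a formula `ψ : (sig a).Formula (Fin 0)` such that in every structure `ψ` is true iff there
is an injective `c : Fin m → N'` with `φ` true at `c ∘ g` for all `g` in the finite set of the strictly monotone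
`g : Fin k → Fin m`: `exists_exs` (with `k = 0`, up to the identification of `Fin (0 + m)` with `Fin m`: relabel
with `Fin.natAdd 0`), `exists_all` for the formulas `φ.relabel g` and `x_i ≠ x_j`, `i ≠ j`.  `ψ` is equivalent to a
sentence (relabel with `fun i : Fin 0 => i.elim0`), true in `N`, so true in `M` because `T` is complete
(`Theory.IsComplete.realize_sentence_iff`).
-/

namespace Pool.Agent.Work.MP_ed0a9a_lc.E

open FirstOrder FirstOrder.Language

theorem seq_of_gen {a : ℕ → ℕ} {T : (sig a).Theory} (hc : T.IsComplete)
    (hT : StronglyMinimal T) {k : ℕ} {φ : (sig a).Formula (Fin k)} (h : Gen T φ) {M : Type}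
    [Nonempty M] [(sig a).Structure M] (hM : M ⊨ T) (m : ℕ) :
    ∃ c : Fin m → M, Function.Injective c ∧
      ∀ g : Fin k → Fin m, StrictMono g → φ.Realize (c ∘ g) := by
  obtain ⟨N, hN1, sN, hN, b, hb⟩ := exists_ind_tuple hc hT m
  obtain ⟨θ1, hθ1⟩ := exists_all (L := sig a)
    (fun g : {g : Fin k → Fin m // StrictMono g} => φ.relabel g.1)
  obtain ⟨θ2, hθ2⟩ := exists_all (L := sig a)
    (fun p : {p : Fin m × Fin m // p.1 ≠ p.2} =>
      ∼((Term.var p.1.1 : (sig a).Term (Fin m)).equal (Term.var p.1.2)))
  set ψ : (sig a).Sentence :=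
    ((θ1 ⊓ θ2).relabel (Sum.inr : Fin m → Empty ⊕ Fin m)).iExs (Fin m) with hψ
  have key : ∀ (K : Type) [(sig a).Structure K], K ⊨ ψ ↔
      ∃ c : Fin m → K, Function.Injective c ∧
        ∀ g : Fin k → Fin m, StrictMono g → φ.Realize (c ∘ g) := by
    intro K _
    rw [hψ, Sentence.Realize, Formula.realize_iExs]
    apply exists_congr
    intro c
    rw [Formula.realize_relabel, Formula.realize_inf, Sum.elim_comp_inr, hθ1, hθ2, and_comm]
    apply and_congr
    · constructor
      · intro h1 i j hij
        by_contra hne
        have h2 := h1 ⟨(i, j), hne⟩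
        rw [Formula.realize_not, Formula.realize_equal] at h2
        exact h2 hij
      · intro h1 p
        rw [Formula.realize_not, Formula.realize_equal]
        intro h2
        exact p.2 (h1 h2)
    · constructor
      · intro h1 g hg
        have h2 := h1 ⟨g, hg⟩
        rw [Formula.realize_relabel] at h2
        exact h2
      · intro h1 g
        rw [Formula.realize_relabel]
        exact h1 g.1 g.2
  have h1 : N ⊨ ψ := (key N).2 ⟨b, ind_injective hb, fun g hg => h N hN _ (ind_comp hb hg)⟩
  have := hN
  have := hM
  rw [hc.realize_sentence_iff] at h1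
  exact (key M).1 ((hc.realize_sentence_iff ψ M).2 h1)

end Pool.Agent.Work.MP_ed0a9a_lc.E
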