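import Pool.Agent.Work.MP_ed0a9a_lc.E.ElB
import Pool.Agent.Work.MP_ed0a9a_lc.E.CntF

/-!
# Module `Ult` (size M-L): countably saturated ultrapowers of pairs

PROOF.  `U = (Filter.hyperfilter ℕ : Filter ℕ).Product (fun _ : ℕ => N)` (`Mathlib.ModelTheory.Ultraproducts`),
`j x` = the class of the constant sequence, `S'` = the set of the classes of the sequences with values in `S`.
* `j` is an elementary embedding by `Ultraproduct.realize_formula_cast`.
* `S'` is the carrier of an elementary substructure (`exists_elSub`): let `[x]` be a tuple of classes of sequences in `S`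
  and `φ([x], [y])`; for almost all `n` there is an element `y n` of `N` with `φ(x n, y n)`, so there is one in `S` (`S` is
  elementary); the class of these elements works.
* `j x ∈ S' ↔ x ∈ S`: a constant sequence equal almost everywhere to a sequence in `S`.
* If `φ(c, x) → x ∈ S` for all `x`, and `φ(j ∘ c, [y])` then `y n ∈ S` for almost all `n`; change `y` on a null set.
* `Sat1 U`: let `u : ℕ → U`, `u i = [u_i]`, and `ψ m` be given, and for each `n` let there be `x` with `ψ m` for all `m < n`.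
  So the set `X_n` of the `i : ℕ` such that `i ≥ n` and there is `x ∈ N` with `ψ m (x, u · i)` for all `m < n` is in the
  ultrafilter (`X_0 = ℕ`).  For `i : ℕ` let `n(i)` be the largest `n ≤ i` with `i ∈ X_n`, and `x_i` a witness for `n(i)`.
  For `i ∈ X_n` we have `n(i) ≥ n`, so `[x]` satisfies `ψ m` for all `m` (`m < n = m + 1`).  (Formulas `ψ m : L.Formula (Option ℕ)` are
  evaluated in the ultraproduct by `Ultraproduct.realize_formula_cast` for the variable type `Option ℕ`.)
* `Sat1 S'`: the same, choosing the representatives `u_i` of the parameters and the witnesses `x_i` in `S` (`S` is an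
  elementary substructure of `N`, `S'` of `U`).
-/

namespace Pool.Agent.Work.MP_ed0a9a_lc.E

open FirstOrder FirstOrder.Language

private theorem sat_core {L : FirstOrder.Language.{0, 0}} {N : Type} [L.Structure N]
    (u : Ultrafilter ℕ) (hu : ∀ n : ℕ, ∀ᶠ i in (u : Filter ℕ), n ≤ i) (P : Set N)
    (v : ℕ → ℕ → N) (ψ : ℕ → L.Formula (Option ℕ))
    (h : ∀ n, ∀ᶠ i in (u : Filter ℕ), ∃ x ∈ P, ∀ m < n,
      (ψ m).Realize (fun o : Option ℕ => o.elim x (fun j => v j i))) :
    ∃ x : ℕ → N, (∀ i, x i ∈ P) ∧ ∀ m, ∀ᶠ i in (u : Filter ℕ),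
      (ψ m).Realize (fun o : Option ℕ => o.elim (x i) (fun j => v j i)) := by
  classical
  obtain ⟨i₀, p₀, hp₀, -⟩ := (h 0).exists
  let X : ℕ → ℕ → Prop := fun i n => ∃ x ∈ P, ∀ m < n,
      (ψ m).Realize (fun o : Option ℕ => o.elim x (fun j => v j i))
  have hX0 : ∀ i, X i 0 := fun i => ⟨p₀, hp₀, fun m hm => absurd hm (Nat.not_lt_zero m)⟩
  have hspec : ∀ i, X i (Nat.findGreatest (X i) i) := fun i =>
    Nat.findGreatest_spec (Nat.zero_le i) (hX0 i)
  choose x hx hx' using hspec
  refine ⟨x, hx, fun m => ?_⟩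
  filter_upwards [h (m + 1), hu (m + 1)] with i hi hi'
  have h1 : m + 1 ≤ Nat.findGreatest (X i) i := Nat.le_findGreatest hi' hi
  exact hx' i m h1

private theorem ult_core {a : ℕ → ℕ} {N U : Type} [Nonempty N] [Nonempty U]
    [(sig a).Structure N] [(sig a).Structure U]
    (u : Ultrafilter ℕ) (hu : ∀ n : ℕ, ∀ᶠ i in (u : Filter ℕ), n ≤ i)
    (mk : (ℕ → N) → U) (hsurj : ∀ y, ∃ x, mk x = y)
    (heq : ∀ x y, mk x = mk y ↔ ∀ᶠ i in (u : Filter ℕ), x i = y i)
    (hreal : ∀ (β : Type) (φ : (sig a).Formula β) (x : β → ℕ → N),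
      φ.Realize (fun b => mk (x b)) ↔ ∀ᶠ i in (u : Filter ℕ), φ.Realize (fun b => x b i))
    (S : (sig a).ElementarySubstructure N) :
    ∃ (j : N ↪ₑ[sig a] U)
      (S' : (sig a).ElementarySubstructure U),
      Sat1 (sig a) U ∧ Sat1 (sig a) S' ∧ (∀ x, j x ∈ S' ↔ x ∈ S) ∧
      ∀ (k : ℕ) (φ : (sig a).Formula (Fin (k + 1))) (c : Fin k → N),
        (∀ x, φ.Realize (Fin.snoc c x : Fin (k + 1) → N) → x ∈ S) →
        ∀ y : U, φ.Realize (Fin.snoc (j ∘ c) y : Fin (k + 1) → U) → y ∈ S' := by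
  classical
  obtain ⟨s₀, hs₀⟩ : ∃ s₀ : N, s₀ ∈ S := by
    obtain ⟨s⟩ := (inferInstance : Nonempty S)
    exact ⟨s.1, s.2⟩
  -- the elementary embedding
  let j : N ↪ₑ[sig a] U := ⟨fun x => mk (fun _ => x), by
    intro n φ x
    have h1 := hreal (Fin n) φ (fun b _ => x b)
    rw [Filter.eventually_const] at h1
    exact h1⟩
  have hj : ∀ x, j x = mk (fun _ => x) := fun x => rfl
  -- snoc
  have hsnoc : ∀ (k : ℕ) (v : Fin k → ℕ → N) (y : ℕ → N),
      (Fin.snoc (fun b => mk (v b)) (mk y) : Fin (k + 1) → U) =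
        fun b => mk ((Fin.snoc v y : Fin (k + 1) → ℕ → N) b) := by
    intro k v y
    funext b
    refine Fin.lastCases ?_ (fun b => ?_) b
    · simp only [Fin.snoc_last]
    · simp only [Fin.snoc_castSucc]
  have hsnoc' : ∀ (k : ℕ) (v : Fin k → ℕ → N) (y : ℕ → N) (i : ℕ),
      (fun b => (Fin.snoc v y : Fin (k + 1) → ℕ → N) b i) =
        (Fin.snoc (fun b => v b i) (y i) : Fin (k + 1) → N) := by
    intro k v y i
    funext b
    refine Fin.lastCases ?_ (fun b => ?_) b
    · simp only [Fin.snoc_last]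
    · simp only [Fin.snoc_castSucc]
  have hrs : ∀ (k : ℕ) (φ : (sig a).Formula (Fin (k + 1))) (v : Fin k → ℕ → N) (y : ℕ → N),
      φ.Realize (Fin.snoc (fun b => mk (v b)) (mk y) : Fin (k + 1) → U) ↔
        ∀ᶠ i in (u : Filter ℕ), φ.Realize (Fin.snoc (fun b => v b i) (y i) : Fin (k + 1) → N) := by
    intro k φ v y
    rw [hsnoc, hreal]
    simp only [hsnoc']
  -- options
  have hro : ∀ (φ : (sig a).Formula (Option ℕ)) (v : ℕ → ℕ → N) (y : ℕ → N),
      φ.Realize (fun o : Option ℕ => o.elim (mk y) (fun b => mk (v b))) ↔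
        ∀ᶠ i in (u : Filter ℕ), φ.Realize (fun o : Option ℕ => o.elim (y i) (fun b => v b i)) := by
    intro φ v y
    have e1 : (fun o : Option ℕ => o.elim (mk y) (fun b => mk (v b))) =
        fun o : Option ℕ => mk (o.elim y v) := by
      funext o
      cases o <;> rfl
    have e2 : ∀ i, (fun o : Option ℕ => (o.elim y v) i) =
        fun o : Option ℕ => o.elim (y i) (fun b => v b i) := by
      intro i
      funext o
      cases o <;> rfl
    rw [e1, hreal]
    simp only [e2]
  -- the substructure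
  obtain ⟨S', hS'⟩ := exists_elSub (a := a) (N := U) {y | ∃ x : ℕ → N, (∀ i, x i ∈ S) ∧ mk x = y}
    (by
      rintro n φ x hx ⟨y, hy⟩
      choose v hv hvx using hx
      have hxe : x = fun b => mk (v b) := funext fun b => (hvx b).symm
      subst hxe
      obtain ⟨y₀, rfl⟩ := hsurj y
      rw [hrs] at hy
      obtain ⟨θ, hθ⟩ := exists_ex φ
      have key : ∀ i, ∃ z : N, z ∈ S ∧
          (φ.Realize (Fin.snoc (fun b => v b i) (y₀ i) : Fin (n + 1) → N) →
            φ.Realize (Fin.snoc (fun b => v b i) z : Fin (n + 1) → N)) := by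
        intro i
        by_cases hi : φ.Realize (Fin.snoc (fun b => v b i) (y₀ i) : Fin (n + 1) → N)
        · have h1 : θ.Realize (fun b => v b i) := (hθ N _).2 ⟨_, hi⟩
          have h2 : θ.Realize (fun b => (⟨v b i, hv b i⟩ : S)) :=
            (S.subtype.map_formula θ (fun b => (⟨v b i, hv b i⟩ : S))).1 h1
          obtain ⟨z, hz⟩ := (hθ S _).1 h2
          refine ⟨z.1, z.2, fun _ => ?_⟩
          have h3 := (S.subtype.map_formula φ _).2 hz
          rw [Fin.comp_snoc] at h3
          exact h3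
        · exact ⟨s₀, hs₀, fun h => absurd h hi⟩
      choose z hz hz' using key
      refine ⟨mk z, ⟨z, hz, rfl⟩, ?_⟩
      rw [hrs]
      filter_upwards [hy] with i hi
      exact hz' i hi)
  have hmem : ∀ y : U, y ∈ S' ↔ ∃ x : ℕ → N, (∀ i, x i ∈ S) ∧ mk x = y := fun y => by
    have h1 : y ∈ (S' : Set U) ↔ y ∈ {y | ∃ x : ℕ → N, (∀ i, x i ∈ S) ∧ mk x = y} := by rw [hS']
    exact h1
  refine ⟨j, S', ?_, ?_, ?_, ?_⟩
  · intro w ψ h
    choose v hv using fun i => hsurj (w i)
    have hwe : w = fun b => mk (v b) := funext fun b => (hv b).symm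
    subst hwe
    obtain ⟨x, -, hx⟩ := sat_core (L := sig a) u hu Set.univ v ψ (by
      intro n
      obtain ⟨y, hy⟩ := h n
      obtain ⟨y₀, rfl⟩ := hsurj y
      have h1 : ∀ᶠ i in (u : Filter ℕ), ∀ m ∈ Finset.range n,
          (ψ m).Realize (fun o : Option ℕ => o.elim (y₀ i) (fun j => v j i)) := by
        rw [Filter.eventually_all_finset]
        intro m hm
        exact (hro _ _ _).1 (hy m (Finset.mem_range.1 hm))
      filter_upwards [h1] with i hi
      exact ⟨y₀ i, Set.mem_univ _, fun m hm => hi m (Finset.mem_range.2 hm)⟩)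
    exact ⟨mk x, fun m => (hro _ _ _).2 (hx m)⟩
  · intro w ψ h
    choose v hv hv' using fun i => (hmem (w i).1).1 (w i).2
    have hcoe : ∀ (y : S'), (fun o : Option ℕ => ((o.elim y w : S') : U)) =
        fun o : Option ℕ => o.elim (y : U) (fun b => mk (v b)) := by
      intro y
      funext o
      cases o with
      | none => rfl
      | some b => exact (hv' b).symm
    have hr : ∀ (φ : (sig a).Formula (Option ℕ)) (y : S'),
        φ.Realize (fun o : Option ℕ => o.elim y w) ↔
          φ.Realize (fun o : Option ℕ => o.elim (y : U) (fun b => mk (v b))) := by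
      intro φ y
      rw [← hcoe]
      exact (S'.subtype.map_formula φ (fun o : Option ℕ => o.elim y w)).symm
    obtain ⟨x, hxP, hx⟩ := sat_core (L := sig a) u hu (S : Set N) v ψ (by
      intro n
      obtain ⟨y, hy⟩ := h n
      obtain ⟨y₀, hy₀, hy₁⟩ := (hmem y.1).1 y.2
      have h1 : ∀ᶠ i in (u : Filter ℕ), ∀ m ∈ Finset.range n,
          (ψ m).Realize (fun o : Option ℕ => o.elim (y₀ i) (fun j => v j i)) := by
        rw [Filter.eventually_all_finset]
        intro m hm
        have h2 := (hr _ _).1 (hy m (Finset.mem_range.1 hm))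
        rw [← hy₁] at h2
        exact (hro _ _ _).1 h2
      filter_upwards [h1] with i hi
      exact ⟨y₀ i, hy₀ i, fun m hm => hi m (Finset.mem_range.2 hm)⟩)
    refine ⟨⟨mk x, (hmem _).2 ⟨x, hxP, rfl⟩⟩, fun m => ?_⟩
    exact (hr _ _).2 ((hro _ _ _).2 (hx m))
  · intro x
    rw [hmem]
    constructor
    · rintro ⟨y, hy, hy'⟩
      obtain ⟨i, hi⟩ := ((heq _ _).1 hy').exists
      rw [← hi]
      exact hy i
    · intro hx
      exact ⟨fun _ => x, fun _ => hx, rfl⟩
  · intro k φ c hc y hy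
    obtain ⟨y₀, rfl⟩ := hsurj y
    have h1 : ∀ᶠ i in (u : Filter ℕ), φ.Realize (Fin.snoc c (y₀ i) : Fin (k + 1) → N) :=
      (hrs k φ (fun b _ => c b) y₀).1 hy
    rw [hmem]
    refine ⟨fun i => if y₀ i ∈ S then y₀ i else s₀, fun i => ?_, ?_⟩
    · beta_reduce
      split_ifs with h2
      · exact h2
      · exact hs₀
    · rw [heq]
      filter_upwards [h1] with i hi
      rw [if_pos (hc _ hi)]

theorem exists_ult {a : ℕ → ℕ} {N : Type} [Nonempty N] [(sig a).Structure N]
    (S : (sig a).ElementarySubstructure N) :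
    ∃ (U : Type) (_ : Nonempty U) (_ : (sig a).Structure U) (j : N ↪ₑ[sig a] U)
      (S' : (sig a).ElementarySubstructure U),
      Sat1 (sig a) U ∧ Sat1 (sig a) S' ∧ (∀ x, j x ∈ S' ↔ x ∈ S) ∧
      ∀ (k : ℕ) (φ : (sig a).Formula (Fin (k + 1))) (c : Fin k → N),
        (∀ x, φ.Realize (Fin.snoc c x : Fin (k + 1) → N) → x ∈ S) →
        ∀ y : U, φ.Realize (Fin.snoc (j ∘ c) y : Fin (k + 1) → U) → y ∈ S' := by
  have h := ult_core (a := a) (N := N)
    (U := ((Filter.hyperfilter ℕ : Ultrafilter ℕ) : Filter ℕ).Product (fun _ => N))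
    (Filter.hyperfilter ℕ)
    (fun n => (Nat.hyperfilter_le_atTop) (Filter.eventually_ge_atTop n))
    (fun x => ((x : ∀ _ : ℕ, N) :
      ((Filter.hyperfilter ℕ : Ultrafilter ℕ) : Filter ℕ).Product (fun _ => N)))
    (fun y => Quotient.inductionOn' y fun x => ⟨x, rfl⟩)
    (fun x y => Quotient.eq'')
    (fun β φ x => Ultraproduct.realize_formula_cast φ x) S
  obtain ⟨j, S', h⟩ := h
  exact ⟨((Filter.hyperfilter ℕ : Ultrafilter ℕ) : Filter ℕ).Product (fun _ => N),
    inferInstance, inferInstance, j, S', h⟩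

end Pool.Agent.Work.MP_ed0a9a_lc.E
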