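import Pool.Agent.Work.MP_ed0a9a_lc.E.CntF
import Pool.Agent.Work.MP_ed0a9a_lc.E.Cmp
import Pool.Agent.Work.MP_ed0a9a_lc.E.IndB

/-!
# Module `Unc` (size M): models with long independent tuples

PROOFS.
* `exists_inj_real`: `compact T` with `C = ℝ` and `Γ` the set of the formulas `x_r ≠ x_s`, `r ≠ s`
  (`∼ (Term.equal (Term.var r) (Term.var s))`).  `T` has a model (`hc.1`), which is infinite, so for finite `Δ`
  (mentioning finitely many reals; e.g. let `F : Finset ℝ` contain for each element of `Δ` the chosen `r`, `s`)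
  there is `v : ℝ → N` injective on `F`.
* `exists_ind_tuple`: take `N`, `v` from `exists_inj_real`.  By induction on `m` there is an independent tuple
  `b : Fin m → N`: `cl (Set.range b)` is countable (`countable_cl`), `N` is uncountable, take
  `y ∉ cl (Set.range b)`, `ind_snoc_iff`.
-/

namespace Pool.Agent.Work.MP_ed0a9a_lc.E

open FirstOrder FirstOrder.Language

variable {a : ℕ → ℕ} {T : (sig a).Theory}

theorem exists_inj_real (hc : T.IsComplete) (hT : StronglyMinimal T) :
    ∃ (N : Type) (_ : Nonempty N) (_ : (sig a).Structure N), N ⊨ T ∧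
      ∃ v : ℝ → N, Function.Injective v := by
  classical
  let Γ : Set ((sig a).Formula ℝ) :=
    {φ | ∃ r s : ℝ, r ≠ s ∧ φ = ∼ (Term.equal (Term.var r) (Term.var s))}
  obtain ⟨N, hN, SN, hNT, v, hv⟩ := compact T Γ (by
    intro Δ hΔ
    obtain ⟨M⟩ := hc.1
    have hinf := (hT M M.is_model).1
    choose! r s hrs using fun φ (hφ : φ ∈ Γ) => hφ
    let F : Finset ℝ := Δ.image r ∪ Δ.image s
    let e : F ↪ (M : Type) :=
      F.equivFin.toEmbedding.trans (Fin.valEmbedding.trans (Infinite.natEmbedding (M : Type)))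
    refine ⟨M, inferInstance, inferInstance, M.is_model,
      fun x => if h : x ∈ F then e ⟨x, h⟩ else Classical.arbitrary M, ?_⟩
    intro φ hφ
    obtain ⟨h1, h2⟩ := hrs φ (hΔ hφ)
    have hr : r φ ∈ F := Finset.mem_union_left _ (Finset.mem_image_of_mem _ hφ)
    have hs : s φ ∈ F := Finset.mem_union_right _ (Finset.mem_image_of_mem _ hφ)
    rw [h2, Formula.realize_not, Formula.realize_equal, Term.realize_var, Term.realize_var,
      dif_pos hr, dif_pos hs]
    intro h
    exact h1 (congrArg Subtype.val (e.injective h)))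
  refine ⟨N, hN, SN, hNT, v, ?_⟩
  intro r s hrs
  by_contra hne
  have := hv _ ⟨r, s, hne, rfl⟩
  rw [Formula.realize_not, Formula.realize_equal, Term.realize_var, Term.realize_var] at this
  exact this hrs

theorem exists_ind_tuple (hc : T.IsComplete) (hT : StronglyMinimal T) (m : ℕ) :
    ∃ (N : Type) (_ : Nonempty N) (_ : (sig a).Structure N), N ⊨ T ∧
      ∃ b : Fin m → N, Ind (sig a) b := by
  obtain ⟨N, hN, SN, hNT, v, hv⟩ := exists_inj_real hc hT
  refine ⟨N, hN, SN, hNT, ?_⟩
  have hunc : ¬ (Set.univ : Set N).Countable := by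
    intro h
    have h1 : Countable N := Set.countable_univ_iff.1 h
    have h2 : Countable ℝ := hv.countable
    exact Cardinal.not_countable_real (Set.countable_univ_iff.2 h2)
  induction m with
  | zero => exact ⟨Fin.elim0, ind_zero _⟩
  | succ m ih =>
    obtain ⟨b, hb⟩ := ih
    have hcount := countable_cl (a := a) (Set.countable_range b)
    obtain ⟨y, hy⟩ : ∃ y : N, y ∉ cl (sig a) (Set.range b) := by
      by_contra h
      push Not at h
      exact hunc (hcount.mono fun y _ => h y)
    exact ⟨Fin.snoc b y, ind_snoc_iff.2 ⟨hb, hy⟩⟩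

end Pool.Agent.Work.MP_ed0a9a_lc.E
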