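import Pool.Agent.Work.MP_ed0a9a_lc.E.CMain
import Pool.Agent.Work.MP_ed0a9a_lc.E.CIso
import Pool.Agent.Work.MP_ed0a9a_lc.E.KCl
import Pool.Agent.Work.MP_ed0a9a_lc.E.KConv
import Pool.Agent.Work.MP_ed0a9a_lc.E.Dim

/-!
# Module `Up` (size S-M): the upper bound

PROOF.  If no `A i`, `i : ℕ`, has a computable copy the set is empty (`R = false`).  Otherwise let `A i₀` have one; by
`hasCompCopy_iff` there is `e₀` total with `A i₀ ≃ (ℕ, SE a e₀)`, so `M = (ℕ, SE a e₀) ⊨ T` (`Equiv.theory_model`).  Take `d₀` from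
`exists_dim`.  The set is the set of `sigma4_final`: if `A i ≃ (ℕ, SE a e)`, `e` total, then this structure `M'` is a model
with `HasDim M' (d₀ + i)` (`hasDim_of_equiv`), so `basic_of_model` gives `b` (`hd_SE`).  Conversely `model_of_basic` gives `M' ⊨ T`
and `HasDim M' (d₀ + i)`, so `A i ≃ M'` by `iso_of_dim`, `hasCompCopy_iff`.
-/

namespace Pool.Agent.Work.MP_ed0a9a_lc.E

open FirstOrder FirstOrder.Language

theorem sigma4_of_spectrum {a : ℕ → ℕ} (ha : Computable a) {T : (sig a).Theory}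
    (hc : T.IsComplete) (hT : StronglyMinimal T) (hmc : ModelComplete T) (A : ℕ∞ → Type)
    (S : ∀ i, (sig a).Structure (A i))
    (h1 : ∀ i, Countable (A i) ∧ A i ⊨ T)
    (h2 : ∀ (N : Type) [Nonempty N] [Countable N] [(sig a).Structure N], N ⊨ T →
      ∃ i, Nonempty (A i ≃[sig a] N))
    (h3 : ∀ i j, Nonempty (A i ↪ₑ[sig a] A j) ↔ i ≤ j) :
    Sigma4 {i : ℕ | HasCompCopy a (A i)} := by
  obtain ⟨hne, d₀, hd₀⟩ := exists_dim hc hT A S h1 h2 h3
  by_cases hex : ∃ i : ℕ, HasCompCopy a (A i)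
  · obtain ⟨i₀, hi₀⟩ := hex
    obtain ⟨e₀, he₀, ⟨F₀⟩⟩ := (hasCompCopy_iff (A i₀)).1 hi₀
    have hM : letI := SE a e₀; ℕ ⊨ T := by
      letI := SE a e₀
      exact (F₀.toElementaryEmbedding.theory_model_iff T).1 (h1 i₀).2
    have hset : {i : ℕ | HasCompCopy a (A i)} =
        {i : ℕ | ∃ e, Tot e ∧ ∃ b : Fin (d₀ + i) → ℕ, Basic (HE a e₀) (HE a e) b} := by
      ext i
      constructor
      · intro hi
        obtain ⟨e, he, ⟨F⟩⟩ := (hasCompCopy_iff (A i)).1 hi
        refine ⟨e, he, ?_⟩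
        letI s1 := SE a e
        have hM' : ℕ ⊨ T := (F.toElementaryEmbedding.theory_model_iff T).1 (h1 i).2
        obtain ⟨b, hb, hs⟩ := hasDim_of_equiv F (hd₀ i)
        refine ⟨b, ?_⟩
        have h5 := basic_of_model (SM := SE a e₀) (SM' := SE a e) hc hT hmc hM hM' b hb hs
        rw [hd_SE, hd_SE] at h5
        exact h5
      · rintro ⟨e, he, b, hb⟩
        rw [← hd_SE a e₀, ← hd_SE a e] at hb
        letI s1 := SE a e
        obtain ⟨hM', hi, hs⟩ := model_of_basic (SM := SE a e₀) (SM' := SE a e) hc hT hmc hM b hb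
        have hcn : Countable (A i) := (h1 i).1
        obtain ⟨F⟩ := iso_of_dim hc hT (h1 i).2 hM' (hd₀ i) ⟨b, hi, hs⟩
        exact (hasCompCopy_iff (A i)).2 ⟨e, he, ⟨F⟩⟩
    rw [hset]
    exact sigma4_final ha he₀ d₀
  · refine ⟨fun _ _ _ _ _ => false, Computable.const false, fun i => ?_⟩
    constructor
    · intro hi
      exact absurd ⟨i, hi⟩ hex
    · rintro ⟨e, he⟩
      obtain ⟨y, hy⟩ := he 0
      exact absurd (hy 0) (by simp)

end Pool.Agent.Work.MP_ed0a9a_lc.E
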