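import Pool.Agent.Work.MP_ed0a9a_lc.E.Ult
import Pool.Agent.Work.MP_ed0a9a_lc.E.BFr
import Pool.Agent.Work.MP_ed0a9a_lc.E.SatA

/-!
# Module `Zrn` (size L): a saturated Vaughtian pair gives an uncountable model

PROOF.  Let `U`, `j : S₁ → U` be the saturated elementary extension of `exists_ult` for the structure `S₁` (and the elementary
substructure `⊤` of it): `Sat1 U`.  Let `𝒦` be the set of the `S : Set U` such that `S` is the carrier of an elementary
substructure `S'` of `U` with `Sat0 S'`, `Set.range j ⊆ S`, and `φ(j ∘ c, x) → x ∈ Set.range j` for all `x ∈ S`.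
`Set.range j ∈ 𝒦` (`exists_range`, `sat0_of_equiv`).  A nonempty chain in `𝒦` has its union in `𝒦`: `exists_elSub` (a finite tuple
of the union is in one member of the chain, which is elementary), `Sat0` (a finite tuple is in one member `S`, whose
saturation gives the element; types computed in `S`, in the union and in `U` agree).  By Zorn's lemma (`zorn_subset_nonempty`)
there is a maximal `S ∈ 𝒦`.  If `S` is uncountable take `W = S'` (the structure on `S`), `g = j`.
Suppose `S` is countable.  `S'` and `S₁` are countable and `ω`-saturated and `j ∘ c` (in `S'`) and `c` have the same type, so by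
`iso_of_sat0` there is an isomorphism `e : S' ≃ S₁` with `e (j (c i)) = c i`.  Let `h : S' ↪ₑ N₁` be `e` followed by the inclusion
`S₁ → N₁`.  By `emb_sat1` there is `f : N₁ ↪ₑ U` with `f (h s) = s` for `s ∈ S'`.  The set `S* = Set.range f` contains `S`, it is
different from `S` (an element `x ∉ S₁` of `N₁` has `f x ∉ S`: otherwise `f x = f (h (f x))`, so `x = h (f x) ∈ S₁`), and it is in `𝒦`:
elementary and saturated (`exists_range`, `sat0_of_equiv`, `N₁` saturated); if `φ(j ∘ c, f y)` then, as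
`j (c i) = f (h (j (c i))) = f (c i)`, `φ(c, y)` in `N₁`, so `y ∈ S₁` by hypothesis, `y = h s` with `s ∈ S'`, `f y = s`, and
`φ(j ∘ c, s)`, `s ∈ S`, so `s ∈ Set.range j`.  This contradicts the maximality of `S`.
-/

namespace Pool.Agent.Work.MP_ed0a9a_lc.E

open FirstOrder FirstOrder.Language

private theorem zr_snoc {a : ℕ → ℕ} {N : Type} [(sig a).Structure N]
    (S : (sig a).ElementarySubstructure N) {n : ℕ} (b : Fin n → S) (y : S) :
    (fun i => ((Fin.snoc b y : Fin (n + 1) → S) i : N)) =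
      (Fin.snoc (fun i => (b i : N)) (y : N) : Fin (n + 1) → N) := by
  funext i
  refine Fin.lastCases ?_ (fun j => ?_) i
  · simp
  · simp

private theorem zr_wit {a : ℕ → ℕ} {N : Type} [(sig a).Structure N]
    (S : (sig a).ElementarySubstructure N) {n : ℕ} (φ : (sig a).Formula (Fin (n + 1)))
    (x : Fin n → N) (hx : ∀ i, x i ∈ S)
    (h : ∃ y, φ.Realize (Fin.snoc x y : Fin (n + 1) → N)) :
    ∃ y ∈ S, φ.Realize (Fin.snoc x y : Fin (n + 1) → N) := by
  obtain ⟨ψ, hψ⟩ := exists_ex φ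
  let b : Fin n → S := fun i => ⟨x i, hx i⟩
  have h1 : ψ.Realize (fun i => (b i : N)) := (hψ N x).2 h
  have h2 : ψ.Realize b := (sameTp_coe S b ψ).2 h1
  obtain ⟨y, hy⟩ := (hψ S b).1 h2
  refine ⟨y, y.2, ?_⟩
  have h3 := (sameTp_coe S (Fin.snoc b y : Fin (n + 1) → S) φ).1 hy
  rw [zr_snoc] at h3
  exact h3

private theorem zr_chain {U : Type} {C : Set (Set U)} (hC : IsChain (· ⊆ ·) C)
    (hne : C.Nonempty) {n : ℕ} (x : Fin n → U) (hx : ∀ i, x i ∈ ⋃₀ C) :
    ∃ S ∈ C, ∀ i, x i ∈ S := by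
  obtain ⟨t, ht, hs⟩ := hC.directedOn.exists_mem_subset_of_finite_of_subset_sUnion hne
    (Set.finite_range x) (by
      rintro _ ⟨i, rfl⟩
      exact hx i)
  exact ⟨t, ht, fun i => hs ⟨i, rfl⟩⟩

/-- the carriers of the saturated elementary substructures which contain `R` and no new element of
`P` -/
private def ZK (a : ℕ → ℕ) {U : Type} [(sig a).Structure U] (R : Set U) (P : U → Prop) :
    Set (Set U) :=
  {S | ∃ S' : (sig a).ElementarySubstructure U, (S' : Set U) = S ∧ Sat0 (sig a) S' ∧ R ⊆ S ∧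
    ∀ x ∈ S, P x → x ∈ R}

private theorem zr_union {a : ℕ → ℕ} {U : Type} [(sig a).Structure U] {R : Set U}
    {P : U → Prop} {C : Set (Set U)} (hCK : C ⊆ ZK a R P) (hC : IsChain (· ⊆ ·) C)
    (hne : C.Nonempty) : ⋃₀ C ∈ ZK a R P := by
  obtain ⟨S', hS'⟩ := exists_elSub (a := a) (⋃₀ C) (by
    intro n φ x hx hy
    obtain ⟨S, hSC, hxS⟩ := zr_chain hC hne x hx
    obtain ⟨S₂, rfl, _⟩ := hCK hSC
    obtain ⟨y, hyS, hφ⟩ := zr_wit S₂ φ x hxS hy
    exact ⟨y, ⟨_, hSC, hyS⟩, hφ⟩)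
  have hmem : ∀ x : U, x ∈ S' ↔ x ∈ ⋃₀ C := by
    intro x
    rw [← SetLike.mem_coe, hS']
  refine ⟨S', hS', ?_, ?_, ?_⟩
  · intro m b N' _ b' hbb' y'
    obtain ⟨S, hSC, hxS⟩ := zr_chain hC hne (fun i => (b i : U))
      (fun i => (hmem _).1 (b i).2)
    obtain ⟨S₂, rfl, hsat, _⟩ := hCK hSC
    let b₀ : Fin m → S₂ := fun i => ⟨b i, hxS i⟩
    have hb₀ : (fun i => (b₀ i : U)) = fun i => (b i : U) := rfl
    have h1 : SameTp (sig a) b₀ b' := by
      intro ψ
      rw [sameTp_coe S₂ b₀ ψ, hb₀, ← sameTp_coe S' b ψ]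
      exact hbb' ψ
    obtain ⟨y₀, hy₀⟩ := hsat m b₀ N' b' h1 y'
    have hy₀' : (y₀ : U) ∈ S' := (hmem _).2 ⟨_, hSC, y₀.2⟩
    refine ⟨⟨y₀, hy₀'⟩, fun ψ => ?_⟩
    rw [sameTp_coe S' _ ψ, zr_snoc, ← hy₀ ψ, sameTp_coe S₂ _ ψ, zr_snoc]
  · obtain ⟨S, hS⟩ := hne
    obtain ⟨_, _, _, h2, _⟩ := hCK hS
    exact h2.trans (Set.subset_sUnion_of_mem hS)
  · rintro x ⟨S, hS, hx⟩ hP
    obtain ⟨_, _, _, _, h3⟩ := hCK hS
    exact h3 x hx hP

theorem exists_uncountable {a : ℕ → ℕ} {N₁ : Type} [Nonempty N₁] [Countable N₁]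
    [(sig a).Structure N₁] (S₁ : (sig a).ElementarySubstructure N₁)
    (hne : ∃ x, x ∉ S₁) (h1 : Sat0 (sig a) N₁) (h2 : Sat0 (sig a) S₁) {k : ℕ}
    (c : Fin k → S₁) (φ : (sig a).Formula (Fin (k + 1)))
    (hφ : ∀ x : N₁, φ.Realize (Fin.snoc (fun i => (c i : N₁)) x : Fin (k + 1) → N₁) →
      x ∈ S₁) :
    ∃ (W : Type) (_ : Nonempty W) (_ : (sig a).Structure W) (g : S₁ ↪ₑ[sig a] W),
      Uncountable W ∧
      ∀ x : W, φ.Realize (Fin.snoc (g ∘ c) x : Fin (k + 1) → W) → x ∈ Set.range g := by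
  classical
  obtain ⟨U, _, _, j, _, hU, -⟩ := exists_ult (a := a) (N := S₁) ⊤
  obtain ⟨Sj, hSj, e₀, he₀⟩ := exists_range j
  have hbase : Set.range j ∈ ZK a (Set.range j)
      (fun x => φ.Realize (Fin.snoc (j ∘ c) x : Fin (k + 1) → U)) :=
    ⟨Sj, hSj, sat0_of_equiv e₀ h2, subset_rfl, fun x hx _ => hx⟩
  obtain ⟨S, hjS, hmax⟩ := zorn_subset_nonempty (ZK a (Set.range j)
      (fun x => φ.Realize (Fin.snoc (j ∘ c) x : Fin (k + 1) → U)))
    (fun C hCK hC hne => ⟨⋃₀ C, zr_union hCK hC hne, fun s hs => Set.subset_sUnion_of_mem hs⟩)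
    _ hbase
  obtain ⟨S', hS', hsat, hR, hP⟩ := hmax.prop
  have hmem : ∀ x : U, x ∈ S' ↔ x ∈ S := by
    intro x
    rw [← SetLike.mem_coe, hS']
  obtain ⟨f₀, hf₀⟩ := exists_lift Sj S' (by
    rw [hSj, hS']
    exact hR)
  let g : S₁ ↪ₑ[sig a] S' := f₀.comp e₀.toElementaryEmbedding
  have hg : ∀ s, (g s : U) = j s := by
    intro s
    have h3 : g s = f₀ (e₀ s) := rfl
    rw [h3, hf₀, he₀]
  have hgc : (fun i => ((g ∘ c) i : U)) = j ∘ c := by
    funext i
    exact hg (c i)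
  by_cases hcount : S.Countable
  · exfalso
    have hcS : Countable S' := by
      have h3 : Countable ((S' : Set U)) := by
        rw [Set.countable_coe_iff, hS']
        exact hcount
      exact h3
    have hcS₁ : Countable S₁ := by
      have h3 : Function.Injective (fun s : S₁ => (s : N₁)) := Subtype.val_injective
      exact h3.countable
    obtain ⟨e, he⟩ := iso_of_sat0 (L := sig a) (N := S') (N' := S₁) hsat h2 (b := g ∘ c)
      (b' := c) (SameTp.symm' (sameTp_map g c))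
    let h : S' ↪ₑ[sig a] N₁ := S₁.subtype.comp e.toElementaryEmbedding
    have hh : ∀ s, h s = (e s : N₁) := fun s => rfl
    obtain ⟨f, hf⟩ := emb_sat1 hU h S'.subtype
    have hf' : ∀ s : S', f (e s : N₁) = (s : U) := by
      intro s
      have h3 := hf s
      rw [hh] at h3
      exact h3
    obtain ⟨Sf, hSf, ef, hef⟩ := exists_range f
    have hsub : S ⊆ Set.range f := by
      intro x hx
      exact ⟨_, hf' ⟨x, (hmem x).2 hx⟩⟩
    have hjc : j ∘ c = f ∘ fun i => (c i : N₁) := by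
      funext i
      have h3 := hf' (g (c i))
      have h4 : e (g (c i)) = c i := he i
      rw [h4, hg] at h3
      exact h3.symm
    have hK : Set.range f ∈ ZK a (Set.range j)
        (fun x => φ.Realize (Fin.snoc (j ∘ c) x : Fin (k + 1) → U)) := by
      refine ⟨Sf, hSf, sat0_of_equiv ef h1, hR.trans hsub, ?_⟩
      rintro _ ⟨y, rfl⟩ hy
      have hsn : (Fin.snoc (j ∘ c) (f y) : Fin (k + 1) → U) =
          f ∘ (Fin.snoc (fun i => (c i : N₁)) y : Fin (k + 1) → N₁) := by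
        rw [hjc]
        funext i
        refine Fin.lastCases ?_ (fun t => ?_) i
        · simp
        · simp
      have hy1 : φ.Realize (Fin.snoc (fun i => (c i : N₁)) y : Fin (k + 1) → N₁) := by
        rw [sameTp_map f (Fin.snoc (fun i => (c i : N₁)) y : Fin (k + 1) → N₁) φ, ← hsn]
        exact hy
      have hyS : y ∈ S₁ := hφ y hy1
      have h5 : f y = ((e.symm ⟨y, hyS⟩ : S') : U) := by
        have h6 := hf' (e.symm ⟨y, hyS⟩)
        rw [e.apply_symm_apply] at h6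
        exact h6
      have h7 : f y ∈ S := by
        rw [h5]
        exact (hmem _).1 (e.symm ⟨y, hyS⟩).2
      exact hP _ h7 hy
    have hback : Set.range f ⊆ S := hmax.le_of_ge hK hsub
    obtain ⟨x₀, hx₀⟩ := hne
    have h8 : f x₀ ∈ S := hback ⟨x₀, rfl⟩
    have h9 := hf' ⟨f x₀, (hmem _).2 h8⟩
    have h10 : (e ⟨f x₀, (hmem _).2 h8⟩ : N₁) = x₀ := f.injective h9
    apply hx₀
    rw [← h10]
    exact (e ⟨f x₀, (hmem _).2 h8⟩).2
  · refine ⟨S', inferInstance, inferInstance, g, ?_, ?_⟩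
    · rw [← not_countable_iff]
      intro hc
      apply hcount
      have h3 : Countable ((S' : Set U)) := hc
      rw [Set.countable_coe_iff, hS'] at h3
      exact h3
    · intro x hx
      have h3 := (sameTp_coe S' (Fin.snoc (g ∘ c) x : Fin (k + 1) → S') φ).1 hx
      rw [zr_snoc, hgc] at h3
      obtain ⟨s, hs⟩ := hP x ((hmem _).1 x.2) h3
      refine ⟨s, Subtype.ext ?_⟩
      rw [hg, hs]

end Pool.Agent.Work.MP_ed0a9a_lc.E
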